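import Pool.Agent.Helper3.CM.Defs

namespace Pool.Agent.Helper3.CM

namespace Real

variable {p : ℕ} {G V W : Type*} [Group G] [AddCommGroup V] [Module (ZMod p) V]
  [AddCommGroup W] [Module (ZMod p) W] {B : V →ₗ[ZMod p] V →ₗ[ZMod p] W} {π : V → W}

theorem ι_zero (R : Real G B π) : R.ι 0 = 1 := by
  have h := R.ι_add 0 0
  rw [add_zero] at h
  exact left_eq_mul.mp h

theorem ρ_one (R : Real G B π) : R.ρ 1 = 0 := by
  have h := R.ρ_mul 1 1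
  rw [mul_one] at h
  exact left_eq_add.mp h

theorem ρ_ι (R : Real G B π) (w : W) : R.ρ (R.ι w) = 0 := (R.exact _).2 ⟨w, rfl⟩

theorem central (R : Real G B π) (w : W) (g : G) : g * R.ι w = R.ι w * g := by
  rw [R.comm g (R.ι w), R.ρ_ι, map_zero, R.ι_zero, one_mul]

theorem ι_neg (R : Real G B π) (w : W) : R.ι (-w) = (R.ι w)⁻¹ := by
  rw [eq_inv_iff_mul_eq_one, ← R.ι_add, neg_add_cancel, R.ι_zero]

theorem ρ_inv (R : Real G B π) (g : G) : R.ρ g⁻¹ = - R.ρ g := by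
  rw [eq_neg_iff_add_eq_zero, ← R.ρ_mul, inv_mul_cancel, R.ρ_one]

theorem ι_eq_one (R : Real G B π) {w : W} (h : R.ι w = 1) : w = 0 :=
  R.ι_inj (h.trans R.ι_zero.symm)

theorem ρ_eq_iff (R : Real G B π) (g h : G) : R.ρ g = R.ρ h ↔ ∃ w, h = g * R.ι w := by
  constructor
  · intro e
    have : R.ρ (g⁻¹ * h) = 0 := by rw [R.ρ_mul, R.ρ_inv, e, neg_add_cancel]
    obtain ⟨w, hw⟩ := (R.exact _).1 this
    exact ⟨w, by rw [hw, mul_inv_cancel_left]⟩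
  · rintro ⟨w, rfl⟩
    rw [R.ρ_mul, R.ρ_ι, add_zero]

theorem ι_nsmul (R : Real G B π) (n : ℕ) (w : W) : R.ι (n • w) = R.ι w ^ n := by
  induction n with
  | zero => rw [zero_smul, pow_zero, R.ι_zero]
  | succ k ih => rw [add_smul, one_smul, R.ι_add, ih, pow_succ]

theorem p_nsmul {M : Type*} [AddCommGroup M] [Module (ZMod p) M] (w : M) : p • w = 0 := by
  rw [← Nat.cast_smul_eq_nsmul (ZMod p), ZMod.natCast_self, zero_smul]

theorem mul_pow_formula (R : Real G B π) (g h : G) (k : ℕ) :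
    (g * h) ^ k = R.ι ((k.choose 2) • B (R.ρ h) (R.ρ g)) * (g ^ k * h ^ k) := by
  have hk : ∀ k : ℕ, h ^ k * g = R.ι (k • B (R.ρ h) (R.ρ g)) * (g * h ^ k) := by
    intro k
    induction k with
    | zero => simp [R.ι_zero]
    | succ k ih =>
      have e : h ^ (k+1) * g = h ^ k * (h * g) := by rw [pow_succ, mul_assoc]
      rw [e, R.comm h g, ← mul_assoc, R.central, mul_assoc, ← mul_assoc (h ^ k) g h, ih,
        add_smul, one_smul, add_comm, R.ι_add, pow_succ]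
      simp only [mul_assoc]
  induction k with
  | zero => simp [R.ι_zero]
  | succ k ih =>
    rw [pow_succ, ih]
    have e : R.ι (k.choose 2 • B (R.ρ h) (R.ρ g)) * (g ^ k * h ^ k) * (g * h) =
      R.ι (k.choose 2 • B (R.ρ h) (R.ρ g)) * (g ^ k * ((h ^ k * g) * h)) := by
      simp only [mul_assoc]
    rw [e, hk, Nat.choose_succ_succ' k 1, Nat.choose_one_right, add_smul, add_comm, R.ι_add,
      pow_succ g, pow_succ h]
    have e2 : g ^ k * (R.ι (k • B (R.ρ h) (R.ρ g)) * (g * h ^ k) * h) =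
      (g ^ k * R.ι (k • B (R.ρ h) (R.ρ g))) * (g * h ^ k * h) := by simp only [mul_assoc]
    rw [e2, R.central]
    simp only [mul_assoc]

theorem B_self (R : Real G B π) (x : V) : B x x = 0 := by
  obtain ⟨g, rfl⟩ := R.ρ_surj x
  have h := R.comm g g
  exact R.ι_eq_one (right_eq_mul.mp h)

theorem B_neg (R : Real G B π) (x y : V) : B x y = - B y x := by
  have h := R.B_self (x + y)
  rw [map_add, map_add, LinearMap.add_apply, LinearMap.add_apply, R.B_self, R.B_self] at h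
  rw [zero_add, add_zero] at h
  rw [add_comm] at h
  exact eq_neg_of_add_eq_zero_left h

theorem π_add (R : Real G B π) (x y : V) :
    π (x + y) = π x + π y + (p.choose 2) • B y x := by
  obtain ⟨g, rfl⟩ := R.ρ_surj x
  obtain ⟨h, rfl⟩ := R.ρ_surj y
  have e := R.mul_pow_formula g h p
  rw [R.pow, R.pow, R.pow, R.ρ_mul, ← R.ι_add, ← R.ι_add] at e
  have := R.ι_inj e
  rw [this]; abel

end Real

section lifting

variable {p : ℕ} [Fact p.Prime] {G₁ V₁ W₁ : Type*} [Group G₁] [AddCommGroup V₁]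
  [Module (ZMod p) V₁] [AddCommGroup W₁] [Module (ZMod p) W₁]
  {B₁ : V₁ →ₗ[ZMod p] V₁ →ₗ[ZMod p] W₁} {π₁ : V₁ → W₁}
  {G₂ V₂ W₂ : Type*} [Group G₂] [AddCommGroup V₂]
  [Module (ZMod p) V₂] [AddCommGroup W₂] [Module (ZMod p) W₂]
  {B₂ : V₂ →ₗ[ZMod p] V₂ →ₗ[ZMod p] W₂} {π₂ : V₂ → W₂}

/-- The subgroup of compatible pairs. -/
def pairSub (R₁ : Real G₁ B₁ π₁) (R₂ : Real G₂ B₂ π₂) (g : V₁ ≃ₗ[ZMod p] V₂) :
    Subgroup (G₁ × G₂) where
  carrier := {e | R₂.ρ e.2 = g (R₁.ρ e.1)}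
  mul_mem' := by
    intro a b ha hb
    simp only [Set.mem_ofPred_eq, Prod.snd_mul, Prod.fst_mul] at *
    rw [R₁.ρ_mul, R₂.ρ_mul, ha, hb, map_add]
  one_mem' := by
    simp only [Set.mem_ofPred_eq, Prod.snd_one, Prod.fst_one]
    rw [R₁.ρ_one, R₂.ρ_one, map_zero]
  inv_mem' := by
    intro a ha
    simp only [Set.mem_ofPred_eq, Prod.snd_inv, Prod.fst_inv] at *
    rw [R₁.ρ_inv, R₂.ρ_inv, ha, map_neg]

/-- The diagonal central subgroup. -/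
def diagSub (R₁ : Real G₁ B₁ π₁) (R₂ : Real G₂ B₂ π₂) (g : V₁ ≃ₗ[ZMod p] V₂)
    (h : W₁ ≃ₗ[ZMod p] W₂) : Subgroup (pairSub R₁ R₂ g) where
  carrier := {e | ∃ z, e.1.1 = R₁.ι z ∧ e.1.2 = R₂.ι (h z)}
  mul_mem' := by
    rintro a b ⟨z, h1, h2⟩ ⟨z', h3, h4⟩
    exact ⟨z + z', by simp [h1, h3, R₁.ι_add], by simp [h2, h4, R₂.ι_add]⟩
  one_mem' := ⟨0, by simp [R₁.ι_zero], by simp [R₂.ι_zero]⟩
  inv_mem' := by
    rintro a ⟨z, h1, h2⟩
    exact ⟨-z, by simp [h1, R₁.ι_neg], by simp [h2, R₂.ι_neg]⟩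

instance diagNormal (R₁ : Real G₁ B₁ π₁) (R₂ : Real G₂ B₂ π₂) (g : V₁ ≃ₗ[ZMod p] V₂)
    (h : W₁ ≃ₗ[ZMod p] W₂) : (diagSub R₁ R₂ g h).Normal := by
  constructor
  rintro n ⟨z, h1, h2⟩ a
  refine ⟨z, ?_, ?_⟩
  · simp only [Subgroup.coe_mul, Prod.fst_mul, Subgroup.coe_inv, Prod.fst_inv]
    rw [h1, R₁.central, mul_inv_cancel_right]
  · simp only [Subgroup.coe_mul, Prod.snd_mul, Subgroup.coe_inv, Prod.snd_inv]
    rw [h2, R₂.central, mul_inv_cancel_right]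

omit [Fact p.Prime] in
theorem exists_retract_add [Fact p.Prime] {A W : Type*} [AddCommGroup A] [Module (ZMod p) A]
    [AddCommGroup W] [Module (ZMod p) W] (j : W →+ A) (hinj : ∀ w, j w = 0 → w = 0) :
    ∃ r : A → W, (∀ x y, r (x + y) = r x + r y) ∧ ∀ w, r (j w) = w := by
  have hj1 : LinearMap.ker (j.toZModLinearMap p) = ⊥ := by
    rw [LinearMap.ker_eq_bot']
    intro w hw
    exact hinj w hw
  obtain ⟨r, hr⟩ := (j.toZModLinearMap p).exists_leftInverse_of_injective hj1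
  exact ⟨fun x => r x, fun x y => map_add r x y, fun w => LinearMap.congr_fun hr w⟩

omit [Fact p.Prime] in
theorem exists_retract_aux [Fact p.Prime] {Q W : Type*} [CommGroup Q] [AddCommGroup W]
    [Module (ZMod p) W]
    (hp : ∀ x : Q, x ^ p = 1) (j : W → Q) (hj : ∀ a b, j (a + b) = j a * j b)
    (hinj : ∀ w, j w = 1 → w = 0) :
    ∃ r : Q → W, (∀ x y, r (x * y) = r x + r y) ∧ ∀ w, r (j w) = w := by
  have hp' : ∀ x : Additive Q, p • x = 0 := fun x => hp (Additive.toMul x)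
  have hj0 : j 0 = 1 := by
    have h := hj 0 0
    rw [add_zero] at h
    exact left_eq_mul.mp h
  obtain ⟨r, hr1, hr2⟩ := @exists_retract_add p _ (Additive Q) W _ (AddCommGroup.zmodModule hp')
    _ _ { toFun := fun w => Additive.ofMul (j w), map_zero' := hj0, map_add' := fun a b => hj a b }
    hinj
  exact ⟨fun x => r (Additive.ofMul x), fun x y => hr1 _ _, hr2⟩

omit [Fact p.Prime] in
theorem exists_retract [Fact p.Prime] {E W : Type*} [Group E] [AddCommGroup W]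
    [Module (ZMod p) W] (N : Subgroup E) [N.Normal]
    (hcomm : ∀ a b : E, (b * a)⁻¹ * (a * b) ∈ N) (hp : ∀ x : E, x ^ p ∈ N)
    (j : W → E) (hj : ∀ a b, j (a + b) = j a * j b)
    (hinj : ∀ w, j w ∈ N → w = 0) :
    ∃ τ : E → W, (∀ x y, τ (x * y) = τ x + τ y) ∧ (∀ w, τ (j w) = w) ∧ ∀ n ∈ N, τ n = 0 := by
  have hc : ∀ a b : E ⧸ N, a * b = b * a := by
    intro a b
    obtain ⟨a, rfl⟩ := QuotientGroup.mk_surjective a
    obtain ⟨b, rfl⟩ := QuotientGroup.mk_surjective b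
    rw [← QuotientGroup.mk_mul, ← QuotientGroup.mk_mul, eq_comm, QuotientGroup.eq]
    exact hcomm a b
  let _ : CommGroup (E ⧸ N) := { (inferInstance : Group (E ⧸ N)) with mul_comm := hc }
  have hp' : ∀ x : E ⧸ N, x ^ p = 1 := by
    intro x
    obtain ⟨a, rfl⟩ := QuotientGroup.mk_surjective x
    rw [← QuotientGroup.mk_pow, QuotientGroup.eq_one_iff]
    exact hp a
  obtain ⟨r, hr1, hr2⟩ := exists_retract_aux (p := p) hp' (fun w => ((j w : E) : E ⧸ N))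
    (fun a b => by rw [hj]; rfl) (fun w hw => hinj w ((QuotientGroup.eq_one_iff _).1 hw))
  have r1 : r 1 = 0 := by
    have h := hr1 1 1
    rw [mul_one] at h
    exact left_eq_add.mp h
  refine ⟨fun e => r (e : E ⧸ N), fun x y => hr1 (x : E ⧸ N) (y : E ⧸ N), hr2, ?_⟩
  intro n hn
  have : ((n : E) : E ⧸ N) = 1 := (QuotientGroup.eq_one_iff _).2 hn
  change r (n : E ⧸ N) = 0
  rw [this, r1]

theorem exists_tau (R₁ : Real G₁ B₁ π₁) (R₂ : Real G₂ B₂ π₂) (g : V₁ ≃ₗ[ZMod p] V₂)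
    (h : W₁ ≃ₗ[ZMod p] W₂) (hB : ∀ x y, B₂ (g x) (g y) = h (B₁ x y))
    (hπ : ∀ x, π₂ (g x) = h (π₁ x)) :
    ∃ τ : pairSub R₁ R₂ g → W₂, (∀ e e', τ (e * e') = τ e + τ e') ∧
      (∀ (w : W₂) (hw : ((1, R₂.ι w) : G₁ × G₂) ∈ pairSub R₁ R₂ g), τ ⟨(1, R₂.ι w), hw⟩ = w) ∧
      (∀ (z : W₁) (hz : ((R₁.ι z, R₂.ι (h z)) : G₁ × G₂) ∈ pairSub R₁ R₂ g),
        τ ⟨(R₁.ι z, R₂.ι (h z)), hz⟩ = 0) := by
  have hmem : ∀ w : W₂, ((1, R₂.ι w) : G₁ × G₂) ∈ pairSub R₁ R₂ g := by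
    intro w
    change R₂.ρ (R₂.ι w) = g (R₁.ρ 1)
    rw [R₂.ρ_ι, R₁.ρ_one, map_zero]
  obtain ⟨τ, h1, h2, h3⟩ := exists_retract (p := p) (diagSub R₁ R₂ g h) (by
    intro a b
    have ha : R₂.ρ a.1.2 = g (R₁.ρ a.1.1) := a.2
    have hb : R₂.ρ b.1.2 = g (R₁.ρ b.1.1) := b.2
    refine ⟨B₁ (R₁.ρ a.1.1) (R₁.ρ b.1.1), ?_, ?_⟩
    · simp only [Subgroup.coe_mul, Prod.fst_mul, Subgroup.coe_inv, Prod.fst_inv]
      rw [inv_mul_eq_iff_eq_mul, R₁.central, ← R₁.comm]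
    · simp only [Subgroup.coe_mul, Prod.snd_mul, Subgroup.coe_inv, Prod.snd_inv]
      rw [inv_mul_eq_iff_eq_mul, R₂.central, ← hB, ← ha, ← hb, ← R₂.comm]) (by
    intro a
    have ha : R₂.ρ a.1.2 = g (R₁.ρ a.1.1) := a.2
    refine ⟨π₁ (R₁.ρ a.1.1), ?_, ?_⟩
    · simp only [SubmonoidClass.coe_pow, Prod.pow_fst]
      rw [R₁.pow]
    · simp only [SubmonoidClass.coe_pow, Prod.pow_snd]
      rw [R₂.pow, ← hπ, ha])
    (fun w => (⟨(1, R₂.ι w), hmem w⟩ : pairSub R₁ R₂ g)) (by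
    intro a b
    ext <;> simp [R₂.ι_add]) (by
    rintro w ⟨z, hz1, hz2⟩
    have hz : z = 0 := R₁.ι_eq_one hz1.symm
    rw [hz, map_zero, R₂.ι_zero] at hz2
    exact R₂.ι_eq_one hz2)
  exact ⟨τ, h1, fun w _ => h2 w, fun z hz => h3 _ ⟨z, rfl, rfl⟩⟩

theorem lift (R₁ : Real G₁ B₁ π₁) (R₂ : Real G₂ B₂ π₂) (g : V₁ ≃ₗ[ZMod p] V₂)
    (h : W₁ ≃ₗ[ZMod p] W₂) (hB : ∀ x y, B₂ (g x) (g y) = h (B₁ x y))
    (hπ : ∀ x, π₂ (g x) = h (π₁ x)) :
    ∃ α : G₁ ≃* G₂, (∀ x, R₂.ρ (α x) = g (R₁.ρ x)) ∧ ∀ w, α (R₁.ι w) = R₂.ι (h w) := by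
  obtain ⟨τ, τmul, τ1, τ2⟩ := exists_tau R₁ R₂ g h hB hπ
  have hmem1 : ∀ w : W₂, ((1, R₂.ι w) : G₁ × G₂) ∈ pairSub R₁ R₂ g := by
    intro w
    change R₂.ρ (R₂.ι w) = g (R₁.ρ 1)
    rw [R₂.ρ_ι, R₁.ρ_one, map_zero]
  have hmem2 : ∀ z : W₁, ((R₁.ι z, R₂.ι (h z)) : G₁ × G₂) ∈ pairSub R₁ R₂ g := by
    intro w
    change R₂.ρ (R₂.ι _) = g (R₁.ρ (R₁.ι _))
    rw [R₂.ρ_ι, R₁.ρ_ι, map_zero]
  -- uniqueness
  have huniq : ∀ (a : G₁) (b b' : G₂) (hb : (a, b) ∈ pairSub R₁ R₂ g)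
      (hb' : (a, b') ∈ pairSub R₁ R₂ g), τ ⟨(a, b), hb⟩ = 0 → τ ⟨(a, b'), hb'⟩ = 0 → b = b' := by
    intro a b b' hb hb' h0 h0'
    have e1 : R₂.ρ b = R₂.ρ b' := by
      have h1 : R₂.ρ b = g (R₁.ρ a) := hb
      have h2 : R₂.ρ b' = g (R₁.ρ a) := hb'
      rw [h1, h2]
    obtain ⟨w, hw⟩ := (R₂.ρ_eq_iff b b').1 e1
    have e2 : (⟨(a, b'), hb'⟩ : pairSub R₁ R₂ g) = ⟨(a, b), hb⟩ * ⟨(1, R₂.ι w), hmem1 w⟩ := by
      ext <;> simp [hw]
    rw [e2, τmul, h0, τ1, zero_add] at h0'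
    rw [hw, h0', R₂.ι_zero, mul_one]
  have hex : ∀ a : G₁, ∃ b : G₂, ∃ hb : (a, b) ∈ pairSub R₁ R₂ g, τ ⟨(a, b), hb⟩ = 0 := by
    intro a
    obtain ⟨b, hb⟩ := R₂.ρ_surj (g (R₁.ρ a))
    have hb1 : (a, b) ∈ pairSub R₁ R₂ g := hb
    have hmem : (a, b * R₂.ι (-τ ⟨(a, b), hb1⟩)) ∈ pairSub R₁ R₂ g := by
      change R₂.ρ (b * _) = g (R₁.ρ a)
      rw [R₂.ρ_mul, R₂.ρ_ι, add_zero, hb]
    refine ⟨b * R₂.ι (-τ ⟨(a, b), hb1⟩), hmem, ?_⟩
    have e2 : (⟨(a, b * R₂.ι (-τ ⟨(a, b), hb1⟩)), hmem⟩ : pairSub R₁ R₂ g) =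
        ⟨(a, b), hb1⟩ * ⟨(1, R₂.ι (-τ ⟨(a, b), hb1⟩)), hmem1 _⟩ := by
      ext <;> simp
    rw [e2, τmul, τ1, add_neg_cancel]
  choose f hf hf0 using hex
  have hfmul : ∀ a b, f (a * b) = f a * f b := by
    intro a b
    have hmem : (a * b, f a * f b) ∈ pairSub R₁ R₂ g := (pairSub R₁ R₂ g).mul_mem (hf a) (hf b)
    refine huniq (a * b) _ _ (hf _) hmem (hf0 _) ?_
    have e2 : (⟨(a * b, f a * f b), hmem⟩ : pairSub R₁ R₂ g) = ⟨(a, f a), hf a⟩ * ⟨(b, f b), hf b⟩ :=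
      rfl
    rw [e2, τmul, hf0, hf0, add_zero]
  have hinj : Function.Injective f := by
    have key : ∀ a, f a = 1 → a = 1 := by
      intro a ha
      have h1 : R₂.ρ (f a) = g (R₁.ρ a) := hf a
      rw [ha, R₂.ρ_one] at h1
      have h2 : R₁.ρ a = 0 := by
        apply g.injective
        rw [← h1, map_zero]
      obtain ⟨z, hz⟩ := (R₁.exact a).1 h2
      have h3 := hf0 a
      have e2 : (⟨(a, f a), hf a⟩ : pairSub R₁ R₂ g) =
        ⟨(R₁.ι z, R₂.ι (h z)), hmem2 z⟩ * ⟨(1, R₂.ι (- h z)), hmem1 _⟩ := by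
        ext
        · simp [hz]
        · simp [ha, R₂.ι_neg]
      rw [e2, τmul, τ1, τ2, zero_add, neg_eq_zero] at h3
      have h4 : z = 0 := h.injective (by rw [h3, map_zero])
      rw [← hz, h4, R₁.ι_zero]
    intro a b hab
    have h1 : f (a⁻¹ * b) = 1 := by
      have h2 : f a⁻¹ * f a = 1 := by
        rw [← hfmul, inv_mul_cancel]
        have := hfmul 1 1
        rw [mul_one] at this
        exact left_eq_mul.mp this
      rw [hfmul, ← hab, h2]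
    have := key _ h1
    rw [inv_mul_eq_one] at this
    exact this
  have hsurj : Function.Surjective f := by
    intro b
    obtain ⟨a, ha⟩ := R₁.ρ_surj (g.symm (R₂.ρ b))
    have hab : (a, b) ∈ pairSub R₁ R₂ g := by
      change R₂.ρ b = g (R₁.ρ a)
      rw [ha, LinearEquiv.apply_symm_apply]
    set w := τ ⟨(a, b), hab⟩ with hw
    have hmem : (a * R₁.ι (h.symm w), b) ∈ pairSub R₁ R₂ g := by
      change R₂.ρ b = g (R₁.ρ (a * _))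
      rw [R₁.ρ_mul, R₁.ρ_ι, add_zero, ha, LinearEquiv.apply_symm_apply]
    refine ⟨a * R₁.ι (h.symm w), ?_⟩
    refine huniq _ _ _ (hf _) hmem (hf0 _) ?_
    have e2 : (⟨(a * R₁.ι (h.symm w), b), hmem⟩ : pairSub R₁ R₂ g) =
      ⟨(a, b), hab⟩ * ⟨(R₁.ι (h.symm w), R₂.ι (h (h.symm w))), hmem2 _⟩ *
        ⟨(1, R₂.ι (- w)), hmem1 _⟩ := by
      ext
      · simp
      · simp only [LinearEquiv.apply_symm_apply, Subgroup.coe_mul, Prod.snd_mul]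
        rw [mul_assoc, ← R₂.ι_add, add_neg_cancel, R₂.ι_zero, mul_one]
    rw [e2, τmul, τmul, τ1, τ2, add_zero, ← hw, add_neg_cancel]
  refine ⟨MulEquiv.ofBijective (MonoidHom.mk' f hfmul) ⟨hinj, hsurj⟩, ?_, ?_⟩
  · intro x
    exact hf x
  · intro w
    change f (R₁.ι w) = R₂.ι (h w)
    exact huniq _ _ _ (hf _) (hmem2 w) (hf0 _) (τ2 w _)

end lifting

end Pool.Agent.Helper3.CM
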