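import Pool.Agent.Helper3.CM.Basic

open scoped commutatorElement

namespace Pool.Agent.Helper3.CM

namespace Real

variable {p : ℕ} {G V W : Type*} [Group G] [AddCommGroup V] [Module (ZMod p) V]
  [AddCommGroup W] [Module (ZMod p) W] {B : V →ₗ[ZMod p] V →ₗ[ZMod p] W} {π : V → W}

/-- The central subgroup `ι(W)`. -/
def cen (R : Real G B π) : Subgroup G where
  carrier := {g | ∃ w, R.ι w = g}
  mul_mem' := by
    rintro a b ⟨w, rfl⟩ ⟨w', rfl⟩
    exact ⟨w + w', R.ι_add _ _⟩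
  one_mem' := ⟨0, R.ι_zero⟩
  inv_mem' := by
    rintro a ⟨w, rfl⟩
    exact ⟨-w, R.ι_neg _⟩

theorem mem_cen (R : Real G B π) (g : G) : g ∈ R.cen ↔ ∃ w, R.ι w = g := Iff.rfl

theorem comm' (R : Real G B π) (g h : G) : ⁅g, h⁆ = R.ι (B (R.ρ g) (R.ρ h)) := by
  rw [commutatorElement_def, R.comm g h]
  group

theorem commutator_eq (R : Real G B π) [Nontrivial V]
    (hs : ∀ x : V, x ≠ 0 → Function.Surjective (B x)) : commutator G = R.cen := by
  apply le_antisymm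
  · rw [commutator_def, Subgroup.commutator_le]
    intro a _ b _
    exact ⟨_, (R.comm' a b).symm⟩
  · rintro g ⟨w, rfl⟩
    obtain ⟨x, hx⟩ := exists_ne (0 : V)
    obtain ⟨y, hy⟩ := hs x hx w
    obtain ⟨a, ha⟩ := R.ρ_surj x
    obtain ⟨b, hb⟩ := R.ρ_surj y
    have := R.comm' a b
    rw [ha, hb, hy] at this
    rw [← this, commutator_def]
    exact Subgroup.commutator_mem_commutator (Subgroup.mem_top _) (Subgroup.mem_top _)

theorem mem_commutator (R : Real G B π) [Nontrivial V]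
    (hs : ∀ x : V, x ≠ 0 → Function.Surjective (B x)) (g : G) :
    g ∈ commutator G ↔ R.ρ g = 0 := by
  rw [R.commutator_eq hs, R.mem_cen, R.exact]

theorem isCamina (R : Real G B π) [Nontrivial V]
    (hs : ∀ x : V, x ≠ 0 → Function.Surjective (B x)) : IsCamina G := by
  intro x hx y
  rw [R.mem_commutator hs] at hx
  constructor
  · intro h
    rw [isConj_iff] at h
    obtain ⟨c, hc⟩ := h
    rw [R.mem_commutator hs, ← hc, R.ρ_mul, R.ρ_mul, R.ρ_mul, R.ρ_inv, R.ρ_inv]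
    abel
  · intro h
    rw [R.mem_commutator hs, R.exact] at h
    obtain ⟨w, hw⟩ := h
    obtain ⟨z, hz⟩ := hs _ hx (-w)
    obtain ⟨c, hc⟩ := R.ρ_surj z
    rw [isConj_iff]
    refine ⟨c, ?_⟩
    have e1 := R.comm c x
    rw [hc, R.B_neg, hz, neg_neg] at e1
    rw [e1, ← mul_assoc, mul_inv_cancel_right, ← R.central, hw, mul_inv_cancel_left]

theorem mem_center (R : Real G B π) [Nontrivial W]
    (hs : ∀ x : V, x ≠ 0 → Function.Surjective (B x)) (g : G) :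
    (∀ h, g * h = h * g) ↔ R.ρ g = 0 := by
  constructor
  · intro h
    by_contra hne
    obtain ⟨w, hw⟩ := exists_ne (0 : W)
    obtain ⟨y, hy⟩ := hs _ hne w
    obtain ⟨b, hb⟩ := R.ρ_surj y
    have := R.comm g b
    rw [hb, hy, h b] at this
    exact hw (R.ι_eq_one (right_eq_mul.mp this))
  · intro h b
    obtain ⟨w, hw⟩ := (R.exact g).1 h
    rw [← hw, R.central]

theorem nonabelian (R : Real G B π) [Nontrivial V] [Nontrivial W]
    (hs : ∀ x : V, x ≠ 0 → Function.Surjective (B x)) : ∃ a b : G, a * b ≠ b * a := by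
  by_contra hcon
  push Not at hcon
  obtain ⟨x, hx⟩ := exists_ne (0 : V)
  obtain ⟨a, ha⟩ := R.ρ_surj x
  have := (R.mem_center hs a).1 (hcon a)
  rw [ha] at this
  exact hx this

theorem card_W (R : Real G B π) [Nontrivial V]
    (hs : ∀ x : V, x ≠ 0 → Function.Surjective (B x)) :
    Nat.card (commutator G) = Nat.card W := by
  rw [R.commutator_eq hs]
  refine Nat.card_congr (Equiv.ofBijective (fun w : W => (⟨R.ι w, w, rfl⟩ : R.cen)) ⟨?_, ?_⟩).symm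
  · intro a b hab
    exact R.ι_inj (congrArg Subtype.val hab)
  · rintro ⟨g, w, rfl⟩
    exact ⟨w, rfl⟩

theorem index_V (R : Real G B π) [Nontrivial V]
    (hs : ∀ x : V, x ≠ 0 → Function.Surjective (B x)) :
    (commutator G).index = Nat.card V := by
  let f : G →* Multiplicative V := MonoidHom.mk' (fun g => Multiplicative.ofAdd (R.ρ g))
    (fun a b => by rw [R.ρ_mul]; rfl)
  have hk : f.ker = commutator G := by
    ext g
    rw [R.mem_commutator hs, MonoidHom.mem_ker]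
    rfl
  have hr : f.range = ⊤ := by
    rw [MonoidHom.range_eq_top]
    intro v
    obtain ⟨g, hg⟩ := R.ρ_surj (Multiplicative.toAdd v)
    exact ⟨g, hg⟩
  rw [← hk, Subgroup.index_ker, hr, Subgroup.card_top]
  exact Nat.card_congr Multiplicative.toAdd

theorem isPGroup (R : Real G B π) : IsPGroup p G := by
  intro g
  refine ⟨2, ?_⟩
  rw [pow_two, pow_mul, R.pow, R.pow, R.ρ_ι]
  have h0 : π 0 = 0 := by
    have := R.pow 1
    rw [one_pow, R.ρ_one] at this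
    exact R.ι_eq_one this.symm
  rw [h0, R.ι_zero]

end Real

section induced

variable {p : ℕ} {G₁ V₁ W₁ : Type*} [Group G₁] [AddCommGroup V₁]
  [Module (ZMod p) V₁] [AddCommGroup W₁] [Module (ZMod p) W₁]
  {B₁ : V₁ →ₗ[ZMod p] V₁ →ₗ[ZMod p] W₁} {π₁ : V₁ → W₁}
  {G₂ V₂ W₂ : Type*} [Group G₂] [AddCommGroup V₂]
  [Module (ZMod p) V₂] [AddCommGroup W₂] [Module (ZMod p) W₂]
  {B₂ : V₂ →ₗ[ZMod p] V₂ →ₗ[ZMod p] W₂} {π₂ : V₂ → W₂}

theorem iso_commutator (α : G₁ ≃* G₂) (x : G₁) : α x ∈ commutator G₂ ↔ x ∈ commutator G₁ := by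
  have h : (commutator G₁).map α.toMonoidHom = commutator G₂ := by
    rw [commutator_def, commutator_def, Subgroup.map_commutator]
    rw [← MonoidHom.range_eq_map, MonoidHom.range_eq_top.2 α.surjective]
  rw [← h]
  exact Subgroup.mem_map_equiv.trans (by simp)

theorem induced [Nontrivial V₁] [Nontrivial V₂] (R₁ : Real G₁ B₁ π₁) (R₂ : Real G₂ B₂ π₂)
    (hs₁ : ∀ x : V₁, x ≠ 0 → Function.Surjective (B₁ x))
    (hs₂ : ∀ x : V₂, x ≠ 0 → Function.Surjective (B₂ x)) (α : G₁ ≃* G₂) :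
    ∃ (g : V₁ ≃ₗ[ZMod p] V₂) (h : W₁ ≃ₗ[ZMod p] W₂),
      (∀ x, R₂.ρ (α x) = g (R₁.ρ x)) ∧ (∀ w, α (R₁.ι w) = R₂.ι (h w)) ∧
      (∀ x y, B₂ (g x) (g y) = h (B₁ x y)) ∧ ∀ x, π₂ (g x) = h (π₁ x) := by
  have hz : ∀ x, R₂.ρ (α x) = 0 ↔ R₁.ρ x = 0 := by
    intro x
    rw [← R₁.mem_commutator hs₁, ← R₂.mem_commutator hs₂, iso_commutator]
  have hg0 : ∀ x y, R₁.ρ x = R₁.ρ y → R₂.ρ (α x) = R₂.ρ (α y) := by
    intro x y hxy
    obtain ⟨w, hw⟩ := (R₁.ρ_eq_iff x y).1 hxy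
    rw [hw, map_mul, R₂.ρ_mul, (hz (R₁.ι w)).2 (R₁.ρ_ι w), add_zero]
  let s := Function.surjInv R₁.ρ_surj
  have hs : ∀ v, R₁.ρ (s v) = v := Function.surjInv_eq R₁.ρ_surj
  have hgρ : ∀ x, R₂.ρ (α (s (R₁.ρ x))) = R₂.ρ (α x) := fun x => hg0 _ _ (hs _)
  let g₀ : V₁ →+ V₂ := AddMonoidHom.mk' (fun v => R₂.ρ (α (s v))) (by
    intro a b
    rw [← R₂.ρ_mul, ← map_mul]
    apply hg0
    rw [hs, R₁.ρ_mul, hs, hs])
  have hg₀inj : Function.Injective g₀ := by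
    rw [injective_iff_map_eq_zero]
    intro a ha
    have := (hz (s a)).1 ha
    rwa [hs] at this
  have hg₀surj : Function.Surjective g₀ := by
    intro v
    obtain ⟨y, hy⟩ := R₂.ρ_surj v
    refine ⟨R₁.ρ (α.symm y), ?_⟩
    change R₂.ρ (α (s (R₁.ρ (α.symm y)))) = v
    rw [hgρ, MulEquiv.apply_symm_apply, hy]
  have hh : ∀ w, ∃ w', R₂.ι w' = α (R₁.ι w) := by
    intro w
    exact (R₂.exact _).1 ((hz _).2 (R₁.ρ_ι w))
  choose h₀ hh₀ using hh
  let h₁ : W₁ →+ W₂ := AddMonoidHom.mk' h₀ (by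
    intro a b
    apply R₂.ι_inj
    rw [hh₀, R₁.ι_add, map_mul, R₂.ι_add, hh₀, hh₀])
  have hh₁inj : Function.Injective h₁ := by
    rw [injective_iff_map_eq_zero]
    intro a ha
    have h1 : R₂.ι (h₀ a) = α (R₁.ι a) := hh₀ a
    have h2 : h₀ a = 0 := ha
    rw [h2, R₂.ι_zero] at h1
    exact R₁.ι_eq_one ((MulEquiv.map_eq_one_iff α).1 h1.symm)
  have hh₁surj : Function.Surjective h₁ := by
    intro w
    have h1 : R₁.ρ (α.symm (R₂.ι w)) = 0 := by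
      rw [← hz, MulEquiv.apply_symm_apply, R₂.ρ_ι]
    obtain ⟨w', hw'⟩ := (R₁.exact _).1 h1
    refine ⟨w', ?_⟩
    apply R₂.ι_inj
    change R₂.ι (h₀ w') = _
    rw [hh₀, hw', MulEquiv.apply_symm_apply]
  let g : V₁ ≃ₗ[ZMod p] V₂ := LinearEquiv.ofBijective (g₀.toZModLinearMap p) ⟨hg₀inj, hg₀surj⟩
  let h : W₁ ≃ₗ[ZMod p] W₂ := LinearEquiv.ofBijective (h₁.toZModLinearMap p) ⟨hh₁inj, hh₁surj⟩
  have hg : ∀ x, R₂.ρ (α x) = g (R₁.ρ x) := fun x => (hgρ x).symm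
  have hι : ∀ w, α (R₁.ι w) = R₂.ι (h w) := fun w => (hh₀ w).symm
  refine ⟨g, h, hg, hι, ?_, ?_⟩
  · intro x y
    obtain ⟨a, rfl⟩ := R₁.ρ_surj x
    obtain ⟨b, rfl⟩ := R₁.ρ_surj y
    rw [← hg, ← hg]
    apply R₂.ι_inj
    rw [← hι]
    have e1 := congrArg α (R₁.comm a b)
    rw [map_mul, map_mul, map_mul, R₂.comm (α a) (α b)] at e1
    exact mul_right_cancel e1
  · intro x
    obtain ⟨a, rfl⟩ := R₁.ρ_surj x
    rw [← hg]
    apply R₂.ι_inj
    rw [← hι, ← R₂.pow, ← R₁.pow, map_pow]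

end induced

section miller

variable {p : ℕ} [Fact p.Prime] {G V W : Type*} [Group G] [AddCommGroup V] [Module (ZMod p) V]
  [AddCommGroup W] [Module (ZMod p) W] {B : V →ₗ[ZMod p] V →ₗ[ZMod p] W} {π : V → W}

omit [Fact p.Prime] in
theorem aut_comm_central {G : Type*} [Group G] (h : ∀ α β : G ≃* G, ∀ x : G, α (β x) = β (α x))
    (α : G ≃* G) (y z : G) : (y⁻¹ * α y) * z = z * (y⁻¹ * α y) := by
  have h1 := h α (MulAut.conj y) (α.symm z)
  rw [MulAut.conj_apply, MulAut.conj_apply, map_mul, map_mul, map_inv,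
    MulEquiv.apply_symm_apply] at h1
  have h2 : α y * z * (α y)⁻¹ * α y = y * z * y⁻¹ * α y := by rw [h1]
  rw [inv_mul_cancel_right] at h2
  rw [mul_assoc, h2]
  group

theorem miller_iff_rigid (R : Real G B π) [Nontrivial V] [Nontrivial W]
    (hs : ∀ x : V, x ≠ 0 → Function.Surjective (B x)) : IsMiller G ↔ Rigid B π := by
  constructor
  · rintro ⟨_, hab⟩ g h hB hπ x
    obtain ⟨α, hα, _⟩ := lift R R g h hB hπ
    obtain ⟨y, rfl⟩ := R.ρ_surj x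
    rw [← hα]
    have h1 : R.ρ (y⁻¹ * α y) = 0 := (R.mem_center hs _).1 (aut_comm_central hab α y)
    rw [R.ρ_mul, R.ρ_inv, neg_add_eq_zero] at h1
    exact h1.symm
  · intro hR
    refine ⟨R.nonabelian hs, ?_⟩
    have key : ∀ α : G ≃* G, (∀ x, ∃ w, α x = x * R.ι w) ∧ ∀ w, α (R.ι w) = R.ι w := by
      intro α
      obtain ⟨g, h, hg, hh, hB, hπ⟩ := induced R R hs hs α
      have h1 := hR g h hB hπ
      have h2 : ∀ w, h w = w := by
        intro w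
        obtain ⟨x, hx⟩ := exists_ne (0 : V)
        obtain ⟨y, hy⟩ := hs x hx w
        have := hB x y
        rw [h1, h1, hy] at this
        exact this.symm
      refine ⟨fun x => ?_, fun w => ?_⟩
      · apply (R.ρ_eq_iff x (α x)).1
        rw [hg, h1]
      · rw [hh, h2]
    intro α β x
    obtain ⟨a, ha⟩ := (key α).1 x
    obtain ⟨b, hb⟩ := (key β).1 x
    rw [hb, ha, map_mul, map_mul, (key α).2, (key β).2, ha, hb, mul_assoc, mul_assoc,
      ← R.ι_add, ← R.ι_add, add_comm]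

/-- Isomorphism of groups is the same as equivalence of the data. -/
theorem iso_iff {G₁ V₁ W₁ : Type*} [Group G₁] [AddCommGroup V₁]
    [Module (ZMod p) V₁] [AddCommGroup W₁] [Module (ZMod p) W₁]
    {B₁ : V₁ →ₗ[ZMod p] V₁ →ₗ[ZMod p] W₁} {π₁ : V₁ → W₁}
    {G₂ V₂ W₂ : Type*} [Group G₂] [AddCommGroup V₂]
    [Module (ZMod p) V₂] [AddCommGroup W₂] [Module (ZMod p) W₂]
    {B₂ : V₂ →ₗ[ZMod p] V₂ →ₗ[ZMod p] W₂} {π₂ : V₂ → W₂}
    [Nontrivial V₁] [Nontrivial V₂] (R₁ : Real G₁ B₁ π₁) (R₂ : Real G₂ B₂ π₂)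
    (hs₁ : ∀ x : V₁, x ≠ 0 → Function.Surjective (B₁ x))
    (hs₂ : ∀ x : V₂, x ≠ 0 → Function.Surjective (B₂ x)) :
    Nonempty (G₁ ≃* G₂) ↔ ∃ (g : V₁ ≃ₗ[ZMod p] V₂) (h : W₁ ≃ₗ[ZMod p] W₂),
      (∀ x y, B₂ (g x) (g y) = h (B₁ x y)) ∧ ∀ x, π₂ (g x) = h (π₁ x) := by
  constructor
  · rintro ⟨α⟩
    obtain ⟨g, h, _, _, hB, hπ⟩ := induced R₁ R₂ hs₁ hs₂ α
    exact ⟨g, h, hB, hπ⟩
  · rintro ⟨g, h, hB, hπ⟩
    obtain ⟨α, _⟩ := lift R₁ R₂ g h hB hπ
    exact ⟨α⟩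

end miller

end Pool.Agent.Helper3.CM
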