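import Mathlib

namespace Pool.Agent.Helper3.CM

/-- `F_p^n` -/
abbrev Vec (p n : ℕ) : Type := Fin n → ZMod p

/-- Linear datum over the field with `p` elements: an alternating bilinear map `B` from
`F_p^m x F_p^m` to `F_p^n` with `B(x, .)` onto for every `x ≠ 0`, and a power map `π`.
(Additive maps between `F_p`-spaces are the same as linear maps.) -/
structure Datum (p : ℕ) where
  m : ℕ
  n : ℕ
  B : Vec p m → Vec p m → Vec p n
  π : Vec p m → Vec p n
  m_pos : 0 < m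
  n_pos : 0 < n
  add_left : ∀ x x' y, B (x + x') y = B x y + B x' y
  add_right : ∀ x y y', B x (y + y') = B x y + B x y'
  alt : ∀ x, B x x = 0
  onto : ∀ x, x ≠ 0 → Function.Surjective (B x)
  pow : ∀ x y, π (x + y) = π x + π y + (p.choose 2) • B x y

/-- The group `G` realises the datum `D`: there are a surjective homomorphism `ρ : G → F_p^m` and an
injective homomorphism `ι : F_p^n → G` with `ker ρ = im ι`, such that `g h = ι(B(ρ g, ρ h)) h g` and
`g ^ p = ι(π(ρ g))`. -/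
def Datum.Realises {p : ℕ} (D : Datum p) (G : Type) [Group G] : Prop :=
  ∃ (ρ : G → Vec p D.m) (ι : Vec p D.n → G),
    (∀ g h, ρ (g * h) = ρ g + ρ h) ∧ (∀ a b, ι (a + b) = ι a * ι b) ∧
    Function.Surjective ρ ∧ Function.Injective ι ∧ (∀ g, ρ g = 0 ↔ ∃ w, ι w = g) ∧
    (∀ g h, g * h = ι (D.B (ρ g) (ρ h)) * (h * g)) ∧ (∀ g, g ^ p = ι (D.π (ρ g)))

/-- Equivalence of data under additive (that is, linear) bijections `g`, `h`. -/
def Datum.Equivalent {p : ℕ} (D₁ D₂ : Datum p) : Prop :=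
  ∃ (g : Vec p D₁.m ≃+ Vec p D₂.m) (h : Vec p D₁.n ≃+ Vec p D₂.n),
    (∀ x y, D₂.B (g x) (g y) = h (D₁.B x y)) ∧ ∀ x, D₂.π (g x) = h (D₁.π x)

/-- The datum has trivial stabiliser. -/
def Datum.IsRigid {p : ℕ} (D : Datum p) : Prop :=
  ∀ (g : Vec p D.m ≃+ Vec p D.m) (h : Vec p D.n ≃+ Vec p D.n),
    (∀ x y, D.B (g x) (g y) = h (D.B x y)) → (∀ x, D.π (g x) = h (D.π x)) → ∀ x, g x = x

end Pool.Agent.Helper3.CM
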