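import Mathlib

namespace Pool.Agent.Helper3.CM

/-- Camina group: for every `x` outside the derived subgroup, the conjugacy class of `x` is the
coset `x G'`. -/
def IsCamina (G : Type*) [Group G] : Prop :=
  ∀ x : G, x ∉ commutator G → ∀ y : G, IsConj x y ↔ x⁻¹ * y ∈ commutator G

/-- Miller group: nonabelian with abelian automorphism group. -/
def IsMiller (G : Type*) [Group G] : Prop :=
  (∃ a b : G, a * b ≠ b * a) ∧ ∀ α β : G ≃* G, ∀ x : G, α (β x) = β (α x)

/-- `Real G B π` : the group `G` is an extension of `V` by a central copy of `W`, with commutator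
map `B` and `p`-th power map `π`. -/
structure Real {p : ℕ} (G : Type*) {V W : Type*} [Group G] [AddCommGroup V] [Module (ZMod p) V]
    [AddCommGroup W] [Module (ZMod p) W] (B : V →ₗ[ZMod p] V →ₗ[ZMod p] W) (π : V → W) where
  ρ : G → V
  ι : W → G
  ρ_mul : ∀ g h, ρ (g * h) = ρ g + ρ h
  ι_add : ∀ a b, ι (a + b) = ι a * ι b
  ρ_surj : Function.Surjective ρ
  ι_inj : Function.Injective ι
  exact : ∀ g, ρ g = 0 ↔ ∃ w, ι w = g
  comm : ∀ g h, g * h = ι (B (ρ g) (ρ h)) * (h * g)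
  pow : ∀ g, g ^ p = ι (π (ρ g))

/-- Trivial stabiliser condition. -/
def Rigid {p : ℕ} {V W : Type*} [AddCommGroup V] [Module (ZMod p) V]
    [AddCommGroup W] [Module (ZMod p) W] (B : V →ₗ[ZMod p] V →ₗ[ZMod p] W) (π : V → W) : Prop :=
  ∀ (g : V ≃ₗ[ZMod p] V) (h : W ≃ₗ[ZMod p] W),
    (∀ x y, B (g x) (g y) = h (B x y)) → (∀ x, π (g x) = h (π x)) → ∀ x, g x = x

end Pool.Agent.Helper3.CM
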