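import Pool.Agent.Helper3.CM.Non2

namespace Pool.Agent.Helper3.CM

variable {p : ℕ} [Fact p.Prime] {K : Type*} [Field K] [Finite K] [Algebra (ZMod p) K]

omit [Finite K] [Algebra (ZMod p) K] [Fact p.Prime] in
theorem om_surj {x : K × K} (hx : x ≠ 0) (z : K) : ∃ y, om x y = z := by
  by_cases h : x.1 = 0
  · have h2 : x.2 ≠ 0 := by
      intro h2
      exact hx (Prod.ext h h2)
    refine ⟨(-z / x.2, 0), ?_⟩
    simp only [om, h]
    field_simp
    ring
  · refine ⟨(0, z / x.1), ?_⟩
    simp only [om]
    field_simp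
    ring

theorem tr_nondeg {z : K} (h : ∀ w, Algebra.trace (ZMod p) K (z * w) = 0) : z = 0 := by
  have : Module.Finite (ZMod p) K := Module.Finite.of_finite
  have h1 := traceForm_nondegenerate (ZMod p) K
  exact h1.1 z h

theorem tr_ext {z z' : K} (h : ∀ w, Algebra.trace (ZMod p) K (z * w) =
    Algebra.trace (ZMod p) K (z' * w)) : z = z' := by
  rw [← sub_eq_zero]
  apply tr_nondeg (p := p)
  intro w
  rw [sub_mul, map_sub, h, sub_self]

variable {n : ℕ} (c : Fin n → K)

theorem tr_surj (hc : LinearIndependent (ZMod p) c) (w : Fin n → ZMod p) :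
    ∃ z : K, ∀ i, Algebra.trace (ZMod p) K (c i * z) = w i := by
  let T : K →ₗ[ZMod p] (Fin n → ZMod p) := LinearMap.pi fun i =>
    (Algebra.trace (ZMod p) K).comp (LinearMap.mulLeft (ZMod p) (c i))
  have hT : ∀ z i, T z i = Algebra.trace (ZMod p) K (c i * z) := fun z i => rfl
  have hs : Function.Surjective T := by
    rw [← LinearMap.dualMap_injective_iff, injective_iff_map_eq_zero]
    intro t ht
    have h1 : ∀ z, t (T z) = 0 := fun z => LinearMap.congr_fun ht z
    have h2 : ∀ w, t w = ∑ i, w i * t (Pi.single i 1) := by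
      intro w
      conv_lhs => rw [vec_expand w]
      rw [map_sum]
      refine Finset.sum_congr rfl fun i _ => ?_
      rw [map_smul, smul_eq_mul]
    have h3 : ∑ i, t (Pi.single i 1) • c i = 0 := by
      apply tr_nondeg (p := p)
      intro z
      rw [Finset.sum_mul, map_sum, ← h1 z, h2]
      refine Finset.sum_congr rfl fun i _ => ?_
      rw [hT, smul_mul_assoc, map_smul, smul_eq_mul, mul_comm]
    have h4 := Fintype.linearIndependent_iff.1 hc _ h3
    ext i
    simpa using h4 i
  obtain ⟨z, hz⟩ := hs w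
  exact ⟨z, fun i => by rw [← hT, hz]⟩

/-- The commutator map. -/
noncomputable def BB : (K × K) →ₗ[ZMod p] (K × K) →ₗ[ZMod p] (Fin n → ZMod p) :=
  LinearMap.mk₂ (ZMod p) (fun x y i => Algebra.trace (ZMod p) K (c i * om x y))
    (by
      intro x x' y
      ext i
      rw [Pi.add_apply, ← map_add]
      congr 1
      simp only [om, Prod.fst_add, Prod.snd_add]; ring)
    (by
      intro s x y
      ext i
      rw [Pi.smul_apply, ← map_smul]
      congr 1
      simp only [om, Prod.smul_fst, Prod.smul_snd, sd]; ring)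
    (by
      intro x x' y
      ext i
      rw [Pi.add_apply, ← map_add]
      congr 1
      simp only [om, Prod.fst_add, Prod.snd_add]; ring)
    (by
      intro s x y
      ext i
      rw [Pi.smul_apply, ← map_smul]
      congr 1
      simp only [om, Prod.smul_fst, Prod.smul_snd, sd]; ring)

omit [Finite K] in
theorem BB_apply (x y : K × K) (i : Fin n) :
    BB (p := p) c x y i = Algebra.trace (ZMod p) K (c i * om x y) := rfl

omit [Finite K] in
theorem BB_self (x : K × K) : BB (p := p) c x x = 0 := by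
  ext i
  rw [BB_apply]
  have : om x x = 0 := by simp only [om]; ring
  rw [this, mul_zero, map_zero]; rfl

theorem BB_surj (hc : LinearIndependent (ZMod p) c) (x : K × K) (hx : x ≠ 0) :
    Function.Surjective (BB (p := p) c x) := by
  intro w
  obtain ⟨z, hz⟩ := tr_surj c hc w
  obtain ⟨y, hy⟩ := om_surj hx z
  refine ⟨y, ?_⟩
  ext i
  rw [BB_apply, hy, hz]

omit [Finite K] in
/-- The transpose of a linear map of `W`. -/
theorem exists_transpose (h : (Fin n → ZMod p) →ₗ[ZMod p] (Fin n → ZMod p)) :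
    ∃ c' : Fin n → K, (∀ i, c' i ∈ Submodule.span (ZMod p) (Set.range c)) ∧
      ∀ (L : K →ₗ[ZMod p] ZMod p) i, h (fun j => L (c j)) i = L (c' i) := by
  refine ⟨fun i => ∑ j, h (Pi.single j 1) i • c j, ?_, ?_⟩
  · intro i
    exact Submodule.sum_mem _ fun j _ => Submodule.smul_mem _ _ (Submodule.subset_span ⟨j, rfl⟩)
  · intro L i
    conv_lhs => rw [vec_expand (fun j => L (c j))]
    rw [map_sum, map_sum, Finset.sum_apply]
    refine Finset.sum_congr rfl fun j _ => ?_
    rw [map_smul, map_smul, Pi.smul_apply, smul_eq_mul, smul_eq_mul, mul_comm]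

/-- Similitudes are semilinear. -/
theorem semilinear (i₀ i₁ : Fin n) (hc0 : c i₀ ≠ 0)
    (hadj : Algebra.adjoin (ZMod p) {c i₁ / c i₀} = ⊤) (c' : Fin n → K)
    (g : (K × K) ≃ₗ[ZMod p] (K × K))
    (hg : ∀ x y i, Algebra.trace (ZMod p) K (c i * om (g x) (g y)) =
      Algebra.trace (ZMod p) K (c' i * om x y)) :
    ∃ s : K ≃+* K, ∀ (μ : K) x, g (μ • x) = s μ • g x := by
  have hom1 : ∀ (z : K) x y, om (z • x) y = z * om x y := by
    intro z x y
    simp only [om, Prod.smul_fst, Prod.smul_snd, smul_eq_mul]; ring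
  have hsub : ∀ x x' y : K × K, om (x - x') y = om x y - om x' y := by
    intro x x' y
    simp only [om, Prod.fst_sub, Prod.snd_sub]; ring
  have hc0' : c' i₀ ≠ 0 := by
    intro h0
    have hne : ((1, 0) : K × K) ≠ 0 := by
      intro h
      exact one_ne_zero (congrArg Prod.fst h)
    have hgne : g (1, 0) ≠ 0 := fun h => hne (g.injective (h.trans (map_zero g).symm))
    apply hc0
    apply tr_nondeg (p := p)
    intro w
    obtain ⟨y, hy⟩ := om_surj hgne w
    have h1 := hg (1, 0) (g.symm y) i₀
    rw [LinearEquiv.apply_symm_apply, hy, h0, zero_mul, map_zero] at h1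
    exact h1
  -- adjoint trick
  have hr : ∀ x, g ((c' i₁ / c' i₀) • x) = (c i₁ / c i₀) • g x := by
    intro x
    by_contra hne
    have hne' : g ((c' i₁ / c' i₀) • x) - (c i₁ / c i₀) • g x ≠ 0 := sub_ne_zero.2 hne
    apply hc0
    apply tr_nondeg (p := p)
    intro w
    obtain ⟨y, hy⟩ := om_surj hne' w
    rw [← hy, hsub, mul_sub, map_sub, hom1]
    have h1 := hg ((c' i₁ / c' i₀) • x) (g.symm y) i₀
    have h2 := hg x (g.symm y) i₁
    rw [LinearEquiv.apply_symm_apply] at h1 h2
    rw [h1, hom1]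
    have e1 : c' i₀ * (c' i₁ / c' i₀ * om x (g.symm y)) = c' i₁ * om x (g.symm y) := by
      field_simp
    have e2 : c i₀ * (c i₁ / c i₀ * om (g x) y) = c i₁ * om (g x) y := by
      field_simp
    rw [e1, e2, h2, sub_self]
  -- the subalgebra of transferable scalars
  let T : Subalgebra (ZMod p) K :=
    { carrier := {l | ∃ μ : K, ∀ x, g (μ • x) = l • g x}
      mul_mem' := by
        rintro a b ⟨μ, h1⟩ ⟨ν, h2⟩
        exact ⟨μ * ν, fun x => by rw [mul_smul, h1, h2, mul_smul]⟩
      add_mem' := by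
        rintro a b ⟨μ, h1⟩ ⟨ν, h2⟩
        exact ⟨μ + ν, fun x => by rw [add_smul, map_add, h1, h2, add_smul]⟩
      algebraMap_mem' := by
        intro a
        refine ⟨algebraMap (ZMod p) K a, fun x => ?_⟩
        rw [algebraMap_smul, algebraMap_smul, map_smul] }
  have hT : T = ⊤ := by
    rw [eq_top_iff, ← hadj]
    apply Algebra.adjoin_le
    rintro _ rfl
    exact ⟨_, hr⟩
  have hall : ∀ l : K, ∃ μ : K, ∀ x, g (μ • x) = l • g x := by
    intro l
    have : l ∈ T := by rw [hT]; exact Algebra.mem_top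
    exact this
  choose t ht using hall
  have huniq : ∀ μ ν : K, (∀ x : K × K, g (μ • x) = g (ν • x)) → μ = ν := by
    intro μ ν h
    have h1 := g.injective (h (1, 0))
    have h2 := congrArg Prod.fst h1
    simpa using h2
  let t₀ : K →+* K :=
    { toFun := t
      map_one' := huniq _ _ fun x => by rw [ht, one_smul, one_smul]
      map_mul' := fun a b => huniq _ _ fun x => by rw [ht, mul_smul, mul_smul, ht, ht]
      map_zero' := huniq _ _ fun x => by rw [ht, zero_smul, zero_smul, map_zero]
      map_add' := fun a b => huniq _ _ fun x => by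
        rw [ht, add_smul, add_smul, map_add, ht, ht] }
  have hb : Function.Bijective t₀ := Finite.injective_iff_bijective.1 t₀.injective
  refine ⟨(RingEquiv.ofBijective t₀ hb).symm, fun μ x => ?_⟩
  have h1 := ht ((RingEquiv.ofBijective t₀ hb).symm μ) x
  have h2 : t ((RingEquiv.ofBijective t₀ hb).symm μ) = μ :=
    (RingEquiv.ofBijective t₀ hb).apply_symm_apply μ
  rw [h2] at h1
  exact h1

omit [Finite K] in
/-- trace is invariant under ring automorphisms -/
theorem tr_inv (s : K ≃+* K) (z : K) :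
    Algebra.trace (ZMod p) K (s z) = Algebra.trace (ZMod p) K z := by
  have hs : ∀ r, s (algebraMap (ZMod p) K r) = algebraMap (ZMod p) K r := by
    intro r
    exact RingHom.congr_fun (Subsingleton.elim ((s : K →+* K).comp (algebraMap (ZMod p) K))
      (algebraMap (ZMod p) K)) r
  exact Algebra.trace_eq_of_algEquiv (AlgEquiv.ofRingEquiv (f := s) hs) z

/-- Main identities for a similitude preserving the power map. -/
theorem main_ident (i₀ i₁ : Fin n) (hc0 : c i₀ ≠ 0)
    (hadj : Algebra.adjoin (ZMod p) {c i₁ / c i₀} = ⊤)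
    (a₁ a₂ : K →ₗ[ZMod p] K) (g : (K × K) ≃ₗ[ZMod p] (K × K))
    (h : (Fin n → ZMod p) ≃ₗ[ZMod p] (Fin n → ZMod p))
    (hB : ∀ x y, BB (p := p) c (g x) (g y) = h (BB (p := p) c x y))
    (hπ : ∀ x, (fun i => Algebra.trace (ZMod p) K (om (a₁ (c i), a₂ (c i)) (g x))) =
      h (fun i => Algebra.trace (ZMod p) K (om (a₁ (c i), a₂ (c i)) x))) :
    ∃ (s : K ≃+* K) (c' : Fin n → K) (u v : K × K),
      (∀ i, c' i ∈ Submodule.span (ZMod p) (Set.range c)) ∧
      (∀ x : K × K, g x = s x.1 • u + s x.2 • v) ∧ om u v ≠ 0 ∧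
      (∀ i, s (c' i) = c i * om u v) ∧
      (∀ i, a₁ (c i) * v.2 - a₂ (c i) * v.1 = s (a₁ (c' i))) ∧
      (∀ i, a₁ (c i) * u.2 - a₂ (c i) * u.1 = - s (a₂ (c' i))) := by
  obtain ⟨c', hc', hL⟩ := exists_transpose c (h : (Fin n → ZMod p) →ₗ[ZMod p] (Fin n → ZMod p))
  have hg : ∀ x y i, Algebra.trace (ZMod p) K (c i * om (g x) (g y)) =
      Algebra.trace (ZMod p) K (c' i * om x y) := by
    intro x y i
    have h1 := congrFun (hB x y) i
    rw [BB_apply] at h1
    rw [h1]
    exact hL ((Algebra.trace (ZMod p) K).comp (LinearMap.mulRight (ZMod p) (om x y))) i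
  obtain ⟨s, hs⟩ := semilinear c i₀ i₁ hc0 hadj c' g hg
  set u := g (1, 0) with hu
  set v := g (0, 1) with hv
  have hgx : ∀ x : K × K, g x = s x.1 • u + s x.2 • v := by
    intro x
    have : x = x.1 • ((1, 0) : K × K) + x.2 • ((0, 1) : K × K) := by
      ext <;> simp
    conv_lhs => rw [this]
    rw [map_add, hs, hs]
  have hom1 : ∀ (z w : K) x y, om (z • x) (w • y) = z * w * om x y := by
    intro z w x y
    simp only [om, Prod.smul_fst, Prod.smul_snd, smul_eq_mul]; ring
  have hom0 : om ((1, 0) : K × K) (0, 1) = 1 := by simp [om]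
  have hsc : ∀ i, s (c' i) = c i * om u v := by
    intro i
    apply tr_ext (p := p)
    intro w
    obtain ⟨z, rfl⟩ := s.surjective w
    rw [← map_mul, tr_inv]
    have h1 := hg (z • (1, 0)) (0, 1) i
    have h2 := hom1 z 1 ((1, 0) : K × K) (0, 1)
    rw [one_smul, mul_one, hom0, mul_one] at h2
    rw [h2, hs] at h1
    have h3 := hom1 (s z) 1 u v
    rw [one_smul, mul_one] at h3
    rw [← hu, ← hv, h3] at h1
    rw [← h1]
    congr 1; ring
  have hne : om u v ≠ 0 := by
    intro h0
    have h1 := hsc i₀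
    rw [h0, mul_zero, map_eq_zero_iff s s.injective] at h1
    apply hc0
    apply tr_nondeg (p := p)
    intro w
    have hne : ((1, 0) : K × K) ≠ 0 := by
      intro h
      exact one_ne_zero (congrArg Prod.fst h)
    have hgne : g (1, 0) ≠ 0 := fun h => hne (g.injective (h.trans (map_zero g).symm))
    obtain ⟨y, hy⟩ := om_surj hgne w
    have h2 := hg (1, 0) (g.symm y) i₀
    rw [LinearEquiv.apply_symm_apply, hy, h1, zero_mul, map_zero] at h2
    exact h2
  have hpi : ∀ x i, Algebra.trace (ZMod p) K (om (a₁ (c i), a₂ (c i)) (g x)) =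
      Algebra.trace (ZMod p) K (om (a₁ (c' i), a₂ (c' i)) x) := by
    intro x i
    have h1 := congrFun (hπ x) i
    rw [h1]
    let L : K →ₗ[ZMod p] ZMod p := (Algebra.trace (ZMod p) K).comp
      ((LinearMap.mulRight (ZMod p) x.2).comp a₁ - (LinearMap.mulRight (ZMod p) x.1).comp a₂)
    exact hL L i
  refine ⟨s, c', u, v, hc', hgx, hne, hsc, ?_, ?_⟩
  · intro i
    apply tr_ext (p := p)
    intro w
    obtain ⟨z, rfl⟩ := s.surjective w
    rw [← map_mul, tr_inv]
    have h1 := hpi (0, z) i
    rw [hgx] at h1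
    simp only [map_zero, zero_smul, zero_add] at h1
    have e1 : om (a₁ (c i), a₂ (c i)) (s z • v) = (a₁ (c i) * v.2 - a₂ (c i) * v.1) * s z := by
      simp only [om, Prod.smul_fst, Prod.smul_snd, smul_eq_mul]; ring
    have e2 : om (a₁ (c' i), a₂ (c' i)) (0, z) = a₁ (c' i) * z := by
      simp only [om]; ring
    rw [e1, e2] at h1
    exact h1
  · intro i
    apply tr_ext (p := p)
    intro w
    obtain ⟨z, rfl⟩ := s.surjective w
    rw [neg_mul, map_neg, ← map_mul, tr_inv, ← map_neg]
    have h1 := hpi (z, 0) i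
    rw [hgx] at h1
    simp only [map_zero, zero_smul, add_zero] at h1
    have e1 : om (a₁ (c i), a₂ (c i)) (s z • u) = (a₁ (c i) * u.2 - a₂ (c i) * u.1) * s z := by
      simp only [om, Prod.smul_fst, Prod.smul_snd, smul_eq_mul]; ring
    have e2 : om (a₁ (c' i), a₂ (c' i)) (z, 0) = -(a₂ (c' i) * z) := by
      simp only [om]; ring
    rw [e1, e2] at h1
    exact h1

omit [Finite K] in
/-- Linearised polynomials of small degree vanish only if zero. -/
theorem lin_poly [CharP K p] (hc : LinearIndependent (ZMod p) c) (m : ℕ) (hm : m < n)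
    (A : ℕ → K) (hA : ∀ i, ∑ j ∈ Finset.range (m + 1), A j * c i ^ p ^ j = 0) :
    ∀ j ≤ m, A j = 0 := by
  classical
  have hp := (Fact.out : p.Prime).one_lt
  let f : (Fin n → ZMod p) → K := fun t => ∑ i, t i • c i
  have hf : Function.Injective f := by
    intro t t' h
    have h1 : ∑ i, (t - t') i • c i = 0 := by
      simp only [Pi.sub_apply, sub_smul, Finset.sum_sub_distrib]
      exact sub_eq_zero.2 h
    have h2 := Fintype.linearIndependent_iff.1 hc _ h1
    ext i
    exact sub_eq_zero.1 (h2 i)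
  let P : Polynomial K := ∑ j ∈ Finset.range (m + 1), Polynomial.C (A j) * Polynomial.X ^ p ^ j
  have hadd : ∀ (j : ℕ) (a b : K), (a + b) ^ p ^ j = a ^ p ^ j + b ^ p ^ j := by
    intro j a b
    exact add_pow_char_pow ..
  have hsm : ∀ (j : ℕ) (s : ZMod p) (a : K), (s • a) ^ p ^ j = s • a ^ p ^ j := by
    intro j s a
    rw [sd, sd, mul_pow, ← map_pow, ZMod.pow_card_pow]
  let D : K →ₗ[ZMod p] K :=
    { toFun := fun z => ∑ j ∈ Finset.range (m + 1), A j * z ^ p ^ j
      map_add' := by
        intro x y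
        rw [← Finset.sum_add_distrib]
        exact Finset.sum_congr rfl fun j _ => by rw [hadd, mul_add]
      map_smul' := by
        intro s x
        rw [RingHom.id_apply, Finset.smul_sum]
        exact Finset.sum_congr rfl fun j _ => by rw [hsm, mul_smul_comm] }
  have hD : ∀ z, D z = P.eval z := by
    intro z
    simp only [P, Polynomial.eval_finsetSum, Polynomial.eval_mul, Polynomial.eval_C,
      Polynomial.eval_pow, Polynomial.eval_X]
    rfl
  have hP : P = 0 := by
    refine Polynomial.eq_zero_of_natDegree_lt_card_of_eval_eq_zero P hf ?_ ?_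
    · intro t
      rw [← hD]
      simp only [f, map_sum, map_smul]
      refine Finset.sum_eq_zero fun i _ => ?_
      have : D (c i) = 0 := hA i
      rw [this, smul_zero]
    · rw [Fintype.card_fun, ZMod.card, Fintype.card_fin]
      have h1 : P.natDegree ≤ p ^ m := by
        apply Polynomial.natDegree_sum_le_of_forall_le
        intro j hj
        refine (Polynomial.natDegree_C_mul_X_pow_le _ _).trans ?_
        exact Nat.pow_le_pow_right (by omega) (by rw [Finset.mem_range] at hj; omega)
      exact lt_of_le_of_lt h1 (Nat.pow_lt_pow_right hp hm)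
  intro j hj
  have h1 : P.coeff (p ^ j) = A j := by
    simp only [P, Polynomial.finsetSum_coeff, Polynomial.coeff_C_mul, Polynomial.coeff_X_pow]
    rw [Finset.sum_eq_single j]
    · rw [if_pos rfl, mul_one]
    · intro i _ hij
      rw [if_neg, mul_zero]
      intro h
      exact hij (Nat.pow_right_injective hp h).symm
    · intro h
      exfalso
      apply h
      rw [Finset.mem_range]; omega
  rw [← h1, hP, Polynomial.coeff_zero]

end Pool.Agent.Helper3.CM
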