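import Pool.Agent.Helper3.CM.Exist1
import Pool.Agent.Helper3.CM.Crit

namespace Pool.Agent.Helper3.CM

variable {p : ℕ} [Fact p.Prime] {K : Type*} [Field K] [Finite K] [Algebra (ZMod p) K] [CharP K p]

/-- Frobenius -/
noncomputable def frob : K ≃ₐ[ZMod p] K :=
  FiniteField.frobeniusAlgEquivOfAlgebraic (ZMod p) K

omit [CharP K p] in
theorem frob_apply (z : K) : frob (p := p) z = z ^ p := by
  unfold frob
  rw [FiniteField.coe_frobeniusAlgEquivOfAlgebraic, ZMod.card]

omit [CharP K p] in
theorem frob_pow_apply (i : ℕ) (z : K) : (frob (p := p) ^ i : K ≃ₐ[ZMod p] K) z = z ^ p ^ i := by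
  induction i with
  | zero => simp
  | succ i ih =>
    rw [pow_succ', AlgEquiv.mul_apply, ih, frob_apply, ← pow_mul, ← pow_succ]

omit [CharP K p] in
theorem frob_order : orderOf (frob (p := p) (K := K)) = Module.finrank (ZMod p) K :=
  FiniteField.orderOf_frobeniusAlgEquivOfAlgebraic _ _

omit [CharP K p] in
/-- Data of a normal element. -/
theorem exists_normal : ∃ (b : Module.Basis (K ≃ₐ[ZMod p] K) (ZMod p) K), ∀ τ, b τ = τ (b 1) := by
  have : Module.Finite (ZMod p) K := Module.Finite.of_finite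
  exact ⟨IsGalois.normalBasis (ZMod p) K, fun τ => IsGalois.normalBasis_apply τ⟩

variable (b : Module.Basis (K ≃ₐ[ZMod p] K) (ZMod p) K) (hb : ∀ τ, b τ = τ (b 1))

include hb

theorem normal_gen :
    Algebra.adjoin (ZMod p) {b 1 ^ p / b 1} = ⊤ := by
  have : Module.Finite (ZMod p) K := Module.Finite.of_finite
  have hβ : b 1 ≠ 0 := b.ne_zero 1
  set β := b 1 with hβdef
  set r := β ^ p / β with hr
  have h1 : (IntermediateField.adjoin (ZMod p) {r}).fixingSubgroup = ⊥ := by
    rw [eq_bot_iff]
    intro τ hτ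
    rw [Subgroup.mem_bot]
    have h2 : τ r = r := by
      have := (IntermediateField.mem_fixingSubgroup_iff _ τ).1 hτ r
        (IntermediateField.mem_adjoin_simple_self _ _)
      exact this
    rw [hr, map_div₀, map_pow] at h2
    have hτβ : τ β ≠ 0 := (map_ne_zero τ).2 hβ
    have h3 : (τ β / β) ^ p = τ β / β := by
      rw [div_pow]
      have hβp : β ^ p ≠ 0 := pow_ne_zero _ hβ
      field_simp at h2 ⊢
      linear_combination h2
    obtain ⟨a, ha⟩ := (fix_iff _).1 h3
    have h4 : b τ = a • b 1 := by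
      rw [hb, ← hβdef, sd, ha]
      field_simp
    by_contra hne
    have h5 := congrArg (fun z => b.repr z τ) h4
    simp only [map_smul, Module.Basis.repr_self, Finsupp.smul_apply, smul_eq_mul] at h5
    rw [Finsupp.single_eq_same, Finsupp.single_eq_of_ne (by exact hne), mul_zero] at h5
    exact one_ne_zero h5
  have h2 : IntermediateField.adjoin (ZMod p) {r} = ⊤ := by
    rw [← IsGalois.fixedField_fixingSubgroup (IntermediateField.adjoin (ZMod p) {r}), h1,
      IntermediateField.fixedField_bot]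
  rw [← IntermediateField.adjoin_simple_toSubalgebra_of_isAlgebraic
    (Algebra.IsAlgebraic.isAlgebraic r), h2, IntermediateField.top_toSubalgebra]

/-- The conjugates. -/
noncomputable def cc (n : ℕ) : Fin n → K := fun i => b 1 ^ p ^ (i : ℕ)

omit [CharP K p] in
theorem cc_eq (n : ℕ) (i : Fin n) : cc b n i = b (frob ^ (i : ℕ)) := by
  rw [hb, frob_pow_apply]; rfl

omit [CharP K p] in
theorem cc_indep (n : ℕ) (hn : n ≤ Module.finrank (ZMod p) K) :
    LinearIndependent (ZMod p) (cc b n) := by
  have h1 : cc b n = b ∘ (fun i : Fin n => (frob ^ (i : ℕ) : K ≃ₐ[ZMod p] K)) := by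
    ext i
    exact cc_eq b hb n i
  rw [h1]
  apply b.linearIndependent.comp
  intro i j hij
  apply Fin.ext
  apply pow_injOn_Iio_orderOf (x := frob (p := p) (K := K)) _ _ hij
  · rw [Set.mem_Iio, frob_order]; omega
  · rw [Set.mem_Iio, frob_order]; omega

omit [CharP K p] in
theorem cc_coord (n : ℕ) (τ : K ≃ₐ[ZMod p] K) (h : τ (b 1) ∈ Submodule.span (ZMod p)
    (Set.range (cc b n))) : ∃ i : Fin n, τ = frob ^ (i : ℕ) := by
  by_contra hcon
  push Not at hcon
  have h1 : Submodule.span (ZMod p) (Set.range (cc b n)) ≤ LinearMap.ker (b.coord τ) := by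
    rw [Submodule.span_le]
    rintro _ ⟨i, rfl⟩
    rw [cc_eq b hb]
    change b.coord τ (b (frob ^ (i : ℕ))) = 0
    rw [Module.Basis.coord_apply, Module.Basis.repr_self,
      Finsupp.single_eq_of_ne (hcon i)]
  have h2 := h1 h
  rw [← hb, LinearMap.mem_ker, Module.Basis.coord_apply, Module.Basis.repr_self,
    Finsupp.single_eq_same] at h2
  exact one_ne_zero h2

/-- The power map. -/
noncomputable def pw {n : ℕ} (c : Fin n → K) (a₁ a₂ : K →ₗ[ZMod p] K) (x : K × K) :
    Fin n → ZMod p :=
  fun i => Algebra.trace (ZMod p) K (om (a₁ (c i), a₂ (c i)) x)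

omit hb [Finite K] [CharP K p] in
theorem pw_add {n : ℕ} (c : Fin n → K) (a₁ a₂ : K →ₗ[ZMod p] K) (x y : K × K) :
    pw c a₁ a₂ (x + y) = pw c a₁ a₂ x + pw c a₁ a₂ y := by
  ext i
  simp only [pw, Pi.add_apply]
  rw [← map_add]
  congr 1
  simp only [om, Prod.fst_add, Prod.snd_add]; ring

omit hb [Finite K] [Algebra (ZMod p) K] in
theorem delta_one {δ : K} (hδ : δ ≠ 0) (h : δ ^ p * δ = δ) : δ = 1 := by
  have h1 : δ ^ p = 1 := by
    have : (δ ^ p - 1) * δ = 0 := by rw [sub_mul, one_mul, h, sub_self]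
    exact sub_eq_zero.1 ((mul_eq_zero.1 this).resolve_right hδ)
  have h2 : frobenius K p δ = frobenius K p 1 := by
    rw [frobenius_def, frobenius_def, h1, one_pow]
  exact frobenius_inj K p h2

omit [Finite K] [CharP K p] in
theorem s_id (s : K ≃+* K) (h : s (b 1) = b 1) (z : K) : s z = z := by
  have hs : ∀ r, s (algebraMap (ZMod p) K r) = algebraMap (ZMod p) K r := by
    intro r
    exact RingHom.congr_fun (Subsingleton.elim ((s : K →+* K).comp (algebraMap (ZMod p) K))
      (algebraMap (ZMod p) K)) r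
  have h1 : AlgEquiv.ofRingEquiv (f := s) hs = 1 := by
    apply b.injective
    rw [hb]
    exact h
  exact AlgEquiv.congr_fun h1 z

theorem rigid_ge3 (n : ℕ) (hn : 3 ≤ n) (hnk : n ≤ Module.finrank (ZMod p) K) :
    Rigid (BB (p := p) (cc b n)) (pw (cc b n)
      (LinearMap.id + (frob (p := p) (K := K) ^ 2).toLinearMap)
      ((frob (p := p) (K := K)).toLinearMap +
        (LinearMap.mulLeft (ZMod p) (b 1)).comp (frob (p := p) (K := K) ^ 2).toLinearMap)) := by
  intro g h hB hπ
  have hβ : b 1 ≠ 0 := b.ne_zero 1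
  have hind := cc_indep b hb n hnk
  have hc0 : cc b n ⟨0, by omega⟩ = b 1 := by simp [cc]
  have hc1 : cc b n ⟨1, by omega⟩ = b 1 ^ p := by simp [cc]
  obtain ⟨s, c', u, v, -, hg, hδ, hsc, h1, h2⟩ := main_ident (cc b n) ⟨0, by omega⟩ ⟨1, by omega⟩
    (by rw [hc0]; exact hβ) (by rw [hc0, hc1]; exact normal_gen b hb) _ _ g h hB hπ
  set δ := om u v with hδdef
  have hadd : ∀ (j : ℕ) (a b : K), (a + b) ^ p ^ j = a ^ p ^ j + b ^ p ^ j := by
    intro j a b
    exact add_pow_char_pow ..
  have P1 := lin_poly (cc b n) hind 2 (by omega)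
    (fun j => if j = 0 then v.2 - δ else if j = 1 then - v.1 else v.2 - b 1 * v.1 - δ ^ p ^ 2) (by
      intro i
      have e := h1 i
      simp only [LinearMap.add_apply, LinearMap.id_apply, AlgEquiv.toLinearMap_apply,
        LinearMap.comp_apply, LinearMap.mulLeft_apply, frob_apply, frob_pow_apply, map_add,
        map_pow, hsc] at e
      simp only [Finset.sum_range_succ, Finset.sum_range_zero, zero_add]
      simp only [if_true, one_ne_zero, if_false, pow_zero, pow_one, two_ne_zero,
        OfNat.ofNat_ne_one]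
      rw [mul_pow] at e
      linear_combination e)
  have P2 := lin_poly (cc b n) hind 2 (by omega)
    (fun j => if j = 0 then u.2 else if j = 1 then - u.1 + δ ^ p else
      u.2 - b 1 * u.1 + s (b 1) * δ ^ p ^ 2) (by
      intro i
      have e := h2 i
      simp only [LinearMap.add_apply, LinearMap.id_apply, AlgEquiv.toLinearMap_apply,
        LinearMap.comp_apply, LinearMap.mulLeft_apply, frob_apply, frob_pow_apply, map_add,
        map_pow, map_mul, hsc] at e
      simp only [Finset.sum_range_succ, Finset.sum_range_zero, zero_add]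
      simp only [if_true, one_ne_zero, if_false, pow_zero, pow_one, two_ne_zero,
        OfNat.ofNat_ne_one]
      rw [mul_pow, mul_pow] at e
      linear_combination e)
  have p10 := P1 0 (by omega)
  have p11 := P1 1 (by omega)
  have p12 := P1 2 (by omega)
  have p20 := P2 0 (by omega)
  have p21 := P2 1 (by omega)
  have p22 := P2 2 (by omega)
  simp only [if_true, one_ne_zero, if_false, two_ne_zero, OfNat.ofNat_ne_one] at p10 p11 p12 p20 p21 p22
  have v2 : v.2 = δ := sub_eq_zero.1 p10
  have v1 : v.1 = 0 := neg_eq_zero.1 p11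
  have u2 : u.2 = 0 := p20
  have u1 : u.1 = δ ^ p := by linear_combination -p21
  have hd : δ = 1 := by
    apply delta_one hδ
    have : δ = u.1 * v.2 - u.2 * v.1 := hδdef
    rw [v1, v2, u1, u2] at this
    linear_combination -this
  rw [hd] at v2 u1 p22
  rw [one_pow] at u1
  rw [u2, u1, one_pow] at p22
  have hs1 : s (b 1) = b 1 := by linear_combination p22
  intro x
  rw [hg, s_id b hb s hs1, s_id b hb s hs1]
  ext
  · simp [u1, v1]
  · simp [u2, v2]

theorem rigid_two (hk : 3 ≤ Module.finrank (ZMod p) K) :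
    Rigid (BB (p := p) (cc b 2)) (pw (cc b 2) LinearMap.id
      ((frob (p := p) (K := K)).toLinearMap)) := by
  intro g h hB hπ
  have hβ : b 1 ≠ 0 := b.ne_zero 1
  have hind := cc_indep b hb 2 (by omega)
  have hc0 : cc b 2 0 = b 1 := by simp [cc]
  have hc1 : cc b 2 1 = b 1 ^ p := by simp [cc]
  obtain ⟨s, c', u, v, hspan, hg, hδ, hsc, h1, h2⟩ := main_ident (cc b 2) 0 1
    (by rw [hc0]; exact hβ) (by rw [hc0, hc1]; exact normal_gen b hb) _ _ g h hB hπ
  set δ := om u v with hδdef
  have P1 := lin_poly (cc b 2) hind 1 (by omega)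
    (fun j => if j = 0 then v.2 - δ else - v.1) (by
      intro i
      have e := h1 i
      simp only [LinearMap.id_apply, AlgEquiv.toLinearMap_apply, frob_apply, hsc] at e
      simp only [Finset.sum_range_succ, Finset.sum_range_zero, zero_add]
      simp only [if_true, one_ne_zero, if_false, pow_zero, pow_one]
      linear_combination e)
  have P2 := lin_poly (cc b 2) hind 1 (by omega)
    (fun j => if j = 0 then u.2 else - u.1 + δ ^ p) (by
      intro i
      have e := h2 i
      simp only [LinearMap.id_apply, AlgEquiv.toLinearMap_apply, frob_apply, map_pow, hsc] at e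
      simp only [Finset.sum_range_succ, Finset.sum_range_zero, zero_add]
      simp only [if_true, one_ne_zero, if_false, pow_zero, pow_one]
      rw [mul_pow] at e
      linear_combination e)
  have p10 := P1 0 (by omega)
  have p11 := P1 1 (by omega)
  have p20 := P2 0 (by omega)
  have p21 := P2 1 (by omega)
  simp only [if_true, one_ne_zero, if_false] at p10 p11 p20 p21
  have v2 : v.2 = δ := sub_eq_zero.1 p10
  have v1 : v.1 = 0 := neg_eq_zero.1 p11
  have u2 : u.2 = 0 := p20
  have u1 : u.1 = δ ^ p := by linear_combination -p21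
  have hd : δ = 1 := by
    apply delta_one hδ
    have : δ = u.1 * v.2 - u.2 * v.1 := hδdef
    rw [v1, v2, u1, u2] at this
    linear_combination -this
  rw [hd] at v2 u1
  rw [one_pow] at u1
  -- the automorphism is trivial
  have hs : ∀ r, s.symm (algebraMap (ZMod p) K r) = algebraMap (ZMod p) K r := by
    intro r
    exact RingHom.congr_fun (Subsingleton.elim ((s.symm : K →+* K).comp (algebraMap (ZMod p) K))
      (algebraMap (ZMod p) K)) r
  let τ : K ≃ₐ[ZMod p] K := AlgEquiv.ofRingEquiv (f := s.symm) hs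
  have hτ : ∀ z, τ z = s.symm z := fun z => rfl
  have hcs : ∀ i, c' i = s.symm (cc b 2 i) := by
    intro i
    rw [RingEquiv.eq_symm_apply, hsc, hd, mul_one]
  obtain ⟨i, hi⟩ := cc_coord b hb 2 τ (by
    rw [hτ, ← hc0, ← hcs]
    exact hspan 0)
  obtain ⟨j, hj⟩ := cc_coord b hb 2 (τ * frob) (by
    rw [AlgEquiv.mul_apply, frob_apply, hτ, ← hc1, ← hcs]
    exact hspan 1)
  have hord := frob_order (p := p) (K := K)
  have hi0 : (i : ℕ) = 0 := by
    by_contra hne
    have hi1 : (i : ℕ) = 1 := by omega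
    rw [hi1] at hi
    rw [hi, ← pow_succ] at hj
    have h3 : (1 + 1) = (j : ℕ) := by
      apply pow_injOn_Iio_orderOf (x := frob (p := p) (K := K)) _ _ hj
      · rw [Set.mem_Iio, hord]; omega
      · rw [Set.mem_Iio, hord]; omega
    omega
  rw [hi0, pow_zero] at hi
  have hs1 : s (b 1) = b 1 := by
    have h3 : τ (b 1) = b 1 := by rw [hi]; rfl
    rw [hτ, RingEquiv.symm_apply_eq] at h3
    exact h3.symm
  intro x
  rw [hg, s_id b hb s hs1, s_id b hb s hs1]
  ext
  · simp [u1, v1]
  · simp [u2, v2]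

end Pool.Agent.Helper3.CM
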