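import Pool.Agent.Helper3.CM.Pfaff
import Pool.Agent.Helper3.CM.Crit

namespace Pool.Agent.Helper3.CM

variable {p : ℕ} [Fact p.Prime]

theorem vec_expand {m : ℕ} (v : Fin m → ZMod p) :
    v = ∑ i, v i • (Pi.single i 1 : Fin m → ZMod p) := by
  conv_lhs => rw [← Finset.univ_sum_single v]
  refine Finset.sum_congr rfl fun i _ => ?_
  rw [← Pi.single_smul, smul_eq_mul, mul_one]

theorem neg_of_alt {V W : Type*} [AddCommGroup V] [Module (ZMod p) V] [AddCommGroup W]
    [Module (ZMod p) W] {B : V →ₗ[ZMod p] V →ₗ[ZMod p] W} (hB : ∀ x, B x x = 0) (x y : V) :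
    B x y = - B y x := by
  have h := hB (x + y)
  rw [map_add, map_add, LinearMap.add_apply, LinearMap.add_apply, hB, hB, zero_add, add_zero] at h
  rw [add_comm] at h
  exact eq_neg_of_add_eq_zero_left h

theorem bound {m n : ℕ} (hm : 0 < m) (hn : 0 < n)
    (B : (Fin m → ZMod p) →ₗ[ZMod p] (Fin m → ZMod p) →ₗ[ZMod p] (Fin n → ZMod p))
    (hB : ∀ x, B x x = 0) (hs : ∀ x, x ≠ 0 → Function.Surjective (B x)) :
    Even m ∧ 2 * n ≤ m := by
  classical
  have hneg := neg_of_alt hB
  refine pencil_bound (F := ZMod p) m n hm hn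
    (fun k => Matrix.of fun i j => B (Pi.single i 1) (Pi.single j 1) k) ?_ ?_ ?_
  · intro k i
    rw [Matrix.of_apply, hB]; rfl
  · intro k i j
    rw [Matrix.of_apply, Matrix.of_apply, hneg]; rfl
  · intro t ht hdet
    rw [← Matrix.exists_vecMul_eq_zero_iff] at hdet
    obtain ⟨v, hv, hv0⟩ := hdet
    apply ht
    -- the functional `t ∘ B v` vanishes
    have h1 : ∀ j, ∑ k, t k * B v (Pi.single j 1) k = 0 := by
      intro j
      have h2 := congrFun hv0 j
      rw [Matrix.vecMul, dotProduct] at h2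
      simp only [Matrix.sum_apply, Matrix.smul_apply, Matrix.of_apply, smul_eq_mul,
        Pi.zero_apply, Finset.mul_sum] at h2
      rw [← h2, Finset.sum_comm]
      refine Finset.sum_congr rfl fun k _ => ?_
      have h3 : B v (Pi.single j 1) k = ∑ i, v i * B (Pi.single i 1) (Pi.single j 1) k := by
        conv_lhs => rw [vec_expand v]
        rw [map_sum, LinearMap.sum_apply, Finset.sum_apply]
        refine Finset.sum_congr rfl fun i _ => ?_
        rw [map_smul, LinearMap.smul_apply, Pi.smul_apply, smul_eq_mul]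
      rw [h3, Finset.mul_sum]
      refine Finset.sum_congr rfl fun i _ => ?_
      ring
    have h2 : ∀ y, ∑ k, t k * B v y k = 0 := by
      intro y
      have h3 : ∀ k, B v y k = ∑ j, y j * B v (Pi.single j 1) k := by
        intro k
        conv_lhs => rw [vec_expand y]
        rw [map_sum, Finset.sum_apply]
        refine Finset.sum_congr rfl fun i _ => ?_
        rw [map_smul, Pi.smul_apply, smul_eq_mul]
      calc ∑ k, t k * B v y k = ∑ k, ∑ j, y j * (t k * B v (Pi.single j 1) k) := by
            refine Finset.sum_congr rfl fun k _ => ?_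
            rw [h3, Finset.mul_sum]
            exact Finset.sum_congr rfl fun j _ => by ring
        _ = ∑ j, y j * ∑ k, t k * B v (Pi.single j 1) k := by
            rw [Finset.sum_comm]
            exact Finset.sum_congr rfl fun j _ => by rw [Finset.mul_sum]
        _ = 0 := by
            refine Finset.sum_eq_zero fun j _ => ?_
            rw [h1, mul_zero]
    ext k
    obtain ⟨y, hy⟩ := hs v hv (Pi.single k 1)
    have h3 := h2 y
    rw [hy, Finset.sum_eq_single k] at h3
    · rw [Pi.single_eq_same, mul_one] at h3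
      exact h3
    · intro j _ hj
      rw [Pi.single_eq_of_ne hj, mul_zero]
    · intro h
      exact absurd (Finset.mem_univ k) h

/-- Transport of rigidity. -/
theorem rigid_transport {V W V' W' : Type*} [AddCommGroup V] [Module (ZMod p) V] [AddCommGroup W]
    [Module (ZMod p) W] [AddCommGroup V'] [Module (ZMod p) V'] [AddCommGroup W']
    [Module (ZMod p) W'] {B : V →ₗ[ZMod p] V →ₗ[ZMod p] W} {π : V → W}
    {B' : V' →ₗ[ZMod p] V' →ₗ[ZMod p] W'} {π' : V' → W'} (φ : V ≃ₗ[ZMod p] V')
    (j : W ≃ₗ[ZMod p] W') (hB : ∀ x y, B' (φ x) (φ y) = j (B x y)) (hπ : ∀ x, π' (φ x) = j (π x))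
    (h : Rigid B' π') : Rigid B π := by
  intro g k hg hk x
  have h1 := h ((φ.symm.trans g).trans φ) ((j.symm.trans k).trans j) (by
    intro x y
    have e := hB (φ.symm x) (φ.symm y)
    rw [LinearEquiv.apply_symm_apply, LinearEquiv.apply_symm_apply] at e
    simp only [LinearEquiv.trans_apply]
    rw [hB, hg, e, LinearEquiv.symm_apply_apply]) (by
    intro x
    have e := hπ (φ.symm x)
    rw [LinearEquiv.apply_symm_apply] at e
    simp only [LinearEquiv.trans_apply]
    rw [hπ, hk, e, LinearEquiv.symm_apply_apply]) (φ x)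
  simp only [LinearEquiv.trans_apply, LinearEquiv.symm_apply_apply] at h1
  exact φ.injective h1

/-- One-dimensional `W`, odd `p`: transvections. -/
theorem not_rigid_one {V : Type*} [AddCommGroup V] [Module (ZMod p) V] [Finite V] [Nontrivial V]
    (B : V →ₗ[ZMod p] V →ₗ[ZMod p] (Fin 1 → ZMod p)) (hB : ∀ x, B x x = 0)
    (hs : ∀ x, x ≠ 0 → Function.Surjective (B x)) (π : V → (Fin 1 → ZMod p))
    (hπ : ∀ x y, π (x + y) = π x + π y) : ¬ Rigid B π := by
  intro hR
  have hneg := neg_of_alt hB
  let ω : V →ₗ[ZMod p] Module.Dual (ZMod p) V :=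
    LinearMap.mk₂ (ZMod p) (fun x y => B x y 0) (fun a b c => by
      rw [map_add, LinearMap.add_apply, Pi.add_apply]) (fun a b c => by
      rw [map_smul, LinearMap.smul_apply, Pi.smul_apply]) (fun a b c => by
      rw [map_add, Pi.add_apply]) (fun a b c => by
      rw [map_smul, Pi.smul_apply])
  have hω : ∀ x y, ω x y = B x y 0 := fun x y => rfl
  have hinj : Function.Injective ω := by
    rw [injective_iff_map_eq_zero]
    intro a ha
    by_contra hne
    obtain ⟨y, hy⟩ := hs a hne (fun _ => 1)
    have h1 := LinearMap.congr_fun ha y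
    rw [hω, hy] at h1
    exact one_ne_zero h1
  have : FiniteDimensional (ZMod p) V := Module.Finite.of_finite
  have hsurj : Function.Surjective ω :=
    (LinearMap.injective_iff_surjective_of_finrank_eq_finrank
      (Subspace.dual_finrank_eq (K := ZMod p) (V := V)).symm).1 hinj
  let π₀ : V →+ ZMod p := AddMonoidHom.mk' (fun x => π x 0) (fun a b => by rw [hπ]; rfl)
  obtain ⟨a₀, ha₀⟩ := hsurj (π₀.toZModLinearMap p)
  have hex : ∃ a : V, a ≠ 0 ∧ ω a₀ a = 0 := by
    by_cases h : a₀ = 0
    · obtain ⟨a, ha⟩ := exists_ne (0 : V)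
      exact ⟨a, ha, by rw [h, map_zero]; rfl⟩
    · exact ⟨a₀, h, by rw [hω, hB]; rfl⟩
  obtain ⟨a, ha, haa⟩ := hex
  let g₀ : V →ₗ[ZMod p] V := LinearMap.id + (ω a).smulRight a
  have hg₀ : ∀ x, g₀ x = x + ω a x • a := fun x => rfl
  have hg₀inj : Function.Injective g₀ := by
    rw [injective_iff_map_eq_zero]
    intro x hx
    rw [hg₀] at hx
    have h1 : ω a x = 0 := by
      have h2 : ω a (x + ω a x • a) = 0 := by rw [hx, map_zero]
      rw [map_add, map_smul] at h2
      have h3 : ω a a = 0 := by rw [hω, hB]; rfl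
      rwa [h3, smul_zero, add_zero] at h2
    rwa [h1, zero_smul, add_zero] at hx
  let g : V ≃ₗ[ZMod p] V := LinearEquiv.ofInjectiveEndo g₀ hg₀inj
  have hg : ∀ x, g x = x + ω a x • a := fun x => rfl
  have h1 := hR g (LinearEquiv.refl _ _) (by
    intro x y
    rw [LinearEquiv.refl_apply, hg, hg, map_add, map_add, LinearMap.add_apply,
      LinearMap.add_apply, map_smul, map_smul, map_smul, LinearMap.smul_apply,
      LinearMap.smul_apply, hB, smul_zero, smul_zero, add_zero]
    ext i
    fin_cases i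
    simp only [Fin.zero_eta, Pi.add_apply, Pi.smul_apply]
    have e1 : B x a 0 = - ω a x := by rw [hneg, hω]; rfl
    have e2 : B a y 0 = ω a y := rfl
    rw [e1, e2, smul_eq_mul, smul_eq_mul]
    ring) (by
    intro x
    rw [LinearEquiv.refl_apply, hg]
    ext i
    fin_cases i
    change π₀.toZModLinearMap p (x + ω a x • a) = π₀.toZModLinearMap p x
    rw [← ha₀, map_add, map_smul, haa, smul_zero, add_zero])
  obtain ⟨y, hy⟩ := hs a ha (fun _ => 1)
  have h2 := h1 y
  rw [hg, add_eq_left, hω, hy, one_smul] at h2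
  exact ha h2

end Pool.Agent.Helper3.CM
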