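import Pool.Agent.Helper3.CM.Non1

namespace Pool.Agent.Helper3.CM

variable {p : ℕ} [Fact p.Prime]

section K2

variable {K : Type*} [Field K] [Algebra (ZMod p) K]

/-- standard symplectic form -/
def om (x y : K × K) : K := x.1 * y.2 - x.2 * y.1

theorem sd (s : ZMod p) (z : K) : s • z = algebraMap (ZMod p) K s * z := Algebra.smul_def s z

theorem fix_iff [CharP K p] (x : K) : x ^ p = x ↔ ∃ a : ZMod p, algebraMap (ZMod p) K a = x := by
  rw [← Subfield.mem_bot_iff_pow_eq_self K p]
  constructor
  · intro h
    have h1 : (⊥ : Subfield K) ≤ (algebraMap (ZMod p) K).fieldRange := bot_le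
    exact h1 h
  · rintro ⟨a, rfl⟩
    rw [Subfield.mem_bot_iff_pow_eq_self K p, ← map_pow, ZMod.pow_card]

theorem exists_nonfixed [Fintype K] [CharP K p] (hK : p < Fintype.card K) : ∃ θ : K, θ ^ p ≠ θ := by
  by_contra hcon
  push Not at hcon
  have h1 : ∀ x : K, ∃ a : ZMod p, algebraMap (ZMod p) K a = x := fun x => (fix_iff x).1 (hcon x)
  have h2 := Fintype.card_le_of_surjective _ h1
  rw [ZMod.card] at h2
  omega

variable [CharP K p] [Fintype K] (hK : Fintype.card K = p ^ 2)

include hK

omit [Fact p.Prime] [Algebra (ZMod p) K] [CharP K p] in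
theorem pp (z : K) : (z ^ p) ^ p = z := by
  rw [← pow_mul, ← pow_two, ← hK, FiniteField.pow_card]

theorem lin_form (L : K →ₗ[ZMod p] K) : ∃ c d : K, ∀ z, L z = c * z + d * z ^ p := by
  have hp := (Fact.out : p.Prime).one_lt
  obtain ⟨θ, hθ⟩ := exists_nonfixed (p := p) (K := K) (by rw [hK]; nlinarith)
  have hne : θ ^ p - θ ≠ 0 := sub_ne_zero.2 hθ
  refine ⟨L 1 - (L θ - θ * L 1) / (θ ^ p - θ), (L θ - θ * L 1) / (θ ^ p - θ), ?_⟩
  intro z
  have hsub : ∀ a b : K, (a - b) ^ p = a ^ p - b ^ p := fun a b => map_sub (frobenius K p) a b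
  set β := (z ^ p - z) / (θ ^ p - θ) with hβ
  have hβp : β ^ p = β := by
    rw [hβ, div_pow, hsub, hsub, pp hK, pp hK, ← neg_sub (z ^ p), ← neg_sub (θ ^ p), neg_div_neg_eq]
  have hβ' : β * (θ ^ p - θ) = z ^ p - z := div_mul_cancel₀ _ hne
  have hαp : (z - β * θ) ^ p = z - β * θ := by
    rw [hsub, mul_pow, hβp]
    linear_combination -hβ'
  obtain ⟨a, ha⟩ := (fix_iff _).1 hαp
  obtain ⟨b, hb⟩ := (fix_iff _).1 hβp
  have hz : z = a • (1 : K) + b • θ := by
    rw [Algebra.smul_def, Algebra.smul_def, ha, hb]; ring
  have hz' : z = (z - β * θ) + β * θ := by ring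
  have hzp : z ^ p = (z - β * θ) + β * θ ^ p := by linear_combination -hβ'
  conv_lhs => rw [hz]
  rw [map_add, map_smul, map_smul, Algebra.smul_def, Algebra.smul_def, ha, hb]
  have hd : (L θ - θ * L 1) / (θ ^ p - θ) * (θ ^ p - θ) = L θ - θ * L 1 := div_mul_cancel₀ _ hne
  rw [hzp]
  linear_combination -β * hd

theorem lin_form2 (L : K × K →ₗ[ZMod p] K) : ∃ a b : K × K, ∀ x, L x = om a x + (om b x) ^ p := by
  obtain ⟨c₁, d₁, h₁⟩ := lin_form hK (L.comp (LinearMap.inl (ZMod p) K K))
  obtain ⟨c₂, d₂, h₂⟩ := lin_form hK (L.comp (LinearMap.inr (ZMod p) K K))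
  have hsub : ∀ a b : K, (a - b) ^ p = a ^ p - b ^ p := fun a b => map_sub (frobenius K p) a b
  have hneg : ∀ a : K, (-a) ^ p = - a ^ p := fun a => map_neg (frobenius K p) a
  refine ⟨(c₂, -c₁), (d₂ ^ p, -(d₁ ^ p)), ?_⟩
  rintro ⟨x, y⟩
  have e : L (x, y) = L.comp (LinearMap.inl (ZMod p) K K) x +
      L.comp (LinearMap.inr (ZMod p) K K) y := by
    rw [LinearMap.comp_apply, LinearMap.comp_apply, ← map_add]
    simp
  rw [e, h₁, h₂]
  simp only [om]
  rw [hsub, mul_pow, mul_pow, hneg, pp hK, pp hK]
  ring

theorem K4 (L : K × K →ₗ[ZMod p] K) :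
    ∃ (G : (K × K) ≃ₗ[ZMod p] (K × K)) (H : K ≃ₗ[ZMod p] K),
      (∀ x y, om (G x) (G y) = H (om x y)) ∧ (∀ x, L (G x) = H (L x)) ∧ ∃ x, G x ≠ x := by
  classical
  have hp := (Fact.out : p.Prime).one_lt
  obtain ⟨a, b, hL⟩ := lin_form2 hK L
  have hadd : ∀ a b : K, (a + b) ^ p = a ^ p + b ^ p := fun a b => map_add (frobenius K p) a b
  have hsub : ∀ a b : K, (a - b) ^ p = a ^ p - b ^ p := fun a b => map_sub (frobenius K p) a b
  have hneg : ∀ a : K, (-a) ^ p = - a ^ p := fun a => map_neg (frobenius K p) a
  have hFs : ∀ (s : ZMod p) (z : K), (s • z) ^ p = s • z ^ p := by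
    intro s z
    rw [sd, sd, mul_pow, ← map_pow, ZMod.pow_card]
  by_cases hw : om a b = 0
  · -- dependent case
    have hc : ∃ c : K × K, c ≠ 0 ∧ om a c = 0 ∧ om b c = 0 := by
      by_cases ha : a = 0
      · by_cases hb : b = 0
        · refine ⟨(1, 0), by simp, ?_, ?_⟩
          · rw [ha]; simp [om]
          · rw [hb]; simp [om]
        · refine ⟨b, hb, hw, ?_⟩
          simp only [om]; ring
      · refine ⟨a, ha, ?_, ?_⟩
        · simp only [om]; ring
        · simp only [om] at hw ⊢
          linear_combination -hw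
    obtain ⟨c, hc, hac, hbc⟩ := hc
    let G₀ : K × K →ₗ[ZMod p] K × K :=
      { toFun := fun x => x + (om c x * c.1, om c x * c.2)
        map_add' := by
          intro x y
          ext <;> simp only [om, Prod.fst_add, Prod.snd_add] <;> ring
        map_smul' := by
          intro s x
          ext <;> simp only [om, Prod.smul_fst, Prod.smul_snd, Prod.fst_add, Prod.snd_add,
            RingHom.id_apply, sd] <;> ring }
    have hG₀ : ∀ x, G₀ x = x + (om c x * c.1, om c x * c.2) := fun x => rfl
    have hinj : Function.Injective G₀ := by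
      rw [injective_iff_map_eq_zero]
      intro x hx
      rw [hG₀] at hx
      have e1 : x.1 + om c x * c.1 = 0 := congrArg Prod.fst hx
      have e2 : x.2 + om c x * c.2 = 0 := congrArg Prod.snd hx
      have h0 : om c x = 0 := by
        have : om c x = c.1 * (x.2 + om c x * c.2) - c.2 * (x.1 + om c x * c.1) := by
          simp only [om]; ring
        rw [this, e1, e2]; ring
      rw [h0, zero_mul, add_zero] at e1 e2
      exact Prod.ext e1 e2
    refine ⟨LinearEquiv.ofInjectiveEndo G₀ hinj, LinearEquiv.refl _ _, ?_, ?_, ?_⟩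
    · intro x y
      change om (G₀ x) (G₀ y) = om x y
      rw [hG₀, hG₀]
      simp only [om, Prod.fst_add, Prod.snd_add]
      ring
    · intro x
      change L (G₀ x) = L x
      rw [hL, hL, hG₀]
      have e1 : om a (x + (om c x * c.1, om c x * c.2)) = om a x := by
        have : om a (x + (om c x * c.1, om c x * c.2)) = om a x + om c x * om a c := by
          simp only [om, Prod.fst_add, Prod.snd_add]; ring
        rw [this, hac, mul_zero, add_zero]
      have e2 : om b (x + (om c x * c.1, om c x * c.2)) = om b x := by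
        have : om b (x + (om c x * c.1, om c x * c.2)) = om b x + om c x * om b c := by
          simp only [om, Prod.fst_add, Prod.snd_add]; ring
        rw [this, hbc, mul_zero, add_zero]
      rw [e1, e2]
    · by_contra hcon
      push Not at hcon
      have h1 : ∀ x, (om c x * c.1, om c x * c.2) = ((0, 0) : K × K) := by
        intro x
        have := hcon x
        change G₀ x = x at this
        rw [hG₀, add_eq_left] at this
        exact this
      apply hc
      have h2 : c.1 = 0 := by
        have := congrArg Prod.fst (h1 (0, 1))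
        simp only [om, mul_one, mul_zero, sub_zero] at this
        exact mul_self_eq_zero.1 this
      have h3 : c.2 = 0 := by
        have := congrArg Prod.snd (h1 (1, 0))
        simp only [om, mul_one, mul_zero, zero_sub, neg_mul, neg_eq_zero] at this
        exact mul_self_eq_zero.1 this
      exact Prod.ext h2 h3
  · -- independent case
    set w := om a b with hwdef
    obtain ⟨θ, hθ⟩ := exists_nonfixed (p := p) (K := K) (by rw [hK]; nlinarith)
    let A : K × K → K := fun x => (om x b / w) ^ p
    let C : K × K → K := fun x => (w ^ (p - 1)) ^ 2 * (om a x / w) ^ p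
    have hAadd : ∀ x y, A (x + y) = A x + A y := by
      intro x y
      have : om (x + y) b / w = om x b / w + om y b / w := by
        rw [← add_div]; congr 1; simp only [om, Prod.fst_add, Prod.snd_add]; ring
      simp only [A, this, hadd]
    have hCadd : ∀ x y, C (x + y) = C x + C y := by
      intro x y
      have : om a (x + y) / w = om a x / w + om a y / w := by
        rw [← add_div]; congr 1; simp only [om, Prod.fst_add, Prod.snd_add]; ring
      simp only [C, this, hadd]; ring
    have hAs : ∀ (s : ZMod p) x, A (s • x) = s • A x := by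
      intro s x
      have : om (s • x) b / w = s • (om x b / w) := by
        simp only [om, Prod.smul_fst, Prod.smul_snd, sd]; ring
      simp only [A, this, hFs]
    have hCs : ∀ (s : ZMod p) x, C (s • x) = s • C x := by
      intro s x
      have : om a (s • x) / w = s • (om a x / w) := by
        simp only [om, Prod.smul_fst, Prod.smul_snd, sd]; ring
      simp only [C, this, hFs]
      rw [sd, sd]; ring
    let G₀ : K × K →ₗ[ZMod p] K × K :=
      { toFun := fun x => (A x * a.1 + C x * b.1, A x * a.2 + C x * b.2)
        map_add' := by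
          intro x y
          rw [hAadd, hCadd]
          ext <;> simp only [Prod.fst_add, Prod.snd_add] <;> ring
        map_smul' := by
          intro s x
          rw [hAs, hCs]
          ext <;> simp only [Prod.smul_fst, Prod.smul_snd, RingHom.id_apply, sd] <;>
            ring }
    have hG₀ : ∀ x, G₀ x = (A x * a.1 + C x * b.1, A x * a.2 + C x * b.2) := fun x => rfl
    let H₀ : K →ₗ[ZMod p] K :=
      { toFun := fun z => w ^ (p - 1) * z ^ p
        map_add' := by
          intro x y
          rw [hadd]; ring
        map_smul' := by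
          intro s x
          rw [hFs, RingHom.id_apply, sd, sd]; ring }
    have hH₀ : ∀ z, H₀ z = w ^ (p - 1) * z ^ p := fun z => rfl
    have hwp : w ^ (p - 1) * w = w ^ p := by
      rw [← pow_succ, Nat.sub_add_cancel (by omega)]
    have hwp0 : w ^ (p - 1) ≠ 0 := pow_ne_zero _ hw
    have hHinj : Function.Injective H₀ := by
      rw [injective_iff_map_eq_zero]
      intro z hz
      rw [hH₀] at hz
      exact pow_eq_zero_iff (by omega : p ≠ 0) |>.1 ((mul_eq_zero.1 hz).resolve_left hwp0)
    have hωG : ∀ x y, om (G₀ x) (G₀ y) = H₀ (om x y) := by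
      intro x y
      rw [hG₀, hG₀, hH₀]
      have e1 : om (A x * a.1 + C x * b.1, A x * a.2 + C x * b.2)
          (A y * a.1 + C y * b.1, A y * a.2 + C y * b.2) = (A x * C y - C x * A y) * w := by
        rw [hwdef]; simp only [om]; ring
      have e2 : A x * C y - C x * A y = (w ^ (p - 1)) ^ 2 *
          ((om x b / w) * (om a y / w) - (om a x / w) * (om y b / w)) ^ p := by
        rw [hsub, mul_pow, mul_pow]; simp only [A, C]; ring
      have e3 : (om x b / w) * (om a y / w) - (om a x / w) * (om y b / w) = om x y / w := by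
        field_simp
        rw [hwdef]; simp only [om]; ring
      rw [e1, e2, e3, div_pow]
      have e4 : w ^ p ≠ 0 := pow_ne_zero _ hw
      field_simp
      rw [← hwp]; ring
    have hGinj : Function.Injective G₀ := by
      rw [injective_iff_map_eq_zero]
      intro x hx
      have h1 : ∀ y, om x y = 0 := by
        intro y
        have := hωG x y
        rw [hx] at this
        have h0 : om (0 : K × K) (G₀ y) = 0 := by simp [om]
        rw [h0] at this
        apply hHinj
        rw [← this, map_zero]
      have h2 := h1 (0, 1)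
      have h3 := h1 (1, 0)
      simp only [om, mul_one, mul_zero, sub_zero, zero_sub, neg_eq_zero] at h2 h3
      exact Prod.ext h2 h3
    refine ⟨LinearEquiv.ofInjectiveEndo G₀ hGinj, LinearEquiv.ofInjectiveEndo H₀ hHinj, hωG, ?_, ?_⟩
    · intro x
      change L (G₀ x) = H₀ (L x)
      rw [hL, hL, hG₀, hH₀]
      have e1 : om a (A x * a.1 + C x * b.1, A x * a.2 + C x * b.2) = C x * w := by
        rw [hwdef]; simp only [om]; ring
      have e2 : om b (A x * a.1 + C x * b.1, A x * a.2 + C x * b.2) = - (A x * w) := by
        rw [hwdef]; simp only [om]; ring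
      have e3 : om b x = - om x b := by simp only [om]; ring
      rw [e1, e2, hneg, mul_pow, hadd, pp hK, e3]
      simp only [C]
      rw [pp hK, div_pow]
      have e4 : w ^ p ≠ 0 := pow_ne_zero _ hw
      field_simp
      rw [← hwp]; ring
    · refine ⟨(θ * a.1, θ * a.2), ?_⟩
      intro h
      change G₀ (θ * a.1, θ * a.2) = (θ * a.1, θ * a.2) at h
      rw [hG₀] at h
      have e1 : C (θ * a.1, θ * a.2) = 0 := by
        simp only [C]
        have : om a (θ * a.1, θ * a.2) = 0 := by simp only [om]; ring
        rw [this, zero_div, zero_pow (by omega), mul_zero]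
      have e2 : A (θ * a.1, θ * a.2) = θ ^ p := by
        simp only [A]
        have : om (θ * a.1, θ * a.2) b = θ * w := by rw [hwdef]; simp only [om]; ring
        rw [this, mul_div_cancel_right₀ _ hw]
      rw [e1, e2, zero_mul, zero_mul, add_zero, add_zero, Prod.mk.injEq] at h
      apply hθ
      have h3 : (θ ^ p - θ) * w = 0 := by
        rw [hwdef]
        simp only [om]
        linear_combination h.1 * b.2 - h.2 * b.1
      exact sub_eq_zero.1 ((mul_eq_zero.1 h3).resolve_right hw)

end K2

end Pool.Agent.Helper3.CM
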