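import Pool.Agent.Helper3.CM.Non2

namespace Pool.Agent.Helper3.CM

variable {p : ℕ} [Fact p.Prime]

/-- coordinate forms -/
def cB {V : Type*} [AddCommGroup V] [Module (ZMod p) V] {n : ℕ}
    (B : V →ₗ[ZMod p] V →ₗ[ZMod p] (Fin n → ZMod p)) (k : Fin n) :
    V →ₗ[ZMod p] V →ₗ[ZMod p] ZMod p :=
  LinearMap.mk₂ (ZMod p) (fun x y => B x y k) (fun a b c => by
    rw [map_add, LinearMap.add_apply, Pi.add_apply]) (fun a b c => by
    rw [map_smul, LinearMap.smul_apply, Pi.smul_apply]) (fun a b c => by
    rw [map_add, Pi.add_apply]) (fun a b c => by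
    rw [map_smul, Pi.smul_apply])

open Polynomial in
theorem struct42 {V : Type*} [AddCommGroup V] [Module (ZMod p) V] [Finite V]
    (hV : Module.finrank (ZMod p) V = 4)
    (B : V →ₗ[ZMod p] V →ₗ[ZMod p] (Fin 2 → ZMod p)) (hB : ∀ x, B x x = 0)
    (hs : ∀ x, x ≠ 0 → Function.Surjective (B x)) :
    ∃ (K : Type) (_ : Field K) (_ : Fintype K) (_ : Algebra (ZMod p) K) (_ : CharP K p),
      Fintype.card K = p ^ 2 ∧ ∃ (φ : (K × K) ≃ₗ[ZMod p] V) (j : K ≃ₗ[ZMod p] (Fin 2 → ZMod p)),
      ∀ x y, B (φ x) (φ y) = j (om x y) := by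
  classical
  have : FiniteDimensional (ZMod p) V := Module.Finite.of_finite
  have hneg := neg_of_alt hB
  have hinj : Function.Injective (cB B 0) := by
    rw [injective_iff_map_eq_zero]
    intro a ha
    by_contra hne
    obtain ⟨y, hy⟩ := hs a hne (fun _ => 1)
    have h1 : B a y 0 = 0 := LinearMap.congr_fun ha y
    rw [hy] at h1
    exact one_ne_zero h1
  let e1 : V ≃ₗ[ZMod p] Module.Dual (ZMod p) V :=
    LinearEquiv.ofInjectiveOfFinrankEq (cB B 0) hinj
      (Subspace.dual_finrank_eq (K := ZMod p) (V := V)).symm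
  let M : V →ₗ[ZMod p] V := e1.symm.toLinearMap.comp (cB B 1)
  have hM : ∀ x y, B (M x) y 0 = B x y 1 := by
    intro x y
    have h1 : e1 (M x) = cB B 1 x := by
      change e1 (e1.symm _) = _
      rw [LinearEquiv.apply_symm_apply]
    exact LinearMap.congr_fun h1 y
  have hadj0 : ∀ x y, B (M x) y 0 = B x (M y) 0 := by
    intro x y
    rw [hM, hneg x y, hneg x (M y), Pi.neg_apply, Pi.neg_apply, hM]
  have hadj : ∀ x y, B (M x) y = B x (M y) := by
    intro x y
    ext k
    fin_cases k
    · exact hadj0 x y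
    · change B (M x) y 1 = B x (M y) 1
      rw [← hM, ← hM, hadj0]
  have hself : ∀ x, B (M x) x = 0 := by
    intro x
    ext k
    fin_cases k
    · change B (M x) x 0 = 0
      rw [hM, hB]; rfl
    · change B (M x) x 1 = 0
      rw [← hM, hadj0, hB]; rfl
  have hnoeig : ∀ (s : ZMod p) x, M x = s • x → x = 0 := by
    intro s x hx
    by_contra hne
    obtain ⟨y, hy⟩ := hs x hne ![0, 1]
    have h1 := hM x y
    rw [hx, map_smul, LinearMap.smul_apply, hy] at h1
    simp at h1
  have hker : ∀ u, u ≠ 0 → ∀ y, B u y = 0 → ∃ s t : ZMod p, y = s • u + t • M u := by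
    intro u hu y hy
    have hli : LinearIndependent (ZMod p) ![u, M u] := by
      rw [LinearIndependent.pair_iff]
      intro s t hst
      have ht : t = 0 := by
        by_contra ht
        apply hu
        apply hnoeig (-(t⁻¹ * s)) u
        have h1 : t⁻¹ • (s • u + t • M u) = 0 := by rw [hst, smul_zero]
        rw [smul_add, smul_smul, smul_smul, inv_mul_cancel₀ ht, one_smul] at h1
        rw [neg_smul]
        exact eq_neg_of_add_eq_zero_right h1
      subst ht
      rw [zero_smul, add_zero] at hst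
      exact ⟨(smul_eq_zero.1 hst).resolve_right hu, rfl⟩
    have h1 : Module.finrank (ZMod p) (Submodule.span (ZMod p) (Set.range ![u, M u])) = 2 := by
      rw [finrank_span_eq_card hli, Fintype.card_fin]
    have h2 : Module.finrank (ZMod p) (LinearMap.ker (B u)) = 2 := by
      have h3 := LinearMap.finrank_range_add_finrank_ker (B u)
      rw [LinearMap.range_eq_top.2 (hs u hu), finrank_top, Module.finrank_fin_fun, hV] at h3
      omega
    have h3 : Submodule.span (ZMod p) (Set.range ![u, M u]) ≤ LinearMap.ker (B u) := by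
      rw [Submodule.span_le]
      rintro _ ⟨i, rfl⟩
      fin_cases i
      · change B u u = 0
        exact hB u
      · change B u (M u) = 0
        rw [← hadj]; exact hself u
    have h4 := Submodule.eq_of_le_of_finrank_eq h3 (h1.trans h2.symm)
    have h5 : y ∈ Submodule.span (ZMod p) (Set.range ![u, M u]) := by
      rw [h4]; exact hy
    have h6 : Set.range ![u, M u] = {u, M u} := by
      simp [Set.pair_comm]
    rw [h6, Submodule.mem_span_pair] at h5
    obtain ⟨s, t, hst⟩ := h5
    exact ⟨s, t, hst.symm⟩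
  have hnt : Nontrivial V := by
    rw [← Module.finrank_pos_iff (R := ZMod p), hV]; norm_num
  obtain ⟨u, hu⟩ := exists_ne (0 : V)
  obtain ⟨v, hv⟩ := hs u hu (fun _ => 1)
  have huv : B u v ≠ 0 := by
    rw [hv]
    intro h
    exact one_ne_zero (congrFun h 0)
  obtain ⟨α, β, hαβ⟩ := hker u hu (M (M u)) (by rw [← hadj, hB])
  have hquad : ∀ x, M (M x) = α • x + β • M x := by
    have hU : ∀ y, B u y = 0 → M (M y) = α • y + β • M y := by
      intro y hy
      obtain ⟨s, t, rfl⟩ := hker u hu y hy
      simp only [map_add, map_smul, hαβ]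
      module
    intro x
    by_cases hx : B u x = 0
    · exact hU x hx
    · set z := M (M x) - (α • x + β • M x) with hz
      have hz1 : B u z = 0 := by
        have e1 : B u (M (M x)) = B (M (M u)) x := by rw [← hadj, ← hadj]
        rw [hz, map_sub, map_add, map_smul, map_smul, e1, hαβ, ← hadj, map_add, map_smul,
          map_smul, LinearMap.add_apply, LinearMap.smul_apply, LinearMap.smul_apply, sub_self]
      by_contra hne
      have hz0 : z ≠ 0 := by
        intro h
        exact hne (sub_eq_zero.1 (hz.symm.trans h))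
      have hz2 : B x z = 0 := by
        have e1 : B x (M (M x)) = 0 := by rw [← hadj, hB]
        have e2 : B x (M x) = 0 := by rw [← hadj, hself]
        rw [hz, map_sub, map_add, map_smul, map_smul, e1, e2, hB, smul_zero, smul_zero, add_zero,
          sub_zero]
      obtain ⟨s, t, hst⟩ := hker z hz0 x (by rw [hneg, hz2, neg_zero])
      obtain ⟨s', t', hst'⟩ := hker u hu z hz1
      have hz3 : B u (M z) = 0 := by
        rw [← hadj, hst', map_add, map_smul, map_smul, hself, hB, smul_zero, smul_zero, add_zero]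
      apply hx
      rw [hst, map_add, map_smul, map_smul, hz1, hz3, smul_zero, smul_zero, add_zero]
  -- the quadratic field
  let f : (ZMod p)[X] := X ^ 2 - C β * X - C α
  have hfdeg : f.natDegree = 2 := by
    simp only [f]
    compute_degree!
  have hfmonic : f.Monic := by
    simp only [f]
    monicity!
  have hfirr : Irreducible f := by
    refine irreducible_of_degree_le_three_of_not_isRoot (by rw [hfdeg]; simp) ?_
    intro s hroot
    have h1 : s ^ 2 - β * s - α = 0 := by
      have := hroot
      rw [IsRoot.def] at this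
      simpa [f] using this
    have h2 : M u - (β - s) • u = 0 := by
      apply hnoeig s
      rw [map_sub, map_smul, hquad]
      have h3 : α = s ^ 2 - β * s := by linear_combination -h1
      rw [h3]
      module
    exact hu (hnoeig (β - s) u (sub_eq_zero.1 h2))
  have : Fact (Irreducible f) := ⟨hfirr⟩
  let K := AdjoinRoot f
  have hfinK : Module.finrank (ZMod p) K = 2 := by
    rw [(AdjoinRoot.powerBasis hfirr.ne_zero).finrank, AdjoinRoot.powerBasis_dim, hfdeg]
  have : Module.Finite (ZMod p) K := (AdjoinRoot.powerBasis hfirr.ne_zero).finite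
  have : Finite K := Module.finite_of_finite (ZMod p)
  let _ : Fintype K := Fintype.ofFinite K
  have : CharP K p := charP_of_injective_algebraMap (algebraMap (ZMod p) K).injective p
  have hcard : Fintype.card K = p ^ 2 := by
    rw [Module.card_eq_pow_finrank (K := ZMod p), ZMod.card, hfinK]
  have haev : aeval M f = 0 := by
    ext x
    simp only [f, map_sub, map_mul, map_pow, aeval_X, aeval_C]
    simp only [LinearMap.sub_apply, pow_two, Module.End.mul_apply, Module.algebraMap_end_apply,
      LinearMap.zero_apply]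
    rw [hquad]
    module
  let Φ : K →+* Module.End (ZMod p) V := Ideal.Quotient.lift _ (aeval M : (ZMod p)[X] →ₐ[ZMod p] _).toRingHom
    (by
      intro a ha
      obtain ⟨g, rfl⟩ := Ideal.mem_span_singleton.1 ha
      change aeval M (f * g) = 0
      rw [map_mul, haev, zero_mul])
  have hΦmk : ∀ g : (ZMod p)[X], Φ (AdjoinRoot.mk f g) = aeval M g := fun g => rfl
  have hΦform : ∀ k : K, ∃ a b : ZMod p, ∀ x, Φ k x = a • x + b • M x := by
    intro k
    obtain ⟨g, rfl⟩ := AdjoinRoot.mk_surjective k
    have h1 : aeval M g = aeval M (g %ₘ f) := by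
      conv_lhs => rw [← modByMonic_add_div g f]
      rw [map_add, map_mul, haev, zero_mul, add_zero]
    have h2 : (g %ₘ f).natDegree ≤ 1 := by
      have := natDegree_modByMonic_lt g hfmonic (by
        intro h
        rw [h, natDegree_one] at hfdeg
        omega)
      omega
    obtain ⟨a, b, hab⟩ := exists_eq_X_add_C_of_natDegree_le_one h2
    refine ⟨b, a, fun x => ?_⟩
    rw [hΦmk, h1, hab, map_add, map_mul, aeval_X, aeval_C, aeval_C, LinearMap.add_apply,
      Module.End.mul_apply, Module.algebraMap_end_apply, Module.algebraMap_end_apply, add_comm]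
  have hΦsurj : ∀ a b : ZMod p, ∃ k : K, ∀ x, Φ k x = a • x + b • M x := by
    intro a b
    refine ⟨AdjoinRoot.mk f (C a + C b * X), fun x => ?_⟩
    rw [hΦmk, map_add, map_mul, aeval_X, aeval_C, aeval_C, LinearMap.add_apply,
      Module.End.mul_apply, Module.algebraMap_end_apply, Module.algebraMap_end_apply]
  have hΦadj : ∀ k x y, B (Φ k x) y = B x (Φ k y) := by
    intro k x y
    obtain ⟨a, b, hab⟩ := hΦform k
    rw [hab, hab, map_add, map_add, map_smul, map_smul, map_smul, map_smul, LinearMap.add_apply,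
      LinearMap.smul_apply, LinearMap.smul_apply, hadj]
  have hΦself : ∀ k x, B (Φ k x) x = 0 := by
    intro k x
    obtain ⟨a, b, hab⟩ := hΦform k
    rw [hab, map_add, map_smul, map_smul, LinearMap.add_apply,
      LinearMap.smul_apply, LinearMap.smul_apply, hself, hB, smul_zero, smul_zero, add_zero]
  have hΦmul : ∀ k l x, Φ (k * l) x = Φ k (Φ l x) := by
    intro k l x
    rw [map_mul]; rfl
  have hΦadd : ∀ k l x, Φ (k + l) x = Φ k x + Φ l x := by
    intro k l x
    rw [map_add]; rfl
  have hΦsmul : ∀ (a : ZMod p) (k : K) x, Φ (a • k) x = a • Φ k x := by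
    intro a k x
    rw [Algebra.smul_def, hΦmul]
    have : algebraMap (ZMod p) K a = AdjoinRoot.mk f (C a) := rfl
    rw [this, hΦmk, aeval_C, Module.algebraMap_end_apply]
  have hΦinj : ∀ k : K, k ≠ 0 → ∀ x, Φ k x = 0 → x = 0 := by
    intro k hk x hx
    have h1 : Φ (k⁻¹ * k) x = 0 := by rw [hΦmul, hx, map_zero]
    rw [inv_mul_cancel₀ hk, map_one] at h1
    exact h1
  -- key nondegeneracy
  have hkey : ∀ l : K, B u (Φ l v) = 0 → l = 0 := by
    intro l hl
    by_contra hne
    obtain ⟨s, t, hst⟩ := hker u hu _ hl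
    obtain ⟨k, hk⟩ := hΦsurj s t
    rw [← hk] at hst
    have h1 : v = Φ (l⁻¹ * k) u := by
      rw [hΦmul, ← hst, ← hΦmul, inv_mul_cancel₀ hne, map_one]; rfl
    apply huv
    rw [hneg, h1, hΦself, neg_zero]
  let φ₀ : K × K →ₗ[ZMod p] V :=
    { toFun := fun x => Φ x.1 u + Φ x.2 v
      map_add' := by
        intro x y
        rw [Prod.fst_add, Prod.snd_add, hΦadd, hΦadd]; abel
      map_smul' := by
        intro s x
        rw [Prod.smul_fst, Prod.smul_snd, hΦsmul, hΦsmul, RingHom.id_apply, smul_add] }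
  have hφ₀ : ∀ x, φ₀ x = Φ x.1 u + Φ x.2 v := fun x => rfl
  have hφinj : Function.Injective φ₀ := by
    rw [injective_iff_map_eq_zero]
    intro x hx
    rw [hφ₀] at hx
    have h1 : B u (Φ x.1 u + Φ x.2 v) = 0 := by rw [hx, map_zero]
    rw [map_add, ← hΦadj, hΦself, zero_add] at h1
    have h2 := hkey _ h1
    rw [h2, map_zero, LinearMap.zero_apply, add_zero] at hx
    by_cases h3 : x.1 = 0
    · exact Prod.ext h3 h2
    · exact absurd (hΦinj _ h3 _ hx) hu
  let j₀ : K →ₗ[ZMod p] (Fin 2 → ZMod p) :=
    { toFun := fun z => B (Φ z u) v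
      map_add' := by
        intro x y
        rw [hΦadd, map_add, LinearMap.add_apply]
      map_smul' := by
        intro s x
        rw [hΦsmul, map_smul, LinearMap.smul_apply, RingHom.id_apply] }
  have hj₀ : ∀ z, j₀ z = B (Φ z u) v := fun z => rfl
  have hjinj : Function.Injective j₀ := by
    rw [injective_iff_map_eq_zero]
    intro z hz
    rw [hj₀, hΦadj] at hz
    exact hkey z hz
  refine ⟨K, inferInstance, inferInstance, inferInstance, inferInstance, hcard,
    LinearEquiv.ofInjectiveOfFinrankEq φ₀ hφinj ?_, LinearEquiv.ofInjectiveOfFinrankEq j₀ hjinj ?_,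
    ?_⟩
  · rw [Module.finrank_prod, hfinK, hV]
  · rw [Module.finrank_fin_fun, hfinK]
  · intro x y
    change B (φ₀ x) (φ₀ y) = j₀ (om x y)
    rw [hφ₀, hφ₀, hj₀, map_add, map_add, LinearMap.add_apply, LinearMap.add_apply]
    have h1 : B (Φ x.1 u) (Φ y.1 u) = 0 := by rw [← hΦadj, ← hΦmul, hΦself]
    have h2 : B (Φ x.2 v) (Φ y.2 v) = 0 := by rw [← hΦadj, ← hΦmul, hΦself]
    have h3 : B (Φ x.1 u) (Φ y.2 v) = B (Φ (x.1 * y.2) u) v := by
      rw [← hΦadj, ← hΦmul, mul_comm]
    have h4 : B (Φ x.2 v) (Φ y.1 u) = - B (Φ (x.2 * y.1) u) v := by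
      rw [hneg, ← hΦadj, ← hΦmul]
    rw [h1, h2, h3, h4, zero_add, add_zero]
    have h5 : Φ (x.1 * y.2) = Φ (om x y) + Φ (x.2 * y.1) := by
      rw [← map_add]; congr 1; simp only [om]; ring
    rw [h5, LinearMap.add_apply, map_add, LinearMap.add_apply]
    abel

/-- `(m, n) = (4, 2)` is impossible. -/
theorem not_rigid_42 {V : Type*} [AddCommGroup V] [Module (ZMod p) V] [Finite V]
    (hV : Module.finrank (ZMod p) V = 4)
    (B : V →ₗ[ZMod p] V →ₗ[ZMod p] (Fin 2 → ZMod p)) (hB : ∀ x, B x x = 0)
    (hs : ∀ x, x ≠ 0 → Function.Surjective (B x)) (π : V → (Fin 2 → ZMod p))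
    (hπ : ∀ x y, π (x + y) = π x + π y) : ¬ Rigid B π := by
  intro hR
  obtain ⟨K, _, _, _, _, hK, φ, j, hj⟩ := struct42 hV B hB hs
  let π₀ : V →+ (Fin 2 → ZMod p) := AddMonoidHom.mk' π hπ
  obtain ⟨G, H, h1, h2, x, hx⟩ := K4 hK
    (j.symm.toLinearMap.comp ((π₀.toZModLinearMap p).comp φ.toLinearMap))
  apply hx
  have h3 := hR ((φ.symm.trans G).trans φ) ((j.symm.trans H).trans j) (by
    intro x y
    simp only [LinearEquiv.trans_apply]
    rw [hj, h1]
    have := hj (φ.symm x) (φ.symm y)
    rw [LinearEquiv.apply_symm_apply, LinearEquiv.apply_symm_apply] at this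
    rw [this, LinearEquiv.symm_apply_apply]) (by
    intro x
    simp only [LinearEquiv.trans_apply]
    have := h2 (φ.symm x)
    simp only [LinearMap.comp_apply, LinearEquiv.coe_coe, LinearEquiv.apply_symm_apply] at this
    have h4 := congrArg j this
    rw [LinearEquiv.apply_symm_apply] at h4
    exact h4) (φ x)
  simp only [LinearEquiv.trans_apply, LinearEquiv.symm_apply_apply] at h3
  exact φ.injective h3

end Pool.Agent.Helper3.CM
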