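import Pool.Agent.Helper3.CM.Reduce

namespace Pool.Agent.Helper3.CM

/-- Normalised 2-cocycles. -/
structure Coc (V W : Type*) [AddCommGroup V] [AddCommGroup W] where
  f : V → V → W
  assoc : ∀ x y z, f x y + f (x + y) z = f y z + f x (y + z)
  zl : ∀ x, f 0 x = 0
  zr : ∀ x, f x 0 = 0

/-- The extension group. -/
structure Ext {V W : Type*} [AddCommGroup V] [AddCommGroup W] (c : Coc V W) where
  v : V
  w : W

namespace Ext

variable {V W : Type*} [AddCommGroup V] [AddCommGroup W] {c : Coc V W}

@[ext] theorem ext' {a b : Ext c} (h1 : a.v = b.v) (h2 : a.w = b.w) : a = b := by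
  cases a; cases b; simp_all

instance : Mul (Ext c) := ⟨fun a b => ⟨a.v + b.v, a.w + b.w + c.f a.v b.v⟩⟩
instance : One (Ext c) := ⟨⟨0, 0⟩⟩
instance : Inv (Ext c) := ⟨fun a => ⟨-a.v, -a.w - c.f (-a.v) a.v⟩⟩

@[simp] theorem mul_v (a b : Ext c) : (a * b).v = a.v + b.v := rfl
@[simp] theorem mul_w (a b : Ext c) : (a * b).w = a.w + b.w + c.f a.v b.v := rfl
@[simp] theorem one_v : (1 : Ext c).v = 0 := rfl
@[simp] theorem one_w : (1 : Ext c).w = 0 := rfl
@[simp] theorem inv_v (a : Ext c) : (a⁻¹).v = - a.v := rfl
@[simp] theorem inv_w (a : Ext c) : (a⁻¹).w = -a.w - c.f (-a.v) a.v := rfl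

instance : Group (Ext c) := Group.ofLeftAxioms
  (by
    intro a b d
    apply ext'
    · simp [add_assoc]
    · simp only [mul_v, mul_w]
      have := c.assoc a.v b.v d.v
      have e : a.w + b.w + c.f a.v b.v + d.w + c.f (a.v + b.v) d.v =
        a.w + b.w + d.w + (c.f a.v b.v + c.f (a.v + b.v) d.v) := by abel
      rw [e, this]
      abel)
  (by
    intro a
    apply ext'
    · simp
    · simp [c.zl])
  (by
    intro a
    apply ext'
    · simp
    · simp only [mul_w, inv_w, inv_v, one_w]
      abel)

theorem pow_formula (a : Ext c) (k : ℕ) :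
    (a ^ k).v = k • a.v ∧ (a ^ k).w = k • a.w + ∑ i ∈ Finset.range k, c.f (i • a.v) a.v := by
  induction k with
  | zero => simp
  | succ k ih =>
    rw [pow_succ, mul_v, mul_w, ih.1, ih.2, Finset.sum_range_succ, add_smul, one_smul, add_smul,
      one_smul]
    refine ⟨rfl, ?_⟩
    abel

end Ext

/-- Carries. -/
def carry {p : ℕ} (a b : ZMod p) : ℕ := (a.val + b.val) / p

variable {p : ℕ} [Fact p.Prime]

theorem carry_assoc (a b c : ZMod p) :
    carry a b + carry (a + b) c = carry b c + carry a (b + c) := by
  have hp : 0 < p := (Fact.out : p.Prime).pos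
  have key : ∀ A B C : ℕ, (A + B) / p + ((A + B) % p + C) / p = (A + B + C) / p := by
    intro A B C
    conv_rhs => rw [← Nat.div_add_mod (A + B) p, add_assoc, Nat.mul_add_div hp]
  unfold carry
  rw [ZMod.val_add, ZMod.val_add, key]
  have e : a.val + (b.val + c.val) % p = (b.val + c.val) % p + a.val := by ring
  rw [e, key]
  congr 1
  ring

theorem carry_zero_left (a : ZMod p) : carry 0 a = 0 := by
  unfold carry
  rw [ZMod.val_zero, zero_add]
  exact Nat.div_eq_of_lt (ZMod.val_lt a)

theorem carry_zero_right (a : ZMod p) : carry a 0 = 0 := by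
  unfold carry
  rw [ZMod.val_zero, add_zero]
  exact Nat.div_eq_of_lt (ZMod.val_lt a)

omit [Fact p.Prime] in
theorem carry_comm (a b : ZMod p) : carry a b = carry b a := by
  unfold carry
  rw [add_comm]

theorem carry_sum (a : ZMod p) : ((∑ i ∈ Finset.range p, carry (i • a) a : ℕ) : ZMod p) = a := by
  have hp : 0 < p := (Fact.out : p.Prime).pos
  have key : ∀ k : ℕ, ∑ i ∈ Finset.range k, carry (i • a) a = (k * a.val) / p := by
    intro k
    induction k with
    | zero => simp
    | succ k ih =>
      rw [Finset.sum_range_succ, ih]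
      unfold carry
      have e : (k • a : ZMod p).val = (k * a.val) % p := by
        rw [nsmul_eq_mul, ZMod.val_mul, ZMod.val_natCast, Nat.mod_mul_mod]
      rw [e, add_mul, one_mul]
      conv_rhs => rw [← Nat.div_add_mod (k * a.val) p, add_assoc, Nat.mul_add_div hp]
  rw [key, Nat.mul_div_cancel_left _ hp, ZMod.natCast_zmod_val]

section build

variable {V W : Type*} [AddCommGroup V] [Module (ZMod p) V] [AddCommGroup W] [Module (ZMod p) W]
  {m : ℕ} (b : Module.Basis (Fin m) (ZMod p) V) (B : V →ₗ[ZMod p] V →ₗ[ZMod p] W) (π : V → W)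

/-- upper triangular half of `B` -/
noncomputable def half (x y : V) : W :=
  ∑ i, ∑ j, if i < j then (b.repr x i * b.repr y j) • B (b i) (b j) else 0

theorem half_add_left (x x' y : V) : half b B (x + x') y = half b B x y + half b B x' y := by
  unfold half
  rw [← Finset.sum_add_distrib]
  refine Finset.sum_congr rfl fun i _ => ?_
  rw [← Finset.sum_add_distrib]
  refine Finset.sum_congr rfl fun j _ => ?_
  split_ifs
  · rw [map_add, Finsupp.add_apply, add_mul, add_smul]
  · rw [add_zero]

theorem half_add_right (x y y' : V) : half b B x (y + y') = half b B x y + half b B x y' := by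
  unfold half
  rw [← Finset.sum_add_distrib]
  refine Finset.sum_congr rfl fun i _ => ?_
  rw [← Finset.sum_add_distrib]
  refine Finset.sum_congr rfl fun j _ => ?_
  split_ifs
  · rw [map_add, Finsupp.add_apply, mul_add, add_smul]
  · rw [add_zero]

theorem half_sub (hB : ∀ x, B x x = 0) (x y : V) : half b B x y - half b B y x = B x y := by
  have hneg : ∀ x y, B x y = - B y x := by
    intro x y
    have h := hB (x + y)
    rw [map_add, map_add, LinearMap.add_apply, LinearMap.add_apply, hB, hB, zero_add, add_zero] at h
    rw [add_comm] at h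
    exact eq_neg_of_add_eq_zero_left h
  have e2 : half b B y x = ∑ i, ∑ j, if j < i then (b.repr x i * b.repr y j) • B (b j) (b i) else 0 := by
    unfold half
    rw [Finset.sum_comm]
    refine Finset.sum_congr rfl fun i _ => Finset.sum_congr rfl fun j _ => ?_
    split_ifs
    · rw [mul_comm]
    · rfl
  have e3 : B x y = ∑ i, ∑ j, (b.repr x i * b.repr y j) • B (b i) (b j) := by
    conv_lhs => rw [← b.sum_repr x, ← b.sum_repr y]
    simp only [map_sum, LinearMap.sum_apply, map_smul, LinearMap.smul_apply, Finset.smul_sum,
      smul_smul]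
    rw [Finset.sum_comm]
    refine Finset.sum_congr rfl fun i _ => Finset.sum_congr rfl fun j _ => ?_
    rw [mul_comm]
  rw [e2, e3]
  unfold half
  rw [← Finset.sum_sub_distrib]
  refine Finset.sum_congr rfl fun i _ => ?_
  rw [← Finset.sum_sub_distrib]
  refine Finset.sum_congr rfl fun j _ => ?_
  rcases lt_trichotomy i j with h | h | h
  · rw [if_pos h, if_neg (not_lt.2 h.le), sub_zero]
  · subst h
    rw [if_neg (lt_irrefl _), hB, smul_zero, sub_zero]
  · rw [if_neg (not_lt.2 h.le), if_pos h, zero_sub, hneg (b i), smul_neg]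

/-- The cocycle. -/
noncomputable def coc : Coc V W where
  f := fun x y => half b B x y + ∑ i, carry (b.repr x i) (b.repr y i) • π (b i)
  assoc := by
    intro x y z
    have e1 : half b B x y + half b B (x + y) z = half b B y z + half b B x (y + z) := by
      rw [half_add_left, half_add_right]; abel
    have e2 : ∑ i, carry (b.repr x i) (b.repr y i) • π (b i) +
        ∑ i, carry (b.repr (x + y) i) (b.repr z i) • π (b i) =
        ∑ i, carry (b.repr y i) (b.repr z i) • π (b i) +
        ∑ i, carry (b.repr x i) (b.repr (y + z) i) • π (b i) := by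
      rw [← Finset.sum_add_distrib, ← Finset.sum_add_distrib]
      refine Finset.sum_congr rfl fun i _ => ?_
      rw [← add_smul, ← add_smul, map_add, map_add, Finsupp.add_apply, Finsupp.add_apply,
        carry_assoc]
    have : ∀ a b c d : W, a + b + (c + d) = (a + c) + (b + d) := by intros; abel
    rw [this, e1, e2, this]
  zl := by
    intro x
    have e1 : half b B 0 x = 0 := by
      have := half_add_left b B 0 0 x
      rw [add_zero] at this
      exact left_eq_add.mp this
    rw [e1, zero_add]
    refine Finset.sum_eq_zero fun i _ => ?_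
    rw [map_zero, Finsupp.zero_apply, carry_zero_left, zero_smul]
  zr := by
    intro x
    have e1 : half b B x 0 = 0 := by
      have := half_add_right b B x 0 0
      rw [add_zero] at this
      exact left_eq_add.mp this
    rw [e1, zero_add]
    refine Finset.sum_eq_zero fun i _ => ?_
    rw [map_zero, Finsupp.zero_apply, carry_zero_right, zero_smul]

theorem half_nsmul (k : ℕ) (x y : V) : half b B (k • x) y = k • half b B x y := by
  induction k with
  | zero =>
    rw [zero_smul, zero_smul]
    have := half_add_left b B 0 0 y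
    rw [add_zero] at this
    exact left_eq_add.mp this
  | succ k ih => rw [add_smul, one_smul, half_add_left, ih, add_smul, one_smul]

theorem π_formula (hB : ∀ x, B x x = 0)
    (hπ : ∀ x y, π (x + y) = π x + π y + (p.choose 2) • B y x) (x : V) :
    π x = (p.choose 2) • half b B x x + ∑ i, (b.repr x i) • π (b i) := by
  let d : V →+ W := AddMonoidHom.mk'
    (fun x => π x - ((p.choose 2) • half b B x x + ∑ i, (b.repr x i) • π (b i))) (by
    intro x y
    have e1 : half b B (x + y) (x + y) = half b B x x + half b B y y +
        (half b B x y + half b B y x) := by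
      rw [half_add_left, half_add_right, half_add_right]; abel
    have e2 : ∑ i, (b.repr (x + y) i) • π (b i) =
        ∑ i, (b.repr x i) • π (b i) + ∑ i, (b.repr y i) • π (b i) := by
      rw [← Finset.sum_add_distrib]
      refine Finset.sum_congr rfl fun i _ => ?_
      rw [map_add, Finsupp.add_apply, add_smul]
    have e3 : (p.choose 2) • B y x = (p.choose 2) • (half b B x y + half b B y x) := by
      rw [← half_sub b B hB y x]
      have e4 : half b B x y + half b B y x = (half b B y x - half b B x y) + 2 • half b B x y := by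
        rw [two_smul]; abel
      rw [e4, smul_add, smul_smul]
      have e5 : p.choose 2 * 2 = p * (p - 1) := by
        rw [Nat.choose_two_right]
        exact Nat.div_mul_cancel (even_iff_two_dvd.1 (Nat.even_mul_pred_self p))
      rw [e5, mul_comm, mul_smul, Real.p_nsmul (p := p) (half b B x y),
        smul_zero, add_zero]
    change π (x + y) - ((p.choose 2) • half b B (x + y) (x + y) +
      ∑ i, (b.repr (x + y) i) • π (b i)) =
      (π x - ((p.choose 2) • half b B x x + ∑ i, (b.repr x i) • π (b i))) +
      (π y - ((p.choose 2) • half b B y y + ∑ i, (b.repr y i) • π (b i)))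
    rw [hπ, e1, e2, e3]
    simp only [smul_add]
    abel)
  have hd : d.toZModLinearMap p = 0 := by
    apply b.ext
    intro i
    change π (b i) - ((p.choose 2) • half b B (b i) (b i) + ∑ j, (b.repr (b i) j) • π (b j)) = 0
    have e1 : half b B (b i) (b i) = 0 := by
      unfold half
      refine Finset.sum_eq_zero fun j _ => Finset.sum_eq_zero fun k _ => ?_
      split_ifs with h
      · rw [b.repr_self]
        by_cases h1 : j = i
        · subst h1
          rw [Finsupp.single_eq_of_ne h.ne', mul_zero, zero_smul]
        · rw [Finsupp.single_eq_of_ne h1, zero_mul, zero_smul]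
      · rfl
    have e2 : ∑ j, (b.repr (b i) j) • π (b j) = π (b i) := by
      rw [b.repr_self, Finset.sum_eq_single i]
      · rw [Finsupp.single_eq_same, one_smul]
      · intro j _ hj
        rw [Finsupp.single_eq_of_ne hj, zero_smul]
      · intro h
        exact absurd (Finset.mem_univ i) h
    rw [e1, e2, smul_zero, zero_add, sub_self]
  have := LinearMap.congr_fun hd x
  exact sub_eq_zero.1 this

/-- The realisation theorem. -/
noncomputable def realize (hB : ∀ x, B x x = 0)
    (hπ : ∀ x y, π (x + y) = π x + π y + (p.choose 2) • B y x) : Real (Ext (coc b B π)) B π where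
  ρ := fun g => g.v
  ι := fun w => ⟨0, w⟩
  ρ_mul := fun g h => rfl
  ι_add := by
    intro a b'
    apply Ext.ext'
    · simp
    · simp [(coc b B π).zl]
  ρ_surj := fun v => ⟨⟨v, 0⟩, rfl⟩
  ι_inj := fun a b' h => congrArg Ext.w h
  exact := by
    intro g
    constructor
    · intro h
      refine ⟨g.w, ?_⟩
      apply Ext.ext'
      · exact h.symm
      · rfl
    · rintro ⟨w, rfl⟩
      rfl
  comm := by
    intro g h
    apply Ext.ext'
    · simp [add_comm]
    · simp only [Ext.mul_w, Ext.mul_v]
      rw [(coc b B π).zl, add_zero]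
      change g.w + h.w + (half b B g.v h.v + ∑ i, carry (b.repr g.v i) (b.repr h.v i) • π (b i)) =
        B g.v h.v + (h.w + g.w +
          (half b B h.v g.v + ∑ i, carry (b.repr h.v i) (b.repr g.v i) • π (b i)))
      rw [← half_sub b B hB g.v h.v]
      have : ∑ i, carry (b.repr g.v i) (b.repr h.v i) • π (b i) =
        ∑ i, carry (b.repr h.v i) (b.repr g.v i) • π (b i) :=
        Finset.sum_congr rfl fun i _ => by rw [carry_comm]
      rw [this]
      abel
  pow := by
    intro g
    obtain ⟨h1, h2⟩ := Ext.pow_formula g p
    apply Ext.ext'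
    · rw [h1, Real.p_nsmul]
    · rw [h2, Real.p_nsmul, zero_add]
      change ∑ k ∈ Finset.range p, (half b B (k • g.v) g.v +
        ∑ i, carry (b.repr (k • g.v) i) (b.repr g.v i) • π (b i)) = π g.v
      rw [Finset.sum_add_distrib, π_formula b B π hB hπ g.v]
      congr 1
      · rw [Nat.choose_two_right, ← Finset.sum_range_id, Finset.sum_smul]
        exact Finset.sum_congr rfl fun k _ => half_nsmul b B k _ _
      · rw [Finset.sum_comm]
        refine Finset.sum_congr rfl fun i _ => ?_
        rw [← Finset.sum_smul, ← Nat.cast_smul_eq_nsmul (ZMod p)]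
        congr 1
        have e : ∀ k ∈ Finset.range p, carry (b.repr (k • g.v) i) (b.repr g.v i) =
            carry (k • (b.repr g.v i)) (b.repr g.v i) := by
          intro k _
          rw [map_nsmul, Finsupp.smul_apply]
        rw [Finset.sum_congr rfl e, carry_sum]

noncomputable instance {V W : Type*} [AddCommGroup V] [AddCommGroup W] [Finite V] [Finite W]
    (c : Coc V W) : Finite (Ext c) :=
  Finite.of_injective (fun g : Ext c => (g.v, g.w)) (fun a b h => by
    rw [Prod.mk.injEq] at h
    exact Ext.ext' h.1 h.2)

end build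

end Pool.Agent.Helper3.CM
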