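import Pool.Agent.Helper3.CM.Exist2
import Pool.Agent.Helper3.CM.Non3
import Pool.Agent.Helper3.CM.Realize

namespace Pool.Agent.Helper3.CM

variable {p : ℕ} [Fact p.Prime]

/-- Nonexistence part, `p` odd. -/
theorem necessary_odd (hp : p ≠ 2) {m n : ℕ} {G : Type*} [Group G] [Finite G]
    (h1 : IsPGroup p G) (h2 : IsCamina G) (h3 : IsMiller G)
    (hm : (commutator G).index = p ^ m) (hn : Nat.card (commutator G) = p ^ n) :
    Even m ∧ 6 ≤ m ∧ 2 ≤ n ∧ 2 * n ≤ m := by
  have hp1 := (Fact.out : p.Prime).one_lt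
  obtain ⟨m', n', B, π, hm0, hn0, hs, ⟨R⟩⟩ := exists_real h1 h2 h3
  have : Nonempty (Fin m') := ⟨⟨0, hm0⟩⟩
  have : Nonempty (Fin n') := ⟨⟨0, hn0⟩⟩
  have em : m' = m := by
    have := R.index_V hs
    rw [hm, Nat.card_eq_fintype_card, Fintype.card_fun, ZMod.card, Fintype.card_fin] at this
    exact (Nat.pow_right_injective hp1 this).symm
  have en : n' = n := by
    have := R.card_W hs
    rw [hn, Nat.card_eq_fintype_card, Fintype.card_fun, ZMod.card, Fintype.card_fin] at this
    exact (Nat.pow_right_injective hp1 this).symm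
  subst em en
  have hR : Rigid B π := (miller_iff_rigid R hs).1 h3
  have hπ : ∀ x y, π (x + y) = π x + π y := by
    intro x y
    rw [R.π_add]
    have hdvd : p ∣ p.choose 2 :=
      (Fact.out : p.Prime).dvd_choose_self (by norm_num) (by omega)
    obtain ⟨k, hk⟩ := hdvd
    rw [hk, mul_comm, mul_smul, Real.p_nsmul (p := p) (B y x), smul_zero, add_zero]
  obtain ⟨he, hb⟩ := bound hm0 hn0 B R.B_self hs
  have hn1 : n' ≠ 1 := by
    rintro rfl
    exact not_rigid_one B R.B_self hs π hπ hR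
  have hm4 : m' ≠ 4 := by
    rintro rfl
    have : n' = 2 := by omega
    subst this
    exact not_rigid_42 (Module.finrank_fin_fun _) B R.B_self hs π hπ hR
  obtain ⟨k, hk⟩ := he
  exact ⟨⟨k, hk⟩, by omega, by omega, hb⟩

/-- Existence from rigid data over `K × K`. -/
theorem exists_group {K : Type} [Field K] [Finite K] [Algebra (ZMod p) K] {m n : ℕ}
    (hm : 2 * Module.finrank (ZMod p) K = m) (hn : 0 < n)
    (B : (K × K) →ₗ[ZMod p] (K × K) →ₗ[ZMod p] (Fin n → ZMod p)) (hB : ∀ x, B x x = 0)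
    (hs : ∀ x, x ≠ 0 → Function.Surjective (B x)) (π : K × K → (Fin n → ZMod p))
    (hπ : ∀ x y, π (x + y) = π x + π y + (p.choose 2) • B y x) (hR : Rigid B π) :
    ∃ (G : Type) (_ : Group G) (_ : Finite G), IsPGroup p G ∧ IsCamina G ∧ IsMiller G ∧
      (commutator G).index = p ^ m ∧ Nat.card (commutator G) = p ^ n := by
  have : Module.Finite (ZMod p) K := Module.Finite.of_finite
  let b := Module.finBasis (ZMod p) (K × K)
  let R := realize b B π hB hπ
  have : Nonempty (Fin n) := ⟨⟨0, hn⟩⟩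
  refine ⟨Ext (coc b B π), inferInstance, inferInstance, R.isPGroup, R.isCamina hs,
    (miller_iff_rigid R hs).2 hR, ?_, ?_⟩
  · rw [R.index_V hs, ← hm]
    have := Fintype.ofFinite K
    rw [Nat.card_eq_fintype_card, Fintype.card_prod, Module.card_eq_pow_finrank (K := ZMod p),
      ZMod.card]
    ring
  · rw [R.card_W hs, Nat.card_eq_fintype_card, Fintype.card_fun, ZMod.card, Fintype.card_fin]

/-- Existence part, `p` odd. -/
theorem sufficient_odd (hp : p ≠ 2) {m n : ℕ} (h1 : Even m) (h2 : 6 ≤ m) (h3 : 2 ≤ n)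
    (h4 : 2 * n ≤ m) :
    ∃ (G : Type) (_ : Group G) (_ : Finite G), IsPGroup p G ∧ IsCamina G ∧ IsMiller G ∧
      (commutator G).index = p ^ m ∧ Nat.card (commutator G) = p ^ n := by
  have hp1 := (Fact.out : p.Prime).one_lt
  obtain ⟨k, hk⟩ := h1
  let K := GaloisField p k
  have hfin : Module.finrank (ZMod p) K = k := GaloisField.finrank p (by omega)
  have hF : Finite K := by
    apply Nat.finite_of_card_ne_zero
    rw [GaloisField.card p k (by omega)]
    exact pow_ne_zero _ (by omega)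
  obtain ⟨b, hb⟩ := exists_normal (p := p) (K := K)
  have hodd : ∀ (n : ℕ) (B : (K × K) →ₗ[ZMod p] (K × K) →ₗ[ZMod p] (Fin n → ZMod p)) x y,
      (p.choose 2) • B y x = 0 := by
    intro n B x y
    have hdvd : p ∣ p.choose 2 :=
      (Fact.out : p.Prime).dvd_choose_self (by norm_num) (by omega)
    obtain ⟨k, hk⟩ := hdvd
    rw [hk, mul_comm, mul_smul, Real.p_nsmul (p := p) (B y x), smul_zero]
  by_cases hn : n = 2
  · subst hn
    refine exists_group (by omega) (by omega) (BB (p := p) (cc b 2)) (BB_self _)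
      (BB_surj _ (cc_indep b hb 2 (by omega))) _ ?_ (rigid_two b hb (by omega))
    intro x y
    rw [hodd, add_zero, pw_add]
  · refine exists_group (by omega) (by omega) (BB (p := p) (cc b n)) (BB_self _)
      (BB_surj _ (cc_indep b hb n (by omega))) _ ?_ (rigid_ge3 b hb n (by omega) (by omega))
    intro x y
    rw [hodd, add_zero, pw_add]

theorem spectrum_odd (hp : p ≠ 2) (m n : ℕ) :
    (∃ (G : Type) (_ : Group G) (_ : Finite G), IsPGroup p G ∧ IsCamina G ∧ IsMiller G ∧
      (commutator G).index = p ^ m ∧ Nat.card (commutator G) = p ^ n) ↔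
    (Even m ∧ 6 ≤ m ∧ 2 ≤ n ∧ 2 * n ≤ m) := by
  constructor
  · rintro ⟨G, _, _, h1, h2, h3, h4, h5⟩
    exact necessary_odd hp h1 h2 h3 h4 h5
  · rintro ⟨h1, h2, h3, h4⟩
    exact sufficient_odd hp h1 h2 h3 h4

end Pool.Agent.Helper3.CM
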