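import Mathlib

namespace Pool.Agent.Helper3.CM

/-- The determinant of an alternating matrix over a field is a square. -/
theorem isSquare_det_of_alt {K : Type*} [Field K] : ∀ (N : ℕ) (ι : Type) [Fintype ι]
    [DecidableEq ι], Fintype.card ι = N → ∀ A : Matrix ι ι K, (∀ i, A i i = 0) →
    (∀ i j, A j i = - A i j) → IsSquare A.det := by
  intro N
  induction N using Nat.strong_induction_on with
  | _ N ih =>
    intro ι _ _ hN A hd ha
    classical
    rcases isEmpty_or_nonempty ι with he | hne
    · rw [Matrix.det_isEmpty]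
      exact IsSquare.one
    by_cases hA : A = 0
    · rw [hA, Matrix.det_zero]
      exact IsSquare.zero
    have hex : ∃ i j, A i j ≠ 0 := by
      by_contra hcon
      push Not at hcon
      exact hA (Matrix.ext hcon)
    obtain ⟨i, j, hij⟩ := hex
    have hne : i ≠ j := by
      rintro rfl
      exact hij (hd i)
    set a := A i j with hadef
    let κ := {k : ι // k ≠ i ∧ k ≠ j}
    let f : Fin 2 ⊕ κ → ι := Sum.elim ![i, j] Subtype.val
    have hf : Function.Bijective f := by
      have f0 : f (Sum.inl 0) = i := rfl
      have f1 : f (Sum.inl 1) = j := rfl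
      constructor
      · rintro (x | x) (y | y) h
        · fin_cases x <;> fin_cases y
          · rfl
          · exact absurd h hne
          · exact absurd h.symm hne
          · rfl
        · exfalso
          have h1 := y.2.1
          have h2 := y.2.2
          fin_cases x
          · exact h1 h.symm
          · exact h2 h.symm
        · exfalso
          have h1 := x.2.1
          have h2 := x.2.2
          fin_cases y
          · exact h1 h
          · exact h2 h
        · exact congrArg Sum.inr (Subtype.ext h)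
      · intro k
        by_cases h1 : k = i
        · exact ⟨Sum.inl 0, h1.symm⟩
        by_cases h2 : k = j
        · exact ⟨Sum.inl 1, h2.symm⟩
        exact ⟨Sum.inr ⟨k, h1, h2⟩, rfl⟩
    let e : Fin 2 ⊕ κ ≃ ι := Equiv.ofBijective f hf
    have hcard : Fintype.card κ < N := by
      have h1 := Fintype.card_congr e
      rw [Fintype.card_sum, Fintype.card_fin, hN] at h1
      omega
    rw [← Matrix.det_submatrix_equiv_self e A, ← Matrix.fromBlocks_toBlocks (A.submatrix e e)]
    set M := A.submatrix e e with hM
    have h11 : M.toBlocks₁₁ = !![0, a; -a, 0] := by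
      ext x y
      fin_cases x <;> fin_cases y
      · exact hd i
      · rfl
      · exact ha i j
      · exact hd j
    rw [h11]
    let inv : Invertible (!![0, a; -a, 0] : Matrix (Fin 2) (Fin 2) K) :=
      ⟨!![0, -a⁻¹; a⁻¹, 0], by
        ext x y
        fin_cases x <;> fin_cases y <;> simp [Matrix.mul_apply, hij], by
        ext x y
        fin_cases x <;> fin_cases y <;> simp [Matrix.mul_apply, hij]⟩
    rw [Matrix.det_fromBlocks₁₁]
    have hinv : ⅟(!![0, a; -a, 0] : Matrix (Fin 2) (Fin 2) K) = !![0, -a⁻¹; a⁻¹, 0] := rfl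
    rw [hinv]
    have hdet : (!![0, a; -a, 0] : Matrix (Fin 2) (Fin 2) K).det = a * a := by
      rw [Matrix.det_fin_two_of]; ring
    rw [hdet]
    have key : ∀ k l : κ, (M.toBlocks₂₂ - M.toBlocks₂₁ * !![0, -a⁻¹; a⁻¹, 0] * M.toBlocks₁₂) k l =
        A k.1 l.1 - (A k.1 j * a⁻¹ * A i l.1 - A k.1 i * a⁻¹ * A j l.1) := by
      intro k l
      rw [Matrix.sub_apply, Matrix.mul_apply]
      simp only [Fin.sum_univ_two, Matrix.mul_apply]
      have e1 : M.toBlocks₂₁ k 0 = A k.1 i := rfl
      have e2 : M.toBlocks₂₁ k 1 = A k.1 j := rfl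
      have e3 : M.toBlocks₁₂ 0 l = A i l.1 := rfl
      have e4 : M.toBlocks₁₂ 1 l = A j l.1 := rfl
      have e5 : M.toBlocks₂₂ k l = A k.1 l.1 := rfl
      rw [e1, e2, e3, e4, e5]
      simp
      ring
    obtain ⟨s, hs⟩ := ih _ hcard κ rfl
      (M.toBlocks₂₂ - M.toBlocks₂₁ * !![0, -a⁻¹; a⁻¹, 0] * M.toBlocks₁₂) (by
        intro k
        rw [key, hd, ha i k.1, ha j k.1]
        ring) (by
        intro k l
        rw [key, key, ha k.1 l.1, ha i k.1, ha j k.1, ha i l.1, ha j l.1]
        ring)
    rw [hs]
    exact ⟨a * s, by ring⟩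

open MvPolynomial in
/-- A linear space of alternating matrices all of whose nonzero members are nonsingular:
the size is even and at least twice the dimension. -/
theorem pencil_bound {F : Type*} [Field F] [Finite F] (m n : ℕ) (hm : 0 < m) (hn : 0 < n)
    (A : Fin n → Matrix (Fin m) (Fin m) F) (hd : ∀ k i, A k i i = 0)
    (ha : ∀ k i j, A k j i = - A k i j)
    (hA : ∀ t : Fin n → F, t ≠ 0 → (∑ k, t k • A k).det ≠ 0) : Even m ∧ 2 * n ≤ m := by
  classical
  let R := MvPolynomial (Fin n) F
  let M : Matrix (Fin m) (Fin m) R := fun i j => ∑ k, X k * C (A k i j)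
  have hev : ∀ t : Fin n → F, eval t M.det = (∑ k, t k • A k).det := by
    intro t
    rw [RingHom.map_det]
    congr 1
    ext i j
    rw [RingHom.mapMatrix_apply, Matrix.map_apply, Matrix.sum_apply]
    simp only [M, map_sum, map_mul, eval_X, eval_C, Matrix.smul_apply, smul_eq_mul]
  -- square root in the fraction field
  have hsq : ∃ P : R, P * P = M.det := by
    let K := FractionRing R
    obtain ⟨s, hs⟩ := isSquare_det_of_alt (K := K) m (Fin m) (Fintype.card_fin m)
      (M.map (algebraMap R K)) (by
        intro i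
        rw [Matrix.map_apply]
        simp only [M, hd, map_zero, mul_zero, Finset.sum_const_zero]) (by
        intro i j
        simp only [Matrix.map_apply]
        rw [← map_neg]
        congr 1
        simp only [M]
        rw [← Finset.sum_neg_distrib]
        refine Finset.sum_congr rfl fun k _ => ?_
        rw [ha, map_neg, mul_neg])
    have hs' : s ^ 2 = algebraMap R K M.det := by
      rw [pow_two, ← hs, RingHom.map_det]
      rfl
    obtain ⟨P, hP⟩ := IsIntegrallyClosed.exists_algebraMap_eq_of_isIntegral_pow (R := R)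
      (K := K) (x := s) (n := 2) (by norm_num) (by
        rw [hs']
        exact isIntegral_algebraMap)
    refine ⟨P, ?_⟩
    apply IsFractionRing.injective R K
    rw [map_mul, hP, ← pow_two, hs']
  obtain ⟨P, hP⟩ := hsq
  have hhom : M.det.IsHomogeneous m := by
    rw [Matrix.det_apply]
    apply IsHomogeneous.sum
    intro σ _
    rw [Units.smul_def, zsmul_eq_mul]
    have h1 : (∏ i, M (σ i) i).IsHomogeneous (∑ i : Fin m, 1) := by
      apply IsHomogeneous.prod
      intro i _
      apply IsHomogeneous.sum
      intro k _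
      have := (isHomogeneous_X F k).mul (isHomogeneous_C (Fin n) (A k (σ i) i))
      simpa using this
    have h2 : (∑ i : Fin m, 1) = m := by simp
    rw [h2] at h1
    have h3 : ((((Equiv.Perm.sign σ : ℤˣ) : ℤ) : R)).IsHomogeneous 0 := by
      have : ((((Equiv.Perm.sign σ : ℤˣ) : ℤ) : R)) = C ((((Equiv.Perm.sign σ : ℤˣ) : ℤ) : F)) := by
        simp
      rw [this]
      exact isHomogeneous_C _ _
    simpa using h3.mul h1
  have hne1 : (fun _ => 1 : Fin n → F) ≠ 0 := by
    intro h
    have := congrFun h ⟨0, hn⟩
    simp at this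
  have hdet0 : M.det ≠ 0 := by
    intro h
    have h1 := hev (fun _ => 1)
    rw [h, map_zero] at h1
    exact hA _ hne1 h1.symm
  have hP0 : P ≠ 0 := by
    rintro rfl
    rw [mul_zero] at hP
    exact hdet0 hP.symm
  have hdeg : P.totalDegree + P.totalDegree = m := by
    rw [← totalDegree_mul_of_isDomain hP0 hP0, hP]
    exact hhom.totalDegree hdet0
  refine ⟨⟨_, hdeg.symm⟩, ?_⟩
  by_contra hlt
  push Not at hlt
  have hlt' : P.totalDegree < n := by omega
  obtain ⟨q, hq⟩ := CharP.exists F
  have := hq
  cases nonempty_fintype F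
  have hq' : q.Prime := CharP.char_is_prime F q
  have hcw := char_dvd_card_solutions q (f := P) (by rw [Fintype.card_fin]; exact hlt')
  have hPev : ∀ t : Fin n → F, eval t P = 0 ↔ t = 0 := by
    intro t
    constructor
    · intro h
      by_contra hne
      apply hA t hne
      rw [← hev, ← hP, map_mul, h, mul_zero]
    · rintro rfl
      have h1 : eval (0 : Fin n → F) P * eval (0 : Fin n → F) P = 0 := by
        rw [← map_mul, hP, hev]
        have h2 : (∑ k, (0 : Fin n → F) k • A k) = 0 := by simp
        have : Nonempty (Fin m) := ⟨⟨0, hm⟩⟩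
        rw [h2, Matrix.det_zero]
      exact mul_self_eq_zero.1 h1
  have hone : Fintype.card {x : Fin n → F // eval x P = 0} = 1 := by
    rw [Fintype.card_eq_one_iff]
    refine ⟨⟨0, (hPev 0).2 rfl⟩, ?_⟩
    rintro ⟨y, hy⟩
    exact Subtype.ext ((hPev y).1 hy)
  have hone' : ∀ [DecidableEq F], Fintype.card {x : Fin n → F // eval x P = 0} = 1 := by
    intro _
    convert hone
  rw [hone'] at hcw
  exact hq'.one_lt.ne' (Nat.dvd_one.1 hcw)

end Pool.Agent.Helper3.CM
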