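import Pool.Agent.Helper3.CM.RatDefs

open Polynomial

namespace Pool.Agent.Helper3.CM

variable {p : ℕ} [Fact p.Prime]

namespace Pair

variable (P : Pair p)

/-- The ring `F_p[X]/(f)`. -/
abbrev R : Type := AdjoinRoot P.f

/-- The residue functional. -/
noncomputable def res : P.R →ₗ[ZMod p] ZMod p :=
  (lcoeff (ZMod p) (P.k - 1)).comp (AdjoinRoot.modByMonicHom P.monic)

theorem res_mk (g : (ZMod p)[X]) : P.res (AdjoinRoot.mk P.f g) = (g %ₘ P.f).coeff (P.k - 1) := rfl

theorem res_mk_of_lt {g : (ZMod p)[X]} (h : g.degree < P.f.degree) :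
    P.res (AdjoinRoot.mk P.f g) = g.coeff (P.k - 1) := by
  rw [res_mk, (modByMonic_eq_self_iff P.monic).2 h]

omit [Fact p.Prime] in
theorem k_pos : 0 < P.k := lt_of_le_of_lt (Nat.zero_le _) P.deg

theorem exists_rep (u : P.R) : ∃ g : (ZMod p)[X], g.degree < P.f.degree ∧ u = AdjoinRoot.mk P.f g := by
  obtain ⟨g, rfl⟩ := AdjoinRoot.mk_surjective u
  refine ⟨g %ₘ P.f, degree_modByMonic_lt g P.monic, ?_⟩
  rw [AdjoinRoot.mk_eq_mk, modByMonic_eq_sub_mul_div, sub_sub_cancel]
  exact dvd_mul_right _ _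

theorem res_nondeg {u : P.R} (hu : u ≠ 0) : ∃ w, P.res (u * w) ≠ 0 := by
  obtain ⟨g, hg, rfl⟩ := P.exists_rep u
  have hg0 : g ≠ 0 := by
    rintro rfl
    exact hu (map_zero _)
  have hlt : g.natDegree < P.k := natDegree_lt_natDegree hg0 hg
  refine ⟨AdjoinRoot.mk P.f (X ^ (P.k - 1 - g.natDegree)), ?_⟩
  have hpos := P.k_pos
  rw [← map_mul, res_mk_of_lt]
  · have e : P.k - 1 = g.natDegree + (P.k - 1 - g.natDegree) := by omega
    conv_lhs => rw [e]
    rw [Nat.add_sub_cancel_left, coeff_mul_X_pow]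
    exact leadingCoeff_ne_zero.2 hg0
  · rw [degree_eq_natDegree P.monic.ne_zero]
    refine lt_of_le_of_lt (degree_mul_le _ _) ?_
    rw [degree_X_pow, degree_eq_natDegree hg0]
    exact_mod_cast (by unfold k at *; omega : g.natDegree + (P.k - 1 - g.natDegree) < P.f.natDegree)

/-- the unit `v` -/
noncomputable def vv : P.R := AdjoinRoot.mk P.f P.v

theorem isUnit_of_coprime {g : (ZMod p)[X]} (h : IsCoprime P.f g) :
    IsUnit (AdjoinRoot.mk P.f g) := by
  obtain ⟨a, b, hab⟩ := h
  refine IsUnit.of_mul_eq_one (AdjoinRoot.mk P.f b) ?_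
  rw [← map_mul, ← map_one (AdjoinRoot.mk P.f), AdjoinRoot.mk_eq_mk]
  exact ⟨-a, by linear_combination hab⟩

theorem isUnit_vv : IsUnit P.vv := P.isUnit_of_coprime P.cop

/-- The functional `λ`. -/
noncomputable def lam : P.R →ₗ[ZMod p] ZMod p := P.res.comp (LinearMap.mulRight (ZMod p) P.vv)

theorem lam_apply (w : P.R) : P.lam w = P.res (w * P.vv) := rfl

theorem lam_nondeg {u : P.R} (hu : u ≠ 0) : ∃ w, P.lam (u * w) ≠ 0 := by
  obtain ⟨w, hw⟩ := P.res_nondeg hu
  obtain ⟨v', hv'⟩ := P.isUnit_vv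
  refine ⟨w * (↑v'⁻¹ : P.R), ?_⟩
  rw [lam_apply, ← hv']
  have : u * (w * (↑v'⁻¹ : P.R)) * (v' : P.R) = u * w := by
    rw [mul_assoc, mul_assoc, Units.inv_mul, mul_one]
  rw [this]
  exact hw

theorem lam_ext {u u' : P.R} (h : ∀ w, P.lam (u * w) = P.lam (u' * w)) : u = u' := by
  by_contra hne
  obtain ⟨w, hw⟩ := P.lam_nondeg (sub_ne_zero.2 hne)
  apply hw
  rw [sub_mul, map_sub, h, sub_self]

theorem res_ext {u u' : P.R} (h : ∀ w, P.res (u * w) = P.res (u' * w)) : u = u' := by
  by_contra hne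
  obtain ⟨w, hw⟩ := P.res_nondeg (sub_ne_zero.2 hne)
  apply hw
  rw [sub_mul, map_sub, h, sub_self]

/-- the root -/
noncomputable def t : P.R := AdjoinRoot.root P.f

theorem coprime_of_isUnit {g h : (ZMod p)[X]} (hu : IsUnit h) : IsCoprime g h := by
  obtain ⟨u, rfl⟩ := hu
  exact ⟨0, (↑u⁻¹ : (ZMod p)[X]), by rw [zero_mul, zero_add, Units.inv_mul]⟩

/-- linear elements are units -/
theorem isUnit_lin {a b : ZMod p} (h : ¬ (a = 0 ∧ b = 0)) :
    IsUnit (algebraMap (ZMod p) P.R a + algebraMap (ZMod p) P.R b * P.t) := by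
  have e : algebraMap (ZMod p) P.R a + algebraMap (ZMod p) P.R b * P.t =
      AdjoinRoot.mk P.f (C a + C b * X) := by
    rw [map_add, map_mul]; rfl
  rw [e]
  apply P.isUnit_of_coprime
  by_cases hb : b = 0
  · have ha : a ≠ 0 := fun ha => h ⟨ha, hb⟩
    rw [hb, C_0, zero_mul, add_zero]
    exact coprime_of_isUnit (isUnit_C.2 (isUnit_iff_ne_zero.2 ha))
  · have e2 : C a + C b * X = C b * (X - C (-(a / b))) := by
      rw [mul_sub, ← C_mul, mul_neg, mul_div_cancel₀ _ hb, C_neg]; ring
    rw [e2]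
    apply IsCoprime.mul_right
    · exact coprime_of_isUnit (isUnit_C.2 (isUnit_iff_ne_zero.2 hb))
    · rw [isCoprime_comm, (irreducible_X_sub_C _).coprime_iff_not_dvd, dvd_iff_isRoot]
      exact P.noroot _

/-- determinant form -/
noncomputable def omr (x y : P.R × P.R) : P.R := x.1 * y.2 - x.2 * y.1

theorem omr_surj_aux {x : P.R × P.R} (h : ∀ y, P.lam (P.omr x y) = 0) : x = 0 := by
  have h1 : x.1 = 0 := by
    by_contra hne
    obtain ⟨w, hw⟩ := P.lam_nondeg hne
    apply hw
    have := h (0, w)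
    simpa [omr] using this
  have h2 : x.2 = 0 := by
    by_contra hne
    obtain ⟨w, hw⟩ := P.lam_nondeg hne
    apply hw
    have := h (-w, 0)
    simpa [omr] using this
  exact Prod.ext h1 h2

/-- The commutator map on `R x R`. -/
noncomputable def BR : (P.R × P.R) →ₗ[ZMod p] (P.R × P.R) →ₗ[ZMod p] Vec p 2 :=
  LinearMap.mk₂ (ZMod p) (fun x y => ![P.lam (P.omr x y), P.lam (P.t * P.omr x y)])
    (by
      intro x x' y
      have e : P.omr (x + x') y = P.omr x y + P.omr x' y := by
        simp only [omr, Prod.fst_add, Prod.snd_add]; ring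
      ext i
      fin_cases i <;> simp [e, mul_add])
    (by
      intro s x y
      have e : P.omr (s • x) y = s • P.omr x y := by
        simp only [omr, Prod.smul_fst, Prod.smul_snd, smul_mul_assoc, smul_sub]
      ext i
      fin_cases i <;> simp [e])
    (by
      intro x y y'
      have e : P.omr x (y + y') = P.omr x y + P.omr x y' := by
        simp only [omr, Prod.fst_add, Prod.snd_add]; ring
      ext i
      fin_cases i <;> simp [e, mul_add])
    (by
      intro s x y
      have e : P.omr x (s • y) = s • P.omr x y := by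
        simp only [omr, Prod.smul_fst, Prod.smul_snd, mul_smul_comm, smul_sub]
      ext i
      fin_cases i <;> simp [e])

theorem BR_apply (x y : P.R × P.R) :
    P.BR x y = ![P.lam (P.omr x y), P.lam (P.t * P.omr x y)] := rfl

theorem BR_self (x : P.R × P.R) : P.BR x x = 0 := by
  have e : P.omr x x = 0 := by simp only [omr]; ring
  rw [BR_apply, e, mul_zero, map_zero]
  ext i
  fin_cases i <;> rfl

theorem BR_surj (x : P.R × P.R) (hx : x ≠ 0) : Function.Surjective (P.BR x) := by
  rw [← LinearMap.dualMap_injective_iff, injective_iff_map_eq_zero]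
  intro φ hφ
  have h1 : ∀ y, φ (P.BR x y) = 0 := fun y => LinearMap.congr_fun hφ y
  set a := φ ![1, 0] with ha
  set b := φ ![0, 1] with hb
  have h2 : ∀ w : Vec p 2, φ w = w 0 * a + w 1 * b := by
    intro w
    have e : w = w 0 • ![1, 0] + w 1 • ![0, 1] := by
      ext i
      fin_cases i <;> simp
    conv_lhs => rw [e]
    rw [map_add, map_smul, map_smul, smul_eq_mul, smul_eq_mul]
  by_contra hne
  have hab : ¬ (a = 0 ∧ b = 0) := by
    rintro ⟨h3, h4⟩
    apply hne
    ext w
    rw [LinearMap.comp_apply]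
    have := h2 (LinearMap.single (ZMod p) (fun _ => ZMod p) w 1)
    rw [this, h3, h4]
    simp
  have hu := P.isUnit_lin hab
  set e := algebraMap (ZMod p) P.R a + algebraMap (ZMod p) P.R b * P.t with he
  have h3 : ∀ y, P.lam (P.omr x (e • y)) = 0 := by
    intro y
    have sdR : ∀ (s : ZMod p) (z : P.R), s • z = algebraMap (ZMod p) P.R s * z :=
      fun s z => Algebra.smul_def s z
    have e1 : P.omr x (e • y) = a • P.omr x y + b • (P.t * P.omr x y) := by
      rw [sdR, sdR, he]
      simp only [omr, Prod.smul_fst, Prod.smul_snd, smul_eq_mul]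
      ring
    rw [e1, map_add, map_smul, map_smul, smul_eq_mul, smul_eq_mul]
    have := h1 y
    rw [h2, BR_apply] at this
    simp only [Matrix.cons_val_zero, Matrix.cons_val_one] at this
    linear_combination this
  obtain ⟨u, hu⟩ := hu
  apply hx
  apply P.omr_surj_aux
  intro y
  have h4 := h3 ((↑u⁻¹ : P.R) • y)
  rwa [smul_smul, ← hu, Units.mul_inv, one_smul] at h4

/-- The power map on `R x R`. -/
noncomputable def πR (x : P.R × P.R) : Vec p 2 := ![P.lam x.2, - P.lam x.1]

theorem πR_add (x y : P.R × P.R) : P.πR (x + y) = P.πR x + P.πR y := by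
  ext i
  fin_cases i
  · simp [πR]
  · simp [πR]; ring

/-- power basis -/
noncomputable def bas : Module.Basis (Fin P.k) (ZMod p) P.R := AdjoinRoot.powerBasisAux' P.monic

theorem bas_apply (i : Fin P.k) : P.bas i = P.t ^ (i : ℕ) :=
  (AdjoinRoot.powerBasis' P.monic).basis_eq_pow i

/-- coordinates -/
noncomputable def e0 : Vec p P.k ≃ₗ[ZMod p] P.R := P.bas.equivFun.symm

theorem e0_apply (x : Vec p P.k) : P.e0 x = ∑ i : Fin P.k, x i • P.t ^ (i : ℕ) := by
  unfold e0
  rw [Module.Basis.equivFun_symm_apply]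
  exact Finset.sum_congr rfl fun i _ => by rw [bas_apply]

/-- coordinates on `R x R` -/
noncomputable def cmap : Vec p (P.k + P.k) ≃ₗ[ZMod p] P.R × P.R where
  toFun x := (P.e0 (fun i => x (Fin.castAdd P.k i)), P.e0 (fun i => x (Fin.natAdd P.k i)))
  map_add' x y := by
    ext
    · simp only [Prod.fst_add]; rw [← map_add]; rfl
    · simp only [Prod.snd_add]; rw [← map_add]; rfl
  map_smul' c x := by
    ext
    · simp only [Prod.smul_fst, RingHom.id_apply]; rw [← map_smul]; rfl
    · simp only [Prod.smul_snd, RingHom.id_apply]; rw [← map_smul]; rfl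
  invFun y := Fin.append (P.e0.symm y.1) (P.e0.symm y.2)
  left_inv x := by
    ext i
    refine Fin.addCases (fun j => ?_) (fun j => ?_) i
    · change Fin.append _ _ (Fin.castAdd P.k j) = _
      rw [Fin.append_left, LinearEquiv.symm_apply_apply]
    · change Fin.append _ _ (Fin.natAdd P.k j) = _
      rw [Fin.append_right, LinearEquiv.symm_apply_apply]
  right_inv y := by
    ext
    · simp only [Fin.append_left, LinearEquiv.apply_symm_apply]
    · simp only [Fin.append_right, LinearEquiv.apply_symm_apply]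

theorem cmap_apply (x : Vec p (P.k + P.k)) : P.cmap x =
    (P.e0 (fun i => x (Fin.castAdd P.k i)), P.e0 (fun i => x (Fin.natAdd P.k i))) := rfl

theorem s_eq (j : ℕ) : P.s j = P.lam (P.t ^ j) := by
  rw [lam_apply]
  have : P.t ^ j * P.vv = AdjoinRoot.mk P.f (X ^ j * P.v) := by
    rw [map_mul, map_pow]; rfl
  rw [this, res_mk]
  rfl

theorem B_eq (x y : Vec p (P.k + P.k)) : P.B x y = P.BR (P.cmap x) (P.cmap y) := by
  have key : ∀ l : ℕ, P.lam (P.t ^ l * P.omr (P.cmap x) (P.cmap y)) =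
      ∑ i : Fin P.k, ∑ j : Fin P.k, P.s (i + j + l) *
    (x (Fin.castAdd P.k i) * y (Fin.natAdd P.k j) -
      y (Fin.castAdd P.k i) * x (Fin.natAdd P.k j)) := by
    intro l
    have e1 : P.t ^ l * P.omr (P.cmap x) (P.cmap y) = ∑ i : Fin P.k, ∑ j : Fin P.k,
        (x (Fin.castAdd P.k i) * y (Fin.natAdd P.k j) -
          y (Fin.castAdd P.k i) * x (Fin.natAdd P.k j)) • P.t ^ ((i : ℕ) + j + l) := by
      simp only [omr, cmap_apply, e0_apply]
      have e2 : (∑ i : Fin P.k, x (Fin.natAdd P.k i) • P.t ^ (i : ℕ)) *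
          (∑ i : Fin P.k, y (Fin.castAdd P.k i) • P.t ^ (i : ℕ)) =
          (∑ i : Fin P.k, y (Fin.castAdd P.k i) • P.t ^ (i : ℕ)) *
          (∑ i : Fin P.k, x (Fin.natAdd P.k i) • P.t ^ (i : ℕ)) := mul_comm _ _
      rw [e2, Finset.sum_mul_sum, Finset.sum_mul_sum, ← Finset.sum_sub_distrib, Finset.mul_sum]
      refine Finset.sum_congr rfl fun i _ => ?_
      rw [← Finset.sum_sub_distrib, Finset.mul_sum]
      refine Finset.sum_congr rfl fun j _ => ?_
      rw [sub_smul, smul_mul_smul_comm, smul_mul_smul_comm, mul_sub, mul_smul_comm, mul_smul_comm,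
        ← pow_add, ← pow_add, add_comm l]
    rw [e1, map_sum]
    refine Finset.sum_congr rfl fun i _ => ?_
    rw [map_sum]
    refine Finset.sum_congr rfl fun j _ => ?_
    rw [map_smul, smul_eq_mul, s_eq, mul_comm]
  ext l
  rw [BR_apply]
  fin_cases l
  · have := key 0
    rw [pow_zero, one_mul] at this
    exact this.symm
  · have := key 1
    rw [pow_one] at this
    exact this.symm

theorem π_eq (x : Vec p (P.k + P.k)) : P.π x = P.πR (P.cmap x) := by
  have key : ∀ z : Vec p P.k, P.lam (P.e0 z) = ∑ j : Fin P.k, P.s j * z j := by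
    intro z
    rw [e0_apply, map_sum]
    refine Finset.sum_congr rfl fun j _ => ?_
    rw [map_smul, smul_eq_mul, s_eq, mul_comm]
  unfold π πR
  rw [cmap_apply, key, key]

end Pair

end Pool.Agent.Helper3.CM
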