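import Pool.Agent.Helper3.CM.RF1

open Polynomial

namespace Pool.Agent.Helper3.CM

variable {p : ℕ} [Fact p.Prime]

/-- the linear polynomial `a + b X` -/
noncomputable def lin (a b : ZMod p) : (ZMod p)[X] := C a + C b * X

theorem lin_natDegree (a b : ZMod p) : (lin a b).natDegree ≤ 1 := by
  unfold lin; compute_degree

theorem lin_coeff_one (a b : ZMod p) : (lin a b).coeff 1 = b := by
  unfold lin; simp

theorem lin_prod_natDegree (a b c d : ZMod p) (i j : ℕ) :
    (lin c d ^ i * lin a b ^ j).natDegree ≤ i + j := by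
  refine natDegree_mul_le.trans ?_
  have h1 := natDegree_pow_le_of_le i (lin_natDegree c d)
  have h2 := natDegree_pow_le_of_le j (lin_natDegree a b)
  omega

theorem lin_prod_coeff (a b c d : ZMod p) (i j : ℕ) :
    (lin c d ^ i * lin a b ^ j).coeff (i + j) = d ^ i * b ^ j := by
  have h1 := natDegree_pow_le_of_le i (lin_natDegree c d)
  have h2 := natDegree_pow_le_of_le j (lin_natDegree a b)
  rw [mul_one] at h1 h2
  rw [coeff_mul_add_eq_of_natDegree_le h1 h2]
  have h3 := coeff_pow_of_natDegree_le (m := i) (lin_natDegree c d)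
  have h4 := coeff_pow_of_natDegree_le (m := j) (lin_natDegree a b)
  rw [mul_one, lin_coeff_one] at h3 h4
  rw [h3, h4]

theorem hsub_eq (n : ℕ) (g : (ZMod p)[X]) (a b c d : ZMod p) :
    hsub n g (lin a b) (lin c d) =
      ∑ i ∈ Finset.range (n + 1), C (g.coeff i) * (lin c d ^ i * lin a b ^ (n - i)) := by
  unfold hsub
  exact Finset.sum_congr rfl fun i _ => by rw [mul_assoc]

theorem hsub_natDegree (n : ℕ) (g : (ZMod p)[X]) (a b c d : ZMod p) :
    (hsub n g (lin a b) (lin c d)).natDegree ≤ n := by
  rw [hsub_eq]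
  apply natDegree_sum_le_of_forall_le
  intro i hi
  rw [Finset.mem_range] at hi
  refine (natDegree_C_mul_le _ _).trans ((lin_prod_natDegree _ _ _ _ _ _).trans ?_)
  omega

theorem hsub_coeff (n : ℕ) (g : (ZMod p)[X]) (a b c d : ZMod p) :
    (hsub n g (lin a b) (lin c d)).coeff n =
      ∑ i ∈ Finset.range (n + 1), g.coeff i * (d ^ i * b ^ (n - i)) := by
  rw [hsub_eq, finsetSum_coeff]
  refine Finset.sum_congr rfl fun i hi => ?_
  rw [Finset.mem_range] at hi
  rw [coeff_C_mul]
  have := lin_prod_coeff a b c d i (n - i)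
  rw [Nat.add_sub_cancel' (by omega)] at this
  rw [this]

namespace Pair

variable (P Q : Pair p)

theorem two_le_k : 2 ≤ P.k := by
  by_contra h
  have h1 := P.k_pos
  have h2 : P.f.natDegree = 1 := by unfold k at *; omega
  have h3 := P.monic.eq_X_add_C h2
  apply P.noroot (-(P.f.coeff 0))
  rw [h3]
  simp

/-- the linear element `a + b t` -/
noncomputable def le (a b : ZMod p) : P.R := algebraMap (ZMod p) P.R a + algebraMap (ZMod p) P.R b * P.t

theorem le_eq (a b : ZMod p) : P.le a b = AdjoinRoot.mk P.f (lin a b) := by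
  unfold le lin
  rw [map_add, map_mul]; rfl

theorem le_isUnit {a b c d : ZMod p} (h : a * d - b * c ≠ 0) : IsUnit (P.le a b) := by
  apply P.isUnit_lin
  rintro ⟨rfl, rfl⟩
  apply h
  ring

theorem mk_hsub (n : ℕ) (g : (ZMod p)[X]) (hg : g.natDegree ≤ n) (a b c d : ZMod p) (τ : P.R)
    (hτ : τ * P.le a b = P.le c d) :
    AdjoinRoot.mk P.f (hsub n g (lin a b) (lin c d)) = eval₂ (algebraMap (ZMod p) P.R) τ g *
      P.le a b ^ n := by
  rw [hsub_eq, map_sum, eval₂_eq_sum_range' (algebraMap (ZMod p) P.R) (Nat.lt_succ_of_le hg) τ,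
    Finset.sum_mul]
  refine Finset.sum_congr rfl fun i hi => ?_
  rw [Finset.mem_range] at hi
  rw [map_mul, map_mul, map_pow, map_pow, ← le_eq, ← le_eq, ← hτ, mul_pow]
  have : P.le a b ^ n = P.le a b ^ i * P.le a b ^ (n - i) := by
    rw [← pow_add, Nat.add_sub_cancel' (by omega)]
  rw [this]
  have e : AdjoinRoot.mk P.f (C (g.coeff i)) = algebraMap (ZMod p) P.R (g.coeff i) := rfl
  rw [e]
  ring

theorem eq_C_mul_of_dvd {g : (ZMod p)[X]} (h : P.f ∣ g) (hg : g.natDegree ≤ P.k) :
    ∃ κ : ZMod p, g = C κ * P.f := by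
  obtain ⟨q, rfl⟩ := h
  by_cases hq : q = 0
  · exact ⟨0, by rw [hq]; simp⟩
  · rw [P.monic.natDegree_mul' hq] at hg
    have : q.natDegree = 0 := by unfold k at hg; omega
    obtain ⟨κ, hκ⟩ := natDegree_eq_zero.1 this
    exact ⟨κ, by rw [← hκ, mul_comm]⟩

theorem form_ne_zero {a c : ZMod p} (h : ¬ (a = 0 ∧ c = 0)) :
    (∑ i ∈ Finset.range (Q.k + 1), Q.f.coeff i * (c ^ i * a ^ (Q.k - i))) ≠ 0 := by
  by_cases ha : a = 0
  · have hc : c ≠ 0 := fun hc => h ⟨ha, hc⟩
    subst ha
    rw [Finset.sum_eq_single Q.k]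
    · have : Q.f.coeff Q.k = 1 := Q.monic.coeff_natDegree
      rw [this, Nat.sub_self, pow_zero, mul_one, one_mul]
      exact pow_ne_zero _ hc
    · intro i hi hne
      rw [Finset.mem_range] at hi
      rw [zero_pow (by omega), mul_zero, mul_zero]
    · intro h'
      exact absurd (Finset.mem_range.2 (Nat.lt_succ_self _)) h'
  · have h1 : (∑ i ∈ Finset.range (Q.k + 1), Q.f.coeff i * (c ^ i * a ^ (Q.k - i))) =
        a ^ Q.k * Q.f.eval (c / a) := by
      rw [eval_eq_sum_range, Finset.mul_sum]
      refine Finset.sum_congr rfl fun i hi => ?_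
      rw [Finset.mem_range] at hi
      have hQ : Q.k = Q.f.natDegree := rfl
      have : a ^ Q.k = a ^ i * a ^ (Q.k - i) := by
        rw [← pow_add, Nat.add_sub_cancel' (by omega)]
      rw [this, div_pow]
      field_simp
    rw [h1]
    exact mul_ne_zero (pow_ne_zero _ ha) (Q.noroot _)

theorem kappa_ne_zero {a b c d κ : ZMod p} (h : a * d - b * c ≠ 0)
    (hκ : hsub Q.k Q.f (lin a b) (lin c d) = C κ * P.f) : κ ≠ 0 := by
  rintro rfl
  have h1 := congrArg (eval 0) hκ
  rw [hsub_eq, eval_finsetSum] at h1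
  have hac : ¬ (a = 0 ∧ c = 0) := by
    rintro ⟨rfl, rfl⟩
    apply h; ring
  apply Q.form_ne_zero hac
  rw [C_0, zero_mul, eval_zero] at h1
  rw [← h1]
  refine Finset.sum_congr rfl fun i _ => ?_
  simp [lin]

/-- The residue transformation law. -/
theorem residue_law {a b c d κ : ZMod p} (hk : Q.k = P.k)
    (hκ : hsub P.k Q.f (lin a b) (lin c d) = C κ * P.f) (θ : Q.R →ₐ[ZMod p] P.R)
    (hθ : θ Q.t * P.le a b = P.le c d) (hu : IsUnit (P.le a b)) (w : Q.R) :
    κ * Q.res w = (a * d - b * c) * P.res (θ w * P.le a b ^ (P.k - 2)) := by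
  have h2 := P.two_le_k
  let L₁ : Q.R →ₗ[ZMod p] ZMod p := κ • Q.res
  let L₂ : Q.R →ₗ[ZMod p] ZMod p := (a * d - b * c) • (P.res.comp
    ((LinearMap.mulRight (ZMod p) (P.le a b ^ (P.k - 2))).comp θ.toLinearMap))
  have key : L₁ = L₂ := by
    apply Q.bas.ext
    intro i
    rw [bas_apply]
    change κ * Q.res (Q.t ^ (i : ℕ)) = (a * d - b * c) * P.res (θ (Q.t ^ (i : ℕ)) *
      P.le a b ^ (P.k - 2))
    have hres : Q.res (Q.t ^ (i : ℕ)) = if (i : ℕ) = Q.k - 1 then 1 else 0 := by
      have e : Q.t ^ (i : ℕ) = AdjoinRoot.mk Q.f (X ^ (i : ℕ)) := by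
        rw [map_pow]; rfl
      rw [e, res_mk_of_lt, coeff_X_pow]
      · simp only [eq_comm]
      · rw [degree_X_pow, degree_eq_natDegree Q.monic.ne_zero]
        exact_mod_cast i.2
    rw [hres, map_pow]
    have hi := i.2
    split_ifs with hik
    · -- top coefficient
      rw [mul_one, hik, hk]
      set A : (ZMod p)[X] := ∑ j ∈ Finset.range P.k,
        C (Q.f.coeff j) * (lin c d ^ j * lin a b ^ (P.k - 1 - j)) with hA
      have hF : hsub P.k Q.f (lin a b) (lin c d) = lin c d ^ P.k + lin a b * A := by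
        rw [hsub_eq, Finset.sum_range_succ, hA, Finset.mul_sum, add_comm]
        congr 1
        · have : Q.f.coeff P.k = 1 := by rw [← hk]; exact Q.monic.coeff_natDegree
          rw [this, C_1, one_mul, Nat.sub_self, pow_zero, mul_one]
        · refine Finset.sum_congr rfl fun j hj => ?_
          rw [Finset.mem_range] at hj
          have : P.k - j = (P.k - 1 - j) + 1 := by omega
          rw [this, pow_succ]; ring
      have h0 : P.le c d ^ P.k + P.le a b * AdjoinRoot.mk P.f A = 0 := by
        have := congrArg (AdjoinRoot.mk P.f) (hF.symm.trans hκ)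
        rw [map_add, map_pow, map_mul, map_mul, AdjoinRoot.mk_self, mul_zero, ← le_eq,
          ← le_eq] at this
        exact this
      have hdelta : algebraMap (ZMod p) P.R (a * d - b * c) =
          algebraMap (ZMod p) P.R d * P.le a b - algebraMap (ZMod p) P.R b * P.le c d := by
        unfold le
        rw [map_sub, map_mul, map_mul]; ring
      have h3 : (a * d - b * c) • (θ Q.t ^ (P.k - 1) * P.le a b ^ (P.k - 2)) =
          AdjoinRoot.mk P.f (C d * lin c d ^ (P.k - 1) + C b * A) := by
        rw [Algebra.smul_def, hdelta, map_add, map_mul, map_mul, map_pow, ← le_eq]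
        have e1 : P.le c d ^ (P.k - 1) = (θ Q.t) ^ (P.k - 1) * P.le a b ^ (P.k - 1) := by
          rw [← hθ, mul_pow]
        have e2 : P.le a b ^ (P.k - 1) = P.le a b ^ (P.k - 2) * P.le a b := by
          rw [← pow_succ]; congr 1; omega
        have e3 : P.le c d ^ P.k = P.le c d ^ (P.k - 1) * P.le c d := by
          rw [← pow_succ]; congr 1; omega
        obtain ⟨u, hu⟩ := hu
        have hAeq : AdjoinRoot.mk P.f A = - (P.le c d ^ (P.k - 1) * P.le c d * (↑u⁻¹ : P.R)) := by
          have : P.le a b * AdjoinRoot.mk P.f A = - (P.le c d ^ (P.k - 1) * P.le c d) := by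
            rw [← e3]; linear_combination h0
          calc AdjoinRoot.mk P.f A = (↑u⁻¹ : P.R) * (P.le a b * AdjoinRoot.mk P.f A) := by
                rw [← hu, ← mul_assoc, Units.inv_mul, one_mul]
            _ = _ := by rw [this]; ring
        have e4 : AdjoinRoot.mk P.f (C d) = algebraMap (ZMod p) P.R d := rfl
        have e5 : AdjoinRoot.mk P.f (C b) = algebraMap (ZMod p) P.R b := rfl
        rw [hAeq, e4, e5, e1, e2]
        have e6 : P.le a b * (↑u⁻¹ : P.R) = 1 := by rw [← hu, Units.mul_inv]
        linear_combination (algebraMap (ZMod p) P.R b * P.le c d * θ Q.t ^ (P.k - 1) *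
          P.le a b ^ (P.k - 2)) * e6
      have h4 : (a * d - b * c) * P.res (θ Q.t ^ (P.k - 1) * P.le a b ^ (P.k - 2)) =
          P.res (AdjoinRoot.mk P.f (C d * lin c d ^ (P.k - 1) + C b * A)) := by
        rw [← h3, map_smul, smul_eq_mul]
      rw [h4, res_mk_of_lt]
      · -- compare coefficients
        have h5 := congrArg (fun g => coeff g P.k) hκ
        simp only [coeff_C_mul] at h5
        rw [hsub_coeff] at h5
        have h6 : P.f.coeff P.k = 1 := P.monic.coeff_natDegree
        rw [h6, mul_one] at h5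
        rw [← h5, coeff_add, coeff_C_mul, coeff_C_mul, hA, finsetSum_coeff, Finset.sum_range_succ,
          Finset.mul_sum, add_comm]
        congr 1
        · have : Q.f.coeff P.k = 1 := by rw [← hk]; exact Q.monic.coeff_natDegree
          have h7 := lin_prod_coeff a b c d (P.k - 1) 0
          rw [pow_zero, mul_one, add_zero, pow_zero, mul_one] at h7
          rw [this, one_mul, Nat.sub_self, pow_zero, mul_one, h7, ← pow_succ']
          congr 1; omega
        · refine Finset.sum_congr rfl fun j hj => ?_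
          rw [Finset.mem_range] at hj
          have h7 := lin_prod_coeff a b c d j (P.k - 1 - j)
          rw [Nat.add_sub_cancel' (by omega)] at h7
          rw [coeff_C_mul, h7]
          have : P.k - j = (P.k - 1 - j) + 1 := by omega
          rw [this, pow_succ]; ring
      · rw [degree_eq_natDegree P.monic.ne_zero]
        refine lt_of_le_of_lt degree_le_natDegree ?_
        have h8 : (C d * lin c d ^ (P.k - 1) + C b * A).natDegree ≤ P.k - 1 := by
          apply natDegree_add_le_of_degree_le
          · refine (natDegree_C_mul_le _ _).trans ?_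
            have := natDegree_pow_le_of_le (P.k - 1) (lin_natDegree c d)
            omega
          · refine (natDegree_C_mul_le _ _).trans ?_
            apply natDegree_sum_le_of_forall_le
            intro j hj
            rw [Finset.mem_range] at hj
            refine (natDegree_C_mul_le _ _).trans ((lin_prod_natDegree _ _ _ _ _ _).trans ?_)
            omega
        exact_mod_cast (by unfold k at *; omega :
          (C d * lin c d ^ (P.k - 1) + C b * A).natDegree < P.f.natDegree)
    · -- lower coefficients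
      rw [mul_zero]
      have hi' : (i : ℕ) ≤ P.k - 2 := by omega
      have e1 : θ Q.t ^ (i : ℕ) * P.le a b ^ (P.k - 2) =
          AdjoinRoot.mk P.f (lin c d ^ (i : ℕ) * lin a b ^ (P.k - 2 - i)) := by
        rw [map_mul, map_pow, map_pow, ← le_eq, ← le_eq, ← hθ, mul_pow]
        have : P.le a b ^ (P.k - 2) = P.le a b ^ (i : ℕ) * P.le a b ^ (P.k - 2 - i) := by
          rw [← pow_add, Nat.add_sub_cancel' hi']
        rw [this]; ring
      have hdeg := lin_prod_natDegree a b c d i (P.k - 2 - i)
      rw [e1, res_mk_of_lt]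
      · rw [coeff_eq_zero_of_natDegree_lt (by omega), mul_zero]
      · rw [degree_eq_natDegree P.monic.ne_zero]
        refine lt_of_le_of_lt degree_le_natDegree ?_
        exact_mod_cast (by unfold k at *; omega :
          (lin c d ^ (i : ℕ) * lin a b ^ (P.k - 2 - i)).natDegree < P.f.natDegree)
  exact LinearMap.congr_fun key w

end Pair

end Pool.Agent.Helper3.CM
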