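import Pool.Agent.Helper3.CM.RF2

open Polynomial

namespace Pool.Agent.Helper3.CM

variable {p : ℕ} [Fact p.Prime]

namespace Pair

variable (P Q : Pair p)

theorem rel_iff (a b c d : ZMod p) : Pair.Rel a b c d P Q ↔ a * d - b * c ≠ 0 ∧ Q.k = P.k ∧
    hsub (P.k - 1) Q.v (lin a b) (lin c d) * P.f = hsub P.k Q.f (lin a b) (lin c d) * P.v := Iff.rfl

omit [Fact p.Prime] in
theorem Q_v_le : Q.v.natDegree ≤ Q.k - 1 := by
  have := Q.deg
  unfold k
  omega

/-- From the polynomial relation to an algebra map. -/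
theorem rel_to_alg {a b c d : ZMod p} (h : Pair.Rel a b c d P Q) (u : P.Rˣ)
    (hu : (u : P.R) = P.le a b) :
    ∃ θ : Q.R →ₐ[ZMod p] P.R, θ Q.t * P.le a b = P.le c d ∧
      ∀ w, Q.lam w = (a * d - b * c) * P.lam (θ w * (↑u⁻¹ : P.R)) := by
  obtain ⟨hΔ, hk, hrel⟩ := (rel_iff P Q a b c d).1 h
  have h2 := P.two_le_k
  have hdvd : P.f ∣ hsub P.k Q.f (lin a b) (lin c d) :=
    P.cop.dvd_of_dvd_mul_right (Dvd.intro_left _ hrel)
  obtain ⟨κ, hκ⟩ := P.eq_C_mul_of_dvd hdvd (hsub_natDegree _ _ _ _ _ _)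
  have hκ0 : κ ≠ 0 := by
    apply kappa_ne_zero P Q hΔ
    rw [hk]; exact hκ
  have hv : hsub (P.k - 1) Q.v (lin a b) (lin c d) = C κ * P.v := by
    rw [hκ] at hrel
    apply mul_right_cancel₀ P.monic.ne_zero
    rw [hrel]; ring
  set τ : P.R := P.le c d * (↑u⁻¹ : P.R) with hτdef
  have hτ : τ * P.le a b = P.le c d := by
    rw [hτdef, ← hu, mul_assoc, Units.inv_mul, mul_one]
  have hQk : Q.f.natDegree ≤ P.k := by rw [← hk]; exact le_refl _
  have hroot : eval₂ (algebraMap (ZMod p) P.R) τ Q.f = 0 := by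
    have h1 := P.mk_hsub P.k Q.f hQk a b c d τ hτ
    rw [hκ, map_mul, AdjoinRoot.mk_self, mul_zero, ← hu, ← Units.val_pow_eq_pow_val] at h1
    have h3 := congrArg (fun z => z * (↑(u ^ P.k)⁻¹ : P.R)) h1
    simp only [zero_mul] at h3
    rw [mul_assoc, Units.mul_inv, mul_one] at h3
    exact h3.symm
  let θ : Q.R →ₐ[ZMod p] P.R := AdjoinRoot.liftAlgHom Q.f (Algebra.ofId (ZMod p) P.R) τ hroot
  have hθt : θ Q.t = τ := AdjoinRoot.liftAlgHom_root ..
  have hθ : θ Q.t * P.le a b = P.le c d := by rw [hθt, hτ]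
  refine ⟨θ, hθ, ?_⟩
  intro w
  have hlaw := residue_law P Q hk hκ θ hθ ⟨u, hu⟩ (w * Q.vv)
  have hvv : θ Q.vv * P.le a b ^ (P.k - 1) = κ • P.vv := by
    have h1 := P.mk_hsub (P.k - 1) Q.v (by rw [← hk]; exact Q.Q_v_le) a b c d τ hτ
    rw [hv, map_mul] at h1
    have h3 : θ Q.vv = eval₂ (algebraMap (ZMod p) P.R) τ Q.v := rfl
    rw [h3, ← h1, Algebra.smul_def]
    rfl
  have hpow : P.le a b ^ (P.k - 1) = P.le a b ^ (P.k - 2) * P.le a b := by
    rw [← pow_succ]; congr 1; omega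
  have e1 : θ (w * Q.vv) * P.le a b ^ (P.k - 2) = κ • (θ w * (↑u⁻¹ : P.R) * P.vv) := by
    rw [map_mul]
    have e2 : θ Q.vv * P.le a b ^ (P.k - 2) = κ • P.vv * (↑u⁻¹ : P.R) := by
      rw [← hvv, hpow, ← hu]
      rw [mul_assoc, mul_assoc, Units.mul_inv, mul_one]
    rw [mul_assoc, e2, smul_mul_assoc, mul_smul_comm]
    congr 1; ring
  rw [e1, map_smul, smul_eq_mul] at hlaw
  have : κ * Q.lam w = κ * ((a * d - b * c) * P.lam (θ w * (↑u⁻¹ : P.R))) := by
    rw [lam_apply, lam_apply, hlaw]; ring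
  exact mul_left_cancel₀ hκ0 this

/-- From an algebra map to the polynomial relation. -/
theorem alg_to_rel {a b c d : ZMod p} (hΔ : a * d - b * c ≠ 0) (hk : Q.k = P.k) (u : P.Rˣ)
    (hu : (u : P.R) = P.le a b) (θ : Q.R →ₐ[ZMod p] P.R) (hθ : θ Q.t * P.le a b = P.le c d)
    (hlam : ∀ w, Q.lam w = (a * d - b * c) * P.lam (θ w * (↑u⁻¹ : P.R))) :
    Pair.Rel a b c d P Q := by
  have h2 := P.two_le_k
  rw [rel_iff]
  refine ⟨hΔ, hk, ?_⟩
  have hev : ∀ g : (ZMod p)[X], eval₂ (algebraMap (ZMod p) P.R) (θ Q.t) g =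
      θ (AdjoinRoot.mk Q.f g) := by
    intro g
    have h1 : θ (AdjoinRoot.mk Q.f g) = θ (aeval Q.t g) := by
      congr 1
      exact (AdjoinRoot.aeval_eq g).symm
    rw [h1, ← aeval_algHom_apply]
    rfl
  have hQk : Q.f.natDegree ≤ P.k := by rw [← hk]; exact le_refl _
  have hmk := P.mk_hsub P.k Q.f hQk a b c d _ hθ
  rw [hev, AdjoinRoot.mk_self, map_zero, zero_mul, AdjoinRoot.mk_eq_zero] at hmk
  obtain ⟨κ, hκ⟩ := P.eq_C_mul_of_dvd hmk (hsub_natDegree _ _ _ _ _ _)
  have hinj : Function.Injective θ := by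
    rw [injective_iff_map_eq_zero]
    intro w hw
    by_contra hne
    obtain ⟨w', hw'⟩ := Q.lam_nondeg hne
    apply hw'
    rw [hlam, map_mul θ, hw, zero_mul, zero_mul, map_zero, mul_zero]
  have : Module.Finite (ZMod p) P.R := Module.Finite.of_basis P.bas
  have : Module.Finite (ZMod p) Q.R := Module.Finite.of_basis Q.bas
  have hsurj : Function.Surjective θ := by
    have hfr : Module.finrank (ZMod p) Q.R = Module.finrank (ZMod p) P.R := by
      rw [Module.finrank_eq_card_basis P.bas, Module.finrank_eq_card_basis Q.bas,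
        Fintype.card_fin, Fintype.card_fin, hk]
    exact (LinearMap.injective_iff_surjective_of_finrank_eq_finrank
      (f := θ.toLinearMap) hfr).1 hinj
  have hpow : P.le a b ^ (P.k - 1) = P.le a b ^ (P.k - 2) * P.le a b := by
    rw [← pow_succ]; congr 1; omega
  have key : θ Q.vv * P.le a b ^ (P.k - 2) = κ • (P.vv * (↑u⁻¹ : P.R)) := by
    apply P.res_ext
    intro w
    obtain ⟨w, rfl⟩ := hsurj w
    have hlaw := residue_law P Q hk hκ θ hθ ⟨u, hu⟩ (w * Q.vv)
    have h3 := hlam w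
    rw [lam_apply, lam_apply] at h3
    rw [h3] at hlaw
    have h4 : P.res (θ (w * Q.vv) * P.le a b ^ (P.k - 2)) =
        κ * P.res (θ w * (↑u⁻¹ : P.R) * P.vv) := by
      apply mul_left_cancel₀ hΔ
      rw [← hlaw]; ring
    have e1 : θ Q.vv * P.le a b ^ (P.k - 2) * θ w = θ (w * Q.vv) * P.le a b ^ (P.k - 2) := by
      rw [map_mul]; ring
    have e2 : κ • (P.vv * (↑u⁻¹ : P.R)) * θ w = κ • (θ w * (↑u⁻¹ : P.R) * P.vv) := by
      rw [smul_mul_assoc]; congr 1; ring
    rw [e1, e2, h4, map_smul, smul_eq_mul]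
  have key2 : AdjoinRoot.mk P.f (hsub (P.k - 1) Q.v (lin a b) (lin c d)) =
      AdjoinRoot.mk P.f (C κ * P.v) := by
    rw [P.mk_hsub (P.k - 1) Q.v (by rw [← hk]; exact Q.Q_v_le) a b c d _ hθ, hev]
    change θ Q.vv * _ = _
    rw [hpow, ← mul_assoc, key, smul_mul_assoc, ← hu, mul_assoc, Units.inv_mul, mul_one,
      map_mul, Algebra.smul_def]
    rfl
  have hv : hsub (P.k - 1) Q.v (lin a b) (lin c d) = C κ * P.v := by
    rw [AdjoinRoot.mk_eq_mk] at key2
    have hd : (hsub (P.k - 1) Q.v (lin a b) (lin c d) - C κ * P.v).natDegree < P.f.natDegree := by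
      refine lt_of_le_of_lt (natDegree_sub_le _ _) ?_
      have h5 := hsub_natDegree (P.k - 1) Q.v a b c d
      have h6 := (natDegree_C_mul_le κ P.v).trans P.Q_v_le
      have h7 : P.k = P.f.natDegree := rfl
      rw [max_lt_iff]
      constructor <;> omega
    by_contra hne
    have := natDegree_le_of_dvd key2 (sub_ne_zero.2 hne)
    omega
  rw [hv, hκ]; ring

/-- The polynomial relation gives an equivalence of the data on `R x R`. -/
theorem rel_to_equiv {a b c d : ZMod p} (h : Pair.Rel a b c d P Q) :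
    ∃ (g : (P.R × P.R) ≃ₗ[ZMod p] (Q.R × Q.R)) (k : Vec p 2 ≃ₗ[ZMod p] Vec p 2),
      (∀ x y, Q.BR (g x) (g y) = k (P.BR x y)) ∧ (∀ x, Q.πR (g x) = k (P.πR x)) ∧
      ∀ w, k w = ![a * w 0 + b * w 1, c * w 0 + d * w 1] := by
  have hΔ := h.1
  have hk := h.2.1
  obtain ⟨u, hu⟩ := P.le_isUnit hΔ
  obtain ⟨θ, hθ, hlam⟩ := rel_to_alg P Q h u hu
  let G₀ : (Q.R × Q.R) →ₗ[ZMod p] (P.R × P.R) :=
    { toFun := fun w => ((↑u⁻¹ : P.R) * (a • θ w.1 + c • θ w.2), (↑u⁻¹ : P.R) * (b • θ w.1 + d • θ w.2))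
      map_add' := by
        intro x y
        ext
        · simp only [Prod.fst_add, Prod.snd_add, map_add, smul_add]; ring
        · simp only [Prod.fst_add, Prod.snd_add, map_add, smul_add]; ring
      map_smul' := by
        intro s x
        ext
        · simp only [Prod.smul_fst, Prod.smul_snd, map_smul, RingHom.id_apply]
          rw [smul_comm a s, smul_comm c s, ← smul_add, mul_smul_comm]
        · simp only [Prod.smul_fst, Prod.smul_snd, map_smul, RingHom.id_apply]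
          rw [smul_comm b s, smul_comm d s, ← smul_add, mul_smul_comm] }
  have hG₀ : ∀ w, G₀ w = ((↑u⁻¹ : P.R) * (a • θ w.1 + c • θ w.2),
    (↑u⁻¹ : P.R) * (b • θ w.1 + d • θ w.2)) := fun w => rfl
  have sdR : ∀ (s : ZMod p) (z : P.R), s • z = algebraMap (ZMod p) P.R s * z :=
    fun s z => Algebra.smul_def s z
  have huu : (u : P.R) * (↑u⁻¹ : P.R) = 1 := Units.mul_inv u
  have hom : ∀ x y, P.omr (G₀ x) (G₀ y) * (u : P.R) =
      (a * d - b * c) • (θ (Q.omr x y) * (↑u⁻¹ : P.R)) := by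
    intro x y
    rw [hG₀, hG₀]
    simp only [omr, sdR, map_sub, map_mul]
    linear_combination ((↑u⁻¹ : P.R) * (algebraMap (ZMod p) P.R a * algebraMap (ZMod p) P.R d -
      algebraMap (ZMod p) P.R b * algebraMap (ZMod p) P.R c) *
      (θ x.1 * θ y.2 - θ x.2 * θ y.1)) * huu
  have hB0 : ∀ x y, Q.lam (Q.omr x y) = P.lam (P.omr (G₀ x) (G₀ y) * P.le a b) := by
    intro x y
    rw [← hu, hom, map_smul, smul_eq_mul, hlam]
  have hGt : ∀ x, (G₀ (Q.t * x.1, Q.t * x.2)).1 = θ Q.t * (G₀ x).1 ∧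
      (G₀ (Q.t * x.1, Q.t * x.2)).2 = θ Q.t * (G₀ x).2 := by
    intro x
    rw [hG₀, hG₀]
    simp only [map_mul, sdR]
    constructor <;> ring
  have hB1 : ∀ x y, Q.lam (Q.t * Q.omr x y) = P.lam (P.omr (G₀ x) (G₀ y) * P.le c d) := by
    intro x y
    have e1 : Q.t * Q.omr x y = Q.omr (Q.t * x.1, Q.t * x.2) y := by
      simp only [omr]; ring
    rw [e1, hB0, ← hθ]
    congr 1
    simp only [omr]
    rw [(hGt x).1, (hGt x).2]
    ring
  have hinj : Function.Injective G₀ := by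
    rw [injective_iff_map_eq_zero]
    intro x hx
    apply Q.omr_surj_aux
    intro y
    rw [hB0, hx]
    have : P.omr 0 (G₀ y) = 0 := by simp [omr]
    rw [this, zero_mul, map_zero]
  have : Module.Finite (ZMod p) P.R := Module.Finite.of_basis P.bas
  have : Module.Finite (ZMod p) Q.R := Module.Finite.of_basis Q.bas
  have hfr : Module.finrank (ZMod p) (Q.R × Q.R) = Module.finrank (ZMod p) (P.R × P.R) := by
    rw [Module.finrank_prod, Module.finrank_prod, Module.finrank_eq_card_basis P.bas,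
      Module.finrank_eq_card_basis Q.bas, Fintype.card_fin, Fintype.card_fin, hk]
  let G : (Q.R × Q.R) ≃ₗ[ZMod p] (P.R × P.R) := LinearEquiv.ofInjectiveOfFinrankEq G₀ hinj hfr
  have hG : ∀ x, G x = G₀ x := fun x => rfl
  let k₀ : Vec p 2 →ₗ[ZMod p] Vec p 2 :=
    { toFun := fun w => ![a * w 0 + b * w 1, c * w 0 + d * w 1]
      map_add' := by
        intro x y
        ext i
        fin_cases i <;> simp <;> ring
      map_smul' := by
        intro s x
        ext i
        fin_cases i <;> simp <;> ring }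
  have hk₀ : ∀ w, k₀ w = ![a * w 0 + b * w 1, c * w 0 + d * w 1] := fun w => rfl
  have hkinj : Function.Injective k₀ := by
    rw [injective_iff_map_eq_zero]
    intro w hw
    rw [hk₀] at hw
    have e0 : a * w 0 + b * w 1 = 0 := congrFun hw 0
    have e1 : c * w 0 + d * w 1 = 0 := congrFun hw 1
    have f0 : (a * d - b * c) * w 0 = 0 := by linear_combination d * e0 - b * e1
    have f1 : (a * d - b * c) * w 1 = 0 := by linear_combination a * e1 - c * e0
    ext i
    fin_cases i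
    · exact (mul_eq_zero.1 f0).resolve_left hΔ
    · exact (mul_eq_zero.1 f1).resolve_left hΔ
  refine ⟨G.symm, LinearEquiv.ofInjectiveEndo k₀ hkinj, ?_, ?_, ?_⟩
  · intro x y
    obtain ⟨x', rfl⟩ := G.surjective x
    obtain ⟨y', rfl⟩ := G.surjective y
    rw [LinearEquiv.symm_apply_apply, LinearEquiv.symm_apply_apply]
    change Q.BR x' y' = k₀ (P.BR (G x') (G y'))
    rw [hG, hG, hk₀, BR_apply, BR_apply, hB0, hB1]
    have e0 : P.lam (P.omr (G₀ x') (G₀ y') * P.le a b) =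
        a * P.lam (P.omr (G₀ x') (G₀ y')) + b * P.lam (P.t * P.omr (G₀ x') (G₀ y')) := by
      have : P.omr (G₀ x') (G₀ y') * P.le a b = a • P.omr (G₀ x') (G₀ y') +
          b • (P.t * P.omr (G₀ x') (G₀ y')) := by
        rw [sdR, sdR]; unfold le; ring
      rw [this, map_add, map_smul, map_smul, smul_eq_mul, smul_eq_mul]
    have e1 : P.lam (P.omr (G₀ x') (G₀ y') * P.le c d) =
        c * P.lam (P.omr (G₀ x') (G₀ y')) + d * P.lam (P.t * P.omr (G₀ x') (G₀ y')) := by
      have : P.omr (G₀ x') (G₀ y') * P.le c d = c • P.omr (G₀ x') (G₀ y') +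
          d • (P.t * P.omr (G₀ x') (G₀ y')) := by
        rw [sdR, sdR]; unfold le; ring
      rw [this, map_add, map_smul, map_smul, smul_eq_mul, smul_eq_mul]
    rw [e0, e1]
    rfl
  · intro x
    obtain ⟨x', rfl⟩ := G.surjective x
    rw [LinearEquiv.symm_apply_apply]
    change Q.πR x' = k₀ (P.πR (G x'))
    rw [hG, hk₀]
    unfold πR
    have e0 : P.lam (θ x'.2 * (↑u⁻¹ : P.R)) * (a * d - b * c) =
        a * P.lam (G₀ x').2 + b * (- P.lam (G₀ x').1) := by
      have : (a * d - b * c) • (θ x'.2 * (↑u⁻¹ : P.R)) = a • (G₀ x').2 - b • (G₀ x').1 := by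
        rw [hG₀]
        simp only [sdR, map_sub, map_mul]
        ring
      rw [mul_comm, ← smul_eq_mul, ← map_smul, this, map_sub, map_smul, map_smul]
      simp only [smul_eq_mul]; ring
    have e1 : P.lam (θ x'.1 * (↑u⁻¹ : P.R)) * (a * d - b * c) =
        - (c * P.lam (G₀ x').2 + d * (- P.lam (G₀ x').1)) := by
      have : (a * d - b * c) • (θ x'.1 * (↑u⁻¹ : P.R)) = d • (G₀ x').1 - c • (G₀ x').2 := by
        rw [hG₀]
        simp only [sdR, map_sub, map_mul]
        ring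
      rw [mul_comm, ← smul_eq_mul, ← map_smul, this, map_sub, map_smul, map_smul]
      simp only [smul_eq_mul]; ring
    rw [hlam, hlam]
    ext i
    fin_cases i
    · simp only [Fin.zero_eta, Matrix.cons_val_zero, Matrix.cons_val_one]
      linear_combination e0
    · simp only [Fin.mk_one, Matrix.cons_val_zero, Matrix.cons_val_one]
      linear_combination -e1
  · intro w
    exact hk₀ w

end Pair

end Pool.Agent.Helper3.CM
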