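import Pool.Agent.Helper3.CM.RF3
import Pool.Agent.Helper3.CM.Defs

open Polynomial

namespace Pool.Agent.Helper3.CM

variable {p : ℕ} [Fact p.Prime]

namespace Pair

variable (P Q : Pair p)

/-- An equivalence of the data on `R x R` comes from the polynomial relation, and is then
determined by its matrix. -/
theorem equiv_to_rel (g : (P.R × P.R) ≃ₗ[ZMod p] (Q.R × Q.R)) (k : Vec p 2 ≃ₗ[ZMod p] Vec p 2)
    (hB : ∀ x y, Q.BR (g x) (g y) = k (P.BR x y)) (hπ : ∀ x, Q.πR (g x) = k (P.πR x))
    {a b c d : ZMod p} (hk : ∀ w, k w = ![a * w 0 + b * w 1, c * w 0 + d * w 1]) :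
    Pair.Rel a b c d P Q ∧ ∃ (u : P.Rˣ) (θ : Q.R →ₐ[ZMod p] P.R), (u : P.R) = P.le a b ∧
      θ Q.t * P.le a b = P.le c d ∧ (∀ w x, g (θ w • x) = w • g x) ∧
      g ((↑u⁻¹ : P.R) • (algebraMap (ZMod p) P.R a, algebraMap (ZMod p) P.R b)) = (1, 0) ∧
      g ((↑u⁻¹ : P.R) • (algebraMap (ZMod p) P.R c, algebraMap (ZMod p) P.R d)) = (0, 1) := by
  have sdR : ∀ (s : ZMod p) (z : P.R), s • z = algebraMap (ZMod p) P.R s * z :=
    fun s z => Algebra.smul_def s z
  have hΔ : a * d - b * c ≠ 0 := by
    intro h0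
    by_cases hbd : b = 0 ∧ d = 0
    · have h1 : k ![0, 1] = 0 := by
        rw [hk, hbd.1, hbd.2]
        ext i
        fin_cases i <;> simp
      have h2 := k.injective (h1.trans (map_zero k).symm)
      have := congrFun h2 1
      simp at this
    · have h1 : k ![d, -c] = 0 ∧ k ![-b, a] = 0 := by
        constructor
        · rw [hk]
          ext i
          fin_cases i
          · simp; linear_combination h0
          · simp; ring
        · rw [hk]
          ext i
          fin_cases i
          · simp; ring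
          · simp; linear_combination h0
      have h2 := k.injective (h1.1.trans (map_zero k).symm)
      have h3 := k.injective (h1.2.trans (map_zero k).symm)
      apply hbd
      constructor
      · have := congrFun h3 0
        simpa using this
      · have := congrFun h2 0
        simpa using this
  obtain ⟨u, hu⟩ := P.le_isUnit hΔ
  have huu : (u : P.R) * (↑u⁻¹ : P.R) = 1 := Units.mul_inv u
  have hB0 : ∀ x y, Q.lam (Q.omr (g x) (g y)) = P.lam (P.omr x y * P.le a b) := by
    intro x y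
    have h1 := congrFun (hB x y) 0
    rw [hk, BR_apply, BR_apply] at h1
    simp only [Matrix.cons_val_zero, Matrix.cons_val_one] at h1
    rw [h1]
    have : P.omr x y * P.le a b = a • P.omr x y + b • (P.t * P.omr x y) := by
      rw [sdR, sdR]; unfold le; ring
    rw [this, map_add, map_smul, map_smul, smul_eq_mul, smul_eq_mul]
  have hB1 : ∀ x y, Q.lam (Q.t * Q.omr (g x) (g y)) = P.lam (P.omr x y * P.le c d) := by
    intro x y
    have h1 := congrFun (hB x y) 1
    rw [hk, BR_apply, BR_apply] at h1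
    simp only [Matrix.cons_val_zero, Matrix.cons_val_one] at h1
    rw [h1]
    have : P.omr x y * P.le c d = c • P.omr x y + d • (P.t * P.omr x y) := by
      rw [sdR, sdR]; unfold le; ring
    rw [this, map_add, map_smul, map_smul, smul_eq_mul, smul_eq_mul]
  -- nondegeneracy
  have hnd : ∀ z z' : Q.R × Q.R, (∀ y, Q.lam (Q.omr z (g y)) = Q.lam (Q.omr z' (g y))) →
      z = z' := by
    intro z z' h
    rw [← sub_eq_zero]
    apply Q.omr_surj_aux
    intro y
    obtain ⟨y, rfl⟩ := g.surjective y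
    have : Q.omr (z - z') (g y) = Q.omr z (g y) - Q.omr z' (g y) := by
      simp only [omr, Prod.fst_sub, Prod.snd_sub]; ring
    rw [this, map_sub, h, sub_self]
  set τ : P.R := P.le c d * (↑u⁻¹ : P.R) with hτdef
  have hτ : τ * P.le a b = P.le c d := by
    rw [hτdef, ← hu, mul_assoc, Units.inv_mul, mul_one]
  have hgt : ∀ x, g (τ • x) = Q.t • g x := by
    intro x
    apply hnd
    intro y
    rw [hB0]
    have e1 : Q.omr (Q.t • g x) (g y) = Q.t * Q.omr (g x) (g y) := by
      simp only [omr, Prod.smul_fst, Prod.smul_snd, smul_eq_mul]; ring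
    rw [e1, hB1]
    congr 1
    rw [← hτ]
    simp only [omr, Prod.smul_fst, Prod.smul_snd, smul_eq_mul]; ring
  have hgpoly : ∀ (q : (ZMod p)[X]) x, g (aeval τ q • x) = aeval Q.t q • g x := by
    intro q x
    induction q using Polynomial.induction_on' generalizing x with
    | add q r hq hr => rw [map_add, map_add, add_smul, add_smul, map_add, hq, hr]
    | monomial n s =>
      rw [aeval_monomial, aeval_monomial, mul_smul, mul_smul, algebraMap_smul, algebraMap_smul,
        map_smul]
      congr 1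
      induction n generalizing x with
      | zero => rw [pow_zero, pow_zero, one_smul, one_smul]
      | succ n ih =>
        rw [pow_succ, pow_succ, mul_smul (τ ^ n) τ x, ih, hgt, mul_smul (Q.t ^ n) Q.t]
  have hroot : eval₂ (algebraMap (ZMod p) P.R) τ Q.f = 0 := by
    have h1 := hgpoly Q.f (1, 0)
    have h2 : aeval Q.t Q.f = 0 := by
      have := AdjoinRoot.aeval_eq (f := Q.f) Q.f
      rw [AdjoinRoot.mk_self] at this
      exact this
    rw [h2, zero_smul] at h1
    have h3 := g.injective (h1.trans (map_zero g).symm)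
    have h4 := congrArg Prod.fst h3
    simp only [Prod.smul_fst, smul_eq_mul, mul_one, Prod.fst_zero] at h4
    exact h4
  let θ : Q.R →ₐ[ZMod p] P.R := AdjoinRoot.liftAlgHom Q.f (Algebra.ofId (ZMod p) P.R) τ hroot
  have hθt : θ Q.t = τ := AdjoinRoot.liftAlgHom_root ..
  have hθ : θ Q.t * P.le a b = P.le c d := by rw [hθt, hτ]
  have hgθ : ∀ w x, g (θ w • x) = w • g x := by
    intro w x
    obtain ⟨q, rfl⟩ := AdjoinRoot.mk_surjective w
    have e1 : (AdjoinRoot.mk Q.f q : Q.R) = aeval Q.t q := (AdjoinRoot.aeval_eq q).symm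
    rw [e1, ← aeval_algHom_apply, hθt, hgpoly]
  have hg1 : g ((↑u⁻¹ : P.R) • (algebraMap (ZMod p) P.R a, algebraMap (ZMod p) P.R b)) = (1, 0) := by
    apply hnd
    intro y
    rw [hB0]
    have e1 : Q.omr (1, 0) (g y) = (g y).2 := by simp [omr]
    have h1 := congrFun (hπ y) 0
    rw [hk] at h1
    simp only [πR, Matrix.cons_val_zero, Matrix.cons_val_one] at h1
    rw [e1, h1]
    have e2 : P.omr ((↑u⁻¹ : P.R) • (algebraMap (ZMod p) P.R a, algebraMap (ZMod p) P.R b)) y *
        P.le a b = a • y.2 - b • y.1 := by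
      rw [sdR, sdR, ← hu]
      simp only [omr, Prod.smul_fst, Prod.smul_snd, smul_eq_mul]
      linear_combination (algebraMap (ZMod p) P.R a * y.2 - algebraMap (ZMod p) P.R b * y.1) * huu
    rw [e2, map_sub, map_smul, map_smul, smul_eq_mul, smul_eq_mul]; ring
  have hg2 : g ((↑u⁻¹ : P.R) • (algebraMap (ZMod p) P.R c, algebraMap (ZMod p) P.R d)) = (0, 1) := by
    apply hnd
    intro y
    rw [hB0]
    have e1 : Q.omr (0, 1) (g y) = - (g y).1 := by simp [omr]
    have h1 := congrFun (hπ y) 1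
    rw [hk] at h1
    simp only [πR, Matrix.cons_val_zero, Matrix.cons_val_one] at h1
    rw [e1, map_neg, h1]
    have e2 : P.omr ((↑u⁻¹ : P.R) • (algebraMap (ZMod p) P.R c, algebraMap (ZMod p) P.R d)) y *
        P.le a b = c • y.2 - d • y.1 := by
      rw [sdR, sdR, ← hu]
      simp only [omr, Prod.smul_fst, Prod.smul_snd, smul_eq_mul]
      linear_combination (algebraMap (ZMod p) P.R c * y.2 - algebraMap (ZMod p) P.R d * y.1) * huu
    rw [e2, map_sub, map_smul, map_smul, smul_eq_mul, smul_eq_mul]; ring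
  have hlam : ∀ w, Q.lam w = (a * d - b * c) * P.lam (θ w * (↑u⁻¹ : P.R)) := by
    intro w
    have e1 : Q.lam w = Q.lam (Q.omr (g (θ w • ((↑u⁻¹ : P.R) • (algebraMap (ZMod p) P.R a,
        algebraMap (ZMod p) P.R b)))) (g ((↑u⁻¹ : P.R) • (algebraMap (ZMod p) P.R c,
        algebraMap (ZMod p) P.R d)))) := by
      rw [hgθ, hg1, hg2]
      congr 1
      simp [omr]
    rw [e1, hB0]
    have e2 : P.omr (θ w • ((↑u⁻¹ : P.R) • (algebraMap (ZMod p) P.R a,
        algebraMap (ZMod p) P.R b))) ((↑u⁻¹ : P.R) • (algebraMap (ZMod p) P.R c,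
        algebraMap (ZMod p) P.R d)) * P.le a b = (a * d - b * c) • (θ w * (↑u⁻¹ : P.R)) := by
      rw [sdR, ← hu]
      simp only [omr, Prod.smul_fst, Prod.smul_snd, smul_eq_mul, map_sub, map_mul]
      linear_combination (θ w * (↑u⁻¹ : P.R) * (algebraMap (ZMod p) P.R a * algebraMap (ZMod p) P.R d -
        algebraMap (ZMod p) P.R b * algebraMap (ZMod p) P.R c)) * huu
    rw [e2, map_smul, smul_eq_mul]
  have hkk : Q.k = P.k := by
    have : Module.Finite (ZMod p) P.R := Module.Finite.of_basis P.bas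
    have : Module.Finite (ZMod p) Q.R := Module.Finite.of_basis Q.bas
    have h1 := g.finrank_eq
    rw [Module.finrank_prod, Module.finrank_prod, Module.finrank_eq_card_basis P.bas,
      Module.finrank_eq_card_basis Q.bas, Fintype.card_fin, Fintype.card_fin] at h1
    omega
  exact ⟨alg_to_rel P Q hΔ hkk u hu θ hθ hlam, u, θ, hu, hθ, hgθ, hg1, hg2⟩

theorem lin2 (k : Vec p 2 ≃ₗ[ZMod p] Vec p 2) (w : Vec p 2) :
    k w = ![k ![1, 0] 0 * w 0 + k ![0, 1] 0 * w 1, k ![1, 0] 1 * w 0 + k ![0, 1] 1 * w 1] := by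
  have e : w = w 0 • ![1, 0] + w 1 • ![0, 1] := by
    ext i
    fin_cases i <;> simp
  conv_lhs => rw [e]
  rw [map_add, map_smul, map_smul]
  ext i
  fin_cases i
  · simp; ring
  · simp; ring

/-- Equivalence of data on `R x R`. -/
theorem equiv_iff : (∃ (g : (P.R × P.R) ≃ₗ[ZMod p] (Q.R × Q.R)) (k : Vec p 2 ≃ₗ[ZMod p] Vec p 2),
      (∀ x y, Q.BR (g x) (g y) = k (P.BR x y)) ∧ ∀ x, Q.πR (g x) = k (P.πR x)) ↔
    ∃ a b c d, Pair.Rel a b c d P Q := by
  constructor
  · rintro ⟨g, k, h1, h2⟩
    exact ⟨_, _, _, _, (equiv_to_rel P Q g k h1 h2 (lin2 k)).1⟩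
  · rintro ⟨a, b, c, d, h⟩
    obtain ⟨g, k, h1, h2, _⟩ := rel_to_equiv P Q h
    exact ⟨g, k, h1, h2⟩

/-- Rigidity. -/
theorem rigid_iff_free : Rigid P.BR P.πR ↔
    ∀ a b c d, Pair.Rel a b c d P P → a = 1 ∧ b = 0 ∧ c = 0 ∧ d = 1 := by
  constructor
  · intro hR a b c d h
    obtain ⟨g, k, h1, h2, h3⟩ := rel_to_equiv P P h
    have hg := hR g k h1 h2
    have hk : ∀ w, k w = w := by
      intro w
      have hne : ((1, 0) : P.R × P.R) ≠ 0 := by
        intro h
        have h4 := congrArg Prod.fst h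
        simp only [Prod.fst_zero] at h4
        have : Nontrivial P.R := by
          apply AdjoinRoot.nontrivial
          have := P.k_pos
          unfold Pair.k at this
          intro h5
          rw [degree_eq_natDegree P.monic.ne_zero] at h5
          have h6 : P.f.natDegree = 0 := by exact_mod_cast h5
          omega
        exact one_ne_zero h4
      obtain ⟨y, rfl⟩ := P.BR_surj _ hne w
      rw [← h1, hg, hg]
    have e1 := hk ![1, 0]
    have e2 := hk ![0, 1]
    rw [h3] at e1 e2
    have f1 := congrFun e1 0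
    have f2 := congrFun e1 1
    have f3 := congrFun e2 0
    have f4 := congrFun e2 1
    simp at f1 f2 f3 f4
    exact ⟨f1, f3, f2, f4⟩
  · intro hF g k h1 h2 x
    obtain ⟨hrel, u, θ, hu, hθ, hgθ, hg1, hg2⟩ := equiv_to_rel P P g k h1 h2 (lin2 k)
    obtain ⟨ea, eb, ec, ed⟩ := hF _ _ _ _ hrel
    rw [ea, eb] at hg1 hu hθ
    rw [ec, ed] at hg2 hθ
    have hle : P.le 1 0 = 1 := by unfold le; simp
    have hle2 : P.le 0 1 = P.t := by unfold le; simp
    rw [hle] at hu hθ
    rw [hle2, mul_one] at hθ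
    have hu1 : u = 1 := Units.ext hu
    rw [hu1, inv_one, Units.val_one, one_smul] at hg1 hg2
    have hθid : ∀ w, θ w = w := by
      intro w
      obtain ⟨q, rfl⟩ := AdjoinRoot.mk_surjective w
      have e1 : (AdjoinRoot.mk P.f q : P.R) = aeval P.t q := (AdjoinRoot.aeval_eq q).symm
      rw [e1, ← aeval_algHom_apply, hθ]
    have hx : x = x.1 • ((1, 0) : P.R × P.R) + x.2 • ((0, 1) : P.R × P.R) := by
      ext <;> simp
    have e1 := hgθ x.1 (1, 0)
    have e2 := hgθ x.2 (0, 1)
    rw [hθid] at e1 e2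
    rw [map_one, map_zero] at hg1
    rw [map_zero, map_one] at hg2
    conv_lhs => rw [hx]
    rw [map_add, e1, e2, hg1, hg2]
    exact hx.symm

end Pair

end Pool.Agent.Helper3.CM
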