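import Pool.Agent.Helper3.CM.RF4
import Pool.Agent.Helper3.CM.Non3

open Polynomial

namespace Pool.Agent.Helper3.CM

variable {p : ℕ} [Fact p.Prime]

section

variable {V : Type*} [AddCommGroup V] [Module (ZMod p) V]

/-- the operator comparing the two components of `B` -/
theorem exists_M [Finite V]
    (B : V →ₗ[ZMod p] V →ₗ[ZMod p] (Fin 2 → ZMod p)) (hB : ∀ x, B x x = 0)
    (hs : ∀ x, x ≠ 0 → Function.Surjective (B x)) :
    ∃ M : Module.End (ZMod p) V, (∀ x y, B (M x) y 0 = B x y 1) ∧
      (∀ x y, B (M x) y = B x (M y)) ∧ (∀ x, B (M x) x = 0) ∧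
      (∀ (s : ZMod p) x, M x = s • x → x = 0) ∧
      ∀ φ : V →ₗ[ZMod p] ZMod p, ∃ a, ∀ x, B a x 0 = φ x := by
  classical
  have : FiniteDimensional (ZMod p) V := Module.Finite.of_finite
  have hneg := neg_of_alt hB
  have hinj : Function.Injective (cB B 0) := by
    rw [injective_iff_map_eq_zero]
    intro a ha
    by_contra hne
    obtain ⟨y, hy⟩ := hs a hne (fun _ => 1)
    have h1 : B a y 0 = 0 := LinearMap.congr_fun ha y
    rw [hy] at h1
    exact one_ne_zero h1
  let e1 : V ≃ₗ[ZMod p] Module.Dual (ZMod p) V :=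
    LinearEquiv.ofInjectiveOfFinrankEq (cB B 0) hinj
      (Subspace.dual_finrank_eq (K := ZMod p) (V := V)).symm
  let M : V →ₗ[ZMod p] V := e1.symm.toLinearMap.comp (cB B 1)
  have hM : ∀ x y, B (M x) y 0 = B x y 1 := by
    intro x y
    have h1 : e1 (M x) = cB B 1 x := by
      change e1 (e1.symm _) = _
      rw [LinearEquiv.apply_symm_apply]
    exact LinearMap.congr_fun h1 y
  have hadj0 : ∀ x y, B (M x) y 0 = B x (M y) 0 := by
    intro x y
    rw [hM, hneg x y, hneg x (M y), Pi.neg_apply, Pi.neg_apply, hM]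
  have hadj : ∀ x y, B (M x) y = B x (M y) := by
    intro x y
    ext k
    fin_cases k
    · exact hadj0 x y
    · change B (M x) y 1 = B x (M y) 1
      rw [← hM, ← hM, hadj0]
  have hself : ∀ x, B (M x) x = 0 := by
    intro x
    ext k
    fin_cases k
    · change B (M x) x 0 = 0
      rw [hM, hB]; rfl
    · change B (M x) x 1 = 0
      rw [← hM, hadj0, hB]; rfl
  have hnoeig : ∀ (s : ZMod p) x, M x = s • x → x = 0 := by
    intro s x hx
    by_contra hne
    obtain ⟨y, hy⟩ := hs x hne ![0, 1]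
    have h1 := hM x y
    rw [hx, map_smul, LinearMap.smul_apply, hy] at h1
    simp at h1
  refine ⟨M, hM, hadj, hself, hnoeig, fun φ => ⟨e1.symm φ, fun x => ?_⟩⟩
  have h1 : e1 (e1.symm φ) = φ := LinearEquiv.apply_symm_apply _ _
  exact LinearMap.congr_fun h1 x

variable {B : V →ₗ[ZMod p] V →ₗ[ZMod p] (Fin 2 → ZMod p)} {M : Module.End (ZMod p) V}

theorem adj_poly (hadj : ∀ x y, B (M x) y = B x (M y)) (q : (ZMod p)[X]) (x y : V) :
    B (aeval M q x) y = B x (aeval M q y) := by
  induction q using Polynomial.induction_on' generalizing x y with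
  | add q r hq hr =>
    rw [map_add, LinearMap.add_apply, LinearMap.add_apply, map_add, LinearMap.add_apply, map_add,
      hq, hr]
  | monomial n s =>
    have h : ∀ (n : ℕ) (x y : V), B ((M ^ n) x) y = B x ((M ^ n) y) := by
      intro n
      induction n with
      | zero => intro x y; rfl
      | succ n ih =>
        intro x y
        rw [pow_succ, Module.End.mul_apply, Module.End.mul_apply, ih, hadj, ← Module.End.mul_apply,
          ← Module.End.mul_apply, ← pow_succ, ← pow_succ']
    rw [aeval_monomial, Module.End.mul_apply, Module.End.mul_apply, Module.algebraMap_end_apply,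
      Module.algebraMap_end_apply, map_smul, map_smul, LinearMap.smul_apply, h]

theorem self_poly (hB : ∀ x, B x x = 0) (hadj : ∀ x y, B (M x) y = B x (M y))
    (hself : ∀ x, B (M x) x = 0) (q : (ZMod p)[X]) (x : V) : B (aeval M q x) x = 0 := by
  induction q using Polynomial.induction_on' with
  | add q r hq hr =>
    rw [map_add, LinearMap.add_apply, map_add, LinearMap.add_apply, hq, hr, add_zero]
  | monomial n s =>
    have h : ∀ (n : ℕ) (x : V), B ((M ^ n) x) x = 0 ∧ B ((M ^ (n + 1)) x) x = 0 := by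
      intro n
      induction n with
      | zero =>
        intro x
        refine ⟨hB x, ?_⟩
        rw [zero_add, pow_one]
        exact hself x
      | succ n ih =>
        intro x
        refine ⟨(ih x).2, ?_⟩
        rw [pow_succ', Module.End.mul_apply, hadj, pow_succ, Module.End.mul_apply]
        exact (ih (M x)).1
    rw [aeval_monomial, Module.End.mul_apply, Module.algebraMap_end_apply, map_smul,
      LinearMap.smul_apply, (h n x).1, smul_zero]

/-- a pair with given denominator and numerator one -/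
noncomputable def onePair (q : (ZMod p)[X]) (hq : q.Monic) (h0 : 0 < q.natDegree)
    (hr : ∀ a : ZMod p, q.eval a ≠ 0) : Pair p where
  f := q
  v := 1
  monic := hq
  noroot := hr
  cop := isCoprime_one_right
  deg := by rw [natDegree_one]; exact h0

/-- the action of `F_p[X]/(q)` on `M`-cyclic things, as values -/
theorem aeval_modByMonic {q : (ZMod p)[X]} {z : V} (hz : aeval M q z = 0) {g g' : (ZMod p)[X]}
    (h : AdjoinRoot.mk q g = AdjoinRoot.mk q g') : aeval M g z = aeval M g' z := by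
  rw [AdjoinRoot.mk_eq_mk] at h
  obtain ⟨r, hr⟩ := h
  have e : g = g' + r * q := by linear_combination hr
  rw [e, map_add, map_mul, LinearMap.add_apply, Module.End.mul_apply, hz, map_zero, add_zero]

/-- annihilator polynomial of a vector -/
theorem exists_annih [Finite V] (hnoeig : ∀ (s : ZMod p) x, M x = s • x → x = 0) {z : V}
    (hz : z ≠ 0) : ∃ q : (ZMod p)[X], q.Monic ∧ 0 < q.natDegree ∧ (∀ a : ZMod p, q.eval a ≠ 0) ∧
      ∀ g, aeval M g z = 0 ↔ q ∣ g := by
  classical
  have : FiniteDimensional (ZMod p) V := Module.Finite.of_finite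
  let I : Ideal (ZMod p)[X] :=
    { carrier := {g | aeval M g z = 0}
      zero_mem' := by
        change aeval M 0 z = 0
        rw [map_zero]; rfl
      add_mem' := by
        intro a b ha hb
        change aeval M (a + b) z = 0
        rw [map_add, LinearMap.add_apply, ha, hb, add_zero]
      smul_mem' := by
        intro c a ha
        change aeval M (c * a) z = 0
        rw [map_mul, Module.End.mul_apply, ha, map_zero] }
  have hI : ∀ g, g ∈ I ↔ aeval M g z = 0 := fun g => Iff.rfl
  let q₀ := Submodule.IsPrincipal.generator I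
  have hq₀ : ∀ g, aeval M g z = 0 ↔ q₀ ∣ g := by
    intro g
    rw [← hI, Submodule.IsPrincipal.mem_iff_generator_dvd]
  have hne : q₀ ≠ 0 := by
    intro h
    have h1 := (hq₀ (minpoly (ZMod p) M)).1 (by rw [minpoly.aeval]; rfl)
    rw [h, zero_dvd_iff] at h1
    exact minpoly.ne_zero (Algebra.IsIntegral.isIntegral M) h1
  have hmon := monic_mul_leadingCoeff_inv hne
  have hdvd : ∀ g, aeval M g z = 0 ↔ q₀ * C q₀.leadingCoeff⁻¹ ∣ g := by
    intro g
    rw [hq₀]
    have hu : IsUnit (C q₀.leadingCoeff⁻¹ : (ZMod p)[X]) :=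
      isUnit_C.2 (isUnit_iff_ne_zero.2 (inv_ne_zero (leadingCoeff_ne_zero.2 hne)))
    exact (hu.mul_right_dvd).symm
  refine ⟨q₀ * C q₀.leadingCoeff⁻¹, hmon, ?_, ?_, hdvd⟩
  · by_contra h
    have h1 := (hmon.natDegree_eq_zero).1 (by omega)
    have h2 := (hdvd 1).2 (by rw [h1])
    rw [map_one] at h2
    exact hz h2
  · intro a ha
    obtain ⟨r, hr⟩ := dvd_iff_isRoot.2 (show IsRoot _ a from ha)
    have h0 : aeval M (q₀ * C q₀.leadingCoeff⁻¹) z = 0 := (hdvd _).2 dvd_rfl
    have h1 : aeval M r z = 0 := by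
      apply hnoeig a
      rw [hr, map_mul, map_sub, aeval_X, aeval_C, Module.End.mul_apply, LinearMap.sub_apply,
        Module.algebraMap_end_apply] at h0
      exact sub_eq_zero.1 h0
    have h2 := (hdvd r).1 h1
    have hr0 : r ≠ 0 := by
      rintro rfl
      rw [mul_zero] at hr
      exact hmon.ne_zero hr
    have h3 := natDegree_le_of_dvd h2 hr0
    have h4 := congrArg natDegree hr
    rw [(monic_X_sub_C a).natDegree_mul' hr0, natDegree_X_sub_C] at h4
    omega

/-- the residue form identifies `R` with its dual -/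
noncomputable def Pair.dualEquiv (P : Pair p) : P.R ≃ₗ[ZMod p] Module.Dual (ZMod p) P.R :=
  have : Module.Finite (ZMod p) P.R := Module.Finite.of_basis P.bas
  LinearEquiv.ofInjectiveOfFinrankEq
    ((LinearMap.compRight (ZMod p) P.res).comp (LinearMap.mul (ZMod p) P.R)) (by
      rw [injective_iff_map_eq_zero]
      intro u hu
      by_contra hne
      obtain ⟨w, hw⟩ := P.res_nondeg hne
      exact hw (LinearMap.congr_fun hu w))
    (Subspace.dual_finrank_eq (K := ZMod p) (V := P.R)).symm

theorem Pair.dualEquiv_apply (P : Pair p) (u w : P.R) : P.dualEquiv u w = P.res (u * w) := rfl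

theorem span_top [Finite V] (hB : ∀ x, B x x = 0)
    (hM : ∀ x y, B (M x) y 0 = B x y 1) (hadj : ∀ x y, B (M x) y = B x (M y))
    (hself : ∀ x, B (M x) x = 0) (hnoeig : ∀ (s : ZMod p) x, M x = s • x → x = 0)
    (hdual : ∀ φ : V →ₗ[ZMod p] ZMod p, ∃ a, ∀ x, B a x 0 = φ x)
    {π : V → (Fin 2 → ZMod p)} (hπ : ∀ x y, π (x + y) = π x + π y) (hR : Rigid B π) {a₀ a₁ : V}
    (h0 : ∀ x, B a₀ x 0 = π x 0) (h1 : ∀ x, B a₁ x 0 = π x 1) (v : V) :
    ∃ q r : (ZMod p)[X], v = aeval M q a₀ + aeval M r a₁ := by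
  classical
  have hneg := neg_of_alt hB
  let U : Submodule (ZMod p) V :=
    { carrier := {v | ∃ q r : (ZMod p)[X], v = aeval M q a₀ + aeval M r a₁}
      zero_mem' := ⟨0, 0, by simp⟩
      add_mem' := by
        rintro _ _ ⟨q, r, rfl⟩ ⟨q', r', rfl⟩
        refine ⟨q + q', r + r', ?_⟩
        rw [map_add, map_add, LinearMap.add_apply, LinearMap.add_apply]; abel
      smul_mem' := by
        rintro c _ ⟨q, r, rfl⟩
        refine ⟨C c * q, C c * r, ?_⟩
        rw [map_mul, map_mul, aeval_C, Module.End.mul_apply, Module.End.mul_apply,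
          Module.algebraMap_end_apply, Module.algebraMap_end_apply, smul_add] }
  by_contra hv
  have hU : U < ⊤ := lt_top_iff_ne_top.2 fun h => hv (by
    have : v ∈ U := by rw [h]; trivial
    exact this)
  obtain ⟨φ, hφ, hUφ⟩ := Submodule.exists_le_ker_of_lt_top U hU
  obtain ⟨z, hz⟩ := hdual φ
  have hz0 : z ≠ 0 := by
    rintro rfl
    apply hφ
    ext x
    rw [← hz, map_zero]; rfl
  have ha₀ : ∀ g : (ZMod p)[X], B (aeval M g z) a₀ 0 = 0 := by
    intro g
    rw [adj_poly hadj, hz]
    exact hUφ ⟨g, 0, by simp⟩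
  have ha₁ : ∀ g : (ZMod p)[X], B (aeval M g z) a₁ 0 = 0 := by
    intro g
    rw [adj_poly hadj, hz]
    exact hUφ ⟨0, g, by simp⟩
  obtain ⟨q, hq, hqd, hqr, hann⟩ := exists_annih hnoeig hz0
  let P : Pair p := onePair q hq hqd hqr
  let Ψ : P.R →ₗ[ZMod p] V := ((LinearMap.applyₗ z).comp (aeval M : (ZMod p)[X] →ₐ[ZMod p] _).toLinearMap).comp
    (AdjoinRoot.modByMonicHom hq)
  have hΨ : ∀ g : (ZMod p)[X], Ψ (AdjoinRoot.mk q g) = aeval M g z := by
    intro g
    change aeval M (g %ₘ q) z = _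
    apply aeval_modByMonic ((hann q).2 dvd_rfl)
    rw [AdjoinRoot.mk_eq_mk, modByMonic_eq_sub_mul_div, sub_sub_cancel_left]
    exact (dvd_mul_right _ _).neg_right
  let ω : V →ₗ[ZMod p] P.R := P.dualEquiv.symm.toLinearMap.comp (Ψ.dualMap.comp (cB B 0).flip)
  have hω : ∀ x w, P.res (ω x * w) = B (Ψ w) x 0 := by
    intro x w
    rw [← Pair.dualEquiv_apply]
    have : P.dualEquiv (ω x) = Ψ.dualMap ((cB B 0).flip x) := LinearEquiv.apply_symm_apply _ _
    rw [this]
    rfl
  have hΨt : ∀ w, Ψ (P.t * w) = M (Ψ w) := by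
    intro w
    obtain ⟨g, rfl⟩ := AdjoinRoot.mk_surjective w
    have e : P.t * AdjoinRoot.mk P.f g = AdjoinRoot.mk q (X * g) := by
      rw [map_mul]; rfl
    rw [e, hΨ, map_mul, aeval_X, Module.End.mul_apply]
    congr 1
    exact (hΨ g).symm
  have hΨΨ : ∀ w w', B (Ψ w) (Ψ w') = 0 := by
    intro w w'
    obtain ⟨g, rfl⟩ := AdjoinRoot.mk_surjective w
    obtain ⟨g', rfl⟩ := AdjoinRoot.mk_surjective w'
    have e1 : Ψ (AdjoinRoot.mk P.f g) = aeval M g z := hΨ g
    have e2 : Ψ (AdjoinRoot.mk P.f g') = aeval M g' z := hΨ g'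
    rw [e1, e2, ← adj_poly hadj, ← Module.End.mul_apply, ← map_mul]
    exact self_poly hB hadj hself _ _
  have hωM : ∀ x, ω (M x) = P.t * ω x := by
    intro x
    apply P.res_ext
    intro w
    rw [hω, mul_comm P.t, mul_assoc, hω, hΨt, ← hadj]
  have hωΨ : ∀ w, ω (Ψ w) = 0 := by
    intro w
    apply P.res_ext
    intro w'
    rw [hω, hΨΨ, zero_mul, map_zero]; rfl
  let N : V →ₗ[ZMod p] V := Ψ.comp ω
  have hN : ∀ x, N x = Ψ (ω x) := fun x => rfl
  have hNN : ∀ x, N (N x) = 0 := by
    intro x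
    rw [hN, hN, hωΨ, map_zero]
  have hNM : ∀ x, N (M x) = M (N x) := by
    intro x
    rw [hN, hN, hωM, hΨt]
  let T : V ≃ₗ[ZMod p] V := LinearEquiv.ofLinearMap (LinearMap.id + N) (LinearMap.id - N)
    (by
      ext x
      simp only [LinearMap.comp_apply, LinearMap.add_apply, LinearMap.sub_apply, LinearMap.id_apply,
        map_sub, hNN]
      abel)
    (by
      ext x
      simp only [LinearMap.comp_apply, LinearMap.add_apply, LinearMap.sub_apply, LinearMap.id_apply,
        map_add, hNN]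
      abel)
  have hT : ∀ x, T x = x + N x := fun x => rfl
  have hiso0 : ∀ x y, B (T x) (T y) 0 = B x y 0 := by
    intro x y
    have f1 : B (N x) y 0 = P.res (ω x * ω y) := by rw [hN, ← hω, mul_comm]
    have f2 : B x (N y) 0 = - P.res (ω x * ω y) := by
      rw [hneg, Pi.neg_apply, hN, ← hω]
    have f3 : B (N x) (N y) 0 = 0 := by rw [hN, hN, hΨΨ]; rfl
    rw [hT, hT, map_add, map_add, LinearMap.add_apply, LinearMap.add_apply, Pi.add_apply,
      Pi.add_apply, Pi.add_apply, f1, f2, f3]
    ring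
  have hiso : ∀ x y, B (T x) (T y) = LinearEquiv.refl (ZMod p) (Fin 2 → ZMod p) (B x y) := by
    intro x y
    ext k
    fin_cases k
    · exact hiso0 x y
    · change B (T x) (T y) 1 = B x y 1
      have e : M (T x) = T (M x) := by rw [hT, hT, map_add, hNM]
      rw [← hM, e, hiso0, hM]
  have hpi : ∀ x, π (T x) = LinearEquiv.refl (ZMod p) (Fin 2 → ZMod p) (π x) := by
    intro x
    have hNx : π (N x) = 0 := by
      obtain ⟨g, hg⟩ := AdjoinRoot.mk_surjective (ω x)
      have e : N x = aeval M g z := by rw [hN, ← hg]; exact hΨ g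
      ext k
      fin_cases k
      · change π (N x) 0 = 0
        rw [← h0, hneg, Pi.neg_apply, e, ha₀, neg_zero]
      · change π (N x) 1 = 0
        rw [← h1, hneg, Pi.neg_apply, e, ha₁, neg_zero]
    rw [hT, hπ, hNx, add_zero]; rfl
  have hfix := hR T (LinearEquiv.refl _ _) hiso hpi
  apply hφ
  ext x
  have e1 : N x = 0 := by
    have := hfix x
    rw [hT] at this
    exact add_eq_left.1 this
  have e2 : ω x = 0 := by
    obtain ⟨g, hg⟩ := AdjoinRoot.mk_surjective (ω x)
    rw [hN, ← hg] at e1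
    have e3 : Ψ (AdjoinRoot.mk P.f g) = aeval M g z := hΨ g
    rw [e3, hann] at e1
    rw [← hg]
    exact AdjoinRoot.mk_eq_zero.2 e1
  have e3 := hω x 1
  have e4 : Ψ 1 = z := by
    have := hΨ 1
    rw [map_one, map_one] at this
    exact this
  rw [e2, zero_mul, map_zero, e4, hz] at e3
  exact e3.symm

end

end Pool.Agent.Helper3.CM
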