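import Pool.Agent.Helper3.CM.RF5

open Polynomial

namespace Pool.Agent.Helper3.CM

variable {p : ℕ} [Fact p.Prime]

/-- Normal form for rigid data with two-dimensional target. -/
theorem normal_form {V : Type*} [AddCommGroup V] [Module (ZMod p) V] [Finite V] [Nontrivial V]
    (B : V →ₗ[ZMod p] V →ₗ[ZMod p] (Fin 2 → ZMod p)) (hB : ∀ x, B x x = 0)
    (hs : ∀ x, x ≠ 0 → Function.Surjective (B x)) (π : V → (Fin 2 → ZMod p))
    (hπ : ∀ x y, π (x + y) = π x + π y) (hR : Rigid B π) :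
    ∃ (P : Pair p) (φ : (P.R × P.R) ≃ₗ[ZMod p] V),
      (∀ x y, B (φ x) (φ y) = P.BR x y) ∧ ∀ x, π (φ x) = P.πR x := by
  classical
  have : FiniteDimensional (ZMod p) V := Module.Finite.of_finite
  have hneg := neg_of_alt hB
  obtain ⟨M, hM, hadj, hself, hnoeig, hdual⟩ := exists_M B hB hs
  let π₀ : V →ₗ[ZMod p] (Fin 2 → ZMod p) := (AddMonoidHom.mk' π hπ).toZModLinearMap p
  obtain ⟨a₀, h0⟩ := hdual ((LinearMap.proj 0).comp π₀)
  obtain ⟨a₁, h1⟩ := hdual ((LinearMap.proj 1).comp π₀)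
  have h0' : ∀ x, B a₀ x 0 = π x 0 := h0
  have h1' : ∀ x, B a₁ x 0 = π x 1 := h1
  have hspan := span_top hB hM hadj hself hnoeig hdual hπ hR h0' h1'
  have hint : IsIntegral (ZMod p) M := Algebra.IsIntegral.isIntegral M
  let f := minpoly (ZMod p) M
  have hf : f.Monic := minpoly.monic hint
  have hfd : 0 < f.natDegree := minpoly.natDegree_pos hint
  have hfr : ∀ a : ZMod p, f.eval a ≠ 0 := by
    intro a ha
    have h2 := Module.End.hasEigenvalue_of_isRoot (f := M) (μ := a) ha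
    obtain ⟨x, hx⟩ := h2.exists_hasEigenvector
    exact hx.2 (hnoeig a x hx.apply_eq_smul)
  have hfM : aeval M f = 0 := minpoly.aeval _ _
  let P₁ : Pair p := onePair f hf hfd hfr
  let Φ : P₁.R →+* Module.End (ZMod p) V := Ideal.Quotient.lift _
    (aeval M : (ZMod p)[X] →ₐ[ZMod p] _).toRingHom
    (by
      intro a ha
      obtain ⟨g, rfl⟩ := Ideal.mem_span_singleton.1 ha
      change aeval M (f * g) = 0
      rw [map_mul, hfM, zero_mul])
  have hΦmk : ∀ g : (ZMod p)[X], Φ (AdjoinRoot.mk f g) = aeval M g := fun g => rfl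
  have hΦinj : ∀ w, Φ w = 0 → w = 0 := by
    intro w hw
    obtain ⟨g, rfl⟩ := AdjoinRoot.mk_surjective w
    have h2 : aeval M g = 0 := hw
    exact AdjoinRoot.mk_eq_zero.2 (minpoly.dvd _ _ h2)
  have hΦadj : ∀ w x y, B (Φ w x) y = B x (Φ w y) := by
    intro w x y
    obtain ⟨g, rfl⟩ := AdjoinRoot.mk_surjective w
    exact adj_poly hadj g x y
  have hΦself : ∀ w x, B (Φ w x) x = 0 := by
    intro w x
    obtain ⟨g, rfl⟩ := AdjoinRoot.mk_surjective w
    exact self_poly hB hadj hself g x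
  have hΦmul : ∀ k l x, Φ (k * l) x = Φ k (Φ l x) := by
    intro k l x
    rw [map_mul]; rfl
  have hΦadd : ∀ k l x, Φ (k + l) x = Φ k x + Φ l x := by
    intro k l x
    rw [map_add]; rfl
  have hΦsmul : ∀ (a : ZMod p) (k : P₁.R) x, Φ (a • k) x = a • Φ k x := by
    intro a k x
    rw [Algebra.smul_def, hΦmul]
    have : algebraMap (ZMod p) P₁.R a = AdjoinRoot.mk f (C a) := rfl
    rw [this, hΦmk, aeval_C, Module.algebraMap_end_apply]
  have hΦt : ∀ w x, Φ (P₁.t * w) x = M (Φ w x) := by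
    intro w x
    rw [hΦmul]
    have : P₁.t = AdjoinRoot.mk f X := rfl
    rw [this, hΦmk, aeval_X]
  -- vectors killed by the pairing
  have hB00 : ∀ w w', B (Φ w a₀) (Φ w' a₀) = 0 := by
    intro w w'
    rw [← hΦadj, ← hΦmul, hΦself]
  have hB11 : ∀ w w', B (Φ w a₁) (Φ w' a₁) = 0 := by
    intro w w'
    rw [← hΦadj, ← hΦmul, hΦself]
  have hB01 : ∀ w w', B (Φ w a₀) (Φ w' a₁) = B (Φ (w * w') a₀) a₁ := by
    intro w w'
    rw [← hΦadj, ← hΦmul, mul_comm]
  have hnd : ∀ x, (∀ y, B x y = 0) → x = 0 := by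
    intro x hx
    by_contra hne
    obtain ⟨y, hy⟩ := hs x hne (fun _ => 1)
    rw [hx] at hy
    exact zero_ne_one (congrFun hy 0)
  have hrep : ∀ v, ∃ w w' : P₁.R, v = Φ w a₀ + Φ w' a₁ := by
    intro v
    obtain ⟨q, r, hqr⟩ := hspan v
    exact ⟨AdjoinRoot.mk f q, AdjoinRoot.mk f r, hqr⟩
  have hkey : ∀ u, (∀ w, B (Φ (u * w) a₀) a₁ = 0) → u = 0 := by
    intro u hu
    have e0 : Φ u a₀ = 0 := by
      apply hnd
      intro y
      obtain ⟨w, w', rfl⟩ := hrep y
      rw [map_add, hB00, hB01, hu, add_zero]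
    have e1 : Φ u a₁ = 0 := by
      apply hnd
      intro y
      obtain ⟨w, w', rfl⟩ := hrep y
      rw [map_add, hB11, hneg, hB01, mul_comm, hu, neg_zero, add_zero]
    apply hΦinj
    ext x
    obtain ⟨w, w', rfl⟩ := hrep x
    rw [map_add, ← hΦmul, ← hΦmul, mul_comm u, mul_comm u, hΦmul, hΦmul, e0, e1, map_zero,
      map_zero, add_zero]; rfl
  have hkey0 : ∀ u, (∀ w, B (Φ (u * w) a₀) a₁ 0 = 0) → u = 0 := by
    intro u hu
    apply hkey
    intro w
    ext k
    fin_cases k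
    · exact hu w
    · change B (Φ (u * w) a₀) a₁ 1 = 0
      rw [← hM, ← hΦt, mul_left_comm, hu]
  -- the functional
  let lam' : P₁.R →ₗ[ZMod p] ZMod p :=
    { toFun := fun w => B (Φ w a₀) a₁ 0
      map_add' := by
        intro x y
        rw [hΦadd, map_add, LinearMap.add_apply, Pi.add_apply]
      map_smul' := by
        intro s x
        rw [hΦsmul, map_smul, LinearMap.smul_apply, Pi.smul_apply, RingHom.id_apply] }
  have hlam' : ∀ w, lam' w = B (Φ w a₀) a₁ 0 := fun w => rfl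
  let v₀ : P₁.R := P₁.dualEquiv.symm lam'
  have hv₀ : ∀ w, P₁.res (v₀ * w) = lam' w := by
    intro w
    rw [← Pair.dualEquiv_apply]
    have : P₁.dualEquiv v₀ = lam' := LinearEquiv.apply_symm_apply _ _
    rw [this]
  obtain ⟨v, hvdeg, hv⟩ := P₁.exists_rep v₀
  have hvne : v ≠ 0 := by
    rintro rfl
    have h2 : (1 : P₁.R) = 0 := by
      apply hkey0
      intro w
      rw [one_mul, ← hlam', ← hv₀, hv, map_zero, zero_mul, map_zero]
    have h3 : Nontrivial P₁.R := by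
      apply AdjoinRoot.nontrivial
      intro h5
      rw [degree_eq_natDegree P₁.monic.ne_zero] at h5
      have h6 : P₁.f.natDegree = 0 := by exact_mod_cast h5
      have h7 : P₁.f.natDegree = f.natDegree := rfl
      omega
    exact one_ne_zero h2
  have hcop : IsCoprime f v := by
    have hfinR : Module.Finite (ZMod p) P₁.R := Module.Finite.of_basis P₁.bas
    have hfinR2 : Finite P₁.R := Module.finite_of_finite (ZMod p)
    have hinj : Function.Injective (fun w : P₁.R => v₀ * w) := by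
      intro w w' hww
      have h2 : v₀ * (w - w') = 0 := by rw [mul_sub]; exact sub_eq_zero.2 hww
      have h3 : w - w' = 0 := by
        apply hkey0
        intro w₁
        rw [← hlam', ← hv₀, ← mul_assoc, h2, zero_mul, map_zero]
      exact sub_eq_zero.1 h3
    obtain ⟨w, hw⟩ := (Finite.injective_iff_surjective.1 hinj) 1
    obtain ⟨g, rfl⟩ := AdjoinRoot.mk_surjective w
    have hw' : v₀ * AdjoinRoot.mk P₁.f g = 1 := hw
    rw [hv, ← map_mul, ← map_one (AdjoinRoot.mk P₁.f), AdjoinRoot.mk_eq_mk] at hw'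
    obtain ⟨r, hr⟩ := hw'
    have hr' : v * g - 1 = f * r := hr
    exact ⟨-r, g, by linear_combination hr'⟩
  let P : Pair p :=
    { f := f
      v := v
      monic := hf
      noroot := hfr
      cop := hcop
      deg := natDegree_lt_natDegree hvne hvdeg }
  have hPlam₁ : ∀ w : P₁.R, P.lam w = lam' w := by
    intro w
    have e2 : P.lam w = P₁.res (w * v₀) := by rw [hv]; rfl
    rw [e2, mul_comm]
    exact hv₀ w
  obtain ⟨P, Φ, hΦadd, hΦsmul, hΦt, hB00, hB11, hB01, hrep, hPlam⟩ :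
      ∃ (P : Pair p) (Φ : P.R →+* Module.End (ZMod p) V),
        (∀ k l x, Φ (k + l) x = Φ k x + Φ l x) ∧
        (∀ (a : ZMod p) (k : P.R) x, Φ (a • k) x = a • Φ k x) ∧
        (∀ w x, Φ (P.t * w) x = M (Φ w x)) ∧
        (∀ w w', B (Φ w a₀) (Φ w' a₀) = 0) ∧ (∀ w w', B (Φ w a₁) (Φ w' a₁) = 0) ∧
        (∀ w w', B (Φ w a₀) (Φ w' a₁) = B (Φ (w * w') a₀) a₁) ∧
        (∀ v, ∃ w w' : P.R, v = Φ w a₀ + Φ w' a₁) ∧
        (∀ w, P.lam w = B (Φ w a₀) a₁ 0) :=
    ⟨P, Φ, hΦadd, hΦsmul, hΦt, hB00, hB11, hB01, hrep, hPlam₁⟩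
  let φ₀ : P.R × P.R →ₗ[ZMod p] V :=
    { toFun := fun x => Φ x.1 a₀ + Φ x.2 a₁
      map_add' := by
        intro x y
        rw [Prod.fst_add, Prod.snd_add, hΦadd, hΦadd]; abel
      map_smul' := by
        intro s x
        rw [Prod.smul_fst, Prod.smul_snd, hΦsmul, hΦsmul, RingHom.id_apply, smul_add] }
  have hφ₀ : ∀ x, φ₀ x = Φ x.1 a₀ + Φ x.2 a₁ := fun x => rfl
  have hcalc0 : ∀ x y, B (φ₀ x) (φ₀ y) 0 = P.lam (P.omr x y) := by
    intro x y
    rw [hφ₀, hφ₀, map_add, map_add, LinearMap.add_apply, LinearMap.add_apply, hB00, hB11, hB01,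
      hneg (Φ x.2 a₁) (Φ y.1 a₀), hB01, zero_add, add_zero]
    have e : P.omr x y = x.1 * y.2 - y.1 * x.2 := by
      unfold Pair.omr; ring
    rw [e, map_sub, hPlam, hPlam, Pi.add_apply, Pi.neg_apply]
    ring
  have hφt : ∀ x, φ₀ (P.t • x) = M (φ₀ x) := by
    intro x
    rw [hφ₀, hφ₀, map_add, Prod.smul_fst, Prod.smul_snd, smul_eq_mul, smul_eq_mul]
    have e1 := hΦt x.1 a₀
    have e2 := hΦt x.2 a₁
    exact congrArg₂ (· + ·) e1 e2
  have hcalc1 : ∀ x y, B (φ₀ x) (φ₀ y) 1 = P.lam (P.t * P.omr x y) := by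
    intro x y
    rw [← hM, ← hφt, hcalc0]
    congr 1
    simp only [Pair.omr, Prod.smul_fst, Prod.smul_snd, smul_eq_mul]; ring
  have hinj : Function.Injective φ₀ := by
    rw [injective_iff_map_eq_zero]
    intro x hx
    apply P.omr_surj_aux
    intro y
    rw [← hcalc0, hx, map_zero]; rfl
  have hsurj : Function.Surjective φ₀ := by
    intro v
    obtain ⟨w, w', hww⟩ := hrep v
    exact ⟨(w, w'), hww.symm⟩
  refine ⟨P, LinearEquiv.ofBijective φ₀ ⟨hinj, hsurj⟩, ?_, ?_⟩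
  · intro x y
    change B (φ₀ x) (φ₀ y) = _
    rw [Pair.BR_apply]
    ext k
    fin_cases k
    · exact hcalc0 x y
    · exact hcalc1 x y
  · intro x
    change π (φ₀ x) = _
    unfold Pair.πR
    have k0 : B a₀ (φ₀ x) 0 = P.lam x.2 := by
      have e1 : Φ 1 a₀ = a₀ := by rw [map_one]; rfl
      have e2 : φ₀ (1, 0) = a₀ := by
        rw [hφ₀]
        change Φ 1 a₀ + Φ 0 a₁ = a₀
        rw [e1, map_zero]
        exact add_zero _
      have := hcalc0 (1, 0) x
      rw [e2] at this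
      rw [this]
      congr 1
      simp [Pair.omr]
    have k1 : B a₁ (φ₀ x) 0 = - P.lam x.1 := by
      have e1 : Φ 1 a₁ = a₁ := by rw [map_one]; rfl
      have e2 : φ₀ (0, 1) = a₁ := by
        rw [hφ₀]
        change Φ 0 a₀ + Φ 1 a₁ = a₁
        rw [e1, map_zero]
        exact zero_add _
      have := hcalc0 (0, 1) x
      rw [e2] at this
      rw [this, ← map_neg]
      congr 1
      simp [Pair.omr]
    ext k
    fin_cases k
    · change π (φ₀ x) 0 = P.lam x.2
      rw [← h0', k0]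
    · change π (φ₀ x) 1 = - P.lam x.1
      rw [← h1', k1]

end Pool.Agent.Helper3.CM
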