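import Pool.Agent.Helper3.CM.RF6
import Pool.Agent.Helper3.CM.Realize

open Polynomial

namespace Pool.Agent.Helper3.CM

variable {p : ℕ} [Fact p.Prime]

namespace Pair

theorem nontrivial_R (P : Pair p) : Nontrivial P.R := by
  apply AdjoinRoot.nontrivial
  have := P.k_pos
  unfold Pair.k at this
  intro h5
  rw [degree_eq_natDegree P.monic.ne_zero] at h5
  have h6 : P.f.natDegree = 0 := by exact_mod_cast h5
  omega

theorem realises_iff (P : Pair p) (G : Type) [Group G] :
    P.Realises G ↔ Nonempty (Real G P.BR P.πR) := by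
  constructor
  · rintro ⟨ρ, ι, h1, h2, h3, h4, h5, h6, h7⟩
    exact ⟨{
      ρ := fun g => P.cmap (ρ g)
      ι := ι
      ρ_mul := fun g h => by rw [h1, map_add]
      ι_add := h2
      ρ_surj := P.cmap.surjective.comp h3
      ι_inj := h4
      exact := fun g => by rw [LinearEquiv.map_eq_zero_iff, h5]
      comm := fun g h => by rw [← P.B_eq]; exact h6 g h
      pow := fun g => by rw [← P.π_eq]; exact h7 g }⟩
  · rintro ⟨R⟩
    refine ⟨fun g => P.cmap.symm (R.ρ g), R.ι, fun g h => (congrArg _ (R.ρ_mul g h)).trans (map_add _ _ _), R.ι_add,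
      P.cmap.symm.surjective.comp R.ρ_surj, R.ι_inj,
      fun g => by rw [LinearEquiv.map_eq_zero_iff, R.exact], fun g h => ?_, fun g => ?_⟩
    · rw [P.B_eq, LinearEquiv.apply_symm_apply, LinearEquiv.apply_symm_apply]
      exact R.comm g h
    · rw [P.π_eq, LinearEquiv.apply_symm_apply]
      exact R.pow g

end Pair

theorem choose_smul_odd (hp : p ≠ 2) {W : Type*} [AddCommGroup W] [Module (ZMod p) W] (w : W) :
    (p.choose 2) • w = 0 := by
  have hp1 := (Fact.out : p.Prime).one_lt
  have hdvd : p ∣ p.choose 2 :=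
    (Fact.out : p.Prime).dvd_choose_self (by norm_num) (by omega)
  obtain ⟨k, hk⟩ := hdvd
  rw [hk, mul_comm, mul_smul, Real.p_nsmul (p := p) w, smul_zero]

theorem classification (hp : p ≠ 2) :
    (∀ (G : Type) [Group G] [Finite G],
      (IsPGroup p G ∧ IsCamina G ∧ IsMiller G ∧ Nat.card (commutator G) = p ^ 2) ↔
        ∃ P : Pair p, (∀ a b c d, Pair.Rel a b c d P P → a = 1 ∧ b = 0 ∧ c = 0 ∧ d = 1) ∧
          P.Realises G) ∧
    (∀ P : Pair p, ∃ (G : Type) (_ : Group G), P.Realises G ∧
      Nat.card G = p ^ (2 * P.f.natDegree + 2)) ∧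
    (∀ (P Q : Pair p) (G H : Type) [Group G] [Group H], P.Realises G → Q.Realises H →
      (Nonempty (G ≃* H) ↔ ∃ a b c d, Pair.Rel a b c d P Q)) := by
  have hp1 := (Fact.out : p.Prime).one_lt
  refine ⟨?_, ?_, ?_⟩
  · intro G _ _
    constructor
    · rintro ⟨h1, h2, h3, h4⟩
      obtain ⟨m', n', B, π, hm0, hn0, hs, ⟨R⟩⟩ := exists_real h1 h2 h3
      have : Nonempty (Fin m') := ⟨⟨0, hm0⟩⟩
      have : Nonempty (Fin n') := ⟨⟨0, hn0⟩⟩
      have en : n' = 2 := by
        have := R.card_W hs
        rw [h4, Nat.card_eq_fintype_card, Fintype.card_fun, ZMod.card, Fintype.card_fin] at this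
        exact (Nat.pow_right_injective hp1 this).symm
      subst en
      have hR : Rigid B π := (miller_iff_rigid R hs).1 h3
      have hπ : ∀ x y, π (x + y) = π x + π y := by
        intro x y
        rw [R.π_add, choose_smul_odd hp, add_zero]
      obtain ⟨P, φ, hφ1, hφ2⟩ := normal_form B R.B_self hs π hπ hR
      refine ⟨P, (Pair.rigid_iff_free P).1 ?_, (Pair.realises_iff P G).2 ⟨?_⟩⟩
      · exact rigid_transport φ (LinearEquiv.refl _ _) hφ1 hφ2 hR
      · exact {
          ρ := fun g => φ.symm (R.ρ g)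
          ι := R.ι
          ρ_mul := fun g h => by rw [R.ρ_mul, map_add]
          ι_add := R.ι_add
          ρ_surj := φ.symm.surjective.comp R.ρ_surj
          ι_inj := R.ι_inj
          exact := fun g => by rw [LinearEquiv.map_eq_zero_iff, R.exact]
          comm := fun g h => by
            rw [← hφ1, LinearEquiv.apply_symm_apply, LinearEquiv.apply_symm_apply]
            exact R.comm g h
          pow := fun g => by
            rw [← hφ2, LinearEquiv.apply_symm_apply]
            exact R.pow g }
    · rintro ⟨P, hfree, hG⟩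
      obtain ⟨R⟩ := (Pair.realises_iff P G).1 hG
      have := P.nontrivial_R
      refine ⟨R.isPGroup, R.isCamina P.BR_surj, (miller_iff_rigid R P.BR_surj).2
        ((Pair.rigid_iff_free P).2 hfree), ?_⟩
      rw [R.card_W P.BR_surj, Nat.card_eq_fintype_card, Fintype.card_fun, ZMod.card,
        Fintype.card_fin]
  · intro P
    have : Module.Finite (ZMod p) P.R := Module.Finite.of_basis P.bas
    have : Finite P.R := Module.finite_of_finite (ZMod p)
    have := P.nontrivial_R
    let b := Module.finBasis (ZMod p) (P.R × P.R)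
    let R := realize b P.BR P.πR P.BR_self (by
      intro x y
      rw [choose_smul_odd hp, add_zero, Pair.πR_add])
    refine ⟨Ext (coc b P.BR P.πR), inferInstance, (Pair.realises_iff P _).2 ⟨R⟩, ?_⟩
    have e1 := R.index_V P.BR_surj
    have e2 := R.card_W P.BR_surj
    rw [← Subgroup.card_mul_index (commutator (Ext (coc b P.BR P.πR))), e1, e2,
      Nat.card_prod, Module.natCard_eq_pow_finrank (K := ZMod p) (V := P.R),
      Module.finrank_eq_card_basis P.bas, Fintype.card_fin, Nat.card_eq_fintype_card,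
      Nat.card_eq_fintype_card, Fintype.card_fun, ZMod.card, Fintype.card_fin]
    unfold Pair.k
    ring
  · intro P Q G H _ _ hG hH
    obtain ⟨R⟩ := (Pair.realises_iff P G).1 hG
    obtain ⟨S⟩ := (Pair.realises_iff Q H).1 hH
    have := P.nontrivial_R
    have := Q.nontrivial_R
    rw [iso_iff R S P.BR_surj Q.BR_surj]
    exact Pair.equiv_iff P Q

end Pool.Agent.Helper3.CM
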