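import Pool.Agent.Helper3.CM.Datum

open Polynomial

namespace Pool.Agent.Helper3.CM

/-- A rational function `v / f` over `F_p` in lowest terms, with `deg v < deg f` and `f` monic
without roots in `F_p` (so `v / f` has no pole on the projective line over `F_p`). -/
structure Pair (p : ℕ) where
  f : (ZMod p)[X]
  v : (ZMod p)[X]
  monic : f.Monic
  noroot : ∀ a : ZMod p, f.eval a ≠ 0
  cop : IsCoprime f v
  deg : v.natDegree < f.natDegree

variable {p : ℕ}

/-- degree of the rational function -/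
noncomputable def Pair.k (P : Pair p) : ℕ := P.f.natDegree

/-- The coefficients of the expansion `v / f = s_0 X^(-1) + s_1 X^(-2) + ...` at infinity:
`s_j` is the coefficient of `X^(k-1)` in the remainder of `X^j v` modulo `f`. -/
noncomputable def Pair.s (P : Pair p) (j : ℕ) : ZMod p :=
  ((X ^ j * P.v) %ₘ P.f).coeff (P.k - 1)

/-- The commutator map: with `x = (a, b)`, `y = (a', b')` in `F_p^k x F_p^k`, the components are
`sum s_(i+j) (a_i b'_j - a'_i b_j)` and `sum s_(i+j+1) (a_i b'_j - a'_i b_j)`. -/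
noncomputable def Pair.B (P : Pair p) (x y : Vec p (P.k + P.k)) : Vec p 2 := fun l =>
  ∑ i : Fin P.k, ∑ j : Fin P.k, P.s (i + j + l) *
    (x (Fin.castAdd P.k i) * y (Fin.natAdd P.k j) - y (Fin.castAdd P.k i) * x (Fin.natAdd P.k j))

/-- The power map: `(a, b)` goes to `(sum s_j b_j, - sum s_i a_i)`. -/
noncomputable def Pair.π (P : Pair p) (x : Vec p (P.k + P.k)) : Vec p 2 :=
  ![∑ j : Fin P.k, P.s j * x (Fin.natAdd P.k j), - ∑ i : Fin P.k, P.s i * x (Fin.castAdd P.k i)]

/-- The group `G` realises the pair `P`: it is an extension of `F_p^(2k)` by `F_p^2` with commutator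
map `P.B` and `p`-th power map `P.π`. -/
def Pair.Realises (P : Pair p) (G : Type) [Group G] : Prop :=
  ∃ (ρ : G → Vec p (P.k + P.k)) (ι : Vec p 2 → G),
    (∀ g h, ρ (g * h) = ρ g + ρ h) ∧ (∀ a b, ι (a + b) = ι a * ι b) ∧
    Function.Surjective ρ ∧ Function.Injective ι ∧ (∀ g, ρ g = 0 ↔ ∃ w, ι w = g) ∧
    (∀ g h, g * h = ι (P.B (ρ g) (ρ h)) * (h * g)) ∧ (∀ g, g ^ p = ι (P.π (ρ g)))

/-- `e^n g(e'/e)` -/
noncomputable def hsub (n : ℕ) (g e e' : (ZMod p)[X]) : (ZMod p)[X] :=
  ∑ i ∈ Finset.range (n + 1), C (g.coeff i) * e' ^ i * e ^ (n - i)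

/-- The invertible matrix `(a, b; c, d)` carries `P` to `Q`: with `r = v / f`,
`r_Q ((c + d X) / (a + b X)) = (a + b X) r_P (X)` (written without denominators). -/
def Pair.Rel (a b c d : ZMod p) (P Q : Pair p) : Prop :=
  a * d - b * c ≠ 0 ∧ Q.k = P.k ∧
    hsub (P.k - 1) Q.v (C a + C b * X) (C c + C d * X) * P.f =
      hsub P.k Q.f (C a + C b * X) (C c + C d * X) * P.v

end Pool.Agent.Helper3.CM
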