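import Pool.Agent.Helper3.CM.Crit

open scoped commutatorElement

namespace Pool.Agent.Helper3.CM

variable {p : ℕ} [Fact p.Prime]

theorem elem_ab {A : Type*} [Group A] [Finite A] (hc : ∀ a b : A, a * b = b * a)
    (h : ∀ x : A, x ^ p = 1) : ∃ (n : ℕ) (e : A ≃ (Fin n → ZMod p)), ∀ a b, e (a * b) = e a + e b := by
  have key : ∀ (B : Type _) [AddCommGroup B] [Module (ZMod p) B] [Finite B],
      ∃ (n : ℕ) (e : B ≃ (Fin n → ZMod p)), ∀ a b, e (a + b) = e a + e b := by
    intro B _ _ _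
    exact ⟨_, (Module.finBasis (ZMod p) B).equivFun.toEquiv, fun a b =>
      map_add (Module.finBasis (ZMod p) B).equivFun a b⟩
  let _ : CommGroup A := { (inferInstance : Group A) with mul_comm := hc }
  have hp' : ∀ x : Additive A, p • x = 0 := fun x => h (Additive.toMul x)
  obtain ⟨n, e, he⟩ := @key (Additive A) _ (AddCommGroup.zmodModule hp') _
  exact ⟨n, Additive.ofMul.trans e, fun a b => he (Additive.ofMul a) (Additive.ofMul b)⟩

theorem exists_bilin {V W : Type*} [AddCommGroup V] [Module (ZMod p) V]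
    [AddCommGroup W] [Module (ZMod p) W] (f : V → V → W)
    (h1 : ∀ x x' y, f (x + x') y = f x y + f x' y)
    (h2 : ∀ x y y', f x (y + y') = f x y + f x y') :
    ∃ B : V →ₗ[ZMod p] V →ₗ[ZMod p] W, ∀ x y, B x y = f x y := by
  have s1 : ∀ (c : ZMod p) x y, f (c • x) y = c • f x y := by
    intro c x y
    exact ZMod.map_smul (AddMonoidHom.mk' (fun x => f x y) (fun a b => h1 a b y)) c x
  have s2 : ∀ (c : ZMod p) x y, f x (c • y) = c • f x y := by
    intro c x y
    exact ZMod.map_smul (AddMonoidHom.mk' (fun y => f x y) (fun a b => h2 x a b)) c y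
  exact ⟨LinearMap.mk₂ (ZMod p) f h1 s1 h2 s2, fun x y => rfl⟩

/-- The reduction: a Camina and Miller `p`-group is given by linear data. -/
theorem exists_real {G : Type*} [Group G] [Finite G] (hp : IsPGroup p G) (hC : IsCamina G)
    (hM : IsMiller G) :
    ∃ (m n : ℕ) (B : (Fin m → ZMod p) →ₗ[ZMod p] (Fin m → ZMod p) →ₗ[ZMod p] (Fin n → ZMod p))
      (π : (Fin m → ZMod p) → (Fin n → ZMod p)), 0 < m ∧ 0 < n ∧
      (∀ x, x ≠ 0 → Function.Surjective (B x)) ∧ Nonempty (Real G B π) := by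
  obtain ⟨⟨a₀, b₀, hab₀⟩, hM⟩ := hM
  -- class two
  have hcl : ∀ a b z : G, ⁅a, b⁆ * z = z * ⁅a, b⁆ := by
    intro a b z
    have h := aut_comm_central hM (MulAut.conj b) a⁻¹ z
    rw [MulAut.conj_apply, inv_inv] at h
    have e : a * (b * a⁻¹ * b⁻¹) = ⁅a, b⁆ := by rw [commutatorElement_def]; group
    rwa [e] at h
  have hcen : ∀ g ∈ commutator G, ∀ z, g * z = z * g := by
    have : commutator G ≤ Subgroup.center G := by
      rw [commutator_def, Subgroup.commutator_le]
      intro a _ b _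
      rw [Subgroup.mem_center_iff]
      intro z
      exact (hcl a b z).symm
    intro g hg z
    exact (Subgroup.mem_center_iff.1 (this hg) z).symm
  have hcm : ∀ a b : G, ⁅a, b⁆ ∈ commutator G := by
    intro a b
    rw [commutator_def]
    exact Subgroup.commutator_mem_commutator (Subgroup.mem_top _) (Subgroup.mem_top _)
  -- Camina, in commutator form
  have hCs : ∀ x : G, x ∉ commutator G → ∀ z ∈ commutator G, ∃ c, ⁅x, c⁆ = z := by
    intro x hx z hz
    have h1 : IsConj x (x * z⁻¹) := by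
      rw [hC x hx, inv_mul_cancel_left]
      exact inv_mem hz
    rw [isConj_iff] at h1
    obtain ⟨c, hc⟩ := h1
    refine ⟨c, ?_⟩
    have e : ⁅x, c⁆ = x * (c * x * c⁻¹)⁻¹ := by rw [commutatorElement_def]; group
    have hz' : z * x⁻¹ = x⁻¹ * z := hcen z hz x⁻¹
    rw [e, hc, mul_inv_rev, inv_inv, hz', mul_inv_cancel_left]
  have hbl1 : ∀ a a' b : G, ⁅a * a', b⁆ = ⁅a, b⁆ * ⁅a', b⁆ := by
    intro a a' b
    have e : ⁅a * a', b⁆ = a * ⁅a', b⁆ * a⁻¹ * ⁅a, b⁆ := by
      simp only [commutatorElement_def]; group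
    rw [e, ← hcl a' b a, mul_inv_cancel_right, hcl]
  have hbl2 : ∀ a b b' : G, ⁅a, b * b'⁆ = ⁅a, b⁆ * ⁅a, b'⁆ := by
    intro a b b'
    have e : ⁅a, b * b'⁆ = ⁅a, b⁆ * (b * ⁅a, b'⁆ * b⁻¹) := by
      simp only [commutatorElement_def]; group
    rw [e, ← hcl a b' b, mul_inv_cancel_right]
  have hpow1 : ∀ (a b : G) (n : ℕ), ⁅a ^ n, b⁆ = ⁅a, b⁆ ^ n := by
    intro a b n
    induction n with
    | zero => simp [commutatorElement_def]
    | succ k ih => rw [pow_succ, hbl1, ih, pow_succ]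
  have hzl : ∀ z ∈ commutator G, ∀ b : G, ⁅z, b⁆ = 1 := by
    intro z hz b
    rw [commutatorElement_def, hcen z hz]
    group
  have hzr : ∀ z ∈ commutator G, ∀ b : G, ⁅b, z⁆ = 1 := by
    intro z hz b
    rw [commutatorElement_def, ← hcen z hz]
    group
  -- p-th powers lie in the derived subgroup
  have hpG : ∀ x : G, x ^ p ∈ commutator G := by
    intro x
    by_contra hx
    have hx' : x ∉ commutator G := fun h => hx (pow_mem h p)
    -- every element of the derived subgroup is a p-th power of such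
    have h1 : ∀ z ∈ commutator G, ∃ y ∈ commutator G, y ^ p = z := by
      intro z hz
      obtain ⟨c, hc⟩ := hCs _ hx z hz
      exact ⟨⁅x, c⁆, hcm _ _, by rw [← hpow1, hc]⟩
    -- hence the derived subgroup is trivial
    have h2 : ∀ k : ℕ, ∀ z ∈ commutator G, ∃ y ∈ commutator G, y ^ p ^ k = z := by
      intro k
      induction k with
      | zero => intro z hz; exact ⟨z, hz, by simp⟩
      | succ k ih =>
        intro z hz
        obtain ⟨y, hy, hy'⟩ := ih z hz
        obtain ⟨u, hu, hu'⟩ := h1 y hy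
        exact ⟨u, hu, by rw [pow_succ', pow_mul, hu', hy']⟩
    obtain ⟨n, hn⟩ := IsPGroup.iff_card.1 hp
    obtain ⟨y, _, hy⟩ := h2 n ⁅a₀, b₀⁆ (hcm _ _)
    rw [← hn, pow_card_eq_one'] at hy
    apply hab₀
    have := hy.symm
    rw [commutatorElement_eq_one_iff_mul_comm] at this
    exact this
  have hne : ∃ x : G, x ∉ commutator G := by
    by_contra hcon
    push Not at hcon
    exact hab₀ (hcen a₀ (hcon a₀) b₀)
  obtain ⟨x₀, hx₀⟩ := hne
  have hexp : ∀ z ∈ commutator G, z ^ p = 1 := by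
    intro z hz
    obtain ⟨c, hc⟩ := hCs x₀ hx₀ z hz
    rw [← hc, ← hpow1, hzl _ (hpG x₀)]
  -- coordinates
  obtain ⟨m, e₁, he₁⟩ := elem_ab (p := p) (A := G ⧸ commutator G) (by
      intro a b
      obtain ⟨a, rfl⟩ := QuotientGroup.mk_surjective a
      obtain ⟨b, rfl⟩ := QuotientGroup.mk_surjective b
      rw [← QuotientGroup.mk_mul, ← QuotientGroup.mk_mul, eq_comm, QuotientGroup.eq]
      have : (b * a)⁻¹ * (a * b) = ⁅a⁻¹, b⁻¹⁆ := by rw [commutatorElement_def]; group
      rw [this]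
      exact hcm _ _) (by
      intro a
      obtain ⟨a, rfl⟩ := QuotientGroup.mk_surjective a
      rw [← QuotientGroup.mk_pow, QuotientGroup.eq_one_iff]
      exact hpG a)
  obtain ⟨n, e₂, he₂⟩ := elem_ab (p := p) (A := commutator G) (by
      rintro ⟨a, ha⟩ ⟨b, hb⟩
      exact Subtype.ext (hcen a ha b)) (by
      rintro ⟨a, ha⟩
      exact Subtype.ext (hexp a ha))
  let ρ : G → (Fin m → ZMod p) := fun g => e₁ (g : G ⧸ commutator G)
  have hρmul : ∀ a b, ρ (a * b) = ρ a + ρ b := fun a b =>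
    he₁ (a : G ⧸ commutator G) (b : G ⧸ commutator G)
  have hρsurj : Function.Surjective ρ := by
    intro v
    obtain ⟨g, hg⟩ := QuotientGroup.mk_surjective (e₁.symm v)
    exact ⟨g, by change e₁ _ = v; rw [hg, Equiv.apply_symm_apply]⟩
  have he₁1 : e₁ 1 = 0 := by
    have := he₁ 1 1
    rw [mul_one] at this
    exact left_eq_add.mp this
  have hρ0 : ∀ g, ρ g = 0 ↔ g ∈ commutator G := by
    intro g
    rw [← QuotientGroup.eq_one_iff, ← e₁.injective.eq_iff, he₁1]
  have hρeq : ∀ a b, ρ a = ρ b → a⁻¹ * b ∈ commutator G := by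
    intro a b h
    exact QuotientGroup.eq.1 (e₁.injective h)
  let s := Function.surjInv hρsurj
  have hs : ∀ v, ρ (s v) = v := Function.surjInv_eq hρsurj
  let c : G → G → (Fin n → ZMod p) := fun a b => e₂ ⟨⁅a, b⁆, hcm a b⟩
  have hc1 : ∀ a a' b, c (a * a') b = c a b + c a' b := by
    intro a a' b
    change e₂ _ = e₂ _ + e₂ _
    rw [← he₂]
    congr 1
    exact Subtype.ext (hbl1 a a' b)
  have hc2 : ∀ a b b', c a (b * b') = c a b + c a b' := by
    intro a b b'
    change e₂ _ = e₂ _ + e₂ _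
    rw [← he₂]
    congr 1
    exact Subtype.ext (hbl2 a b b')
  have he₂1 : e₂ 1 = 0 := by
    have := he₂ 1 1
    rw [mul_one] at this
    exact left_eq_add.mp this
  have hcz1 : ∀ z ∈ commutator G, ∀ b, c z b = 0 := by
    intro z hz b
    rw [← he₂1]
    change e₂ _ = e₂ _
    congr 1
    exact Subtype.ext (hzl z hz b)
  have hcz2 : ∀ z ∈ commutator G, ∀ b, c b z = 0 := by
    intro z hz b
    rw [← he₂1]
    change e₂ _ = e₂ _
    congr 1
    exact Subtype.ext (hzr z hz b)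
  have hcw1 : ∀ a a' b, ρ a = ρ a' → c a b = c a' b := by
    intro a a' b h
    have e : a' = a * (a⁻¹ * a') := by group
    rw [e, hc1, hcz1 _ (hρeq _ _ h), add_zero]
  have hcw2 : ∀ a b b', ρ b = ρ b' → c a b = c a b' := by
    intro a b b' h
    have e : b' = b * (b⁻¹ * b') := by group
    rw [e, hc2, hcz2 _ (hρeq _ _ h), add_zero]
  obtain ⟨B, hB⟩ := exists_bilin (p := p) (fun v w => c (s v) (s w)) (by
      intro x x' y
      rw [← hc1]
      apply hcw1
      rw [hρmul, hs, hs, hs]) (by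
      intro x y y'
      rw [← hc2]
      apply hcw2
      rw [hρmul, hs, hs, hs])
  have hBc : ∀ a b, B (ρ a) (ρ b) = c a b := by
    intro a b
    rw [hB]
    exact (hcw1 _ _ _ (hs _)).trans (hcw2 _ _ _ (hs _))
  let π : (Fin m → ZMod p) → (Fin n → ZMod p) := fun v => e₂ ⟨(s v) ^ p, hpG _⟩
  have hπ : ∀ g, π (ρ g) = e₂ ⟨g ^ p, hpG _⟩ := by
    intro g
    change e₂ _ = e₂ _
    congr 1
    apply Subtype.ext
    change (s (ρ g)) ^ p = g ^ p
    have h1 : g⁻¹ * s (ρ g) ∈ commutator G := hρeq _ _ (hs _).symm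
    have e : s (ρ g) = g * (g⁻¹ * s (ρ g)) := by group
    rw [e, Commute.mul_pow (hcen _ h1 g).symm, hexp _ h1, mul_one]
  refine ⟨m, n, B, π, ?_, ?_, ?_, ⟨⟨ρ, fun w => (e₂.symm w : commutator G), hρmul, ?_, hρsurj, ?_,
    ?_, ?_, ?_⟩⟩⟩
  · rcases Nat.eq_zero_or_pos m with h | h
    · subst h
      exfalso
      exact hx₀ ((hρ0 x₀).1 (Subsingleton.elim _ _))
    · exact h
  · rcases Nat.eq_zero_or_pos n with h | h
    · subst h
      exfalso
      have h1 : e₂ ⟨⁅a₀, b₀⁆, hcm a₀ b₀⟩ = e₂ 1 := Subsingleton.elim _ _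
      have h2 := congrArg Subtype.val (e₂.injective h1)
      have h3 : ⁅a₀, b₀⁆ = 1 := h2
      rw [commutatorElement_eq_one_iff_mul_comm] at h3
      exact hab₀ h3
    · exact h
  · intro v hv w
    obtain ⟨x, rfl⟩ := hρsurj v
    have hx : x ∉ commutator G := fun h => hv ((hρ0 x).2 h)
    obtain ⟨y, hy⟩ := hCs x hx _ (e₂.symm w).2
    refine ⟨ρ y, ?_⟩
    rw [hBc]
    change e₂ _ = w
    rw [← Equiv.eq_symm_apply]
    exact Subtype.ext hy
  · intro a b
    rw [← Subgroup.coe_mul]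
    congr 1
    rw [← e₂.injective.eq_iff, he₂]
    simp
  · intro a b hab
    exact e₂.symm.injective (Subtype.ext hab)
  · intro g
    rw [hρ0]
    constructor
    · intro hg
      exact ⟨e₂ ⟨g, hg⟩, by simp⟩
    · rintro ⟨w, rfl⟩
      exact (e₂.symm w).2
  · intro g h
    rw [hBc]
    change g * h = ((e₂.symm (e₂ ⟨⁅g, h⁆, hcm g h⟩) : commutator G) : G) * (h * g)
    rw [Equiv.symm_apply_apply]
    change g * h = ⁅g, h⁆ * (h * g)
    rw [commutatorElement_def]
    group
  · intro g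
    rw [hπ, Equiv.symm_apply_apply]

end Pool.Agent.Helper3.CM
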