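import Pool.Agent.Helper3.CM.Realize
import Pool.Agent.Helper3.CM.Datum

namespace Pool.Agent.Helper3.CM

variable {p : ℕ} [Fact p.Prime]

theorem choose_swap {V W : Type*} [AddCommGroup V] [Module (ZMod p) V] [AddCommGroup W]
    [Module (ZMod p) W] (B : V →ₗ[ZMod p] V →ₗ[ZMod p] W) (hB : ∀ x, B x x = 0) (x y : V) :
    (p.choose 2) • B y x = (p.choose 2) • B x y := by
  have hneg : B y x = - B x y := by
    have h := hB (x + y)
    rw [map_add, map_add, LinearMap.add_apply, LinearMap.add_apply, hB, hB, zero_add, add_zero] at h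
    exact eq_neg_of_add_eq_zero_left h
  have h2 : (p.choose 2 * 2) • B x y = 0 := by
    rw [Nat.choose_two_right, Nat.div_mul_cancel (even_iff_two_dvd.1 (Nat.even_mul_pred_self p)),
      mul_comm, mul_smul, Real.p_nsmul (p := p) (B x y), smul_zero]
  rw [mul_smul, two_smul, smul_add] at h2
  rw [hneg, smul_neg]
  exact neg_eq_of_add_eq_zero_left h2

section frat

variable {G V W : Type*} [Group G] [AddCommGroup V] [Module (ZMod p) V]
  [AddCommGroup W] [Module (ZMod p) W] {B : V →ₗ[ZMod p] V →ₗ[ZMod p] W} {π : V → W}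

theorem center_eq (R : Real G B π) [Nontrivial V] [Nontrivial W]
    (hs : ∀ x : V, x ≠ 0 → Function.Surjective (B x)) : commutator G = Subgroup.center G := by
  ext g
  rw [R.mem_commutator hs, ← R.mem_center hs, Subgroup.mem_center_iff]
  exact ⟨fun h z => (h z).symm, fun h z => (h z).symm⟩

theorem frattini_eq (R : Real G B π) [Nontrivial V]
    (hs : ∀ x : V, x ≠ 0 → Function.Surjective (B x)) : frattini G = commutator G := by
  apply le_antisymm
  · intro g hg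
    rw [R.mem_commutator hs]
    by_contra hne
    obtain ⟨φ, hφ⟩ : ∃ φ : Module.Dual (ZMod p) V, φ (R.ρ g) ≠ 0 := by
      by_contra hcon
      push Not at hcon
      exact hne ((Module.forall_dual_apply_eq_zero_iff (ZMod p) (R.ρ g)).1 hcon)
    let H : Subgroup G :=
      { carrier := {x | φ (R.ρ x) = 0}
        mul_mem' := by
          intro a b ha hb
          change φ (R.ρ (a * b)) = 0
          rw [R.ρ_mul, map_add, ha, hb, add_zero]
        one_mem' := by
          change φ (R.ρ 1) = 0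
          rw [R.ρ_one, map_zero]
        inv_mem' := by
          intro a ha
          change φ (R.ρ a⁻¹) = 0
          rw [R.ρ_inv, map_neg, ha, neg_zero] }
    have hH : IsCoatom H := by
      constructor
      · intro h
        apply hφ
        have : g ∈ H := by rw [h]; exact Subgroup.mem_top g
        exact this
      · intro K hK
        obtain ⟨x, hxK, hxH⟩ := Set.exists_of_ssubset hK
        rw [eq_top_iff]
        intro y _
        have hx : φ (R.ρ x) ≠ 0 := hxH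
        -- choose a power of x
        have hp : ∀ k : ℕ, R.ρ (x ^ k) = k • R.ρ x := by
          intro k
          induction k with
          | zero => rw [pow_zero, zero_smul, R.ρ_one]
          | succ k ih => rw [pow_succ, R.ρ_mul, ih, add_smul, one_smul]
        let k : ℕ := (φ (R.ρ y) / φ (R.ρ x)).val
        have hk : y * (x ^ k)⁻¹ ∈ H := by
          change φ (R.ρ _) = 0
          rw [R.ρ_mul, R.ρ_inv, hp, map_add, map_neg, map_nsmul, nsmul_eq_mul]
          simp only [k]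
          rw [ZMod.natCast_zmod_val, div_mul_cancel₀ _ hx, add_neg_cancel]
        have h1 := K.mul_mem (hK.le hk) (K.pow_mem hxK k)
        rwa [inv_mul_cancel_right] at h1
    exact hφ (frattini_le_coatom hH hg)
  · rw [R.commutator_eq hs]
    refine le_iInf₂ fun H hH => ?_
    have hH : IsCoatom H := hH
    by_contra hcon
    have htop : H ⊔ R.cen = ⊤ := by
      apply hH.2
      exact lt_of_le_of_ne le_sup_left fun h => hcon (by rw [h]; exact le_sup_right)
    apply hcon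
    have hN : R.cen.Normal := by
      constructor
      rintro n ⟨w, rfl⟩ g
      exact ⟨w, by rw [R.central, mul_inv_cancel_right]⟩
    have hdec : ∀ g : G, ∃ h ∈ H, R.ρ g = R.ρ h := by
      intro g
      have hg : g ∈ H ⊔ R.cen := by rw [htop]; exact Subgroup.mem_top g
      rw [Subgroup.mem_sup_of_normal_right] at hg
      obtain ⟨h, hh, z, hz, rfl⟩ := hg
      obtain ⟨w, rfl⟩ := hz
      exact ⟨h, hh, by rw [R.ρ_mul, R.ρ_ι, add_zero]⟩
    rintro _ ⟨w, rfl⟩
    obtain ⟨x, hx⟩ := exists_ne (0 : V)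
    obtain ⟨y, hy⟩ := hs x hx w
    obtain ⟨a, ha⟩ := R.ρ_surj x
    obtain ⟨b, hb⟩ := R.ρ_surj y
    obtain ⟨a', ha', haa⟩ := hdec a
    obtain ⟨b', hb', hbb⟩ := hdec b
    have h1 := R.comm a' b'
    rw [← haa, ← hbb, ha, hb, hy] at h1
    have h2 : R.ι w = a' * b' * (b' * a')⁻¹ := by rw [h1, mul_inv_cancel_right]
    rw [h2]
    exact H.mul_mem (H.mul_mem ha' hb') (H.inv_mem (H.mul_mem hb' ha'))

end frat

theorem addEquiv_smul {V W : Type*} [AddCommGroup V] [Module (ZMod p) V] [AddCommGroup W]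
    [Module (ZMod p) W] (g : V ≃+ W) (c : ZMod p) (x : V) : g (c • x) = c • g x :=
  ZMod.map_smul g.toAddMonoidHom c x

/-- additive bijections are linear -/
def toLin {V W : Type*} [AddCommGroup V] [Module (ZMod p) V] [AddCommGroup W]
    [Module (ZMod p) W] (g : V ≃+ W) : V ≃ₗ[ZMod p] W :=
  { g with map_smul' := fun c x => addEquiv_smul g c x }

theorem exists_lin (D : Datum p) :
    ∃ B : Vec p D.m →ₗ[ZMod p] Vec p D.m →ₗ[ZMod p] Vec p D.n, ∀ x y, B x y = D.B x y :=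
  exists_bilin D.B D.add_left D.add_right

theorem realises_iff (D : Datum p) (B : Vec p D.m →ₗ[ZMod p] Vec p D.m →ₗ[ZMod p] Vec p D.n)
    (hB : ∀ x y, B x y = D.B x y) (G : Type) [Group G] :
    D.Realises G ↔ Nonempty (Real G B D.π) := by
  constructor
  · rintro ⟨ρ, ι, h1, h2, h3, h4, h5, h6, h7⟩
    exact ⟨⟨ρ, ι, h1, h2, h3, h4, h5, fun g h => by rw [hB]; exact h6 g h, h7⟩⟩
  · rintro ⟨R⟩
    exact ⟨R.ρ, R.ι, R.ρ_mul, R.ι_add, R.ρ_surj, R.ι_inj, R.exact,
      fun g h => by rw [← hB]; exact R.comm g h, R.pow⟩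

theorem rigid_iff (D : Datum p) (B : Vec p D.m →ₗ[ZMod p] Vec p D.m →ₗ[ZMod p] Vec p D.n)
    (hB : ∀ x y, B x y = D.B x y) : D.IsRigid ↔ Rigid B D.π := by
  constructor
  · intro h g k h1 h2
    exact h g.toAddEquiv k.toAddEquiv (fun x y => by
      rw [← hB, ← hB]; exact h1 x y) h2
  · intro h g k h1 h2
    exact h (toLin g) (toLin k) (fun x y => by
      rw [hB, hB]; exact h1 x y) h2

theorem equivalent_iff (D₁ D₂ : Datum p)
    (B₁ : Vec p D₁.m →ₗ[ZMod p] Vec p D₁.m →ₗ[ZMod p] Vec p D₁.n)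
    (hB₁ : ∀ x y, B₁ x y = D₁.B x y)
    (B₂ : Vec p D₂.m →ₗ[ZMod p] Vec p D₂.m →ₗ[ZMod p] Vec p D₂.n)
    (hB₂ : ∀ x y, B₂ x y = D₂.B x y) : D₁.Equivalent D₂ ↔
    ∃ (g : Vec p D₁.m ≃ₗ[ZMod p] Vec p D₂.m) (h : Vec p D₁.n ≃ₗ[ZMod p] Vec p D₂.n),
      (∀ x y, B₂ (g x) (g y) = h (B₁ x y)) ∧ ∀ x, D₂.π (g x) = h (D₁.π x) := by
  constructor
  · rintro ⟨g, h, h1, h2⟩
    exact ⟨toLin g, toLin h, fun x y => by rw [hB₁, hB₂]; exact h1 x y, h2⟩
  · rintro ⟨g, h, h1, h2⟩
    exact ⟨g.toAddEquiv, h.toAddEquiv, fun x y => by rw [← hB₁, ← hB₂]; exact h1 x y, h2⟩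

/-- The structure theorem. -/
theorem structure_thm :
    (∀ (G : Type) [Group G] [Finite G], IsPGroup p G → IsCamina G → IsMiller G →
      commutator G = Subgroup.center G ∧ commutator G = frattini G ∧
        ∀ z ∈ commutator G, z ^ p = 1) ∧
    (∀ (G : Type) [Group G] [Finite G], (IsPGroup p G ∧ IsCamina G ∧ IsMiller G) ↔
      ∃ D : Datum p, D.IsRigid ∧ D.Realises G) ∧
    (∀ D : Datum p, ∃ (G : Type) (_ : Group G) (_ : Finite G), D.Realises G) ∧
    (∀ (D₁ D₂ : Datum p) (G₁ G₂ : Type) [Group G₁] [Group G₂], D₁.Realises G₁ → D₂.Realises G₂ →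
        (Nonempty (G₁ ≃* G₂) ↔ D₁.Equivalent D₂)) := by
  have key : ∀ (G : Type) [Group G] [Finite G], IsPGroup p G → IsCamina G → IsMiller G →
      ∃ D : Datum p, D.Realises G := by
    intro G _ _ h1 h2 h3
    obtain ⟨m, n, B, π, hm, hn, hs, ⟨R⟩⟩ := exists_real h1 h2 h3
    refine ⟨⟨m, n, fun x y => B x y, π, hm, hn, fun x x' y => by rw [map_add]; rfl,
      fun x y y' => map_add _ _ _, R.B_self, hs, ?_⟩, ?_⟩
    · intro x y
      rw [R.π_add, choose_swap B R.B_self x y]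
    · exact (realises_iff _ B (fun _ _ => rfl) G).2 ⟨R⟩
  refine ⟨?_, ?_, ?_, ?_⟩
  · intro G _ _ h1 h2 h3
    obtain ⟨D, hD⟩ := key G h1 h2 h3
    obtain ⟨B, hB⟩ := exists_lin D
    obtain ⟨R⟩ := (realises_iff D B hB G).1 hD
    have hs : ∀ x, x ≠ 0 → Function.Surjective (B x) := by
      intro x hx w
      obtain ⟨y, hy⟩ := D.onto x hx w
      exact ⟨y, by rw [hB, hy]⟩
    have : Nonempty (Fin D.m) := ⟨⟨0, D.m_pos⟩⟩
    have : Nonempty (Fin D.n) := ⟨⟨0, D.n_pos⟩⟩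
    refine ⟨center_eq R hs, (frattini_eq R hs).symm, ?_⟩
    intro z hz
    rw [R.commutator_eq hs] at hz
    obtain ⟨w, rfl⟩ := hz
    rw [← R.ι_nsmul, Real.p_nsmul, R.ι_zero]
  · intro G _ _
    constructor
    · rintro ⟨h1, h2, h3⟩
      obtain ⟨D, hD⟩ := key G h1 h2 h3
      obtain ⟨B, hB⟩ := exists_lin D
      obtain ⟨R⟩ := (realises_iff D B hB G).1 hD
      have hs : ∀ x, x ≠ 0 → Function.Surjective (B x) := by
        intro x hx w
        obtain ⟨y, hy⟩ := D.onto x hx w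
        exact ⟨y, by rw [hB, hy]⟩
      have : Nonempty (Fin D.m) := ⟨⟨0, D.m_pos⟩⟩
      have : Nonempty (Fin D.n) := ⟨⟨0, D.n_pos⟩⟩
      exact ⟨D, (rigid_iff D B hB).2 ((miller_iff_rigid R hs).1 h3), hD⟩
    · rintro ⟨D, hR, hD⟩
      obtain ⟨B, hB⟩ := exists_lin D
      obtain ⟨R⟩ := (realises_iff D B hB G).1 hD
      have hs : ∀ x, x ≠ 0 → Function.Surjective (B x) := by
        intro x hx w
        obtain ⟨y, hy⟩ := D.onto x hx w
        exact ⟨y, by rw [hB, hy]⟩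
      have : Nonempty (Fin D.m) := ⟨⟨0, D.m_pos⟩⟩
      have : Nonempty (Fin D.n) := ⟨⟨0, D.n_pos⟩⟩
      exact ⟨R.isPGroup, R.isCamina hs, (miller_iff_rigid R hs).2 ((rigid_iff D B hB).1 hR)⟩
  · intro D
    obtain ⟨B, hB⟩ := exists_lin D
    have halt : ∀ x, B x x = 0 := fun x => by rw [hB, D.alt]
    refine ⟨Ext (coc (Pi.basisFun (ZMod p) (Fin D.m)) B D.π), inferInstance, inferInstance,
      (realises_iff D B hB _).2 ⟨realize _ B D.π halt ?_⟩⟩
    intro x y
    rw [D.pow, choose_swap B halt x y, hB]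
  · rintro D₁ D₂ G₁ G₂ _ _ hD₁ hD₂
    obtain ⟨B₁, hB₁⟩ := exists_lin D₁
    obtain ⟨R₁⟩ := (realises_iff D₁ B₁ hB₁ G₁).1 hD₁
    obtain ⟨B₂, hB₂⟩ := exists_lin D₂
    obtain ⟨R₂⟩ := (realises_iff D₂ B₂ hB₂ G₂).1 hD₂
    have hs₁ : ∀ x, x ≠ 0 → Function.Surjective (B₁ x) := by
      intro x hx w
      obtain ⟨y, hy⟩ := D₁.onto x hx w
      exact ⟨y, by rw [hB₁, hy]⟩
    have hs₂ : ∀ x, x ≠ 0 → Function.Surjective (B₂ x) := by
      intro x hx w
      obtain ⟨y, hy⟩ := D₂.onto x hx w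
      exact ⟨y, by rw [hB₂, hy]⟩
    have : Nonempty (Fin D₁.m) := ⟨⟨0, D₁.m_pos⟩⟩
    have : Nonempty (Fin D₂.m) := ⟨⟨0, D₂.m_pos⟩⟩
    rw [equivalent_iff D₁ D₂ B₁ hB₁ B₂ hB₂]
    exact iso_iff R₁ R₂ hs₁ hs₂

end Pool.Agent.Helper3.CM
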