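import Pool.Agent.Helper3.CM.RF5

open Polynomial

namespace Pool.Agent.Helper3.CM

namespace Two

/-- even half -/
noncomputable def ev (a : (ZMod 2)[X]) : (ZMod 2)[X] := contract 2 a

/-- odd half -/
noncomputable def od (a : (ZMod 2)[X]) : (ZMod 2)[X] := contract 2 (divX a)

theorem ev_coeff (a : (ZMod 2)[X]) (n : ℕ) : (ev a).coeff n = a.coeff (n * 2) := by
  unfold ev
  rw [coeff_contract two_ne_zero]

theorem od_coeff (a : (ZMod 2)[X]) (n : ℕ) : (od a).coeff n = a.coeff (n * 2 + 1) := by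
  unfold od
  rw [coeff_contract two_ne_zero, coeff_divX]

theorem ev_add (a b : (ZMod 2)[X]) : ev (a + b) = ev a + ev b := by
  ext n
  rw [coeff_add, ev_coeff, ev_coeff, ev_coeff, coeff_add]

theorem od_add (a b : (ZMod 2)[X]) : od (a + b) = od a + od b := by
  ext n
  rw [coeff_add, od_coeff, od_coeff, od_coeff, coeff_add]

theorem sq_coeff_even (g : (ZMod 2)[X]) (n : ℕ) : (g ^ 2).coeff (n * 2) = g.coeff n := by
  rw [← ZMod.expand_card g, coeff_expand two_pos, if_pos (Dvd.intro_left _ rfl),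
    Nat.mul_div_cancel _ two_pos]

theorem sq_coeff_odd (g : (ZMod 2)[X]) (n : ℕ) : (g ^ 2).coeff (n * 2 + 1) = 0 := by
  rw [← ZMod.expand_card g, coeff_expand two_pos, if_neg (by omega)]

theorem ev_sq (g : (ZMod 2)[X]) : ev (g ^ 2) = g := by
  ext n
  rw [ev_coeff, sq_coeff_even]

theorem od_sq (g : (ZMod 2)[X]) : od (g ^ 2) = 0 := by
  ext n
  rw [od_coeff, sq_coeff_odd, coeff_zero]

theorem ev_Xsq (g : (ZMod 2)[X]) : ev (X * g ^ 2) = 0 := by
  ext n
  rw [ev_coeff, coeff_zero]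
  cases n with
  | zero => rw [zero_mul, mul_coeff_zero, coeff_X_zero, zero_mul]
  | succ n =>
    have : (n + 1) * 2 = (n * 2 + 1) + 1 := by ring
    rw [this, coeff_X_mul, sq_coeff_odd]

theorem od_Xsq (g : (ZMod 2)[X]) : od (X * g ^ 2) = g := by
  ext n
  rw [od_coeff, coeff_X_mul, sq_coeff_even]

theorem decomp (a : (ZMod 2)[X]) : a = (ev a) ^ 2 + X * (od a) ^ 2 := by
  ext n
  rw [coeff_add]
  rcases Nat.even_or_odd' n with ⟨k, rfl | rfl⟩
  · rw [mul_comm 2 k, sq_coeff_even, ev_coeff]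
    cases k with
    | zero => rw [zero_mul, mul_coeff_zero, coeff_X_zero, zero_mul, add_zero]
    | succ k =>
      have : (k + 1) * 2 = (k * 2 + 1) + 1 := by ring
      rw [this, coeff_X_mul, sq_coeff_odd, add_zero]
  · rw [mul_comm 2 k, sq_coeff_odd, coeff_X_mul, sq_coeff_even, od_coeff, zero_add]

/-- the standing assumptions -/
structure Setup {V : Type*} [AddCommGroup V] [Module (ZMod 2) V]
    (B : V →ₗ[ZMod 2] V →ₗ[ZMod 2] (Fin 2 → ZMod 2)) (M : Module.End (ZMod 2) V)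
    (π : V → (Fin 2 → ZMod 2)) : Prop where
  alt : ∀ x, B x x = 0
  onto : ∀ x, x ≠ 0 → Function.Surjective (B x)
  hM : ∀ x y, B (M x) y 0 = B x y 1
  adj : ∀ x y, B (M x) y = B x (M y)
  self : ∀ x, B (M x) x = 0
  noeig : ∀ (s : ZMod 2) x, M x = s • x → x = 0
  dual : ∀ φ : V →ₗ[ZMod 2] ZMod 2, ∃ a, ∀ x, B a x 0 = φ x
  quad : ∀ x y, π (x + y) = π x + π y + B x y
  rig : ∀ g : V ≃ₗ[ZMod 2] V, (∀ x y, B (g x) (g y) = B x y) → (∀ x, π (g x) = π x) →
    ∀ x, g x = x

variable {V : Type*} [AddCommGroup V] [Module (ZMod 2) V]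
  {B : V →ₗ[ZMod 2] V →ₗ[ZMod 2] (Fin 2 → ZMod 2)} {M : Module.End (ZMod 2) V}
  {π : V → (Fin 2 → ZMod 2)}

/-- the functional of `x` -/
noncomputable def Lam (M : Module.End (ZMod 2) V) (π : V → (Fin 2 → ZMod 2)) (x : V)
    (a : (ZMod 2)[X]) : ZMod 2 := π (aeval M (ev a) x) 0 + π (aeval M (od a) x) 1

namespace Setup

theorem neg (S : Setup B M π) (x y : V) : B x y = - B y x := neg_of_alt S.alt x y

theorem symm (S : Setup B M π) (x y : V) : B x y = B y x := by
  rw [S.neg]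
  ext k
  rw [Pi.neg_apply]
  exact ZMod.neg_eq_self_mod_two _

theorem pi_zero (S : Setup B M π) : π 0 = 0 := by
  have h := S.quad 0 0
  rw [add_zero, S.alt, add_zero] at h
  exact left_eq_add.1 h

theorem nd (S : Setup B M π) {x : V} (h : ∀ y, B x y 0 = 0) : x = 0 := by
  by_contra hne
  obtain ⟨y, hy⟩ := S.onto x hne (fun _ => 1)
  have := h y
  rw [hy] at this
  exact one_ne_zero this

theorem polyadj (S : Setup B M π) (q : (ZMod 2)[X]) (x y : V) :
    B (aeval M q x) y = B x (aeval M q y) := adj_poly S.adj q x y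

theorem polyself (S : Setup B M π) (q : (ZMod 2)[X]) (x : V) : B (aeval M q x) x = 0 :=
  self_poly S.alt S.adj S.self q x

theorem polyself2 (S : Setup B M π) (q r : (ZMod 2)[X]) (x : V) :
    B (aeval M q x) (aeval M r x) = 0 := by
  rw [← S.polyadj, ← Module.End.mul_apply, ← map_mul]
  exact S.polyself _ _

theorem Lam_add (S : Setup B M π) (x : V) (a b : (ZMod 2)[X]) :
    Lam M π x (a + b) = Lam M π x a + Lam M π x b := by
  unfold Lam
  rw [ev_add, od_add, map_add, map_add, LinearMap.add_apply, LinearMap.add_apply, S.quad, S.quad,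
    S.polyself2, S.polyself2, add_zero, add_zero, Pi.add_apply, Pi.add_apply]
  ring

theorem Lam_sq (S : Setup B M π) (x : V) (g : (ZMod 2)[X]) :
    Lam M π x (g ^ 2) = π (aeval M g x) 0 := by
  unfold Lam
  rw [ev_sq, od_sq, map_zero, LinearMap.zero_apply, S.pi_zero, Pi.zero_apply, add_zero]

theorem Lam_Xsq (S : Setup B M π) (x : V) (g : (ZMod 2)[X]) :
    Lam M π x (X * g ^ 2) = π (aeval M g x) 1 := by
  unfold Lam
  rw [ev_Xsq, od_Xsq, map_zero, LinearMap.zero_apply, S.pi_zero, Pi.zero_apply, zero_add]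

theorem Lam_smul (S : Setup B M π) (x : V) (c a : (ZMod 2)[X]) :
    Lam M π (aeval M c x) a = Lam M π x (c ^ 2 * a) := by
  have e : c ^ 2 * a = (c * ev a) ^ 2 + X * (c * od a) ^ 2 := by
    conv_lhs => rw [decomp a]
    ring
  rw [e, S.Lam_add, S.Lam_sq, S.Lam_Xsq]
  unfold Lam
  rw [← Module.End.mul_apply, ← Module.End.mul_apply, ← map_mul, ← map_mul, mul_comm c, mul_comm c]

theorem Lam_add_left (S : Setup B M π) (x y : V) (a : (ZMod 2)[X]) :
    Lam M π (x + y) a = Lam M π x a + Lam M π y a + B (aeval M a x) y 0 := by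
  have e : B (aeval M a x) y 0 = B (aeval M (ev a) x) (aeval M (ev a) y) 0 +
      B (aeval M (od a) x) (aeval M (od a) y) 1 := by
    have e1 : B (aeval M (ev a) x) (aeval M (ev a) y) 0 = B (aeval M ((ev a) ^ 2) x) y 0 := by
      rw [← S.polyadj, ← Module.End.mul_apply, ← map_mul, pow_two]
    have e2 : B (aeval M (od a) x) (aeval M (od a) y) 1 =
        B (aeval M (X * (od a) ^ 2) x) y 0 := by
      rw [← S.polyadj, ← S.hM, ← Module.End.mul_apply, pow_two, map_mul, map_mul, aeval_X,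
        Module.End.mul_apply]
      rfl
    rw [e1, e2, ← Pi.add_apply, ← LinearMap.add_apply, ← map_add, ← LinearMap.add_apply, ← map_add,
      ← decomp]
  rw [e]
  unfold Lam
  rw [map_add, map_add, S.quad, S.quad]
  simp only [Pi.add_apply]
  ring

theorem Lam_zero (S : Setup B M π) (a : (ZMod 2)[X]) : Lam M π 0 a = 0 := by
  unfold Lam
  rw [map_zero, map_zero, S.pi_zero]
  simp

/-- `Lam` as a linear map -/
noncomputable def LamL (S : Setup B M π) (x : V) : (ZMod 2)[X] →ₗ[ZMod 2] ZMod 2 :=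
  (AddMonoidHom.mk' (Lam M π x) (S.Lam_add x)).toZModLinearMap 2

theorem LamL_apply (S : Setup B M π) (x : V) (a : (ZMod 2)[X]) : S.LamL x a = Lam M π x a := rfl

end Setup

/-- functionals killed by `f` come from the residue form -/
theorem torsion (P : Pair 2) (L : (ZMod 2)[X] →ₗ[ZMod 2] ZMod 2) (hL : ∀ d, L (P.f * d) = 0) :
    ∃ u : P.R, ∀ d, L d = P.res (u * AdjoinRoot.mk P.f d) := by
  refine ⟨P.dualEquiv.symm (L.comp (AdjoinRoot.modByMonicHom P.monic)), fun d => ?_⟩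
  rw [← Pair.dualEquiv_apply, LinearEquiv.apply_symm_apply]
  change L d = L (d %ₘ P.f)
  conv_lhs => rw [← modByMonic_add_div d P.f]
  rw [map_add, hL, add_zero]

end Two

end Pool.Agent.Helper3.CM
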