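import Pool.Agent.Helper3.CM.Exist2

namespace Pool.Agent.Helper3.CM

namespace Two

variable {K : Type*} [Field K] [Finite K] [Algebra (ZMod 2) K] [CharP K 2]

/-- The power map, `p = 2`. -/
noncomputable def pw2 {n : ℕ} (c : Fin n → K) (a₁ a₂ : K →ₗ[ZMod 2] K) (x : K × K) :
    Fin n → ZMod 2 :=
  fun i => Algebra.trace (ZMod 2) K (c i * (x.1 * x.2)) +
    Algebra.trace (ZMod 2) K (om (a₁ (c i), a₂ (c i)) x)

omit [Finite K] in
theorem pw2_add {n : ℕ} (c : Fin n → K) (a₁ a₂ : K →ₗ[ZMod 2] K) (x y : K × K) :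
    pw2 c a₁ a₂ (x + y) = pw2 c a₁ a₂ x + pw2 c a₁ a₂ y + BB (p := 2) c x y := by
  ext i
  simp only [pw2, Pi.add_apply, BB_apply]
  have e1 : c i * ((x + y).1 * (x + y).2) = c i * (x.1 * x.2) + c i * (y.1 * y.2) +
      c i * om x y := by
    simp only [om, Prod.fst_add, Prod.snd_add]
    have : (2 : K) = 0 := CharTwo.two_eq_zero
    linear_combination (c i * x.2 * y.1) * this
  have e2 : om (a₁ (c i), a₂ (c i)) (x + y) = om (a₁ (c i), a₂ (c i)) x +
      om (a₁ (c i), a₂ (c i)) y := by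
    simp only [om, Prod.fst_add, Prod.snd_add]; ring
  rw [e1, e2, map_add, map_add, map_add]
  ring

/-- Main identities, `p = 2`. -/
theorem main_ident2 {n : ℕ} (c : Fin n → K) (i₀ i₁ : Fin n) (hc0 : c i₀ ≠ 0)
    (hadj : Algebra.adjoin (ZMod 2) {c i₁ / c i₀} = ⊤)
    (a₁ a₂ : K →ₗ[ZMod 2] K) (g : (K × K) ≃ₗ[ZMod 2] (K × K))
    (h : (Fin n → ZMod 2) ≃ₗ[ZMod 2] (Fin n → ZMod 2))
    (hB : ∀ x y, BB (p := 2) c (g x) (g y) = h (BB (p := 2) c x y))
    (hπ : ∀ x, pw2 c a₁ a₂ (g x) = h (pw2 c a₁ a₂ x)) :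
    ∃ (s : K ≃+* K) (c' : Fin n → K) (u v : K × K),
      (∀ i, c' i ∈ Submodule.span (ZMod 2) (Set.range c)) ∧
      (∀ x : K × K, g x = s x.1 • u + s x.2 • v) ∧ om u v ≠ 0 ∧
      (∀ i, s (c' i) = c i * om u v) ∧
      (∀ i, c i * (v.1 * v.2) + (a₁ (c i) * v.2 - a₂ (c i) * v.1) ^ 2 = (s (a₁ (c' i))) ^ 2) ∧
      (∀ i, c i * (u.1 * u.2) + (a₁ (c i) * u.2 - a₂ (c i) * u.1) ^ 2 = (s (a₂ (c' i))) ^ 2) := by
  have htwo : (2 : K) = 0 := CharTwo.two_eq_zero
  obtain ⟨c', hc', hL⟩ := exists_transpose c (h : (Fin n → ZMod 2) →ₗ[ZMod 2] (Fin n → ZMod 2))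
  have hg : ∀ x y i, Algebra.trace (ZMod 2) K (c i * om (g x) (g y)) =
      Algebra.trace (ZMod 2) K (c' i * om x y) := by
    intro x y i
    have h1 := congrFun (hB x y) i
    rw [BB_apply] at h1
    rw [h1]
    exact hL ((Algebra.trace (ZMod 2) K).comp (LinearMap.mulRight (ZMod 2) (om x y))) i
  obtain ⟨s, hs⟩ := semilinear c i₀ i₁ hc0 hadj c' g hg
  set u := g (1, 0) with hu
  set v := g (0, 1) with hv
  have hgx : ∀ x : K × K, g x = s x.1 • u + s x.2 • v := by
    intro x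
    have : x = x.1 • ((1, 0) : K × K) + x.2 • ((0, 1) : K × K) := by
      ext <;> simp
    conv_lhs => rw [this]
    rw [map_add, hs, hs]
  have hom1 : ∀ (z w : K) x y, om (z • x) (w • y) = z * w * om x y := by
    intro z w x y
    simp only [om, Prod.smul_fst, Prod.smul_snd, smul_eq_mul]; ring
  have hom0 : om ((1, 0) : K × K) (0, 1) = 1 := by simp [om]
  have hsc : ∀ i, s (c' i) = c i * om u v := by
    intro i
    apply tr_ext (p := 2)
    intro w
    obtain ⟨z, rfl⟩ := s.surjective w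
    rw [← map_mul, tr_inv]
    have h1 := hg (z • (1, 0)) (0, 1) i
    have h2 := hom1 z 1 ((1, 0) : K × K) (0, 1)
    rw [one_smul, mul_one, hom0, mul_one] at h2
    rw [h2, hs] at h1
    have h3 := hom1 (s z) 1 u v
    rw [one_smul, mul_one] at h3
    rw [← hu, ← hv, h3] at h1
    rw [← h1]
    congr 1; ring
  have hne : om u v ≠ 0 := by
    intro h0
    have h1 := hsc i₀
    rw [h0, mul_zero, map_eq_zero_iff s s.injective] at h1
    apply hc0
    apply tr_nondeg (p := 2)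
    intro w
    have hne : ((1, 0) : K × K) ≠ 0 := by
      intro h
      exact one_ne_zero (congrArg Prod.fst h)
    have hgne : g (1, 0) ≠ 0 := fun h => hne (g.injective (h.trans (map_zero g).symm))
    obtain ⟨y, hy⟩ := om_surj hgne w
    have h2 := hg (1, 0) (g.symm y) i₀
    rw [LinearEquiv.apply_symm_apply, hy, h1, zero_mul, map_zero] at h2
    exact h2
  have hpi : ∀ x i, Algebra.trace (ZMod 2) K (c i * ((g x).1 * (g x).2)) +
      Algebra.trace (ZMod 2) K (om (a₁ (c i), a₂ (c i)) (g x)) =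
      Algebra.trace (ZMod 2) K (c' i * (x.1 * x.2)) +
      Algebra.trace (ZMod 2) K (om (a₁ (c' i), a₂ (c' i)) x) := by
    intro x i
    have h1 := congrFun (hπ x) i
    refine h1.trans ?_
    let L : K →ₗ[ZMod 2] ZMod 2 := (Algebra.trace (ZMod 2) K).comp
        (LinearMap.mulRight (ZMod 2) (x.1 * x.2)) + (Algebra.trace (ZMod 2) K).comp
      ((LinearMap.mulRight (ZMod 2) x.2).comp a₁ - (LinearMap.mulRight (ZMod 2) x.1).comp a₂)
    exact hL L i
  have trsq : ∀ z : K, Algebra.trace (ZMod 2) K (z ^ 2) = Algebra.trace (ZMod 2) K z := by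
    intro z
    have := tr_inv (p := 2) (frob (p := 2) (K := K)).toRingEquiv z
    rw [← this]
    congr 1
  refine ⟨s, c', u, v, hc', hgx, hne, hsc, ?_, ?_⟩
  · intro i
    apply tr_ext (p := 2)
    intro w
    obtain ⟨z₀, rfl⟩ := s.surjective w
    obtain ⟨z, rfl⟩ : ∃ z, z ^ 2 = z₀ := by
      refine ⟨(frob (p := 2) (K := K)).symm z₀, ?_⟩
      rw [← frob_apply (p := 2)]
      exact AlgEquiv.apply_symm_apply _ _
    have h1 := hpi (0, z) i
    rw [hgx] at h1
    simp only [map_zero, zero_smul, zero_add, zero_mul, mul_zero] at h1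
    have e1 : om (a₁ (c i), a₂ (c i)) (s z • v) = (a₁ (c i) * v.2 - a₂ (c i) * v.1) * s z := by
      simp only [om, Prod.smul_fst, Prod.smul_snd, smul_eq_mul]; ring
    have e2 : om (a₁ (c' i), a₂ (c' i)) (0, z) = a₁ (c' i) * z := by
      simp only [om]; ring
    rw [e1, e2, ← trsq ((a₁ (c i) * v.2 - a₂ (c i) * v.1) * s z), ← map_add] at h1
    have e3 : (c i * (v.1 * v.2) + (a₁ (c i) * v.2 - a₂ (c i) * v.1) ^ 2) * s (z ^ 2) =
        c i * ((s z • v).1 * (s z • v).2) + ((a₁ (c i) * v.2 - a₂ (c i) * v.1) * s z) ^ 2 := by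
      rw [map_pow, Prod.smul_fst, Prod.smul_snd, smul_eq_mul, smul_eq_mul]
      ring
    have e4 : s (a₁ (c' i)) ^ 2 * s (z ^ 2) = s ((a₁ (c' i) * z) ^ 2) := by
      rw [map_pow, map_pow, map_mul]; ring
    rw [e3, h1, e4, tr_inv, trsq]
  · intro i
    apply tr_ext (p := 2)
    intro w
    obtain ⟨z₀, rfl⟩ := s.surjective w
    obtain ⟨z, rfl⟩ : ∃ z, z ^ 2 = z₀ := by
      refine ⟨(frob (p := 2) (K := K)).symm z₀, ?_⟩
      rw [← frob_apply (p := 2)]
      exact AlgEquiv.apply_symm_apply _ _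
    have h1 := hpi (z, 0) i
    rw [hgx] at h1
    simp only [map_zero, zero_smul, add_zero, zero_mul, mul_zero, zero_add] at h1
    have e1 : om (a₁ (c i), a₂ (c i)) (s z • u) = (a₁ (c i) * u.2 - a₂ (c i) * u.1) * s z := by
      simp only [om, Prod.smul_fst, Prod.smul_snd, smul_eq_mul]; ring
    have e2 : om (a₁ (c' i), a₂ (c' i)) (z, 0) = a₂ (c' i) * z := by
      simp only [om]
      linear_combination (- (a₂ (c' i) * z)) * htwo
    rw [e1, e2, ← trsq ((a₁ (c i) * u.2 - a₂ (c i) * u.1) * s z), ← map_add] at h1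
    have e3 : (c i * (u.1 * u.2) + (a₁ (c i) * u.2 - a₂ (c i) * u.1) ^ 2) * s (z ^ 2) =
        c i * ((s z • u).1 * (s z • u).2) + ((a₁ (c i) * u.2 - a₂ (c i) * u.1) * s z) ^ 2 := by
      rw [map_pow, Prod.smul_fst, Prod.smul_snd, smul_eq_mul, smul_eq_mul]
      ring
    have e4 : s (a₂ (c' i)) ^ 2 * s (z ^ 2) = s ((a₂ (c' i) * z) ^ 2) := by
      rw [map_pow, map_pow, map_mul]; ring
    rw [e3, h1, e4, tr_inv, trsq]

theorem sq_inj_field {x y : K} (h : x ^ 2 = y ^ 2) : x = y := by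
  have h1 : frobenius K 2 x = frobenius K 2 y := by
    rw [frobenius_def, frobenius_def, h]
  exact frobenius_inj K 2 h1

theorem rigid_ge3_two (b : Module.Basis (K ≃ₐ[ZMod 2] K) (ZMod 2) K) (hb : ∀ τ, b τ = τ (b 1))
    (n : ℕ) (hn : 3 ≤ n) (hnk : n ≤ Module.finrank (ZMod 2) K) :
    Rigid (BB (p := 2) (cc b n)) (pw2 (cc b n)
      ((LinearMap.mulLeft (ZMod 2) (b 1)).comp (frob (p := 2) (K := K)).symm.toLinearMap +
        LinearMap.id)
      (frob (p := 2) (K := K)).toLinearMap) := by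
  intro g h hB hπ
  have htwo : (2 : K) = 0 := CharTwo.two_eq_zero
  have hβ : b 1 ≠ 0 := b.ne_zero 1
  have hind := cc_indep b hb n hnk
  have hc0 : cc b n ⟨0, by omega⟩ = b 1 := by simp [cc]
  have hc1 : cc b n ⟨1, by omega⟩ = b 1 ^ 2 := by simp [cc]
  have hrsq : ∀ z : K, (frob (p := 2) (K := K)).symm z ^ 2 = z := by
    intro z
    rw [← frob_apply (p := 2)]
    exact AlgEquiv.apply_symm_apply _ _
  obtain ⟨s, c', u, v, -, hg, hδ, hsc, h1, h2⟩ := main_ident2 (cc b n) ⟨0, by omega⟩ ⟨1, by omega⟩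
    (by rw [hc0]; exact hβ) (by rw [hc0, hc1]; exact normal_gen b hb) _ _ g h hB hπ
  set δ := om u v with hδdef
  have P1 := lin_poly (cc b n) hind 2 (by omega)
    (fun j => if j = 0 then v.1 * v.2 + b 1 ^ 2 * v.2 ^ 2 + s (b 1) ^ 2 * δ else
      if j = 1 then v.2 ^ 2 + δ ^ 2 else v.1 ^ 2) (by
      intro i
      have e := h1 i
      simp only [LinearMap.add_apply, LinearMap.id_apply, AlgEquiv.toLinearMap_apply,
        LinearMap.comp_apply, LinearMap.mulLeft_apply, frob_apply, map_add, map_mul] at e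
      simp only [Finset.sum_range_succ, Finset.sum_range_zero, zero_add]
      simp only [if_true, one_ne_zero, if_false, pow_zero, pow_one, two_ne_zero,
        OfNat.ofNat_ne_one]
      have e5 : s ((frob (p := 2) (K := K)).symm (c' i)) ^ 2 = cc b n i * δ := by
        rw [← map_pow, hrsq, hsc]
      rw [hsc] at e
      have e6 := hrsq (cc b n i)
      linear_combination e + s (b 1) ^ 2 * e5 - b 1 ^ 2 * v.2 ^ 2 * e6 +
        ((s (b 1) * s ((frob (p := 2) (K := K)).symm (c' i)) + cc b n i * δ) *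
          (0) + s (b 1) ^ 2 * δ * cc b n i + δ ^ 2 * cc b n i ^ 2
          + s (b 1) * s ((frob (p := 2) (K := K)).symm (c' i)) * (cc b n i * δ)
          - b 1 * (frob (p := 2) (K := K)).symm (cc b n i) * cc b n i * v.2 ^ 2
          + (b 1 * (frob (p := 2) (K := K)).symm (cc b n i) + cc b n i) * v.2 * (cc b n i ^ 2 * v.1))
          * htwo)
  have P2 := lin_poly (cc b n) hind 2 (by omega)
    (fun j => if j = 0 then u.1 * u.2 + b 1 ^ 2 * u.2 ^ 2 else
      if j = 1 then u.2 ^ 2 else u.1 ^ 2 + δ ^ 4) (by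
      intro i
      have e := h2 i
      simp only [LinearMap.add_apply, LinearMap.id_apply, AlgEquiv.toLinearMap_apply,
        LinearMap.comp_apply, LinearMap.mulLeft_apply, frob_apply, map_pow] at e
      simp only [Finset.sum_range_succ, Finset.sum_range_zero, zero_add]
      simp only [if_true, one_ne_zero, if_false, pow_zero, pow_one, two_ne_zero,
        OfNat.ofNat_ne_one]
      rw [hsc] at e
      have e6 := hrsq (cc b n i)
      linear_combination e - b 1 ^ 2 * u.2 ^ 2 * e6 +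
        (- (b 1 * (frob (p := 2) (K := K)).symm (cc b n i) * cc b n i * u.2 ^ 2) +
        (b 1 * (frob (p := 2) (K := K)).symm (cc b n i) + cc b n i) * u.2 * (cc b n i ^ 2 * u.1) +
        cc b n i ^ 4 * δ ^ 4) * htwo)
  have p10 := P1 0 (by omega)
  have p11 := P1 1 (by omega)
  have p12 := P1 2 (by omega)
  have p21 := P2 1 (by omega)
  have p22 := P2 2 (by omega)
  simp only [if_true, one_ne_zero, if_false, two_ne_zero, OfNat.ofNat_ne_one] at p10 p11 p12 p21 p22
  have v1 : v.1 = 0 := (pow_eq_zero_iff two_ne_zero).1 p12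
  have v2 : v.2 = δ := sq_inj_field (by linear_combination p11 - δ ^ 2 * htwo)
  have u2 : u.2 = 0 := (pow_eq_zero_iff two_ne_zero).1 p21
  have u1 : u.1 = δ ^ 2 := sq_inj_field (by linear_combination p22 - δ ^ 4 * htwo)
  have hd : δ = 1 := by
    apply delta_one (p := 2) hδ
    have : δ = u.1 * v.2 - u.2 * v.1 := hδdef
    rw [v1, v2, u1, u2] at this
    linear_combination -this
  rw [hd] at v2 u1
  rw [one_pow] at u1
  rw [v1, v2, hd] at p10
  have hs1 : s (b 1) = b 1 := sq_inj_field (by linear_combination p10 - b 1 ^ 2 * htwo)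
  intro x
  rw [hg, s_id b hb s hs1, s_id b hb s hs1]
  ext
  · simp [u1, v1]
  · simp [u2, v2]

end Two

end Pool.Agent.Helper3.CM
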