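import Pool.Agent.Helper3.CM.T9
import Pool.Agent.Helper3.CM.T10
import Pool.Agent.Helper3.CM.Odd

open Polynomial

namespace Pool.Agent.Helper3.CM

namespace Two

theorem necessary_two {m n : ℕ} {G : Type} [Group G] [Finite G]
    (h1 : IsPGroup 2 G) (h2 : IsCamina G) (h3 : IsMiller G)
    (hm : (commutator G).index = 2 ^ m) (hn : Nat.card (commutator G) = 2 ^ n) :
    Even m ∧ 6 ≤ m ∧ 2 ≤ n ∧ 2 * n ≤ m ∧ (n = 2 → 10 ≤ m) := by
  obtain ⟨m', n', B, π, hm0, hn0, hs, ⟨R⟩⟩ := exists_real h1 h2 h3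
  have : Nonempty (Fin m') := ⟨⟨0, hm0⟩⟩
  have : Nonempty (Fin n') := ⟨⟨0, hn0⟩⟩
  have em : m' = m := by
    have := R.index_V hs
    rw [hm, Nat.card_eq_fintype_card, Fintype.card_fun, ZMod.card, Fintype.card_fin] at this
    exact (Nat.pow_right_injective le_rfl this).symm
  have en : n' = n := by
    have := R.card_W hs
    rw [hn, Nat.card_eq_fintype_card, Fintype.card_fun, ZMod.card, Fintype.card_fin] at this
    exact (Nat.pow_right_injective le_rfl this).symm
  subst em en
  have hR : Rigid B π := (miller_iff_rigid R hs).1 h3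
  obtain ⟨he, hb⟩ := bound hm0 hn0 B R.B_self hs
  have hn1 : n' ≠ 1 := by
    rintro rfl
    refine not_rigid_one_two B R.B_self hs π ?_ hR
    intro x y
    have e : B y x = B x y := by
      rw [neg_of_alt R.B_self]
      ext k
      exact ZMod.neg_eq_self_mod_two _
    rw [R.π_add, e]
    congr 1
    rw [Nat.choose_self, one_smul]
  have h10 : n' = 2 → 10 ≤ m' := by
    rintro rfl
    obtain ⟨f, hf, hfree, hG⟩ := (classification2.1 G).1 ⟨h1, h2, h3, hn⟩
    obtain ⟨R'⟩ := (realises2_iff hf G).1 hG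
    have := (pairOf f hf).nontrivial_R
    have hidx := R'.index_V (pairOf f hf).BR_surj
    have : Module.Finite (ZMod 2) (pairOf f hf).R := Module.Finite.of_basis (pairOf f hf).bas
    rw [hm, Nat.card_prod, Module.natCard_eq_pow_finrank (K := ZMod 2) (V := (pairOf f hf).R),
      Module.finrank_eq_card_basis (pairOf f hf).bas, Fintype.card_fin, Nat.card_eq_fintype_card,
      ZMod.card, ← pow_add] at hidx
    have hmk : m' = (pairOf f hf).k + (pairOf f hf).k := Nat.pow_right_injective le_rfl hidx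
    have hk : (pairOf f hf).k = f.natDegree := rfl
    by_contra hlt
    obtain ⟨a, b, c, d, h, hne⟩ := small f hf (by omega)
    exact hne (hfree a b c d h)
  obtain ⟨k, hk⟩ := he
  refine ⟨⟨k, hk⟩, ?_, by omega, hb, h10⟩
  by_cases h2 : n' = 2
  · have := h10 h2
    omega
  · omega

theorem sufficient_two {m n : ℕ} (h1 : Even m) (h2 : 6 ≤ m) (h3 : 2 ≤ n)
    (h4 : 2 * n ≤ m) (h5 : n = 2 → 10 ≤ m) :
    ∃ (G : Type) (_ : Group G) (_ : Finite G), IsPGroup 2 G ∧ IsCamina G ∧ IsMiller G ∧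
      (commutator G).index = 2 ^ m ∧ Nat.card (commutator G) = 2 ^ n := by
  obtain ⟨k, hk⟩ := h1
  by_cases hn : n = 2
  · subst hn
    obtain ⟨f, hf, hd, hfree⟩ := exists_free k (by have := h5 rfl; omega)
    obtain ⟨G, iG, hG, hc⟩ := classification2.2.1 f hf
    have hfin : Finite G := by
      apply Nat.finite_of_card_ne_zero
      rw [hc]
      positivity
    obtain ⟨g1, g2, g3, g4⟩ := (classification2.1 G).2 ⟨f, hf, hfree, hG⟩
    refine ⟨G, iG, hfin, g1, g2, g3, ?_, g4⟩
    have h6 := Subgroup.card_mul_index (commutator G)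
    rw [g4, hc, hd, pow_add, mul_comm (2 ^ (2 * k))] at h6
    have h7 : (commutator G).index = 2 ^ (2 * k) := Nat.eq_of_mul_eq_mul_left (by norm_num) h6
    rw [h7, hk, two_mul]
  · let K := GaloisField 2 k
    have hfin : Module.finrank (ZMod 2) K = k := GaloisField.finrank 2 (by omega)
    have hF : Finite K := by
      apply Nat.finite_of_card_ne_zero
      rw [GaloisField.card 2 k (by omega)]
      exact pow_ne_zero _ (by omega)
    obtain ⟨b, hb⟩ := exists_normal (p := 2) (K := K)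
    refine exists_group (by omega) (by omega) (BB (p := 2) (cc b n)) (BB_self _)
      (BB_surj _ (cc_indep b hb n (by omega))) _ ?_ (rigid_ge3_two b hb n (by omega) (by omega))
    intro x y
    rw [pw2_add]
    congr 1
    rw [Nat.choose_self, one_smul, neg_of_alt (BB_self _)]
    ext i
    exact ZMod.neg_eq_self_mod_two _

end Two

theorem spectrum {p : ℕ} [Fact p.Prime] (m n : ℕ) :
    (∃ (G : Type) (_ : Group G) (_ : Finite G), IsPGroup p G ∧ IsCamina G ∧ IsMiller G ∧
      (commutator G).index = p ^ m ∧ Nat.card (commutator G) = p ^ n) ↔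
    (Even m ∧ 6 ≤ m ∧ 2 ≤ n ∧ 2 * n ≤ m ∧ (p = 2 → n = 2 → 10 ≤ m)) := by
  by_cases hp : p = 2
  · subst hp
    constructor
    · rintro ⟨G, _, _, h1, h2, h3, h4, h5⟩
      obtain ⟨a, b, c, d, e⟩ := Two.necessary_two h1 h2 h3 h4 h5
      exact ⟨a, b, c, d, fun _ => e⟩
    · rintro ⟨h1, h2, h3, h4, h5⟩
      exact Two.sufficient_two h1 h2 h3 h4 (h5 rfl)
  · rw [spectrum_odd hp]
    constructor
    · rintro ⟨a, b, c, d⟩
      exact ⟨a, b, c, d, fun h => absurd h hp⟩
    · rintro ⟨a, b, c, d, _⟩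
      exact ⟨a, b, c, d⟩

end Pool.Agent.Helper3.CM
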