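import Pool.Agent.Helper3.CM.T1

open Polynomial

namespace Pool.Agent.Helper3.CM

namespace Two

variable {V : Type*} [AddCommGroup V] [Module (ZMod 2) V]
  {B : V →ₗ[ZMod 2] V →ₗ[ZMod 2] (Fin 2 → ZMod 2)} {M : Module.End (ZMod 2) V}
  {π : V → (Fin 2 → ZMod 2)}

theorem mk_sub_modByMonic {q : (ZMod 2)[X]} (g : (ZMod 2)[X]) :
    AdjoinRoot.mk q (g %ₘ q) = AdjoinRoot.mk q g := by
  rw [AdjoinRoot.mk_eq_mk, modByMonic_eq_sub_mul_div, sub_sub_cancel_left]
  exact (dvd_mul_right _ _).neg_right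

/-- The reflection argument. -/
theorem reflection (S : Setup B M π) (P : Pair 2) {b : V}
    (hann : ∀ g, aeval M g b = 0 ↔ P.f ∣ g) (u w : P.R) (huw : u * w = 1)
    (hΛ : ∀ d, Lam M π b d = P.res (u * AdjoinRoot.mk P.f d)) : False := by
  classical
  let Ψ : P.R →ₗ[ZMod 2] V := ((LinearMap.applyₗ b).comp
    (aeval M : (ZMod 2)[X] →ₐ[ZMod 2] _).toLinearMap).comp (AdjoinRoot.modByMonicHom P.monic)
  have hΨ : ∀ g : (ZMod 2)[X], Ψ (AdjoinRoot.mk P.f g) = aeval M g b := by
    intro g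
    change aeval M (g %ₘ P.f) b = _
    apply aeval_modByMonic ((hann P.f).2 dvd_rfl)
    exact mk_sub_modByMonic g
  let ω : V →ₗ[ZMod 2] P.R := P.dualEquiv.symm.toLinearMap.comp (Ψ.dualMap.comp (cB B 0).flip)
  have hω : ∀ x w, P.res (ω x * w) = B (Ψ w) x 0 := by
    intro x w
    rw [← Pair.dualEquiv_apply]
    have : P.dualEquiv (ω x) = Ψ.dualMap ((cB B 0).flip x) := LinearEquiv.apply_symm_apply _ _
    rw [this]
    rfl
  have hΨt : ∀ w, Ψ (P.t * w) = M (Ψ w) := by
    intro w
    obtain ⟨g, rfl⟩ := AdjoinRoot.mk_surjective w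
    have e : P.t * AdjoinRoot.mk P.f g = AdjoinRoot.mk P.f (X * g) := by
      rw [map_mul]; rfl
    rw [e, hΨ, hΨ, map_mul, aeval_X, Module.End.mul_apply]
  have hΨΨ : ∀ w w', B (Ψ w) (Ψ w') = 0 := by
    intro w w'
    obtain ⟨g, rfl⟩ := AdjoinRoot.mk_surjective w
    obtain ⟨g', rfl⟩ := AdjoinRoot.mk_surjective w'
    rw [hΨ, hΨ]
    exact S.polyself2 _ _ _
  have hωM : ∀ x, ω (M x) = P.t * ω x := by
    intro x
    apply P.res_ext
    intro w
    rw [hω, mul_comm P.t, mul_assoc, hω, hΨt, ← S.adj]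
  have hωΨ : ∀ w, ω (Ψ w) = 0 := by
    intro w
    apply P.res_ext
    intro w'
    rw [hω, hΨΨ, zero_mul, map_zero]; rfl
  let N : V →ₗ[ZMod 2] V := Ψ.comp ((LinearMap.mulLeft (ZMod 2) w).comp ω)
  have hN : ∀ x, N x = Ψ (w * ω x) := fun x => rfl
  have hNN : ∀ x, N (N x) = 0 := by
    intro x
    rw [hN, hN, hωΨ, mul_zero, map_zero]
  have hNM : ∀ x, N (M x) = M (N x) := by
    intro x
    rw [hN, hN, hωM, ← hΨt]
    congr 1
    ring
  let T : V ≃ₗ[ZMod 2] V := LinearEquiv.ofLinearMap (LinearMap.id + N) (LinearMap.id - N)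
    (by
      ext x
      simp only [LinearMap.comp_apply, LinearMap.add_apply, LinearMap.sub_apply, LinearMap.id_apply,
        map_sub, hNN]
      abel)
    (by
      ext x
      simp only [LinearMap.comp_apply, LinearMap.add_apply, LinearMap.sub_apply, LinearMap.id_apply,
        map_add, hNN]
      abel)
  have hT : ∀ x, T x = x + N x := fun x => rfl
  have hiso0 : ∀ x y, B (T x) (T y) 0 = B x y 0 := by
    intro x y
    have f1 : B (N x) y 0 = P.res (w * ω x * ω y) := by rw [hN, ← hω, mul_comm]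
    have f2 : B x (N y) 0 = - P.res (w * ω x * ω y) := by
      rw [S.neg, Pi.neg_apply, hN, ← hω]
      congr 2
      ring
    have f3 : B (N x) (N y) 0 = 0 := by rw [hN, hN, hΨΨ]; rfl
    rw [hT, hT, map_add, map_add, LinearMap.add_apply, LinearMap.add_apply, Pi.add_apply,
      Pi.add_apply, Pi.add_apply, f1, f2, f3]
    ring
  have hiso : ∀ x y, B (T x) (T y) = B x y := by
    intro x y
    ext k
    fin_cases k
    · exact hiso0 x y
    · change B (T x) (T y) 1 = B x y 1
      have e : M (T x) = T (M x) := by rw [hT, hT, map_add, hNM]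
      rw [← S.hM, e, hiso0, S.hM]
  have hpi : ∀ x, π (T x) = π x := by
    intro x
    obtain ⟨g, hg⟩ := AdjoinRoot.mk_surjective (w * ω x)
    have eN : N x = aeval M g b := by rw [hN, ← hg]; exact hΨ g
    have hmk2 : AdjoinRoot.mk P.f (g ^ 2) = (w * ω x) * (w * ω x) := by
      rw [pow_two, map_mul, hg]
    have hmk3 : AdjoinRoot.mk P.f (X * g ^ 2) = P.t * ((w * ω x) * (w * ω x)) := by
      rw [map_mul, hmk2]; rfl
    have c0 : π (N x) 0 = P.res (w * ω x * ω x) := by
      rw [eN, ← S.Lam_sq, hΛ, hmk2]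
      congr 1
      linear_combination (w * ω x * ω x) * huw
    have c1 : π (N x) 1 = P.res (P.t * (w * ω x * ω x)) := by
      rw [eN, ← S.Lam_Xsq, hΛ, hmk3]
      congr 1
      linear_combination (P.t * (w * ω x * ω x)) * huw
    have d0 : B x (N x) 0 = - P.res (w * ω x * ω x) := by
      rw [S.neg, Pi.neg_apply, hN, ← hω]
      congr 2
      ring
    have d1 : B x (N x) 1 = - P.res (P.t * (w * ω x * ω x)) := by
      rw [S.neg, Pi.neg_apply, ← S.hM, hN, ← hΨt, ← hω]
      congr 2
      ring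
    rw [hT, S.quad]
    ext k
    fin_cases k
    · change π x 0 + π (N x) 0 + B x (N x) 0 = π x 0
      rw [c0, d0]; ring
    · change π x 1 + π (N x) 1 + B x (N x) 1 = π x 1
      rw [c1, d1]; ring
  have hfix := S.rig T hiso hpi
  have hb : b = 0 := by
    apply S.nd
    intro x
    have e1 : N x = 0 := by
      have := hfix x
      rw [hT] at this
      exact add_eq_left.1 this
    have e2 : w * ω x = 0 := by
      obtain ⟨g, hg⟩ := AdjoinRoot.mk_surjective (w * ω x)
      rw [hN, ← hg, hΨ, hann] at e1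
      rw [← hg]
      exact AdjoinRoot.mk_eq_zero.2 e1
    have e3 : ω x = 0 := by
      have : u * (w * ω x) = 0 := by rw [e2, mul_zero]
      rwa [← mul_assoc, huw, one_mul] at this
    have e4 := hω x 1
    have e5 : Ψ 1 = b := by
      have := hΨ 1
      rw [map_one (AdjoinRoot.mk P.f), map_one (aeval M)] at this
      exact this
    rw [e3, zero_mul, map_zero, e5] at e4
    exact e4.symm
  have h1 := (hann 1).1 (by rw [hb, map_zero])
  have h2 := P.k_pos
  have h3 := P.monic.natDegree_pos_of_not_isUnit (fun hu => by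
    have := natDegree_eq_zero_of_isUnit hu
    unfold Pair.k at h2
    omega)
  exact absurd (isUnit_of_dvd_one h1) (fun hu => by
    have := natDegree_eq_zero_of_isUnit hu
    omega)

end Two

end Pool.Agent.Helper3.CM
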