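import Pool.Agent.Helper3.CM.T2

open Polynomial

namespace Pool.Agent.Helper3.CM

namespace Two

variable {V : Type*} [AddCommGroup V] [Module (ZMod 2) V]
  {B : V →ₗ[ZMod 2] V →ₗ[ZMod 2] (Fin 2 → ZMod 2)} {M : Module.End (ZMod 2) V}
  {π : V → (Fin 2 → ZMod 2)}

theorem monic_of_ne_zero {q : (ZMod 2)[X]} (hq : q ≠ 0) : q.Monic := by
  have h := leadingCoeff_ne_zero.2 hq
  unfold Monic
  generalize q.leadingCoeff = c at h ⊢
  revert c
  decide

theorem irr_noroot {q : (ZMod 2)[X]} (h : ∀ a : ZMod 2, q.eval a ≠ 0) {r : (ZMod 2)[X]}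
    (hr : r ∣ q) (a : ZMod 2) : r.eval a ≠ 0 := by
  obtain ⟨s, rfl⟩ := hr
  intro h0
  apply h a
  rw [eval_mul, h0, zero_mul]

theorem onePair_f {q : (ZMod 2)[X]} (hq : q.Monic) (h0 : 0 < q.natDegree)
    (hr : ∀ a : ZMod 2, q.eval a ≠ 0) : (onePair q hq h0 hr).f = q := rfl

theorem res_mk_self_mul (P : Pair 2) (g : (ZMod 2)[X]) : P.res (AdjoinRoot.mk P.f (P.f * g)) = 0 := by
  rw [map_mul, AdjoinRoot.mk_self, zero_mul, map_zero]

theorem pmul (a b : (ZMod 2)[X]) (x : V) : aeval M (a * b) x = aeval M a (aeval M b x) := by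
  rw [map_mul, Module.End.mul_apply]

theorem kill {m g : (ZMod 2)[X]} (h : IsCoprime m g) {b : V} (hm : aeval M m b = 0)
    (hg : aeval M g b = 0) : b = 0 := by
  obtain ⟨a, c, hac⟩ := h
  have : aeval M (a * m + c * g) b = b := by rw [hac, map_one]; rfl
  rw [← this, map_add, LinearMap.add_apply, pmul, pmul, hm, hg, map_zero, map_zero, add_zero]

theorem irr_pow_coprime {q u : (ZMod 2)[X]} (hq : Irreducible q) (h : ¬ q ∣ u) :
    IsCoprime (q * q) u :=
  IsCoprime.mul_left ((hq.coprime_iff_not_dvd).2 h) ((hq.coprime_iff_not_dvd).2 h)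

theorem ann1 {q : (ZMod 2)[X]} (hq : Irreducible q) {s : V} (hs : aeval M q s = 0) (hs0 : s ≠ 0)
    (g : (ZMod 2)[X]) : aeval M g s = 0 ↔ q ∣ g := by
  constructor
  · intro hg
    by_contra hng
    exact hs0 (kill ((hq.coprime_iff_not_dvd).2 hng) hs hg)
  · rintro ⟨r, rfl⟩
    rw [mul_comm, pmul, hs, map_zero]

theorem ann2 {q : (ZMod 2)[X]} (hq : Irreducible q) {b : V} (hb : aeval M (q * q) b = 0)
    (hb0 : aeval M q b ≠ 0) (g : (ZMod 2)[X]) : aeval M g b = 0 ↔ q * q ∣ g := by
  constructor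
  · intro hg
    have h1 : q ∣ g := by
      by_contra hng
      apply hb0
      rw [kill (irr_pow_coprime hq hng) hb hg, map_zero]
    obtain ⟨r, rfl⟩ := h1
    have h2 : q ∣ r := by
      rw [← ann1 hq (s := aeval M q b) (by rw [← pmul]; exact hb) hb0, ← pmul, mul_comm]
      exact hg
    obtain ⟨r', rfl⟩ := h2
    exact ⟨r', by ring⟩
  · rintro ⟨r, rfl⟩
    rw [mul_comm, pmul, hb, map_zero]

/-- first order elements -/
theorem R1 (S : Setup B M π) {q : (ZMod 2)[X]} (hq : Irreducible q)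
    (hr : ∀ a : ZMod 2, q.eval a ≠ 0) {s : V} (hs : aeval M q s = 0) (hs0 : s ≠ 0)
    (hΛ : ∀ d, Lam M π s (q * d) = 0) (d : (ZMod 2)[X]) : Lam M π s d = 0 := by
  let P : Pair 2 := onePair q (monic_of_ne_zero hq.ne_zero) hq.natDegree_pos hr
  have hPf : P.f = q := rfl
  obtain ⟨u, hu⟩ := torsion P (S.LamL s) hΛ
  by_cases hu0 : u = 0
  · have := hu d
    rw [hu0, zero_mul, map_zero] at this
    exact this
  · exfalso
    obtain ⟨u', rfl⟩ := AdjoinRoot.mk_surjective u
    have hnd : ¬ q ∣ u' := fun h => hu0 (AdjoinRoot.mk_eq_zero.2 h)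
    obtain ⟨w, hw⟩ := P.isUnit_of_coprime ((hq.coprime_iff_not_dvd).2 hnd)
    refine reflection S P (ann1 hq hs hs0) (AdjoinRoot.mk P.f u') (↑w⁻¹ : P.R) ?_ hu
    rw [← hw, Units.mul_inv]

/-- second order elements -/
theorem R2 (S : Setup B M π) {q : (ZMod 2)[X]} (hq : Irreducible q)
    (hr : ∀ a : ZMod 2, q.eval a ≠ 0) {b : V} (hb : aeval M (q * q) b = 0)
    (hb0 : aeval M q b ≠ 0) (hΛ : ∀ d, Lam M π b (q * q * d) = 0) (d : (ZMod 2)[X]) :
    Lam M π b (q * d) = 0 := by
  have hqq : (q * q).Monic := monic_of_ne_zero (mul_ne_zero hq.ne_zero hq.ne_zero)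
  have hqm : q.Monic := monic_of_ne_zero hq.ne_zero
  let P : Pair 2 := onePair (q * q) hqq (by
    rw [hqm.natDegree_mul hqm]; have := hq.natDegree_pos; omega) (by
    intro a; rw [eval_mul]; exact mul_ne_zero (hr a) (hr a))
  have hPf : P.f = q * q := rfl
  obtain ⟨u, hu⟩ := torsion P (S.LamL b) hΛ
  obtain ⟨u', rfl⟩ := AdjoinRoot.mk_surjective u
  by_cases hnd : q ∣ u'
  · obtain ⟨r, rfl⟩ := hnd
    have := hu (q * d)
    rw [← map_mul] at this
    have e : q * r * (q * d) = P.f * (r * d) := by rw [hPf]; ring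
    rw [e, res_mk_self_mul] at this
    exact this
  · exfalso
    obtain ⟨w, hw⟩ := P.isUnit_of_coprime (irr_pow_coprime hq hnd)
    refine reflection S P (ann2 hq hb hb0) (AdjoinRoot.mk P.f u') (↑w⁻¹ : P.R) ?_ hu
    rw [← hw, Units.mul_inv]

theorem minpoly_noroot [Finite V] (S : Setup B M π) (a : ZMod 2) :
    (minpoly (ZMod 2) M).eval a ≠ 0 := by
  have : FiniteDimensional (ZMod 2) V := Module.Finite.of_finite
  intro ha
  have h2 := Module.End.hasEigenvalue_of_isRoot (f := M) (μ := a) ha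
  obtain ⟨x, hx⟩ := h2.exists_hasEigenvector
  exact hx.2 (S.noeig a x hx.apply_eq_smul)

theorem two_eq_zero (P : Pair 2) : (2 : P.R) = 0 := by
  have : (2 : P.R) = algebraMap (ZMod 2) P.R 2 := by rw [map_ofNat]
  rw [this, show (2 : ZMod 2) = 0 from rfl, map_zero]

theorem sq_inj (P : Pair 2) (hP : Squarefree P.f) {w w' : P.R} (h : w * w = w' * w') : w = w' := by
  have h1 : (w - w') * (w - w') = 0 := by
    have : (w - w') * (w - w') = 2 * (w' * w' - w * w') := by linear_combination h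
    rw [this, two_eq_zero, zero_mul]
  obtain ⟨g, hg⟩ := AdjoinRoot.mk_surjective (w - w')
  rw [← hg, ← map_mul, AdjoinRoot.mk_eq_zero, ← pow_two] at h1
  have h2 := hP.isRadical 2 g h1
  rw [← sub_eq_zero, ← hg]
  exact AdjoinRoot.mk_eq_zero.2 h2

theorem sqrt_exists (P : Pair 2) (hP : Squarefree P.f) (u : P.R) : ∃ w, w * w = u := by
  have : Module.Finite (ZMod 2) P.R := Module.Finite.of_basis P.bas
  have : Finite P.R := Module.finite_of_finite (ZMod 2)
  have hinj : Function.Injective (fun w : P.R => w * w) := fun w w' h => sq_inj P hP h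
  exact (Finite.injective_iff_surjective.1 hinj) u

theorem pi_of_Lam (S : Setup B M π) {z : V} (h : ∀ d, Lam M π z d = 0) : π z = 0 := by
  have e0 := S.Lam_sq z 1
  have e1 := S.Lam_Xsq z 1
  rw [h, map_one] at e0 e1
  ext k
  fin_cases k
  · exact e0.symm
  · exact e1.symm

/-- `M` is semisimple: its minimal polynomial is squarefree. -/
theorem sqfree [Finite V] (S : Setup B M π) : Squarefree (minpoly (ZMod 2) M) := by
  classical
  have : FiniteDimensional (ZMod 2) V := Module.Finite.of_finite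
  have hint : IsIntegral (ZMod 2) M := Algebra.IsIntegral.isIntegral M
  have hf0 : minpoly (ZMod 2) M ≠ 0 := minpoly.ne_zero hint
  have hnr := minpoly_noroot S
  rw [squarefree_iff_irreducible_sq_not_dvd_of_ne_zero hf0]
  rintro q hq ⟨g, hg⟩
  have hfM : aeval M (q * q * g) = 0 := by rw [← hg]; exact minpoly.aeval _ _
  have hr : ∀ a : ZMod 2, q.eval a ≠ 0 := irr_noroot hnr ⟨q * g, by rw [hg]; ring⟩
  have hfx : ∀ x, aeval M (q * q * g) x = 0 := fun x => by rw [hfM]; rfl
  set h := q * g with hh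
  clear_value h
  have hg0 : g ≠ 0 := by
    rintro rfl
    rw [mul_zero] at hg
    exact hf0 hg
  -- n is not zero
  have hn0 : ∃ x, aeval M h x ≠ 0 := by
    by_contra hcon
    push Not at hcon
    have h1 : aeval M h = 0 := by ext x; exact hcon x
    have h2 := minpoly.dvd _ _ h1
    rw [hg, hh, mul_assoc] at h2
    obtain ⟨c, hc⟩ := h2
    have h3 : q * c = 1 := by
      have h4 : q * g * (q * c) = q * g * 1 := by
        rw [mul_one]
        conv_rhs => rw [hc]
        ring
      exact mul_left_cancel₀ (mul_ne_zero hq.ne_zero hg0) h4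
    exact hq.not_isUnit (IsUnit.of_mul_eq_one _ h3)
  have hqh : ∀ x, aeval M q (aeval M h x) = 0 := by
    intro x
    rw [← pmul, hh, ← mul_assoc]
    exact hfx x
  have hhh : ∀ x, aeval M h (aeval M h x) = 0 := by
    intro x
    have e : h = g * q := by rw [hh, mul_comm]
    have : aeval M h (aeval M h x) = aeval M (g * q) (aeval M h x) := by rw [← e]
    rw [this, pmul, hqh, map_zero]
  have hSS : ∀ x y, B (aeval M h x) (aeval M h y) = 0 := by
    intro x y
    rw [← S.polyadj, hhh, map_zero]; rfl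
  have hLq : ∀ x d, Lam M π (aeval M h x) (q * (q * d)) = 0 := by
    intro x d
    rw [← mul_assoc, ← pow_two, ← S.Lam_smul, hqh, S.Lam_zero]
  -- an element of the socle
  obtain ⟨a, ha0, haΛ⟩ : ∃ a, aeval M h a ≠ 0 ∧ ∀ d, Lam M π (aeval M h a) (q * d) = 0 := by
    obtain ⟨x, hx⟩ := hn0
    by_cases hz : ∀ d, Lam M π (aeval M h x) (q * d) = 0
    · exact ⟨x, hx, hz⟩
    obtain ⟨y, hy⟩ : ∃ y, B (aeval M h x) y 0 ≠ 0 := by
      by_contra hcon
      push Not at hcon
      exact hx (S.nd hcon)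
    let P : Pair 2 := onePair q (monic_of_ne_zero hq.ne_zero) hq.natDegree_pos hr
    have hPf : P.f = q := rfl
    obtain ⟨u₁, hu₁⟩ := torsion P ((S.LamL (aeval M h x)).comp (LinearMap.mulLeft (ZMod 2) q))
      (fun d => hLq x d)
    obtain ⟨u₂, hu₂⟩ := torsion P ((S.LamL (aeval M h y)).comp (LinearMap.mulLeft (ZMod 2) q))
      (fun d => hLq y d)
    have hu₁' : ∀ d, Lam M π (aeval M h x) (q * d) = P.res (u₁ * AdjoinRoot.mk P.f d) := hu₁
    have hu₂' : ∀ d, Lam M π (aeval M h y) (q * d) = P.res (u₂ * AdjoinRoot.mk P.f d) := hu₂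
    have hu₁0 : u₁ ≠ 0 := by
      rintro rfl
      apply hz
      intro d
      rw [hu₁', zero_mul, map_zero]
    obtain ⟨v₁, rfl⟩ := AdjoinRoot.mk_surjective u₁
    have hnd : ¬ q ∣ v₁ := fun h => hu₁0 (AdjoinRoot.mk_eq_zero.2 h)
    obtain ⟨w₁, hw₁⟩ := P.isUnit_of_coprime ((hq.coprime_iff_not_dvd).2 hnd)
    obtain ⟨c, hc⟩ := sqrt_exists P hq.squarefree (u₂ * (↑w₁⁻¹ : P.R))
    obtain ⟨c', rfl⟩ := AdjoinRoot.mk_surjective c
    have hcomm : aeval M h (aeval M c' x) = aeval M c' (aeval M h x) := by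
      rw [← pmul, ← pmul, mul_comm]
    refine ⟨y + aeval M c' x, ?_, ?_⟩
    · intro h0
      rw [map_add, hcomm] at h0
      apply hy
      have e1 : aeval M h y = - aeval M (c' * h) x := by
        rw [pmul c' h]; exact eq_neg_of_add_eq_zero_left h0
      rw [S.polyadj, e1, map_neg, ← S.polyadj, S.polyself, neg_zero]; rfl
    · intro d
      rw [map_add, hcomm, S.Lam_add_left, S.Lam_smul (aeval M h x) c']
      have e1 : c' ^ 2 * (q * d) = q * (c' ^ 2 * d) := by ring
      have e2 : aeval M (q * d) (aeval M h y) = 0 := by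
        rw [mul_comm, pmul, hqh, map_zero]
      have e3 : AdjoinRoot.mk P.f v₁ * AdjoinRoot.mk P.f (c' ^ 2 * d) =
          u₂ * AdjoinRoot.mk P.f d := by
        rw [map_mul, pow_two, map_mul, hc, ← hw₁]
        have : (w₁ : P.R) * (↑w₁⁻¹ : P.R) = 1 := Units.mul_inv w₁
        linear_combination (u₂ * AdjoinRoot.mk P.f d) * this
      rw [e1, e2, hu₁', hu₂', e3, map_zero, LinearMap.zero_apply, Pi.zero_apply, add_zero]
      exact CharTwo.add_self_eq_zero _
  have hsΛ := R1 S hq hr (hqh a) ha0 haΛ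
  have hqc : aeval M q (aeval M g a) = aeval M h a := by rw [← pmul, ← hh]
  have hR2 : ∀ z d, Lam M π (aeval M g a + aeval M h z) (q * d) = 0 := by
    intro z
    have e0 : aeval M q (aeval M g a + aeval M h z) = aeval M h a := by
      rw [map_add, hqc, hqh, add_zero]
    apply R2 S hq hr
    · rw [pmul, e0, hqh]
    · rw [e0]; exact ha0
    · intro d
      rw [← pow_two, ← S.Lam_smul, e0, hsΛ]
  have hc : ∀ d, Lam M π (aeval M g a) (q * d) = 0 := by
    intro d
    have := hR2 0 d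
    rwa [map_zero, add_zero] at this
  have hπn : ∀ z, π (aeval M h z) = 0 := by
    intro z
    by_cases hz : aeval M h z = 0
    · rw [hz, S.pi_zero]
    · apply pi_of_Lam S
      apply R1 S hq hr (hqh z) hz
      intro d
      have h1 := hR2 z d
      have e : B (aeval M (q * d) (aeval M g a)) (aeval M h z) 0 = 0 := by
        rw [S.polyadj, mul_comm, pmul, hqh, map_zero, map_zero]; rfl
      rw [S.Lam_add_left, hc, zero_add, e, add_zero] at h1
      exact h1
  let N : V →ₗ[ZMod 2] V := aeval M h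
  have hN : ∀ x, N x = aeval M h x := fun _ => rfl
  have hNN : ∀ x, N (N x) = 0 := hhh
  let T : V ≃ₗ[ZMod 2] V := LinearEquiv.ofLinearMap (LinearMap.id + N) (LinearMap.id - N)
    (by
      ext x
      simp only [LinearMap.comp_apply, LinearMap.add_apply, LinearMap.sub_apply, LinearMap.id_apply,
        map_sub, hNN]
      abel)
    (by
      ext x
      simp only [LinearMap.comp_apply, LinearMap.add_apply, LinearMap.sub_apply, LinearMap.id_apply,
        map_add, hNN]
      abel)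
  have hT : ∀ x, T x = x + N x := fun x => rfl
  obtain ⟨x, hx⟩ := hn0
  apply hx
  have hfix := S.rig T (by
    intro x y
    rw [hT, hT, hN, hN, map_add, map_add, LinearMap.add_apply, LinearMap.add_apply, hSS, add_zero,
      ← S.polyadj, add_assoc]
    have : B (aeval M h x) y + B (aeval M h x) y = 0 := by
      ext k
      exact CharTwo.add_self_eq_zero _
    rw [this, add_zero]) (by
    intro x
    rw [hT, S.quad, hN, hπn, ← S.polyadj, S.polyself, add_zero, add_zero]) x
  rw [hT] at hfix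
  exact add_eq_left.1 hfix

end Two

end Pool.Agent.Helper3.CM
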