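import Pool.Agent.Helper3.CM.T3

open Polynomial

namespace Pool.Agent.Helper3.CM

namespace Two

theorem ev_od_of (u z : (ZMod 2)[X]) : ev (u ^ 2 + X * z ^ 2) = u ∧ od (u ^ 2 + X * z ^ 2) = z := by
  rw [ev_add, od_add, ev_sq, ev_Xsq, od_sq, od_Xsq, add_zero, zero_add]
  exact ⟨rfl, rfl⟩

theorem od_sq_mul (c a : (ZMod 2)[X]) : od (c ^ 2 * a) = c * od a := by
  have e : c ^ 2 * a = (c * ev a) ^ 2 + X * (c * od a) ^ 2 := by
    conv_lhs => rw [decomp a]
    ring
  rw [e, (ev_od_of _ _).2]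

theorem res_od (P : Pair 2) (d : (ZMod 2)[X]) :
    P.res (AdjoinRoot.mk P.f (od (P.f * d))) = P.res (AdjoinRoot.mk P.f d) := by
  have hk := P.k_pos
  have key : ∀ d₀ : (ZMod 2)[X], d₀.degree < P.f.degree →
      P.res (AdjoinRoot.mk P.f (od (P.f * d₀))) = P.res (AdjoinRoot.mk P.f d₀) := by
    intro d₀ hd
    have hd' : d₀.natDegree ≤ P.k - 1 := by
      by_cases h0 : d₀ = 0
      · rw [h0, natDegree_zero]; omega
      · have := natDegree_lt_natDegree h0 hd
        unfold Pair.k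
        omega
    have hc : ∀ n, P.k - 1 ≤ n → (od (P.f * d₀)).coeff n = if n = P.k - 1 then d₀.coeff (P.k - 1)
        else 0 := by
      intro n hn
      rw [od_coeff]
      split_ifs with h
      · subst h
        have e : (P.k - 1) * 2 + 1 = P.k + (P.k - 1) := by omega
        have h5 : (P.f * d₀).coeff (P.k + (P.k - 1)) = P.f.coeff P.k * d₀.coeff (P.k - 1) :=
          coeff_mul_add_eq_of_natDegree_le (le_refl P.f.natDegree) hd'
        have : P.f.coeff P.k = 1 := P.monic.coeff_natDegree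
        rw [e, h5, this, one_mul]
      · apply coeff_eq_zero_of_natDegree_lt
        refine lt_of_le_of_lt natDegree_mul_le ?_
        unfold Pair.k at *
        omega
    rw [P.res_mk_of_lt hd, P.res_mk_of_lt, hc _ le_rfl, if_pos rfl]
    rw [degree_eq_natDegree P.monic.ne_zero, degree_lt_iff_coeff_zero]
    intro n hn
    have hn' : P.k ≤ n := hn
    rw [hc n (by omega), if_neg (by omega)]
  have h1 := key (d %ₘ P.f) (degree_modByMonic_lt d P.monic)
  rw [mk_sub_modByMonic] at h1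
  rw [← h1]
  have e : P.f * d = P.f * (d %ₘ P.f) + P.f ^ 2 * (d /ₘ P.f) := by
    conv_lhs => rw [← modByMonic_add_div d P.f]
    ring
  rw [e, od_add, map_add, map_add, od_sq_mul, res_mk_self_mul, add_zero]

theorem dvd_of_irr {u : (ZMod 2)[X]} : ∀ f : (ZMod 2)[X], Squarefree f →
    (∀ q, Irreducible q → q ∣ f → q ∣ u) → f ∣ u := by
  intro f
  induction f using WfDvdMonoid.induction_on_irreducible with
  | zero => intro h; exact absurd h not_squarefree_zero
  | unit f hf => intro _ _; exact hf.dvd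
  | mul a i ha hi ih =>
    intro hsq h
    have h1 : ¬ i ∣ a := by
      rintro ⟨c, rfl⟩
      exact hi.not_isUnit (hsq i ⟨c, by ring⟩)
    have h2 : a ∣ u := ih (hsq.squarefree_of_dvd (Dvd.intro_left _ rfl))
      (fun q hq hqa => h q hq (hqa.mul_left i))
    exact IsCoprime.mul_dvd ((hi.coprime_iff_not_dvd).2 h1) (h i hi (Dvd.intro _ rfl)) h2

variable {V : Type*} [AddCommGroup V] [Module (ZMod 2) V]
  {B : V →ₗ[ZMod 2] V →ₗ[ZMod 2] (Fin 2 → ZMod 2)} {M : Module.End (ZMod 2) V}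
  {π : V → (Fin 2 → ZMod 2)}

/-- elements killed by the whole polynomial -/
theorem R3 (S : Setup B M π) (P : Pair 2) (hP : Squarefree P.f) (hf : ∀ x, aeval M P.f x = 0)
    {x : V} (hx : ∀ d, Lam M π x (P.f * d) = 0) (d : (ZMod 2)[X]) : Lam M π x d = 0 := by
  obtain ⟨u, hu⟩ := torsion P (S.LamL x) hx
  have hu' : ∀ d, Lam M π x d = P.res (u * AdjoinRoot.mk P.f d) := hu
  obtain ⟨u', rfl⟩ := AdjoinRoot.mk_surjective u
  by_contra hne
  have hnd : ¬ P.f ∣ u' := by
    intro h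
    apply hne
    rw [hu', AdjoinRoot.mk_eq_zero.2 h, zero_mul, map_zero]
  obtain ⟨q, hq, hqf, hqu⟩ : ∃ q, Irreducible q ∧ q ∣ P.f ∧ ¬ q ∣ u' := by
    by_contra hcon
    push Not at hcon
    exact hnd (dvd_of_irr P.f hP hcon)
  obtain ⟨r, hr⟩ := hqf
  have hqr : ¬ q ∣ r := by
    rintro ⟨c, rfl⟩
    exact hq.not_isUnit (hP q ⟨c, by rw [hr]; ring⟩)
  have hnoroot := irr_noroot P.noroot ⟨r, hr⟩
  have hL : ∀ d, Lam M π (aeval M r x) d = P.res (AdjoinRoot.mk P.f (u' * r ^ 2) *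
      AdjoinRoot.mk P.f d) := by
    intro d
    rw [S.Lam_smul, hu', ← map_mul, ← map_mul]
    congr 2
    ring
  have hnd2 : ¬ P.f ∣ u' * r ^ 2 := by
    intro h
    have h1 : q ∣ u' * r ^ 2 := (Dvd.intro _ hr.symm).trans h
    rcases hq.prime.dvd_or_dvd h1 with h2 | h2
    · exact hqu h2
    · exact hqr (hq.prime.dvd_of_dvd_pow h2)
  obtain ⟨w, hw⟩ := P.res_nondeg (u := AdjoinRoot.mk P.f (u' * r ^ 2))
    (fun h => hnd2 (AdjoinRoot.mk_eq_zero.1 h))
  obtain ⟨d', rfl⟩ := AdjoinRoot.mk_surjective w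
  rw [← hL] at hw
  apply hw
  refine R1 S hq hnoroot ?_ ?_ ?_ d'
  · rw [← pmul, ← hr]; exact hf x
  · intro h0
    rw [h0, S.Lam_zero] at hw
    exact hw rfl
  · intro d
    rw [hL, ← map_mul]
    have e : u' * r ^ 2 * (q * d) = P.f * (u' * r * d) := by rw [hr]; ring
    rw [e, res_mk_self_mul]

/-- the power map in normal form -/
noncomputable def pi2 (P : Pair 2) (x : P.R × P.R) : Fin 2 → ZMod 2 :=
  ![P.res (x.1 * x.2), P.res (P.t * (x.1 * x.2)) + P.res x.2]

theorem lam_eq_res (P : Pair 2) (hv : P.v = 1) (w : P.R) : P.lam w = P.res w := by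
  rw [Pair.lam_apply]
  have : P.vv = 1 := by
    unfold Pair.vv
    rw [hv, map_one]
  rw [this, mul_one]

/-- Normal form, `p = 2`. -/
theorem normal_form2 [Finite V] [Nontrivial V] (S : Setup B M π) :
    ∃ (P : Pair 2) (φ : (P.R × P.R) ≃ₗ[ZMod 2] V), P.v = 1 ∧ Squarefree P.f ∧
      (∀ x y, B (φ x) (φ y) = P.BR x y) ∧ ∀ x, π (φ x) = pi2 P x := by
  classical
  have : FiniteDimensional (ZMod 2) V := Module.Finite.of_finite
  have hint : IsIntegral (ZMod 2) M := Algebra.IsIntegral.isIntegral M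
  have hsq := sqfree S
  have hnr := minpoly_noroot S
  have hfM : aeval M (minpoly (ZMod 2) M) = 0 := minpoly.aeval _ _
  obtain ⟨P, hPv, hPf⟩ : ∃ P : Pair 2, P.v = 1 ∧ P.f = minpoly (ZMod 2) M :=
    ⟨onePair _ (minpoly.monic hint) (minpoly.natDegree_pos hint) hnr, rfl, rfl⟩
  rw [← hPf] at hsq hfM
  have hfx : ∀ x, aeval M P.f x = 0 := fun x => by rw [hfM]; rfl
  let Φ : P.R →+* Module.End (ZMod 2) V := Ideal.Quotient.lift _
    (aeval M : (ZMod 2)[X] →ₐ[ZMod 2] _).toRingHom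
    (by
      intro a ha
      obtain ⟨g, rfl⟩ := Ideal.mem_span_singleton.1 ha
      change aeval M (P.f * g) = 0
      rw [map_mul, hfM, zero_mul])
  have hΦmk : ∀ g : (ZMod 2)[X], Φ (AdjoinRoot.mk P.f g) = aeval M g := fun g => rfl
  have hΦinj : ∀ w, Φ w = 0 → w = 0 := by
    intro w hw
    obtain ⟨g, rfl⟩ := AdjoinRoot.mk_surjective w
    have h2 : aeval M g = 0 := hw
    have h3 := minpoly.dvd _ _ h2
    rw [← hPf] at h3
    exact AdjoinRoot.mk_eq_zero.2 h3
  have hΦmul : ∀ k l x, Φ (k * l) x = Φ k (Φ l x) := by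
    intro k l x
    rw [map_mul]; rfl
  have hΦadd : ∀ k l x, Φ (k + l) x = Φ k x + Φ l x := by
    intro k l x
    rw [map_add]; rfl
  have hΦsmul : ∀ (a : ZMod 2) (k : P.R) x, Φ (a • k) x = a • Φ k x := by
    intro a k x
    rw [Algebra.smul_def, hΦmul]
    have : algebraMap (ZMod 2) P.R a = AdjoinRoot.mk P.f (C a) := rfl
    rw [this, hΦmk, aeval_C, Module.algebraMap_end_apply]
  have hΦt : ∀ w x, Φ (P.t * w) x = M (Φ w x) := by
    intro w x
    rw [hΦmul]
    have : P.t = AdjoinRoot.mk P.f X := rfl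
    rw [this, hΦmk, aeval_X]
  -- the linear form beta
  have hv : ∀ x, ∃ b : P.R, ∀ d, Lam M π x (P.f * d) = P.res (b * b * AdjoinRoot.mk P.f d) := by
    intro x
    obtain ⟨u, hu⟩ := torsion P ((S.LamL x).comp (LinearMap.mulLeft (ZMod 2) P.f)) (by
      intro d
      change Lam M π x (P.f * (P.f * d)) = 0
      rw [← mul_assoc, ← pow_two, ← S.Lam_smul, hfx, S.Lam_zero])
    obtain ⟨b, hb⟩ := sqrt_exists P hsq u
    exact ⟨b, fun d => by rw [hb]; exact hu d⟩
  choose β hβ using hv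
  have hβadd : ∀ x y, β (x + y) = β x + β y := by
    intro x y
    apply sq_inj P hsq
    have e : (β x + β y) * (β x + β y) = β x * β x + β y * β y := by
      linear_combination (β x * β y) * two_eq_zero P
    rw [e]
    apply P.res_ext
    intro w
    obtain ⟨d, rfl⟩ := AdjoinRoot.mk_surjective w
    rw [← hβ, S.Lam_add_left, hβ, hβ, mul_comm P.f d, pmul, hfx, map_zero, map_zero,
      LinearMap.zero_apply, Pi.zero_apply, add_zero, ← map_add, add_mul]
  have hβmul : ∀ w x, β (Φ w x) = w * β x := by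
    intro w x
    obtain ⟨g, rfl⟩ := AdjoinRoot.mk_surjective w
    rw [hΦmk]
    apply sq_inj P hsq
    apply P.res_ext
    intro w
    obtain ⟨d, rfl⟩ := AdjoinRoot.mk_surjective w
    rw [← hβ, S.Lam_smul]
    have e : g ^ 2 * (P.f * d) = P.f * (g ^ 2 * d) := by ring
    rw [e, hβ, map_mul (AdjoinRoot.mk P.f), map_pow (AdjoinRoot.mk P.f)]
    congr 1
    ring
  let βL : V →ₗ[ZMod 2] P.R := (AddMonoidHom.mk' β hβadd).toZModLinearMap 2
  have hβL : ∀ x, βL x = β x := fun _ => rfl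
  obtain ⟨b, hb0⟩ := S.dual (P.res.comp βL)
  have hb : ∀ w x, B (Φ w b) x 0 = P.res (w * β x) := by
    intro w x
    obtain ⟨g, rfl⟩ := AdjoinRoot.mk_surjective w
    have h1 := hb0 (aeval M g x)
    rw [hΦmk, S.polyadj, h1]
    change P.res (β (aeval M g x)) = _
    rw [← hΦmk, hβmul]
  have hΦself : ∀ w w' x, B (Φ w x) (Φ w' x) = 0 := by
    intro w w' x
    obtain ⟨g, rfl⟩ := AdjoinRoot.mk_surjective w
    obtain ⟨g', rfl⟩ := AdjoinRoot.mk_surjective w'
    rw [hΦmk, hΦmk]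
    exact S.polyself2 _ _ _
  have hβb : β b = 0 := by
    apply P.res_ext
    intro w
    rw [mul_comm, ← hb, zero_mul, map_zero]
    have := hΦself w 1 b
    rw [map_one] at this
    change B (Φ w b) b = 0 at this
    rw [this]; rfl
  have hker : ∀ x, β x = 0 → ∀ d, Lam M π x d = 0 := by
    intro x hx
    apply R3 S P hsq hfx
    intro d
    rw [hβ, hx, mul_zero, zero_mul, map_zero]
  have hbΛ := hker b hβb
  have hperp : ∀ x y, β x = 0 → β y = 0 → B x y 0 = 0 := by
    intro x y hx hy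
    have h1 := S.Lam_add_left x y 1
    rw [hker x hx, hker y hy, hker (x + y) (by rw [hβadd, hx, hy, add_zero]), map_one, add_zero,
      zero_add] at h1
    exact h1.symm
  have hkerb : ∀ x, β x = 0 → ∃ w, x = Φ w b := by
    intro x hx
    have h1 : cB B 0 x ∈ LinearMap.range βL.dualMap := by
      rw [LinearMap.range_dualMap_eq_dualAnnihilator_ker, Submodule.mem_dualAnnihilator]
      intro y hy
      exact hperp x y hx hy
    obtain ⟨L, hL⟩ := h1
    refine ⟨P.dualEquiv.symm L, ?_⟩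
    rw [← sub_eq_zero]
    apply S.nd
    intro y
    have h2 : B x y 0 = L (β y) := (LinearMap.congr_fun hL y).symm
    have h3 : P.res (P.dualEquiv.symm L * β y) = L (β y) := by
      rw [← Pair.dualEquiv_apply, LinearEquiv.apply_symm_apply]
    rw [map_sub, LinearMap.sub_apply, Pi.sub_apply, hb, h2, h3, sub_self]
  have hfree : ∀ w, Φ w b = 0 → w = 0 := by
    intro w hw
    have h1 : ∀ x, w * β x = 0 := by
      intro x
      apply P.res_ext
      intro c
      have h2 := hb w (Φ c x)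
      rw [hw, map_zero, hβmul] at h2
      rw [zero_mul, map_zero, mul_comm c] at *
      rw [mul_assoc]
      exact h2.symm
    have h2 : w * w = 0 := by
      apply hΦinj
      ext x
      obtain ⟨c, hc⟩ := hkerb (Φ w x) (by rw [hβmul, h1])
      rw [hΦmul, hc, ← hΦmul, mul_comm, hΦmul, hw, map_zero]; rfl
    exact sq_inj P hsq (by rw [h2, mul_zero])
  have hβsurj : Function.Surjective βL := by
    rw [← LinearMap.dualMap_injective_iff, injective_iff_map_eq_zero]
    intro φ hφ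
    have h1 : ∀ y, φ (β y) = 0 := fun y => LinearMap.congr_fun hφ y
    have h2 : P.dualEquiv.symm φ = 0 := by
      apply hfree
      apply S.nd
      intro x
      rw [hb, ← Pair.dualEquiv_apply, LinearEquiv.apply_symm_apply]
      exact h1 x
    exact (LinearEquiv.map_eq_zero_iff _).1 h2
  have hb' : ∀ w x, B x (Φ w b) 0 = P.res (w * β x) := by
    intro w x
    rw [S.symm, hb]
  have hb0w : ∀ w d, Lam M π (Φ w b) d = 0 := by
    intro w d
    obtain ⟨g, rfl⟩ := AdjoinRoot.mk_surjective w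
    rw [hΦmk, S.Lam_smul, hbΛ]
  obtain ⟨z, hz⟩ := hβsurj 1
  rw [hβL] at hz
  let E : (ZMod 2)[X] →ₗ[ZMod 2] ZMod 2 := (AddMonoidHom.mk'
    (fun d => P.res (AdjoinRoot.mk P.f (od d))) (fun a b => by
      rw [od_add, map_add, map_add])).toZModLinearMap 2
  have hE : ∀ d, E d = P.res (AdjoinRoot.mk P.f (od d)) := fun _ => rfl
  obtain ⟨c, hc⟩ := torsion P (S.LamL z - E) (by
    intro d
    rw [LinearMap.sub_apply, hE, res_od, Setup.LamL_apply, hβ, hz, one_mul, one_mul, sub_self])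
  have hc' : ∀ d, Lam M π z d = E d + P.res (c * AdjoinRoot.mk P.f d) := by
    intro d
    have := hc d
    rw [LinearMap.sub_apply, Setup.LamL_apply] at this
    rw [← this]; ring
  obtain ⟨a, ha⟩ : ∃ a, a = z + Φ c b := ⟨_, rfl⟩
  have haβ : β a = 1 := by rw [ha, hβadd, hβmul, hβb, hz, mul_zero, add_zero]
  have haΛ : ∀ d, Lam M π a d = E d := by
    intro d
    have e1 : β (aeval M d z) = AdjoinRoot.mk P.f d := by rw [← hΦmk, hβmul, hz, mul_one]
    rw [ha, S.Lam_add_left, hb0w, hb', e1, hc', add_zero, add_assoc, CharTwo.add_self_eq_zero,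
      add_zero]
  have hab : ∀ w w', B (Φ w b) (Φ w' a) 0 = P.res (w * w') := by
    intro w w'
    rw [hb, hβmul, haβ, mul_one]
  let ψ₀ : P.R × P.R →ₗ[ZMod 2] V :=
    { toFun := fun x => Φ x.1 b + Φ x.2 a
      map_add' := by
        intro x y
        rw [Prod.fst_add, Prod.snd_add, hΦadd, hΦadd]; abel
      map_smul' := by
        intro s x
        rw [Prod.smul_fst, Prod.smul_snd, hΦsmul, hΦsmul, RingHom.id_apply, smul_add] }
  have hψ₀ : ∀ x, ψ₀ x = Φ x.1 b + Φ x.2 a := fun x => rfl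
  have hcalc0 : ∀ x y, B (ψ₀ x) (ψ₀ y) 0 = P.lam (P.omr x y) := by
    intro x y
    rw [hψ₀, hψ₀, map_add, map_add, LinearMap.add_apply, LinearMap.add_apply, hΦself, hΦself,
      S.symm (Φ x.2 a) (Φ y.1 b), zero_add, add_zero, Pi.add_apply, hab, hab, lam_eq_res P hPv]
    have e : P.omr x y = y.1 * x.2 + x.1 * y.2 := by
      unfold Pair.omr
      linear_combination (- (x.2 * y.1)) * two_eq_zero P
    rw [e, map_add]
  have hψt : ∀ x, ψ₀ (P.t • x) = M (ψ₀ x) := by
    intro x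
    rw [hψ₀, hψ₀, map_add, Prod.smul_fst, Prod.smul_snd, smul_eq_mul, smul_eq_mul, hΦt, hΦt]
  have hcalc1 : ∀ x y, B (ψ₀ x) (ψ₀ y) 1 = P.lam (P.t * P.omr x y) := by
    intro x y
    rw [← S.hM, ← hψt, hcalc0]
    congr 1
    simp only [Pair.omr, Prod.smul_fst, Prod.smul_snd, smul_eq_mul]; ring
  have hinj : Function.Injective ψ₀ := by
    rw [injective_iff_map_eq_zero]
    intro x hx
    apply P.omr_surj_aux
    intro y
    rw [← hcalc0, hx, map_zero]; rfl
  have hsurj : Function.Surjective ψ₀ := by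
    intro v
    have h1 : β (v + Φ (β v) a) = 0 := by
      rw [hβadd, hβmul, haβ, mul_one]
      linear_combination (β v) * two_eq_zero P
    obtain ⟨w, hw⟩ := hkerb _ h1
    refine ⟨(w, β v), ?_⟩
    rw [hψ₀]
    change Φ w b + Φ (β v) a = v
    rw [← hw, add_assoc]
    have : Φ (β v) a + Φ (β v) a = 0 := by
      rw [← hΦadd]
      have : β v + β v = 0 := by linear_combination (β v) * two_eq_zero P
      rw [this, map_zero]; rfl
    rw [this, add_zero]
  refine ⟨P, LinearEquiv.ofBijective ψ₀ ⟨hinj, hsurj⟩, hPv, hsq, ?_, ?_⟩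
  · intro x y
    change B (ψ₀ x) (ψ₀ y) = _
    rw [Pair.BR_apply]
    ext k
    fin_cases k
    · exact hcalc0 x y
    · exact hcalc1 x y
  · intro x
    change π (ψ₀ x) = _
    obtain ⟨g₁, hg₁⟩ := AdjoinRoot.mk_surjective x.1
    obtain ⟨g₂, hg₂⟩ := AdjoinRoot.mk_surjective x.2
    have p1 : π (Φ x.1 b) = 0 := pi_of_Lam S (hb0w x.1)
    have p20 : π (Φ x.2 a) 0 = 0 := by
      rw [← hg₂, hΦmk, ← S.Lam_sq, haΛ, hE, od_sq, map_zero, map_zero]
    have p21 : π (Φ x.2 a) 1 = P.res x.2 := by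
      rw [← hg₂, hΦmk, ← S.Lam_Xsq, haΛ, hE, od_Xsq]
    have q0 : B (Φ x.1 b) (Φ x.2 a) 0 = P.res (x.1 * x.2) := hab _ _
    have q1 : B (Φ x.1 b) (Φ x.2 a) 1 = P.res (P.t * (x.1 * x.2)) := by
      rw [← S.hM, ← hΦt, hab, mul_assoc]
    unfold pi2
    rw [hψ₀, S.quad, p1, zero_add]
    ext k
    fin_cases k
    · change π (Φ x.2 a) 0 + B (Φ x.1 b) (Φ x.2 a) 0 = P.res (x.1 * x.2)
      rw [p20, q0, zero_add]
    · change π (Φ x.2 a) 1 + B (Φ x.1 b) (Φ x.2 a) 1 = P.res (P.t * (x.1 * x.2)) + P.res x.2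
      rw [p21, q1, add_comm]

end Two

end Pool.Agent.Helper3.CM
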