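import Pool.Agent.Helper3.CM.T4
import Pool.Agent.Helper3.CM.RF7

open Polynomial

namespace Pool.Agent.Helper3.CM

/-- the denominators of equivalent data are related by the matrix -/
theorem moebius_of_equiv {p : ℕ} [Fact p.Prime] (P Q : Pair p)
    (g : (P.R × P.R) ≃ₗ[ZMod p] (Q.R × Q.R)) (k : Vec p 2 ≃ₗ[ZMod p] Vec p 2)
    (hB : ∀ x y, Q.BR (g x) (g y) = k (P.BR x y))
    {a b c d : ZMod p} (hk : ∀ w, k w = ![a * w 0 + b * w 1, c * w 0 + d * w 1]) :
    a * d - b * c ≠ 0 ∧ Q.k = P.k ∧
      ∃ κ : ZMod p, κ ≠ 0 ∧ hsub P.k Q.f (lin a b) (lin c d) = C κ * P.f := by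
  have sdR : ∀ (s : ZMod p) (z : P.R), s • z = algebraMap (ZMod p) P.R s * z :=
    fun s z => Algebra.smul_def s z
  have hΔ : a * d - b * c ≠ 0 := by
    intro h0
    by_cases hbd : b = 0 ∧ d = 0
    · have h1 : k ![0, 1] = 0 := by
        rw [hk, hbd.1, hbd.2]
        ext i
        fin_cases i <;> simp
      have h2 := k.injective (h1.trans (map_zero k).symm)
      have := congrFun h2 1
      simp at this
    · have h1 : k ![d, -c] = 0 ∧ k ![-b, a] = 0 := by
        constructor
        · rw [hk]
          ext i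
          fin_cases i
          · simp; linear_combination h0
          · simp; ring
        · rw [hk]
          ext i
          fin_cases i
          · simp; ring
          · simp; linear_combination h0
      have h2 := k.injective (h1.1.trans (map_zero k).symm)
      have h3 := k.injective (h1.2.trans (map_zero k).symm)
      apply hbd
      constructor
      · have := congrFun h3 0
        simpa using this
      · have := congrFun h2 0
        simpa using this
  obtain ⟨u, hu⟩ := P.le_isUnit hΔ
  have hB0 : ∀ x y, Q.lam (Q.omr (g x) (g y)) = P.lam (P.omr x y * P.le a b) := by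
    intro x y
    have h1 := congrFun (hB x y) 0
    rw [hk, Pair.BR_apply, Pair.BR_apply] at h1
    simp only [Matrix.cons_val_zero, Matrix.cons_val_one] at h1
    rw [h1]
    have : P.omr x y * P.le a b = a • P.omr x y + b • (P.t * P.omr x y) := by
      rw [sdR, sdR]; unfold Pair.le; ring
    rw [this, map_add, map_smul, map_smul, smul_eq_mul, smul_eq_mul]
  have hB1 : ∀ x y, Q.lam (Q.t * Q.omr (g x) (g y)) = P.lam (P.omr x y * P.le c d) := by
    intro x y
    have h1 := congrFun (hB x y) 1
    rw [hk, Pair.BR_apply, Pair.BR_apply] at h1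
    simp only [Matrix.cons_val_zero, Matrix.cons_val_one] at h1
    rw [h1]
    have : P.omr x y * P.le c d = c • P.omr x y + d • (P.t * P.omr x y) := by
      rw [sdR, sdR]; unfold Pair.le; ring
    rw [this, map_add, map_smul, map_smul, smul_eq_mul, smul_eq_mul]
  have hnd : ∀ z z' : Q.R × Q.R, (∀ y, Q.lam (Q.omr z (g y)) = Q.lam (Q.omr z' (g y))) →
      z = z' := by
    intro z z' h
    rw [← sub_eq_zero]
    apply Q.omr_surj_aux
    intro y
    obtain ⟨y, rfl⟩ := g.surjective y
    have : Q.omr (z - z') (g y) = Q.omr z (g y) - Q.omr z' (g y) := by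
      simp only [Pair.omr, Prod.fst_sub, Prod.snd_sub]; ring
    rw [this, map_sub, h, sub_self]
  set τ : P.R := P.le c d * (↑u⁻¹ : P.R) with hτdef
  have hτ : τ * P.le a b = P.le c d := by
    rw [hτdef, ← hu, mul_assoc, Units.inv_mul, mul_one]
  have hgt : ∀ x, g (τ • x) = Q.t • g x := by
    intro x
    apply hnd
    intro y
    rw [hB0]
    have e1 : Q.omr (Q.t • g x) (g y) = Q.t * Q.omr (g x) (g y) := by
      simp only [Pair.omr, Prod.smul_fst, Prod.smul_snd, smul_eq_mul]; ring
    rw [e1, hB1]
    congr 1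
    rw [← hτ]
    simp only [Pair.omr, Prod.smul_fst, Prod.smul_snd, smul_eq_mul]; ring
  have hgpoly : ∀ (q : (ZMod p)[X]) x, g (aeval τ q • x) = aeval Q.t q • g x := by
    intro q x
    induction q using Polynomial.induction_on' generalizing x with
    | add q r hq hr => rw [map_add, map_add, add_smul, add_smul, map_add, hq, hr]
    | monomial n s =>
      rw [aeval_monomial, aeval_monomial, mul_smul, mul_smul, algebraMap_smul, algebraMap_smul,
        map_smul]
      congr 1
      induction n generalizing x with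
      | zero => rw [pow_zero, pow_zero, one_smul, one_smul]
      | succ n ih =>
        rw [pow_succ, pow_succ, mul_smul (τ ^ n) τ x, ih, hgt, mul_smul (Q.t ^ n) Q.t]
  have hroot : eval₂ (algebraMap (ZMod p) P.R) τ Q.f = 0 := by
    have h1 := hgpoly Q.f (1, 0)
    have h2 : aeval Q.t Q.f = 0 := by
      have := AdjoinRoot.aeval_eq (f := Q.f) Q.f
      rw [AdjoinRoot.mk_self] at this
      exact this
    rw [h2, zero_smul] at h1
    have h3 := g.injective (h1.trans (map_zero g).symm)
    have h4 := congrArg Prod.fst h3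
    simp only [Prod.smul_fst, smul_eq_mul, mul_one, Prod.fst_zero] at h4
    exact h4
  have hkk : Q.k = P.k := by
    have : Module.Finite (ZMod p) P.R := Module.Finite.of_basis P.bas
    have : Module.Finite (ZMod p) Q.R := Module.Finite.of_basis Q.bas
    have h1 := g.finrank_eq
    rw [Module.finrank_prod, Module.finrank_prod, Module.finrank_eq_card_basis P.bas,
      Module.finrank_eq_card_basis Q.bas, Fintype.card_fin, Fintype.card_fin] at h1
    omega
  have h5 := P.mk_hsub Q.k Q.f le_rfl a b c d τ hτ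
  rw [hroot, zero_mul, AdjoinRoot.mk_eq_zero] at h5
  obtain ⟨κ, hκ⟩ := P.eq_C_mul_of_dvd h5 (by
    rw [← hkk]; exact hsub_natDegree _ _ _ _ _ _)
  refine ⟨hΔ, hkk, κ, Pair.kappa_ne_zero P Q hΔ hκ, ?_⟩
  rw [← hkk]
  exact hκ

namespace Two

theorem pi2_add (P : Pair 2) (hv : P.v = 1) (x y : P.R × P.R) :
    pi2 P (x + y) = pi2 P x + pi2 P y + P.BR x y := by
  have e : (x + y).1 * (x + y).2 = x.1 * x.2 + y.1 * y.2 + P.omr x y := by
    simp only [Pair.omr, Prod.fst_add, Prod.snd_add]
    linear_combination (x.2 * y.1) * two_eq_zero P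
  unfold pi2
  rw [e, Pair.BR_apply, lam_eq_res P hv, lam_eq_res P hv]
  ext k
  fin_cases k
  · change P.res (x.1 * x.2 + y.1 * y.2 + P.omr x y) = P.res (x.1 * x.2) + P.res (y.1 * y.2) +
      P.res (P.omr x y)
    rw [map_add, map_add]
  · change P.res (P.t * (x.1 * x.2 + y.1 * y.2 + P.omr x y)) + P.res (x + y).2 =
      P.res (P.t * (x.1 * x.2)) + P.res x.2 + (P.res (P.t * (y.1 * y.2)) + P.res y.2) +
      P.res (P.t * P.omr x y)
    rw [mul_add, mul_add, map_add, map_add, Prod.snd_add, map_add]
    ring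

/-- The isometry group is trivial. -/
theorem iso_trivial (P : Pair 2) (hv : P.v = 1) (hP : Squarefree P.f)
    (g : (P.R × P.R) ≃ₗ[ZMod 2] (P.R × P.R)) (hB : ∀ x y, P.BR (g x) (g y) = P.BR x y)
    (hπ : ∀ x, pi2 P (g x) = pi2 P x) : ∀ x, g x = x := by
  have hB0 : ∀ x y, P.lam (P.omr (g x) (g y)) = P.lam (P.omr x y) := by
    intro x y
    exact congrFun (hB x y) 0
  have hB1 : ∀ x y, P.lam (P.t * P.omr (g x) (g y)) = P.lam (P.t * P.omr x y) := by
    intro x y
    exact congrFun (hB x y) 1
  have hnd : ∀ z z' : P.R × P.R, (∀ y, P.lam (P.omr z (g y)) = P.lam (P.omr z' (g y))) →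
      z = z' := by
    intro z z' h
    rw [← sub_eq_zero]
    apply P.omr_surj_aux
    intro y
    obtain ⟨y, rfl⟩ := g.surjective y
    have : P.omr (z - z') (g y) = P.omr z (g y) - P.omr z' (g y) := by
      simp only [Pair.omr, Prod.fst_sub, Prod.snd_sub]; ring
    rw [this, map_sub, h, sub_self]
  have hgt : ∀ x, g (P.t • x) = P.t • g x := by
    intro x
    apply hnd
    intro y
    rw [hB0]
    have e1 : P.omr (P.t • g x) (g y) = P.t * P.omr (g x) (g y) := by
      simp only [Pair.omr, Prod.smul_fst, Prod.smul_snd, smul_eq_mul]; ring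
    rw [e1, hB1]
    congr 1
    simp only [Pair.omr, Prod.smul_fst, Prod.smul_snd, smul_eq_mul]; ring
  have hgR : ∀ (w : P.R) x, g (w • x) = w • g x := by
    intro w x
    obtain ⟨q, rfl⟩ := AdjoinRoot.mk_surjective w
    have e1 : (AdjoinRoot.mk P.f q : P.R) = aeval P.t q := (AdjoinRoot.aeval_eq q).symm
    rw [e1]
    induction q using Polynomial.induction_on' generalizing x with
    | add q r hq hr => rw [map_add, add_smul, add_smul, map_add,
        hq x (AdjoinRoot.aeval_eq q).symm, hr x (AdjoinRoot.aeval_eq r).symm]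
    | monomial n s =>
      rw [aeval_monomial, mul_smul, mul_smul, algebraMap_smul, algebraMap_smul, map_smul]
      congr 1
      clear e1
      induction n generalizing x with
      | zero => rw [pow_zero, one_smul, one_smul]
      | succ n ih => rw [pow_succ, mul_smul (P.t ^ n) P.t x, ih, hgt, mul_smul (P.t ^ n) P.t]
  set α := (g (1, 0)).1 with hα
  set γ := (g (1, 0)).2 with hγ
  set β := (g (0, 1)).1 with hβ
  set δ := (g (0, 1)).2 with hδ
  have hx : ∀ x : P.R × P.R, g x = (α * x.1 + β * x.2, γ * x.1 + δ * x.2) := by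
    intro x
    have e : x = x.1 • ((1, 0) : P.R × P.R) + x.2 • ((0, 1) : P.R × P.R) := by
      ext <;> simp
    conv_lhs => rw [e]
    rw [map_add, hgR, hgR]
    ext
    · simp only [Prod.fst_add, Prod.smul_fst, smul_eq_mul, ← hα, ← hβ]; ring
    · simp only [Prod.snd_add, Prod.smul_snd, smul_eq_mul, ← hγ, ← hδ]; ring
  have hdet : α * δ - β * γ = 1 := by
    apply P.lam_ext
    intro w
    have h1 := hB0 (w, 0) (0, 1)
    rw [hx, hx] at h1
    simp only [Pair.omr, mul_one, mul_zero, add_zero, zero_add, zero_mul, sub_zero] at h1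
    rw [one_mul, ← h1]
    congr 1
    ring
  have hπ0 : ∀ x, P.res ((g x).1 * (g x).2) = P.res (x.1 * x.2) := fun x => congrFun (hπ x) 0
  have hπ1 : ∀ x, P.res (P.t * ((g x).1 * (g x).2)) + P.res (g x).2 =
      P.res (P.t * (x.1 * x.2)) + P.res x.2 := fun x => congrFun (hπ x) 1
  have key : ∀ r : P.R, (∀ x, P.res (r * (x * x)) = 0) → r = 0 := by
    intro r hr
    apply P.res_ext
    intro w
    obtain ⟨x, rfl⟩ := sqrt_exists P hP w
    rw [hr, zero_mul, map_zero]
  have hαγ : α * γ = 0 := by
    apply key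
    intro x
    have h1 := hπ0 (x, 0)
    rw [hx] at h1
    simp only [mul_zero, add_zero, map_zero] at h1
    rw [← h1]
    congr 1
    ring
  have hγ0 : γ = 0 := by
    apply P.res_ext
    intro x
    have h1 := hπ1 (x, 0)
    rw [hx] at h1
    simp only [mul_zero, add_zero, map_zero] at h1
    have e : P.t * (α * x * (γ * x)) = 0 := by linear_combination (P.t * x * x) * hαγ
    rw [e, map_zero, zero_add] at h1
    rw [h1, zero_mul, map_zero]
  have hβδ : β * δ = 0 := by
    apply key
    intro x
    have h1 := hπ0 (0, x)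
    rw [hx] at h1
    simp only [mul_zero, zero_add, zero_mul, map_zero] at h1
    rw [← h1]
    congr 1
    ring
  have hδ1 : δ = 1 := by
    apply P.res_ext
    intro x
    have h1 := hπ1 (0, x)
    rw [hx] at h1
    simp only [mul_zero, zero_add, zero_mul, map_zero] at h1
    have e : P.t * (β * x * (δ * x)) = 0 := by linear_combination (P.t * x * x) * hβδ
    rw [e, map_zero, zero_add] at h1
    rw [h1, one_mul]
  have hβ0 : β = 0 := by rw [hδ1, mul_one] at hβδ; exact hβδ
  have hα1 : α = 1 := by rw [hδ1, hβ0, mul_one, zero_mul, sub_zero] at hdet; exact hdet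
  intro x
  rw [hx, hα1, hβ0, hγ0, hδ1]
  ext <;> simp

end Two

end Pool.Agent.Helper3.CM
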