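import Pool.Agent.Helper3.CM.RatDefs

open Polynomial

namespace Pool.Agent.Helper3.CM.Two

/-- Admissible polynomials over the field with two elements: squarefree, nonconstant, without
roots. -/
def Adm (f : (ZMod 2)[X]) : Prop :=
  Squarefree f ∧ 0 < f.natDegree ∧ ∀ a : ZMod 2, f.eval a ≠ 0

/-- `s_j`: the coefficient of `X^(k-1)` in the remainder of `X^j` modulo `f`, `k = deg f`. -/
noncomputable def sCoef (f : (ZMod 2)[X]) (j : ℕ) : ZMod 2 := (X ^ j %ₘ f).coeff (f.natDegree - 1)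

/-- The commutator map: the components are `sum s_(i+j) (a_i b'_j - a'_i b_j)` and
`sum s_(i+j+1) (a_i b'_j - a'_i b_j)`, where `x = (a, b)`, `y = (a', b')`. -/
noncomputable def comm2 (f : (ZMod 2)[X]) (x y : Vec 2 (f.natDegree + f.natDegree)) : Vec 2 2 :=
  fun l => ∑ i : Fin f.natDegree, ∑ j : Fin f.natDegree, sCoef f (i + j + l) *
    (x (Fin.castAdd f.natDegree i) * y (Fin.natAdd f.natDegree j) -
      y (Fin.castAdd f.natDegree i) * x (Fin.natAdd f.natDegree j))

/-- The squaring map: `(a, b)` goes to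
`(sum s_(i+j) a_i b_j, sum s_(i+j+1) a_i b_j + sum s_j b_j)`. -/
noncomputable def sq2 (f : (ZMod 2)[X]) (x : Vec 2 (f.natDegree + f.natDegree)) : Vec 2 2 :=
  ![∑ i : Fin f.natDegree, ∑ j : Fin f.natDegree, sCoef f (i + j) *
      (x (Fin.castAdd f.natDegree i) * x (Fin.natAdd f.natDegree j)),
    ∑ i : Fin f.natDegree, ∑ j : Fin f.natDegree, sCoef f (i + j + 1) *
      (x (Fin.castAdd f.natDegree i) * x (Fin.natAdd f.natDegree j)) +
      ∑ j : Fin f.natDegree, sCoef f j * x (Fin.natAdd f.natDegree j)]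

/-- The group `G` realises `f`: it is an extension of `F_2^(2k)` by `F_2^2` with commutator map
`comm2 f` and squaring map `sq2 f`. -/
def Realises2 (f : (ZMod 2)[X]) (G : Type) [Group G] : Prop :=
  ∃ (ρ : G → Vec 2 (f.natDegree + f.natDegree)) (ι : Vec 2 2 → G),
    (∀ g h, ρ (g * h) = ρ g + ρ h) ∧ (∀ a b, ι (a + b) = ι a * ι b) ∧
    Function.Surjective ρ ∧ Function.Injective ι ∧ (∀ g, ρ g = 0 ↔ ∃ w, ι w = g) ∧
    (∀ g h, g * h = ι (comm2 f (ρ g) (ρ h)) * (h * g)) ∧ (∀ g, g ^ 2 = ι (sq2 f (ρ g)))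

/-- The invertible matrix `(a, b; c, d)` carries `f` to `g`:
`f(X) = (a + b X)^k g((c + d X) / (a + b X))`, where `k = deg f = deg g`. -/
def Rel2 (a b c d : ZMod 2) (f g : (ZMod 2)[X]) : Prop :=
  a * d - b * c ≠ 0 ∧ g.natDegree = f.natDegree ∧
    hsub f.natDegree g (C a + C b * X) (C c + C d * X) = f

end Pool.Agent.Helper3.CM.Two
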