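import Pool.Agent.Helper3.CM.T5
import Pool.Agent.Helper3.CM.TwoDefs

open Polynomial

namespace Pool.Agent.Helper3.CM

theorem exists_kmap {p : ℕ} [Fact p.Prime] {a b c d : ZMod p} (hΔ : a * d - b * c ≠ 0) :
    ∃ k : Vec p 2 ≃ₗ[ZMod p] Vec p 2, ∀ w, k w = ![a * w 0 + b * w 1, c * w 0 + d * w 1] := by
  let k₀ : Vec p 2 →ₗ[ZMod p] Vec p 2 :=
    { toFun := fun w => ![a * w 0 + b * w 1, c * w 0 + d * w 1]
      map_add' := by
        intro x y
        ext i
        fin_cases i <;> simp <;> ring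
      map_smul' := by
        intro s x
        ext i
        fin_cases i <;> simp <;> ring }
  have hk₀ : ∀ w, k₀ w = ![a * w 0 + b * w 1, c * w 0 + d * w 1] := fun w => rfl
  have hkinj : Function.Injective k₀ := by
    rw [injective_iff_map_eq_zero]
    intro w hw
    rw [hk₀] at hw
    have e0 : a * w 0 + b * w 1 = 0 := congrFun hw 0
    have e1 : c * w 0 + d * w 1 = 0 := congrFun hw 1
    have f0 : (a * d - b * c) * w 0 = 0 := by linear_combination d * e0 - b * e1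
    have f1 : (a * d - b * c) * w 1 = 0 := by linear_combination a * e1 - c * e0
    ext i
    fin_cases i
    · exact (mul_eq_zero.1 f0).resolve_left hΔ
    · exact (mul_eq_zero.1 f1).resolve_left hΔ
  exact ⟨LinearEquiv.ofInjectiveEndo k₀ hkinj, hk₀⟩

namespace Two

theorem eq_one {κ : ZMod 2} (h : κ ≠ 0) : κ = 1 := by
  revert κ; decide

theorem equiv_to_rel2 (P Q : Pair 2) (g : (P.R × P.R) ≃ₗ[ZMod 2] (Q.R × Q.R))
    (k : Vec 2 2 ≃ₗ[ZMod 2] Vec 2 2) (hB : ∀ x y, Q.BR (g x) (g y) = k (P.BR x y))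
    {a b c d : ZMod 2} (hk : ∀ w, k w = ![a * w 0 + b * w 1, c * w 0 + d * w 1]) :
    Rel2 a b c d P.f Q.f := by
  obtain ⟨h1, h2, κ, h3, h4⟩ := moebius_of_equiv P Q g k hB hk
  rw [eq_one h3, C_1, one_mul] at h4
  exact ⟨h1, h2, h4⟩

theorem pair_ext {P Q : Pair 2} (h1 : P.f = Q.f) (h2 : P.v = Q.v) : P = Q := by
  cases P; cases Q
  cases h1; cases h2
  rfl

theorem rel_to_equiv2 (P Q : Pair 2) (hPv : P.v = 1) (hQv : Q.v = 1) (hQ : Squarefree Q.f)
    {a b c d : ZMod 2} (h : Rel2 a b c d P.f Q.f) :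
    ∃ (g : (P.R × P.R) ≃ₗ[ZMod 2] (Q.R × Q.R)) (k : Vec 2 2 ≃ₗ[ZMod 2] Vec 2 2),
      (∀ x y, Q.BR (g x) (g y) = k (P.BR x y)) ∧ (∀ x, pi2 Q (g x) = k (pi2 P x)) ∧
      ∀ w, k w = ![a * w 0 + b * w 1, c * w 0 + d * w 1] := by
  obtain ⟨k, hk⟩ := exists_kmap h.1
  let B' : (Q.R × Q.R) →ₗ[ZMod 2] (Q.R × Q.R) →ₗ[ZMod 2] Vec 2 2 :=
    LinearMap.compr₂ Q.BR k.symm.toLinearMap
  have hB' : ∀ x y, B' x y = k.symm (Q.BR x y) := fun _ _ => rfl
  let π' : Q.R × Q.R → Vec 2 2 := fun x => k.symm (pi2 Q x)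
  have : Module.Finite (ZMod 2) Q.R := Module.Finite.of_basis Q.bas
  have : Finite Q.R := Module.finite_of_finite (ZMod 2)
  have := Q.nontrivial_R
  have halt : ∀ x, B' x x = 0 := by
    intro x
    rw [hB', Q.BR_self, map_zero]
  have honto : ∀ x, x ≠ 0 → Function.Surjective (B' x) := by
    intro x hx w
    obtain ⟨y, hy⟩ := Q.BR_surj x hx (k w)
    exact ⟨y, by rw [hB', hy, LinearEquiv.symm_apply_apply]⟩
  obtain ⟨M, hM, hadj, hself, hnoeig, hdual⟩ := exists_M B' halt honto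
  have S : Setup B' M π' :=
    { alt := halt
      onto := honto
      hM := hM
      adj := hadj
      self := hself
      noeig := hnoeig
      dual := hdual
      quad := by
        intro x y
        change k.symm (pi2 Q (x + y)) = k.symm (pi2 Q x) + k.symm (pi2 Q y) + B' x y
        rw [pi2_add Q hQv, map_add, map_add, hB']
      rig := by
        intro g h1 h2
        refine iso_trivial Q hQv hQ g (fun x y => ?_) (fun x => ?_)
        · have := h1 x y
          rw [hB', hB'] at this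
          exact k.symm.injective this
        · exact k.symm.injective (h2 x) }
  obtain ⟨P', φ, hP'v, hP'sq, hφ1, hφ2⟩ := normal_form2 S
  have e1 : ∀ x y, Q.BR (φ x) (φ y) = k (P'.BR x y) := by
    intro x y
    rw [← hφ1, hB', LinearEquiv.apply_symm_apply]
  have e2 : ∀ x, pi2 Q (φ x) = k (pi2 P' x) := by
    intro x
    rw [← hφ2]
    change _ = k (k.symm _)
    rw [LinearEquiv.apply_symm_apply]
  have h' := equiv_to_rel2 P' Q φ k e1 hk
  have hPP' : P' = P := by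
    apply pair_ext
    · have hd : P'.f.natDegree = P.f.natDegree := h'.2.1.symm.trans h.2.1
      rw [← h'.2.2, ← h.2.2, hd]
    · rw [hP'v, hPv]
  subst hPP'
  exact ⟨φ, k, e1, e2, hk⟩

theorem equiv_iff2 (P Q : Pair 2) (hPv : P.v = 1) (hQv : Q.v = 1) (hQ : Squarefree Q.f) :
    (∃ (g : (P.R × P.R) ≃ₗ[ZMod 2] (Q.R × Q.R)) (k : Vec 2 2 ≃ₗ[ZMod 2] Vec 2 2),
      (∀ x y, Q.BR (g x) (g y) = k (P.BR x y)) ∧ ∀ x, pi2 Q (g x) = k (pi2 P x)) ↔
    ∃ a b c d, Rel2 a b c d P.f Q.f := by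
  constructor
  · rintro ⟨g, k, h1, h2⟩
    exact ⟨_, _, _, _, equiv_to_rel2 P Q g k h1 (Pair.lin2 k)⟩
  · rintro ⟨a, b, c, d, h⟩
    obtain ⟨g, k, h1, h2, _⟩ := rel_to_equiv2 P Q hPv hQv hQ h
    exact ⟨g, k, h1, h2⟩

theorem rigid_iff_free2 (P : Pair 2) (hPv : P.v = 1) (hP : Squarefree P.f) :
    Rigid P.BR (pi2 P) ↔ ∀ a b c d, Rel2 a b c d P.f P.f → a = 1 ∧ b = 0 ∧ c = 0 ∧ d = 1 := by
  constructor
  · intro hR a b c d h
    obtain ⟨g, k, h1, h2, h3⟩ := rel_to_equiv2 P P hPv hPv hP h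
    have hg := hR g k h1 h2
    have hk : ∀ w, k w = w := by
      intro w
      have hne : ((1, 0) : P.R × P.R) ≠ 0 := by
        intro h
        have h4 := congrArg Prod.fst h
        simp only [Prod.fst_zero] at h4
        have := P.nontrivial_R
        exact one_ne_zero h4
      obtain ⟨y, rfl⟩ := P.BR_surj _ hne w
      rw [← h1, hg, hg]
    have e1 := hk ![1, 0]
    have e2 := hk ![0, 1]
    rw [h3] at e1 e2
    have f1 := congrFun e1 0
    have f2 := congrFun e1 1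
    have f3 := congrFun e2 0
    have f4 := congrFun e2 1
    simp at f1 f2 f3 f4
    exact ⟨f1, f3, f2, f4⟩
  · intro hF g k h1 h2
    obtain ⟨ea, eb, ec, ed⟩ := hF _ _ _ _ (equiv_to_rel2 P P g k h1 (Pair.lin2 k))
    have hk : ∀ w, k w = w := by
      intro w
      rw [Pair.lin2 k w, ea, eb, ec, ed]
      ext i
      fin_cases i <;> simp
    exact iso_trivial P hPv hP g (fun x y => by rw [h1, hk]) (fun x => by rw [h2, hk])

end Two

end Pool.Agent.Helper3.CM
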