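import Pool.Agent.Helper3.CM.T6

open Polynomial

namespace Pool.Agent.Helper3.CM

namespace Two

/-- the pair of an admissible polynomial -/
noncomputable def pairOf (f : (ZMod 2)[X]) (hf : Adm f) : Pair 2 :=
  onePair f (monic_of_ne_zero hf.1.ne_zero) hf.2.1 hf.2.2

variable {f : (ZMod 2)[X]} (hf : Adm f)

theorem pairOf_f : (pairOf f hf).f = f := rfl

theorem pairOf_v : (pairOf f hf).v = 1 := rfl

omit hf in
theorem sCoef_eq (P : Pair 2) (hv : P.v = 1) (j : ℕ) : sCoef P.f j = P.s j := by
  unfold Pair.s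
  rw [hv, mul_one]
  rfl

omit hf in
theorem comm2_eq (P : Pair 2) (hv : P.v = 1) (x y : Vec 2 (P.k + P.k)) :
    comm2 P.f x y = P.BR (P.cmap x) (P.cmap y) := by
  refine Eq.trans ?_ (P.B_eq x y)
  ext l
  unfold comm2 Pair.B
  refine Finset.sum_congr rfl fun i _ => Finset.sum_congr rfl fun j _ => ?_
  rw [sCoef_eq P hv]
  rfl

theorem prod_eq (P : Pair 2) (hv : P.v = 1) (x : Vec 2 (P.k + P.k)) (l : ℕ) :
    P.res (P.t ^ l * ((P.cmap x).1 * (P.cmap x).2)) =
      ∑ i : Fin P.k, ∑ j : Fin P.k, P.s (i + j + l) *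
        (x (Fin.castAdd P.k i) * x (Fin.natAdd P.k j)) := by
  have e1 : P.t ^ l * ((P.cmap x).1 * (P.cmap x).2) = ∑ i : Fin P.k, ∑ j : Fin P.k,
      (x (Fin.castAdd P.k i) * x (Fin.natAdd P.k j)) • P.t ^ ((i : ℕ) + j + l) := by
    simp only [Pair.cmap_apply, Pair.e0_apply]
    rw [Finset.sum_mul_sum, Finset.mul_sum]
    refine Finset.sum_congr rfl fun i _ => ?_
    rw [Finset.mul_sum]
    refine Finset.sum_congr rfl fun j _ => ?_
    rw [smul_mul_smul_comm, mul_smul_comm, ← pow_add, ← pow_add, add_comm l]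
  rw [e1, map_sum]
  refine Finset.sum_congr rfl fun i _ => ?_
  rw [map_sum]
  refine Finset.sum_congr rfl fun j _ => ?_
  rw [map_smul, smul_eq_mul, Pair.s_eq, lam_eq_res P hv, mul_comm]

theorem res_e0 (P : Pair 2) (hv : P.v = 1) (z : Vec 2 P.k) :
    P.res (P.e0 z) = ∑ j : Fin P.k, P.s j * z j := by
  rw [Pair.e0_apply, map_sum]
  refine Finset.sum_congr rfl fun j _ => ?_
  rw [map_smul, smul_eq_mul, Pair.s_eq, lam_eq_res P hv, mul_comm]

omit hf in
theorem sq2_eq (P : Pair 2) (hv : P.v = 1) (x : Vec 2 (P.k + P.k)) :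
    sq2 P.f x = pi2 P (P.cmap x) := by
  have k0 := prod_eq P hv x 0
  have k1 := prod_eq P hv x 1
  have k2 := res_e0 P hv (fun i => x (Fin.natAdd P.k i))
  rw [pow_zero, one_mul] at k0
  rw [pow_one] at k1
  unfold sq2 pi2
  ext l
  fin_cases l
  · change (∑ i : Fin P.k, ∑ j : Fin P.k, sCoef P.f (i + j) *
      (x (Fin.castAdd P.k i) * x (Fin.natAdd P.k j))) = P.res ((P.cmap x).1 * (P.cmap x).2)
    rw [k0]
    refine Finset.sum_congr rfl fun i _ => Finset.sum_congr rfl fun j _ => ?_
    rw [sCoef_eq P hv]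
    rfl
  · change (∑ i : Fin P.k, ∑ j : Fin P.k, sCoef P.f (i + j + 1) *
      (x (Fin.castAdd P.k i) * x (Fin.natAdd P.k j))) +
      (∑ j : Fin P.k, sCoef P.f j * x (Fin.natAdd P.k j)) =
      P.res (P.t * ((P.cmap x).1 * (P.cmap x).2)) +
      P.res (P.e0 (fun i => x (Fin.natAdd P.k i)))
    rw [k1, k2]
    refine congrArg₂ (fun a b : ZMod 2 => a + b) ?_ ?_
    · refine Finset.sum_congr rfl fun i _ => Finset.sum_congr rfl fun j _ => ?_
      rw [sCoef_eq P hv]
    · refine Finset.sum_congr rfl fun i _ => ?_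
      rw [sCoef_eq P hv]

omit hf in
theorem realises2_iff' (P : Pair 2) (hv : P.v = 1) (G : Type) [Group G] :
    Realises2 P.f G ↔ Nonempty (Real G P.BR (pi2 P)) := by
  constructor
  · rintro ⟨ρ, ι, h1, h2, h3, h4, h5, h6, h7⟩
    exact ⟨{
      ρ := fun g => P.cmap (ρ g)
      ι := ι
      ρ_mul := fun g h => (congrArg P.cmap (h1 g h)).trans (map_add P.cmap _ _)
      ι_add := h2
      ρ_surj := P.cmap.surjective.comp h3
      ι_inj := h4
      exact := fun g => ((LinearEquiv.map_eq_zero_iff P.cmap).trans (h5 g))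
      comm := fun g h => (h6 g h).trans
        (congrArg (fun z => ι z * (h * g)) (comm2_eq P hv (ρ g) (ρ h)))
      pow := fun g => (h7 g).trans (congrArg ι (sq2_eq P hv (ρ g))) }⟩
  · rintro ⟨R⟩
    refine ⟨fun g => P.cmap.symm (R.ρ g), R.ι,
      fun g h => (congrArg _ (R.ρ_mul g h)).trans (map_add P.cmap.symm _ _), R.ι_add,
      P.cmap.symm.surjective.comp R.ρ_surj, R.ι_inj,
      fun g => ((LinearEquiv.map_eq_zero_iff P.cmap.symm).trans (R.exact g)),
      fun g h => ?_, fun g => ?_⟩
    · have e : comm2 P.f (P.cmap.symm (R.ρ g)) (P.cmap.symm (R.ρ h)) = P.BR (R.ρ g) (R.ρ h) :=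
        (comm2_eq P hv _ _).trans (by
          rw [LinearEquiv.apply_symm_apply, LinearEquiv.apply_symm_apply])
      exact (R.comm g h).trans (congrArg (fun z => R.ι z * (h * g)) e.symm)
    · have e : sq2 P.f (P.cmap.symm (R.ρ g)) = pi2 P (R.ρ g) :=
        (sq2_eq P hv _).trans (by rw [LinearEquiv.apply_symm_apply])
      exact (R.pow g).trans (congrArg R.ι e.symm)

theorem realises2_iff (G : Type) [Group G] :
    Realises2 f G ↔ Nonempty (Real G (pairOf f hf).BR (pi2 (pairOf f hf))) :=
  realises2_iff' (pairOf f hf) (pairOf_v hf) G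

theorem classification2 :
    (∀ (G : Type) [Group G] [Finite G],
      (IsPGroup 2 G ∧ IsCamina G ∧ IsMiller G ∧ Nat.card (commutator G) = 4) ↔
        ∃ f : (ZMod 2)[X], Adm f ∧
          (∀ a b c d, Rel2 a b c d f f → a = 1 ∧ b = 0 ∧ c = 0 ∧ d = 1) ∧ Realises2 f G) ∧
    (∀ f : (ZMod 2)[X], Adm f → ∃ (G : Type) (_ : Group G), Realises2 f G ∧
      Nat.card G = 2 ^ (2 * f.natDegree + 2)) ∧
    (∀ (f g : (ZMod 2)[X]) (G H : Type) [Group G] [Group H], Adm f → Adm g → Realises2 f G →
      Realises2 g H → (Nonempty (G ≃* H) ↔ ∃ a b c d, Rel2 a b c d f g)) := by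
  refine ⟨?_, ?_, ?_⟩
  · intro G _ _
    constructor
    · rintro ⟨h1, h2, h3, h4⟩
      obtain ⟨m', n', B, π, hm0, hn0, hs, ⟨R⟩⟩ := exists_real h1 h2 h3
      have : Nonempty (Fin m') := ⟨⟨0, hm0⟩⟩
      have : Nonempty (Fin n') := ⟨⟨0, hn0⟩⟩
      have en : n' = 2 := by
        have := R.card_W hs
        rw [h4, Nat.card_eq_fintype_card, Fintype.card_fun, ZMod.card, Fintype.card_fin] at this
        have h5 : 2 ^ 2 = 2 ^ n' := this
        exact (Nat.pow_right_injective le_rfl h5).symm
      subst en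
      have hR : Rigid B π := (miller_iff_rigid R hs).1 h3
      obtain ⟨M, hM, hadj, hself, hnoeig, hdual⟩ := exists_M B R.B_self hs
      have S : Setup B M π :=
        { alt := R.B_self
          onto := hs
          hM := hM
          adj := hadj
          self := hself
          noeig := hnoeig
          dual := hdual
          quad := by
            intro x y
            have e : B y x = B x y := by
              rw [neg_of_alt R.B_self]
              ext k
              exact ZMod.neg_eq_self_mod_two _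
            rw [R.π_add, e]
            congr 1
            rw [Nat.choose_self, one_smul]
          rig := fun g h1 h2 => hR g (LinearEquiv.refl _ _) h1 h2 }
      obtain ⟨P, φ, hPv, hPsq, hφ1, hφ2⟩ := normal_form2 S
      have hAdm : Adm P.f := ⟨hPsq, P.k_pos, P.noroot⟩
      have hPP : pairOf P.f hAdm = P := pair_ext rfl hPv.symm
      refine ⟨P.f, hAdm, (rigid_iff_free2 P hPv hPsq).1 ?_, (realises2_iff hAdm G).2 ?_⟩
      · exact rigid_transport φ (LinearEquiv.refl _ _) hφ1 hφ2 hR
      · rw [hPP]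
        exact ⟨{
          ρ := fun g => φ.symm (R.ρ g)
          ι := R.ι
          ρ_mul := fun g h => by rw [R.ρ_mul, map_add]
          ι_add := R.ι_add
          ρ_surj := φ.symm.surjective.comp R.ρ_surj
          ι_inj := R.ι_inj
          exact := fun g => by rw [LinearEquiv.map_eq_zero_iff, R.exact]
          comm := fun g h => by
            rw [← hφ1, LinearEquiv.apply_symm_apply, LinearEquiv.apply_symm_apply]
            exact R.comm g h
          pow := fun g => by
            rw [← hφ2, LinearEquiv.apply_symm_apply]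
            exact R.pow g }⟩
    · rintro ⟨f, hf, hfree, hG⟩
      obtain ⟨R⟩ := (realises2_iff hf G).1 hG
      have := (pairOf f hf).nontrivial_R
      refine ⟨R.isPGroup, R.isCamina (pairOf f hf).BR_surj,
        (miller_iff_rigid R (pairOf f hf).BR_surj).2
        ((rigid_iff_free2 (pairOf f hf) (pairOf_v hf) hf.1).2 hfree), ?_⟩
      rw [R.card_W (pairOf f hf).BR_surj, Nat.card_eq_fintype_card, Fintype.card_fun, ZMod.card,
        Fintype.card_fin]
      rfl
  · intro f hf
    set P := pairOf f hf with hP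
    have : Module.Finite (ZMod 2) P.R := Module.Finite.of_basis P.bas
    have : Finite P.R := Module.finite_of_finite (ZMod 2)
    have := P.nontrivial_R
    let b := Module.finBasis (ZMod 2) (P.R × P.R)
    let R := realize b P.BR (pi2 P) P.BR_self (by
      intro x y
      rw [pi2_add P (pairOf_v hf), neg_of_alt P.BR_self x y]
      congr 1
      ext k
      rw [Nat.choose_self, one_smul]
      exact ZMod.neg_eq_self_mod_two _)
    refine ⟨Ext (coc b P.BR (pi2 P)), inferInstance, (realises2_iff hf _).2 ⟨R⟩, ?_⟩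
    have e1 := R.index_V P.BR_surj
    have e2 := R.card_W P.BR_surj
    rw [← Subgroup.card_mul_index (commutator (Ext (coc b P.BR (pi2 P)))), e1, e2,
      Nat.card_prod, Module.natCard_eq_pow_finrank (K := ZMod 2) (V := P.R),
      Module.finrank_eq_card_basis P.bas, Fintype.card_fin, Nat.card_eq_fintype_card,
      Nat.card_eq_fintype_card, Fintype.card_fun, ZMod.card, Fintype.card_fin]
    have : P.k = f.natDegree := rfl
    rw [this]
    ring
  · intro f g G H _ _ hf hg hG hH
    obtain ⟨R⟩ := (realises2_iff hf G).1 hG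
    obtain ⟨S⟩ := (realises2_iff hg H).1 hH
    have := (pairOf f hf).nontrivial_R
    have := (pairOf g hg).nontrivial_R
    rw [iso_iff R S (pairOf f hf).BR_surj (pairOf g hg).BR_surj]
    exact equiv_iff2 (pairOf f hf) (pairOf g hg) (pairOf_v hf) (pairOf_v hg) hg.1

end Two

end Pool.Agent.Helper3.CM
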