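import Pool.Agent.Helper3.CM.T7

open Polynomial

namespace Pool.Agent.Helper3.CM

namespace Two

theorem hsub_add (n : ℕ) (g h e e' : (ZMod 2)[X]) :
    hsub n (g + h) e e' = hsub n g e e' + hsub n h e e' := by
  unfold hsub
  rw [← Finset.sum_add_distrib]
  refine Finset.sum_congr rfl fun i _ => ?_
  rw [coeff_add, C_add]
  ring

theorem hsub_pow (n j : ℕ) (hj : j ≤ n) (e e' : (ZMod 2)[X]) :
    hsub n (X ^ j) e e' = e' ^ j * e ^ (n - j) := by
  unfold hsub
  rw [Finset.sum_eq_single j]
  · rw [coeff_X_pow, if_pos rfl, C_1, one_mul]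
  · intro i _ hij
    rw [coeff_X_pow, if_neg hij, C_0, zero_mul, zero_mul]
  · intro h
    exact absurd (Finset.mem_range.2 (by omega)) h

theorem hsub_tri (n j : ℕ) (hj : j ≤ n) (e e' : (ZMod 2)[X]) :
    hsub n (X ^ n + X ^ j + 1) e e' = e' ^ n + e' ^ j * e ^ (n - j) + e ^ n := by
  have h0 : (1 : (ZMod 2)[X]) = X ^ 0 := by rw [pow_zero]
  rw [hsub_add, hsub_add, hsub_pow n n le_rfl, hsub_pow n j hj, h0, hsub_pow n 0 (Nat.zero_le _),
    Nat.sub_self, pow_zero, pow_zero, Nat.sub_zero]
  ring

theorem cases_GL (a b c d : ZMod 2) (h : a * d - b * c ≠ 0) :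
    (a = 1 ∧ b = 0 ∧ c = 0 ∧ d = 1) ∨ (a = 1 ∧ b = 0 ∧ c = 1 ∧ d = 1) ∨
    (a = 1 ∧ b = 1 ∧ c = 0 ∧ d = 1) ∨ (a = 0 ∧ b = 1 ∧ c = 1 ∧ d = 0) ∨
    (a = 1 ∧ b = 1 ∧ c = 1 ∧ d = 0) ∨ (a = 0 ∧ b = 1 ∧ c = 1 ∧ d = 1) := by
  revert a b c d; decide

/-- criterion for trivial stabiliser -/
theorem free_of {f : (ZMod 2)[X]}
    (h1 : hsub f.natDegree f 1 (1 + X) ≠ f) (h2 : hsub f.natDegree f (1 + X) X ≠ f)
    (h3 : hsub f.natDegree f X 1 ≠ f) (h4 : hsub f.natDegree f (1 + X) 1 ≠ f)
    (h5 : hsub f.natDegree f X (1 + X) ≠ f) (a b c d : ZMod 2) (h : Rel2 a b c d f f) :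
    a = 1 ∧ b = 0 ∧ c = 0 ∧ d = 1 := by
  obtain ⟨hd, -, h⟩ := h
  rcases cases_GL a b c d hd with h' | h' | h' | h' | h' | h'
  · exact h'
  all_goals
    exfalso
    obtain ⟨rfl, rfl, rfl, rfl⟩ := h'
    simp only [C_0, C_1, zero_mul, one_mul, add_zero, zero_add] at h
  · exact h1 h
  · exact h2 h
  · exact h3 h
  · exact h4 h
  · exact h5 h

theorem tri_natDegree (n j : ℕ) (hj : j < n) (_hj0 : 0 < j) :
    (X ^ n + X ^ j + 1 : (ZMod 2)[X]).natDegree = n := by
  rw [add_assoc]
  apply natDegree_eq_of_le_of_coeff_ne_zero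
  · compute_degree!
    omega
  · rw [coeff_add, coeff_X_pow_self, coeff_add, coeff_X_pow, if_neg (by omega), coeff_one,
      if_neg (by omega), add_zero, add_zero]
    exact one_ne_zero

theorem tri_noroot (n j : ℕ) (hn : 0 < n) (hj : 0 < j) (a : ZMod 2) :
    (X ^ n + X ^ j + 1 : (ZMod 2)[X]).eval a ≠ 0 := by
  simp only [eval_add, eval_pow, eval_X, eval_one]
  have h : ∀ a : ZMod 2, a = 0 ∨ a = 1 := by decide
  rcases h a with rfl | rfl
  · rw [zero_pow hn.ne', zero_pow hj.ne']; decide
  · rw [one_pow, one_pow]; decide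

theorem adm_odd (k : ℕ) (hk : 5 ≤ k) (ho : Odd k) : Adm (X ^ k + X ^ 2 + 1 : (ZMod 2)[X]) := by
  refine ⟨?_, ?_, ?_⟩
  · apply Separable.squarefree
    obtain ⟨l, rfl⟩ := ho
    unfold Separable
    have hd : derivative (X ^ (2 * l + 1) + X ^ 2 + 1 : (ZMod 2)[X]) = X ^ (2 * l) := by
      simp only [derivative_add, derivative_X_pow, derivative_one]
      have e1 : ((2 * l + 1 : ℕ) : ZMod 2) = 1 := by
        push_cast
        rw [show (2 : ZMod 2) = 0 from rfl]; ring
      rw [e1, show ((2 : ℕ) : ZMod 2) = 0 from rfl]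
      simp
    rw [hd]
    apply IsCoprime.pow_right
    exact ⟨1, - (X ^ (2 * l) + X), by ring⟩
  · rw [tri_natDegree k 2 (by omega) (by omega)]; omega
  · exact tri_noroot k 2 (by omega) (by omega)

theorem adm_even (k : ℕ) (hk : 8 ≤ k) (he : Even k) : Adm (X ^ k + X ^ 3 + 1 : (ZMod 2)[X]) := by
  refine ⟨?_, ?_, ?_⟩
  · apply Separable.squarefree
    obtain ⟨l, rfl⟩ := he
    unfold Separable
    have hd : derivative (X ^ (l + l) + X ^ 3 + 1 : (ZMod 2)[X]) = X ^ 2 := by
      simp only [derivative_add, derivative_X_pow, derivative_one]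
      have e1 : ((l + l : ℕ) : ZMod 2) = 0 := by
        push_cast
        exact CharTwo.add_self_eq_zero _
      rw [e1, show ((3 : ℕ) : ZMod 2) = 1 from rfl]
      simp
    rw [hd]
    apply IsCoprime.pow_right
    have : (X ^ (l + l) : (ZMod 2)[X]) = X ^ (l + l - 1) * X := by
      rw [← pow_succ]; congr 1; omega
    exact ⟨1, - (X ^ (l + l - 1) + X ^ 2), by rw [this]; ring⟩
  · rw [tri_natDegree k 3 (by omega) (by omega)]; omega
  · exact tri_noroot k 3 (by omega) (by omega)

theorem adm_six : Adm (X ^ 6 + X ^ 1 + 1 : (ZMod 2)[X]) := by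
  refine ⟨?_, ?_, ?_⟩
  · apply Separable.squarefree
    unfold Separable
    have hd : derivative (X ^ 6 + X ^ 1 + 1 : (ZMod 2)[X]) = 1 := by
      simp only [derivative_add, derivative_X_pow, derivative_one]
      rw [show ((6 : ℕ) : ZMod 2) = 0 from rfl]
      simp
    rw [hd]
    exact isCoprime_one_right
  · rw [tri_natDegree 6 1 (by omega) (by omega)]; omega
  · exact tri_noroot 6 1 (by omega) (by omega)

theorem opX (n k : ℕ) : ((1 + X : (ZMod 2)[X]) ^ n).coeff k = (n.choose k : ZMod 2) :=
  coeff_one_add_X_pow _ _ _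

theorem free_odd (k : ℕ) (hk : 5 ≤ k) (ho : Odd k) (a b c d : ZMod 2)
    (h : Rel2 a b c d (X ^ k + X ^ 2 + 1) (X ^ k + X ^ 2 + 1)) :
    a = 1 ∧ b = 0 ∧ c = 0 ∧ d = 1 := by
  have hd := tri_natDegree k 2 (by omega) (by omega)
  have hk1 : ((k : ℕ) : ZMod 2) = 1 := by
    rw [ZMod.natCast_eq_one_iff_odd]; exact ho
  refine free_of ?_ ?_ ?_ ?_ ?_ a b c d h
  all_goals
    rw [hd, hsub_tri k 2 (by omega)]
    intro h
  · have := congrArg (fun g => coeff g 1) h
    simp only [one_pow, mul_one, coeff_add, opX, coeff_X_pow, coeff_one, Nat.choose_one_right] at this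
    rw [hk1, if_neg (by omega), if_neg (by omega), if_neg (by omega)] at this
    revert this; decide
  · have := congrArg (fun g => coeff g 1) h
    simp only [one_pow, mul_one, coeff_add, opX, coeff_X_pow, coeff_one, Nat.choose_one_right,
      coeff_X_pow_mul'] at this
    rw [hk1, if_neg (by omega), if_neg (by omega), if_neg (by omega), if_neg (by omega)] at this
    revert this; decide
  · have := congrArg (fun g => coeff g (k - 2)) h
    simp only [one_pow, one_mul, coeff_add, coeff_X_pow, coeff_one] at this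
    rw [if_neg (by omega), if_pos trivial, if_neg (by omega), if_neg (by omega)] at this
    revert this; decide
  · have := congrArg (fun g => coeff g 3) h
    have e : (1 : (ZMod 2)[X]) ^ k + 1 ^ 2 * (1 + X) ^ (k - 2) + (1 + X) ^ k =
        1 + X ^ 2 * (1 + X) ^ (k - 2) := by
      have e1 : (1 + X : (ZMod 2)[X]) ^ k = (1 + X) ^ (k - 2) * (1 + X) ^ 2 := by
        rw [← pow_add]; congr 1; omega
      rw [e1]
      have e2 : (2 : (ZMod 2)[X]) = 0 := CharTwo.two_eq_zero
      linear_combination ((1 + X) ^ (k - 2) * (1 + X)) * e2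
    rw [e] at this
    simp only [coeff_add, coeff_X_pow, coeff_one, coeff_X_pow_mul', opX] at this
    rw [if_neg (by omega), if_pos (by omega), if_neg (by omega), if_neg (by omega)] at this
    rw [show 3 - 2 = 1 from rfl, Nat.choose_one_right, Nat.cast_sub (by omega), hk1] at this
    revert this; decide
  · have := congrArg (fun g => coeff g 1) h
    simp only [coeff_add, coeff_X_pow, coeff_one, opX, coeff_mul_X_pow', Nat.choose_one_right] at this
    rw [hk1, if_neg (by omega), if_neg (by omega), if_neg (by omega), if_neg (by omega)] at this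
    revert this; decide

theorem choose_pred (k : ℕ) (hk : 1 ≤ k) : k.choose (k - 1) = k := by
  obtain ⟨l, rfl⟩ : ∃ l, k = l + 1 := ⟨k - 1, by omega⟩
  rw [Nat.add_sub_cancel, Nat.choose_succ_self_right]

theorem free_even (k : ℕ) (hk : 8 ≤ k) (he : Even k) (a b c d : ZMod 2)
    (h : Rel2 a b c d (X ^ k + X ^ 3 + 1) (X ^ k + X ^ 3 + 1)) :
    a = 1 ∧ b = 0 ∧ c = 0 ∧ d = 1 := by
  have hd := tri_natDegree k 3 (by omega) (by omega)
  have hk1 : ((k : ℕ) : ZMod 2) = 0 := by
    rw [ZMod.natCast_eq_zero_iff_even]; exact he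
  refine free_of ?_ ?_ ?_ ?_ ?_ a b c d h
  all_goals
    rw [hd, hsub_tri k 3 (by omega)]
    intro h
  · have := congrArg (fun g => coeff g 1) h
    simp only [one_pow, mul_one, coeff_add, opX, coeff_X_pow, coeff_one, Nat.choose_one_right] at this
    rw [hk1, if_neg (by omega), if_neg (by omega), if_neg (by omega)] at this
    revert this; decide
  · have := congrArg (fun g => coeff g (k - 1)) h
    simp only [one_pow, mul_one, coeff_add, opX, coeff_X_pow, coeff_one, coeff_X_pow_mul'] at this
    rw [if_neg (by omega), if_pos (by omega), if_neg (by omega), if_neg (by omega),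
      choose_pred k (by omega), show k - 1 - 3 = (k - 3) - 1 by omega, choose_pred (k - 3) (by omega),
      Nat.cast_sub (by omega), hk1] at this
    revert this; decide
  · have := congrArg (fun g => coeff g (k - 3)) h
    simp only [one_pow, one_mul, coeff_add, coeff_X_pow, coeff_one] at this
    rw [if_neg (by omega), if_pos trivial, if_neg (by omega), if_neg (by omega)] at this
    revert this; decide
  · have := congrArg (fun g => coeff g 1) h
    simp only [one_pow, one_mul, coeff_add, opX, coeff_X_pow, coeff_one, Nat.choose_one_right] at this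
    rw [Nat.cast_sub (by omega), hk1, if_neg (by omega), if_neg (by omega), if_neg (by omega)] at this
    revert this; decide
  · have := congrArg (fun g => coeff g (k - 1)) h
    simp only [coeff_add, coeff_X_pow, coeff_one, opX, coeff_mul_X_pow'] at this
    rw [if_pos (by omega), if_neg (by omega), if_neg (by omega), if_neg (by omega),
      choose_pred k (by omega), show k - 1 - (k - 3) = 2 by omega, hk1] at this
    revert this; decide

theorem free_six (a b c d : ZMod 2)
    (h : Rel2 a b c d (X ^ 6 + X ^ 1 + 1) (X ^ 6 + X ^ 1 + 1)) :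
    a = 1 ∧ b = 0 ∧ c = 0 ∧ d = 1 := by
  have hd := tri_natDegree 6 1 (by omega) (by omega)
  refine free_of ?_ ?_ ?_ ?_ ?_ a b c d h
  all_goals
    rw [hd, hsub_tri 6 1 (by omega)]
    intro h
  · have := congrArg (fun g => coeff g 2) h
    simp only [one_pow, mul_one, coeff_add, opX, coeff_X_pow, coeff_one] at this
    revert this; decide
  · have := congrArg (fun g => coeff g 4) h
    simp only [one_pow, mul_one, coeff_add, opX, coeff_X_pow, coeff_one, coeff_X_pow_mul'] at this
    revert this; decide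
  · have := congrArg (fun g => coeff g 5) h
    simp only [one_pow, one_mul, coeff_add, coeff_X_pow, coeff_one] at this
    revert this; decide
  · have := congrArg (fun g => coeff g 2) h
    simp only [one_pow, one_mul, coeff_add, opX, coeff_X_pow, coeff_one] at this
    revert this; decide
  · have := congrArg (fun g => coeff g 2) h
    simp only [coeff_add, coeff_X_pow, coeff_one, opX, coeff_mul_X_pow'] at this
    revert this; decide

/-- existence of a free admissible polynomial in each degree at least five -/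
theorem exists_free (k : ℕ) (hk : 5 ≤ k) : ∃ f : (ZMod 2)[X], Adm f ∧ f.natDegree = k ∧
    ∀ a b c d, Rel2 a b c d f f → a = 1 ∧ b = 0 ∧ c = 0 ∧ d = 1 := by
  rcases Nat.even_or_odd k with he | ho
  · by_cases h6 : k = 6
    · subst h6
      exact ⟨_, adm_six, tri_natDegree 6 1 (by omega) (by omega), free_six⟩
    · have h8 : 8 ≤ k := by
        obtain ⟨l, rfl⟩ := he
        omega
      exact ⟨_, adm_even k h8 he, tri_natDegree k 3 (by omega) (by omega), free_even k h8 he⟩
  · exact ⟨_, adm_odd k hk ho, tri_natDegree k 2 (by omega) (by omega), free_odd k hk ho⟩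

end Two

end Pool.Agent.Helper3.CM
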