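import Pool.Agent.Helper3.CM.T8
import Pool.Agent.Helper3.CM.Non1

open Polynomial

namespace Pool.Agent.Helper3.CM

namespace Two

theorem zero_or_one (a : ZMod 2) : a = 0 ∨ a = 1 := by
  revert a; decide

/-- In degree at most four every admissible polynomial has a nontrivial stabiliser. -/
theorem small (f : (ZMod 2)[X]) (hf : Adm f) (hd : f.natDegree ≤ 4) :
    ∃ a b c d, Rel2 a b c d f f ∧ ¬ (a = 1 ∧ b = 0 ∧ c = 0 ∧ d = 1) := by
  obtain ⟨-, hpos, hroot⟩ := hf
  have hf0 : f ≠ 0 := by
    rintro rfl
    simp at hpos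
  have hmon := monic_of_ne_zero hf0
  have hexp := as_sum_range_C_mul_X_pow f
  have h0 := hroot 0
  have h1 := hroot 1
  have htwo : (2 : (ZMod 2)[X]) = 0 := CharTwo.two_eq_zero
  have hlead : f.coeff f.natDegree = 1 := hmon
  have hc : f.coeff 0 = 1 := by
    rcases zero_or_one (f.coeff 0) with h | h
    · rw [coeff_zero_eq_eval_zero] at h
      exact absurd h h0
    · exact h
  obtain ⟨k, hk⟩ : ∃ k, f.natDegree = k := ⟨_, rfl⟩
  rw [hk] at hexp hlead hd hpos
  interval_cases k
  · -- degree one
    exfalso
    simp only [Finset.sum_range_succ, Finset.sum_range_zero, hlead, hc] at hexp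
    apply h1
    rw [hexp]
    simp only [eval_add, eval_mul, eval_C, eval_pow, eval_X, eval_zero]
    decide
  · -- degree two
    simp only [Finset.sum_range_succ, Finset.sum_range_zero, hlead, hc] at hexp
    rcases zero_or_one (f.coeff 1) with h | h
    · exfalso
      rw [h] at hexp
      apply h1
      rw [hexp]
      simp only [eval_add, eval_mul, eval_C, eval_pow, eval_X, eval_zero]
      decide
    · rw [h] at hexp
      have hf' : f = X ^ 2 + X ^ 1 + 1 := by
        rw [hexp]; simp only [C_1]; ring
      refine ⟨1, 0, 1, 1, ⟨by decide, rfl, ?_⟩, by decide⟩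
      rw [hk, hf', hsub_tri 2 1 (by omega)]
      simp only [C_1, C_0]
      linear_combination (X + 1) * htwo
  · -- degree three
    simp only [Finset.sum_range_succ, Finset.sum_range_zero, hlead, hc] at hexp
    rcases zero_or_one (f.coeff 1) with h | h <;> rcases zero_or_one (f.coeff 2) with h' | h' <;>
      rw [h, h'] at hexp
    · exfalso
      apply h1
      rw [hexp]
      simp only [eval_add, eval_mul, eval_C, eval_pow, eval_X, eval_zero]
      decide
    · have hf' : f = X ^ 3 + X ^ 2 + 1 := by
        rw [hexp]; simp only [C_1, C_0]; ring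
      refine ⟨1, 1, 1, 0, ⟨by decide, rfl, ?_⟩, by decide⟩
      rw [hk, hf', hsub_tri 3 2 (by omega)]
      simp only [C_1, C_0]
      linear_combination (X ^ 2 + 2 * X + 1) * htwo
    · have hf' : f = X ^ 3 + X ^ 1 + 1 := by
        rw [hexp]; simp only [C_1, C_0]; ring
      refine ⟨1, 1, 1, 0, ⟨by decide, rfl, ?_⟩, by decide⟩
      rw [hk, hf', hsub_tri 3 1 (by omega)]
      simp only [C_1, C_0]
      linear_combination (2 * X ^ 2 + 2 * X + 1) * htwo
    · exfalso
      apply h1
      rw [hexp]
      simp only [eval_add, eval_mul, eval_C, eval_pow, eval_X, eval_zero]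
      decide
  · -- degree four
    simp only [Finset.sum_range_succ, Finset.sum_range_zero, hlead, hc] at hexp
    rcases zero_or_one (f.coeff 1) with h | h <;> rcases zero_or_one (f.coeff 2) with h' | h' <;>
      rcases zero_or_one (f.coeff 3) with h'' | h'' <;> rw [h, h', h''] at hexp
    · exfalso
      apply h1
      rw [hexp]
      simp only [eval_add, eval_mul, eval_C, eval_pow, eval_X, eval_zero]
      decide
    · have hf' : f = X ^ 4 + X ^ 3 + 1 := by
        rw [hexp]; simp only [C_1, C_0]; ring
      refine ⟨1, 1, 0, 1, ⟨by decide, rfl, ?_⟩, by decide⟩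
      rw [hk, hf', hsub_tri 4 3 (by omega)]
      simp only [C_1, C_0]
      linear_combination (X ^ 4 + 2 * X ^ 3 + 3 * X ^ 2 + 2 * X) * htwo
    · have hf' : f = X ^ 4 + X ^ 2 + 1 := by
        rw [hexp]; simp only [C_1, C_0]; ring
      refine ⟨1, 0, 1, 1, ⟨by decide, rfl, ?_⟩, by decide⟩
      rw [hk, hf', hsub_tri 4 2 (by omega)]
      simp only [C_1, C_0]
      linear_combination (2 * X ^ 3 + 3 * X ^ 2 + 3 * X + 1) * htwo
    · exfalso
      apply h1
      rw [hexp]
      simp only [eval_add, eval_mul, eval_C, eval_pow, eval_X, eval_zero]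
      decide
    · have hf' : f = X ^ 4 + X ^ 1 + 1 := by
        rw [hexp]; simp only [C_1, C_0]; ring
      refine ⟨1, 0, 1, 1, ⟨by decide, rfl, ?_⟩, by decide⟩
      rw [hk, hf', hsub_tri 4 1 (by omega)]
      simp only [C_1, C_0]
      linear_combination (2 * X ^ 3 + 3 * X ^ 2 + 2 * X + 1) * htwo
    · exfalso
      apply h1
      rw [hexp]
      simp only [eval_add, eval_mul, eval_C, eval_pow, eval_X, eval_zero]
      decide
    · exfalso
      apply h1
      rw [hexp]
      simp only [eval_add, eval_mul, eval_C, eval_pow, eval_X, eval_zero]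
      decide
    · have hf' : f = (X ^ 4 + X ^ 1 + 1) + (X ^ 3 + X ^ 2) := by
        rw [hexp]; simp only [C_1]; ring
      refine ⟨0, 1, 1, 0, ⟨by decide, rfl, ?_⟩, by decide⟩
      rw [hk, hf', hsub_add, hsub_tri 4 1 (by omega), hsub_add, hsub_pow 4 3 (by omega),
        hsub_pow 4 2 (by omega)]
      simp only [C_1, C_0]
      ring

/-- `n = 1` is impossible for `p = 2`. -/
theorem not_rigid_one_two {V : Type*} [AddCommGroup V] [Module (ZMod 2) V] [Nontrivial V]
    (B : V →ₗ[ZMod 2] V →ₗ[ZMod 2] (Fin 1 → ZMod 2)) (hB : ∀ x, B x x = 0)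
    (hs : ∀ x, x ≠ 0 → Function.Surjective (B x)) (π : V → (Fin 1 → ZMod 2))
    (hπ : ∀ x y, π (x + y) = π x + π y + B x y) : ¬ Rigid B π := by
  intro hR
  have hsymm : ∀ x y, B x y = B y x := by
    intro x y
    rw [neg_of_alt hB]
    ext k
    rw [Pi.neg_apply]
    exact ZMod.neg_eq_self_mod_two _
  by_cases hπ0 : ∀ a, π a = 0
  · obtain ⟨x, hx⟩ := exists_ne (0 : V)
    obtain ⟨y, hy⟩ := hs x hx (fun _ => 1)
    have h := hπ x y
    rw [hπ0, hπ0, hπ0, hy, zero_add, zero_add] at h
    exact zero_ne_one (congrFun h 0)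
  · push Not at hπ0
    obtain ⟨a, ha⟩ := hπ0
    have ha1 : π a 0 = 1 := by
      rcases zero_or_one (π a 0) with h | h
      · exfalso
        apply ha
        ext k
        fin_cases k
        exact h
      · exact h
    have ha0 : a ≠ 0 := by
      rintro rfl
      have h := hπ 0 0
      rw [add_zero, hB, add_zero] at h
      exact ha (left_eq_add.1 h)
    let N : V →ₗ[ZMod 2] V :=
      { toFun := fun x => B a x 0 • a
        map_add' := fun x y => by rw [map_add, Pi.add_apply, add_smul]
        map_smul' := fun c x => by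
          rw [map_smul, Pi.smul_apply, smul_assoc]; rfl }
    have hN : ∀ x, N x = B a x 0 • a := fun _ => rfl
    have hNN : ∀ x, N (N x) = 0 := by
      intro x
      rw [hN, hN, map_smul, hB, smul_zero, Pi.zero_apply, zero_smul]
    let T : V ≃ₗ[ZMod 2] V := LinearEquiv.ofLinearMap (LinearMap.id + N) (LinearMap.id - N)
      (by
        ext x
        simp only [LinearMap.comp_apply, LinearMap.add_apply, LinearMap.sub_apply, LinearMap.id_apply,
          map_sub, hNN]
        abel)
      (by
        ext x
        simp only [LinearMap.comp_apply, LinearMap.add_apply, LinearMap.sub_apply, LinearMap.id_apply,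
          map_add, hNN]
        abel)
    have hT : ∀ x, T x = x + B a x 0 • a := fun x => rfl
    have hfix := hR T (LinearEquiv.refl _ _) (by
      intro x y
      rw [hT, hT]
      ext k
      fin_cases k
      change B (x + B a x 0 • a) (y + B a y 0 • a) 0 = B x y 0
      rw [map_add, map_add, LinearMap.add_apply, LinearMap.add_apply, map_smul, map_smul, map_smul,
        LinearMap.smul_apply, LinearMap.smul_apply, hB, smul_zero, smul_zero, add_zero,
        hsymm x a]
      simp only [Pi.add_apply, Pi.smul_apply, smul_eq_mul]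
      have : B a x 0 * B a y 0 + B a y 0 * B a x 0 = 0 := by
        rw [mul_comm]; exact CharTwo.add_self_eq_zero _
      linear_combination this) (by
      intro x
      rw [hT]
      ext k
      fin_cases k
      change π (x + B a x 0 • a) 0 = π x 0
      rcases zero_or_one (B a x 0) with h | h
      · rw [h, zero_smul, add_zero]
      · rw [h, one_smul, hπ, Pi.add_apply, Pi.add_apply, ha1, hsymm x a, h, add_assoc]
        have : (1 : ZMod 2) + 1 = 0 := rfl
        rw [this, add_zero])
    obtain ⟨y, hy⟩ := hs a ha0 (fun _ => 1)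
    have h := hfix y
    rw [hT, hy, one_smul] at h
    exact ha0 (add_eq_left.1 h)

end Two

end Pool.Agent.Helper3.CM
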